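import Mathlib
import Pool.Agent.W41.Sieve
import Pool.Agent.H499R2.CO.Q5
import Pool.Agent.H499R2.CO.E

/-! Comparison of a function invariant under the `3x+d` map, along sifted progressions, with its mean. -/

set_option autoImplicit false

namespace Pool.Agent.W41

open Finset Pool.Agent.H499R2.CO

open Classical in
/-- FUNDAMENTAL LEMMA in progressions. -/
theorem fund_ap {ε : ℝ} (hε : 0 < ε) : ∃ K y0 : ℕ, 1 ≤ K ∧ 2 ≤ y0 ∧ ∀ y : ℕ, y0 ≤ y → ∀ X : ℕ, y ^ K ≤ X →
    ∀ P : Finset ℕ, (∀ p ∈ P, p.Prime ∧ p ≤ y) → ∀ A B : ℤ, (∀ p ∈ P, ¬ (p : ℤ) ∣ B) →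
    |((((Icc 1 X).filter (fun n : ℕ => ∀ p ∈ P, ¬ (p : ℤ) ∣ A + B * n)).card : ℕ) : ℝ) - X * V P| ≤
      ε * (X * V P) := by
  obtain ⟨K, y0, hK, hy0, h⟩ := fund hε
  refine ⟨K, y0, hK, hy0, fun y hy X hX P hP A B hB => ?_⟩
  have hex : ∀ p : ℕ, ∃ r : ℕ, p ∈ P → (r < p ∧ ∀ n : ℕ, (p : ℤ) ∣ A + B * n ↔ n % p = r) := by
    intro p
    by_cases hp : p ∈ P
    · have hpp := (hP p hp).1
      have hp0 : (0 : ℤ) < p := by exact_mod_cast hpp.pos
      have hco : IsCoprime B (p : ℤ) := by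
        rw [Int.isCoprime_iff_gcd_eq_one, Int.gcd_comm]
        have := (Nat.Prime.coprime_iff_not_dvd hpp (n := B.natAbs)).2 (fun hd => hB p hp (Int.natCast_dvd.2 hd))
        simpa [Int.gcd, Nat.Coprime] using this
      obtain ⟨u, v, huv⟩ := hco
      set r : ℤ := (-(u * A)) % p with hr
      have hr0 : 0 ≤ r := Int.emod_nonneg _ hp0.ne'
      have hr1 : r < p := Int.emod_lt_of_pos _ hp0
      refine ⟨r.toNat, fun _ => ⟨by omega, fun n => ?_⟩⟩
      have e1 : (p : ℤ) ∣ A + B * n ↔ (p : ℤ) ∣ n + u * A := by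
        constructor
        · rintro ⟨c, hc⟩
          refine ⟨u * c + v * n, ?_⟩
          have : (n : ℤ) = u * B * n + v * p * n := by rw [← add_mul, huv, one_mul]
          calc (n : ℤ) + u * A = u * (A + B * n) + v * p * n := by linear_combination this
            _ = u * (p * c) + v * p * n := by rw [hc]
            _ = _ := by ring
        · rintro ⟨c, hc⟩
          refine ⟨B * c + v * A, ?_⟩
          have : A = u * B * A + v * p * A := by rw [← add_mul, huv, one_mul]
          linear_combination this + B * hc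
      rw [e1]
      have e2 : (p : ℤ) ∣ n + u * A ↔ (n : ℤ) % p = r := by
        rw [hr]
        constructor
        · intro hd
          have : ((n : ℤ) - (-(u * A))) % p = 0 := Int.emod_eq_zero_of_dvd (by
            have e : (n : ℤ) - (-(u * A)) = n + u * A := by ring
            rw [e]; exact hd)
          exact Int.emod_eq_emod_iff_emod_sub_eq_zero.2 this
        · intro he
          have h1 := Int.emod_eq_emod_iff_emod_sub_eq_zero.1 he
          have h2 := Int.dvd_of_emod_eq_zero h1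
          have e : (n : ℤ) - (-(u * A)) = n + u * A := by ring
          rwa [e] at h2
      rw [e2]
      constructor
      · intro he
        have : ((n % p : ℕ) : ℤ) = r := by rw [← he]; push_cast; rfl
        omega
      · intro he
        have : ((n % p : ℕ) : ℤ) = r := by rw [he]; omega
        rw [← this]; push_cast; rfl
    · exact ⟨0, fun h' => absurd h' hp⟩
  choose ρ hρ using hex
  have h1 := h y hy X hX P hP ρ (fun p hp => (hρ p hp).1)
  have e : (Icc 1 X).filter (fun n : ℕ => ∀ p ∈ P, ¬ (p : ℤ) ∣ A + B * n) =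
      (Icc 1 X).filter (fun n : ℕ => ∀ p ∈ P, n % p ≠ ρ p) := by
    apply filter_congr
    intro n _
    exact forall₂_congr fun p hp => not_congr ((hρ p hp).2 n)
  rw [e]
  convert h1 using 5

/-- the indicator of the sifted progression -/
noncomputable def wt (P : Finset ℕ) (A B t : ℤ) : ℝ := by
  classical exact if ∀ p ∈ P, ¬ (p : ℤ) ∣ A + B * t then 1 else 0

lemma wt_nonneg (P : Finset ℕ) (A B t : ℤ) : 0 ≤ wt P A B t := by unfold wt; split_ifs <;> norm_num

lemma wt_le_one (P : Finset ℕ) (A B t : ℤ) : wt P A B t ≤ 1 := by unfold wt; split_ifs <;> norm_num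

/-- windows of the sifted progression -/
theorem window {ε : ℝ} (hε : 0 < ε) : ∃ K y0 : ℕ, 1 ≤ K ∧ 2 ≤ y0 ∧ ∀ y : ℕ, y0 ≤ y → ∀ X : ℕ, y ^ K ≤ X →
    ∀ P : Finset ℕ, (∀ p ∈ P, p.Prime ∧ p ≤ y) → ∀ A B : ℤ, (∀ p ∈ P, ¬ (p : ℤ) ∣ B) → ∀ t : ℤ,
    |∑ g ∈ range X, wt P A B (t + g) - X * V P| ≤ ε * (X * V P) := by
  classical
  obtain ⟨K, y0, hK, hy0, h⟩ := fund_ap hε
  refine ⟨K, y0, hK, hy0, fun y hy X hX P hP A B hB t => ?_⟩
  have h1 := h y hy X hX P hP (A + B * (t - 1)) B hB
  have e : ∑ g ∈ range X, wt P A B (t + g) =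
      ((((Icc 1 X).filter (fun n : ℕ => ∀ p ∈ P, ¬ (p : ℤ) ∣ A + B * (t - 1) + B * n)).card : ℕ) : ℝ) := by
    rw [card_filter]
    push_cast
    have e0 : Icc 1 X = Ico 1 (X + 1) := by ext; simp
    rw [e0, sum_Ico_eq_sum_range, Nat.add_sub_cancel]
    apply sum_congr rfl
    intro g _
    unfold wt
    have e1 : A + B * (t - 1) + B * ((1 + g : ℕ) : ℤ) = A + B * (t + g) := by push_cast; ring
    simp only [e1]
  rw [e]
  convert h1 using 5

/-- a class modulo `2 ^ k` of the sifted progression: upper bound -/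
theorem class_le : ∃ K y0 : ℕ, 1 ≤ K ∧ 2 ≤ y0 ∧ ∀ y : ℕ, y0 ≤ y → ∀ k T : ℕ, 2 ^ k * y ^ K ≤ T →
    ∀ P : Finset ℕ, (∀ p ∈ P, p.Prime ∧ p ≤ y) → ∀ A B : ℤ, (∀ p ∈ P, ¬ (p : ℤ) ∣ B) → ∀ c : ℕ,
    ∑ n ∈ (range (T + 1)).filter (fun n => n % 2 ^ k = c), wt P A B n ≤ 8 * T * V P / 2 ^ k := by
  classical
  obtain ⟨K, y0, hK, hy0, h⟩ := window (show (0 : ℝ) < 1 by norm_num)
  refine ⟨K, y0, hK, hy0, fun y hy k T hT P hP A B hB c => ?_⟩
  have hPp : ∀ p ∈ P, p.Prime := fun p hp => (hP p hp).1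
  have h2k : 0 < 2 ^ k := by positivity
  have h2kR : (0 : ℝ) < 2 ^ k := by positivity
  set X : ℕ := T / 2 ^ k + 1 with hX
  have hXK : y ^ K ≤ X := by
    have : y ^ K ≤ T / 2 ^ k := by
      rw [Nat.le_div_iff_mul_le h2k]; linarith [mul_comm (2 ^ k) (y ^ K)]
    omega
  have hyK1 : 1 ≤ y ^ K := Nat.one_le_pow _ _ (by omega)
  have hX2 : (X : ℝ) ≤ 2 * T / 2 ^ k := by
    have h1 : (T / 2 ^ k : ℕ) ≤ (T : ℝ) / 2 ^ k := by
      have := @Nat.cast_div_le ℝ _ _ _ T (2 ^ k)
      simpa using this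
    have h2 : (1 : ℝ) ≤ (T : ℝ) / 2 ^ k := by
      rw [le_div_iff₀ h2kR, one_mul]
      have : 2 ^ k ≤ T := le_trans (Nat.le_mul_of_pos_right _ hyK1) hT
      exact_mod_cast this
    rw [hX]; push_cast
    calc ((T / 2 ^ k : ℕ) : ℝ) + 1 ≤ (T : ℝ) / 2 ^ k + T / 2 ^ k := add_le_add h1 h2
      _ = _ := by ring
  set P' := P.erase 2 with hP'
  have hV : V P' ≤ 2 * V P := by
    by_cases h2 : 2 ∈ P
    · have e : V P = (1 - 1 / ((2 : ℕ) : ℝ)) * V P' := by
        unfold V; rw [hP', mul_prod_erase P (fun p => 1 - 1 / (p : ℝ)) h2]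
      rw [e]; push_cast
      have : 0 ≤ V P' := (V_pos fun p hp => hPp p (mem_of_mem_erase hp)).le
      linarith
    · rw [hP', erase_eq_of_notMem h2]
      have := V_pos hPp
      linarith
  have hB' : ∀ p ∈ P', ¬ (p : ℤ) ∣ B * 2 ^ k := by
    intro p hp hd
    rw [hP', mem_erase] at hp
    have hpp := hPp p hp.2
    have hpi : Prime (p : ℤ) := Nat.prime_iff_prime_int.1 hpp
    rcases hpi.dvd_or_dvd hd with h1 | h1
    · exact hB p hp.2 h1
    · have h3 := hpi.dvd_of_dvd_pow h1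
      have h4 : p ∣ 2 := by exact_mod_cast h3
      exact hp.1 ((Nat.prime_dvd_prime_iff_eq hpp Nat.prime_two).1 h4)
  have h1 := h y hy X hXK P' (fun p hp => hP p (mem_of_mem_erase hp)) (A + B * c) (B * 2 ^ k) hB' 0
  have hV0' : 0 ≤ V P' := (V_pos fun p hp => hPp p (mem_of_mem_erase hp)).le
  have h3 : ∑ g ∈ range X, wt P' (A + B * c) (B * 2 ^ k) (0 + g) ≤ 2 * (X * V P') := by
    have := (abs_le.1 h1).2
    linarith
  calc ∑ n ∈ (range (T + 1)).filter (fun n => n % 2 ^ k = c), wt P A B n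
      ≤ ∑ g ∈ range X, wt P' (A + B * c) (B * 2 ^ k) (0 + g) := by
        have e1 : ∀ n ∈ (range (T + 1)).filter (fun n => n % 2 ^ k = c),
            wt P A B n ≤ wt P' (A + B * c) (B * 2 ^ k) (0 + (n / 2 ^ k : ℕ)) := by
          intro n hn
          rw [mem_filter] at hn
          have e2 : (n : ℤ) = c + 2 ^ k * (n / 2 ^ k : ℕ) := by
            have := Nat.mod_add_div n (2 ^ k)
            rw [hn.2] at this
            exact_mod_cast this.symm
          have e3 : A + B * c + B * 2 ^ k * (0 + ((n / 2 ^ k : ℕ) : ℤ)) = A + B * n := by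
            rw [e2]; push_cast; ring
          unfold wt
          rw [e3]
          split_ifs with a b
          · exact le_rfl
          · exact absurd (fun p hp => a p (mem_of_mem_erase hp)) b
          · norm_num
          · exact le_rfl
        refine (sum_le_sum e1).trans ?_
        have hinj : Set.InjOn (fun n => n / 2 ^ k) ((range (T + 1)).filter (fun n => n % 2 ^ k = c) : Set ℕ) := by
          intro a ha b hb hab
          simp only [coe_filter, Set.mem_ofPred_eq] at ha hb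
          have ea := Nat.mod_add_div a (2 ^ k)
          have eb := Nat.mod_add_div b (2 ^ k)
          simp only at hab
          rw [ha.2, hab] at ea
          rw [hb.2] at eb
          omega
        rw [← sum_image (f := fun g : ℕ => wt P' (A + B * c) (B * 2 ^ k) (0 + g)) hinj]
        apply sum_le_sum_of_subset_of_nonneg
        · intro g hg
          rw [mem_image] at hg
          obtain ⟨n, hn, rfl⟩ := hg
          rw [mem_filter, mem_range] at hn
          rw [mem_range, hX]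
          have := Nat.div_le_div_right (c := 2 ^ k) (show n ≤ T by omega)
          omega
        · intro g _ _
          exact wt_nonneg _ _ _ _
    _ ≤ 2 * (X * V P') := h3
    _ ≤ 2 * ((2 * T / 2 ^ k) * (2 * V P)) := by
        apply mul_le_mul_of_nonneg_left _ (by norm_num)
        exact mul_le_mul hX2 hV hV0' (by positivity)
    _ = 8 * T * V P / 2 ^ k := by ring

end Pool.Agent.W41
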