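import Pool.Agent.W41.FU5

/-! Cancellation in the correlations with the additive characters, middle range of frequencies. -/

set_option autoImplicit false

namespace Pool.Agent.W41.FU

open Pool.Agent.H320R2.PD Pool.Agent.H499R2.ND Finset Pool.Agent.H499R2.CO

/-- sum over the integers `1 ≤ n < M` -/
noncomputable def TS (g : ℤ → ℝ) (M : ℝ) : ℝ := ∑ n ∈ Ico (1 : ℤ) ⌈M⌉, g n

theorem TS_abs {g : ℤ → ℝ} (hg : ∀ x, |g x| ≤ 1) {M : ℝ} (hM : 0 ≤ M) : |TS g M| ≤ M := by
  unfold TS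
  refine (abs_sum_le_sum_abs _ _).trans ?_
  calc ∑ n ∈ Ico (1 : ℤ) ⌈M⌉, |g n| ≤ ∑ n ∈ Ico (1 : ℤ) ⌈M⌉, (1 : ℝ) := sum_le_sum fun x _ => hg x
    _ = ((Ico (1 : ℤ) ⌈M⌉).card : ℝ) := by rw [sum_const, nsmul_eq_mul, mul_one]
    _ ≤ M := by
      rw [Int.card_Ico]
      have h1 := Int.ceil_lt_add_one M
      rcases le_or_gt 1 ⌈M⌉ with h | h
      · have : (((⌈M⌉ - 1).toNat : ℕ) : ℝ) = (⌈M⌉ : ℝ) - 1 := by
          have h2 : (((⌈M⌉ - 1).toNat : ℕ) : ℤ) = ⌈M⌉ - 1 := Int.toNat_of_nonneg (by omega)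
          exact_mod_cast h2
        rw [this]; linarith
      · have : (⌈M⌉ - 1).toNat = 0 := Int.toNat_of_nonpos (by omega)
        rw [this]; simpa using hM

theorem TS_step (g : ℤ → ℝ) {M : ℝ} (hM : 0 ≤ M) :
    TS g M = WS g 0 M 0 1 0 + TS (fun x => g (2 * x)) (M / 2) := by
  classical
  unfold TS WS
  rw [← sum_filter_add_sum_filter_not (Ico (1 : ℤ) ⌈M⌉) (fun n => Odd n)]
  congr 1
  · apply sum_congr _ fun _ _ => rfl
    ext x
    rw [mem_filter, mem_cls, mem_Ico]
    simp only [pow_zero, isUnit_one, IsUnit.dvd, and_true, Set.mem_univ]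
    rw [Int.lt_ceil]
    constructor
    · rintro ⟨⟨h1, h2⟩, h3⟩
      exact ⟨⟨by have : (0 : ℤ) ≤ x := by omega
                 exact_mod_cast this, h2⟩, h3⟩
    · rintro ⟨⟨h1, h2⟩, h3⟩
      have h4 : (0 : ℤ) ≤ x := by exact_mod_cast h1
      obtain ⟨t, ht⟩ := h3
      exact ⟨⟨by omega, h2⟩, ⟨t, ht⟩⟩
  · refine sum_bij' (fun x _ => x / 2) (fun y _ => 2 * y) ?_ ?_ ?_ ?_ ?_
    · intro x hx
      rw [mem_filter, mem_Ico, Int.lt_ceil, Int.not_odd_iff_even] at hx
      obtain ⟨⟨h1, h2⟩, t, ht⟩ := hx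
      have e : x / 2 = t := by omega
      rw [mem_Ico, Int.lt_ceil, e]
      refine ⟨by omega, ?_⟩
      rw [ht] at h2
      push_cast at h2
      linarith
    · intro y hy
      rw [mem_Ico, Int.lt_ceil] at hy
      rw [mem_filter, mem_Ico, Int.lt_ceil, Int.not_odd_iff_even]
      refine ⟨⟨by omega, ?_⟩, ⟨y, by ring⟩⟩
      push_cast
      linarith [hy.2]
    · intro x hx
      rw [mem_filter, Int.not_odd_iff_even] at hx
      obtain ⟨-, t, ht⟩ := hx
      omega
    · intro y _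
      omega
    · intro x hx
      rw [mem_filter, Int.not_odd_iff_even] at hx
      obtain ⟨-, t, ht⟩ := hx
      congr 1
      omega

theorem WS_split (g : ℤ → ℝ) {a b c : ℝ} (hab : a ≤ b) (hbc : b ≤ c) (n : ℕ) (u v : ℤ) :
    WS g a c n u v = WS g a b n u v + WS g b c n u v := by
  classical
  unfold WS
  rw [← sum_union]
  · apply sum_congr _ fun _ _ => rfl
    ext x
    rw [mem_union, mem_cls, mem_cls, mem_cls]
    constructor
    · rintro ⟨⟨h1, h2⟩, h3⟩
      rcases lt_or_ge (x : ℝ) b with h | h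
      · exact Or.inl ⟨⟨h1, h⟩, h3⟩
      · exact Or.inr ⟨⟨h, h2⟩, h3⟩
    · rintro (⟨⟨h1, h2⟩, h3⟩ | ⟨⟨h1, h2⟩, h3⟩)
      · exact ⟨⟨h1, by linarith⟩, h3⟩
      · exact ⟨⟨by linarith, h2⟩, h3⟩
  · rw [Finset.disjoint_left]
    intro x hx hx'
    rw [mem_cls] at hx hx'
    linarith [hx.1.2, hx'.1.1]

/-- decomposition of a sum over all integers into odd windows -/
theorem TS_bound {g : ℤ → ℝ} (hg : ∀ x, |g x| ≤ 1) {M ε : ℝ} (hM : 0 ≤ M) (hε : 0 ≤ ε) (J : ℕ)
    (h : ∀ e j : ℕ, e < J → j < J → |WS (fun x => g (2 ^ e * x)) (M / 2 ^ (e + j + 1))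
      (2 * (M / 2 ^ (e + j + 1))) 0 1 0| ≤ ε * (M / 2 ^ (e + j + 1) / 2)) :
    |TS g M| ≤ ε * M + 2 * M / 2 ^ J + J := by
  -- the power of two
  have h1 : ∀ E : ℕ, TS g M = ∑ e ∈ range E, WS (fun x => g (2 ^ e * x)) 0 (M / 2 ^ e) 0 1 0
      + TS (fun x => g (2 ^ E * x)) (M / 2 ^ E) := by
    intro E
    induction E with
    | zero => simp
    | succ E ih =>
      rw [ih, sum_range_succ, TS_step _ (by positivity : 0 ≤ M / 2 ^ E)]
      have e1 : M / 2 ^ E / 2 = M / 2 ^ (E + 1) := by rw [pow_succ]; field_simp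
      have e2 : (fun x : ℤ => g (2 ^ E * (2 * x))) = fun x => g (2 ^ (E + 1) * x) := by
        funext x; rw [pow_succ]; congr 1; ring
      rw [e1, e2]
      ring
  -- the windows
  have h2 : ∀ e J' : ℕ, WS (fun x => g (2 ^ e * x)) 0 (M / 2 ^ e) 0 1 0
      = ∑ j ∈ range J', WS (fun x => g (2 ^ e * x)) (M / 2 ^ (e + j + 1)) (2 * (M / 2 ^ (e + j + 1))) 0 1 0
        + WS (fun x => g (2 ^ e * x)) 0 (M / 2 ^ (e + J')) 0 1 0 := by
    intro e J'
    induction J' with
    | zero => simp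
    | succ J' ih =>
      rw [ih, sum_range_succ, WS_split (fun x => g (2 ^ e * x)) (a := 0) (b := M / 2 ^ (e + J' + 1))
        (c := M / 2 ^ (e + J')) (by positivity) (by
          apply div_le_div_of_nonneg_left hM (by positivity)
          exact pow_le_pow_right₀ (by norm_num) (by omega)) 0 1 0]
      have e1 : M / 2 ^ (e + J') = 2 * (M / 2 ^ (e + J' + 1)) := by
        rw [pow_succ 2 (e + J')]; field_simp
      rw [← add_assoc e J' 1, ← e1]
      ring
  have hge : ∀ e : ℕ, ∀ x : ℤ, |g (2 ^ e * x)| ≤ 1 := fun e x => hg _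
  have h3 : ∀ e < J, |WS (fun x => g (2 ^ e * x)) 0 (M / 2 ^ e) 0 1 0|
      ≤ ε * (M / 2 ^ (e + 1)) + M / 2 ^ (e + J + 1) + 1 := by
    intro e he
    rw [h2 e J]
    have a1 : |∑ j ∈ range J, WS (fun x => g (2 ^ e * x)) (M / 2 ^ (e + j + 1)) (2 * (M / 2 ^ (e + j + 1))) 0 1 0|
        ≤ ε * (M / 2 ^ (e + 1)) := by
      refine (abs_sum_le_sum_abs _ _).trans ?_
      calc ∑ j ∈ range J, |WS (fun x => g (2 ^ e * x)) (M / 2 ^ (e + j + 1)) (2 * (M / 2 ^ (e + j + 1))) 0 1 0|
          ≤ ∑ j ∈ range J, ε * (M / 2 ^ (e + j + 1) / 2) :=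
            sum_le_sum fun j hj => h e j he (mem_range.1 hj)
        _ = ε * (M / 2 ^ (e + 1)) * ∑ j ∈ range J, (1 / 2 : ℝ) ^ (j + 1) := by
            rw [mul_sum]
            apply sum_congr rfl
            intro j _
            rw [one_div, inv_pow, show e + j + 1 = (e + 1) + j by ring, pow_add 2 (e + 1) j, pow_succ 2 j]
            field_simp
        _ ≤ ε * (M / 2 ^ (e + 1)) * 1 := by
            apply mul_le_mul_of_nonneg_left _ (by positivity)
            have : ∀ J : ℕ, ∑ j ∈ range J, (1 / 2 : ℝ) ^ (j + 1) = 1 - (1 / 2) ^ J := by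
              intro J
              induction J with
              | zero => simp
              | succ J ih => rw [sum_range_succ, ih, pow_succ (1 / 2 : ℝ) J]; ring
            rw [this]
            have : (0 : ℝ) ≤ (1 / 2) ^ J := by positivity
            linarith
        _ = _ := mul_one _
    have a2 : |WS (fun x => g (2 ^ e * x)) 0 (M / 2 ^ (e + J)) 0 1 0| ≤ M / 2 ^ (e + J + 1) + 1 := by
      refine (WS_abs (hge e) _ _ _ _ _).trans ?_
      have := cls_card_le Set.univ (by positivity : (0 : ℝ) ≤ M / 2 ^ (e + J)) 0 isCoprime_one_left (0 : ℤ)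
      refine this.trans (le_of_eq ?_)
      rw [pow_succ 2 (e + J)]
      field_simp
      ring
    refine (abs_add_le _ _).trans ?_
    linarith
  rw [h1 J]
  have h4 : |∑ e ∈ range J, WS (fun x => g (2 ^ e * x)) 0 (M / 2 ^ e) 0 1 0| ≤ ε * M + M / 2 ^ J + J := by
    refine (abs_sum_le_sum_abs _ _).trans ?_
    calc ∑ e ∈ range J, |WS (fun x => g (2 ^ e * x)) 0 (M / 2 ^ e) 0 1 0|
        ≤ ∑ e ∈ range J, (ε * (M / 2 ^ (e + 1)) + M / 2 ^ (e + J + 1) + 1) :=
          sum_le_sum fun e he => h3 e (mem_range.1 he)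
      _ = (ε * M + M / 2 ^ J) * ∑ e ∈ range J, (1 / 2 : ℝ) ^ (e + 1) + J := by
          rw [sum_add_distrib, sum_const, card_range, nsmul_eq_mul, mul_one, mul_sum]
          congr 1
          apply sum_congr rfl
          intro e _
          rw [one_div, inv_pow, show e + J + 1 = (e + 1) + J by ring, pow_add 2 (e + 1) J]
          field_simp
      _ ≤ (ε * M + M / 2 ^ J) * 1 + J := by
          apply add_le_add_left
          apply mul_le_mul_of_nonneg_left _ (by positivity)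
          have : ∀ J : ℕ, ∑ j ∈ range J, (1 / 2 : ℝ) ^ (j + 1) = 1 - (1 / 2) ^ J := by
            intro J
            induction J with
            | zero => simp
            | succ J ih => rw [sum_range_succ, ih, pow_succ (1 / 2 : ℝ) J]; ring
          rw [this]
          have : (0 : ℝ) ≤ (1 / 2) ^ J := by positivity
          linarith
      _ = _ := by ring
  have h5 := TS_abs (g := fun x => g (2 ^ J * x)) (fun x => hg _) (by positivity : 0 ≤ M / 2 ^ J)
  refine (abs_add_le _ _).trans ?_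
  have e : 2 * M / 2 ^ J = M / 2 ^ J + M / 2 ^ J := by ring
  rw [e]
  linarith

theorem sameT_two {d : ℤ} {f : ℤ → ℝ} (hf : f ∈ SameT d) (e : ℕ) : (fun x => f (2 ^ e * x)) ∈ SameT d := by
  refine ⟨fun x => hf.1 _, ?_⟩
  intro j x y hxy
  apply hf.2 (j + e)
  have e1 : ∀ z : ℤ, (Tz d)^[j + e] (2 ^ e * z) = (Tz d)^[j] z := by
    intro z
    rw [Function.iterate_add_apply]
    have : (Tz d)^[e] (2 ^ e * z) = z := Td_two_pow d e z
    rw [this]
  rw [e1, e1, hxy]

/-- MIDDLE RANGE of frequencies. -/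
theorem mid {d : ℤ} (hd : Odd d) (hd3 : IsCoprime d 3) (hdd : d * d = 1) {ε : ℝ} (hε : 0 < ε) (hε1 : ε ≤ 1) :
    ∃ η1 : ℝ, 0 < η1 ∧ η1 ≤ 1 / 2 ∧ ∀ η : ℝ, 0 < η → η ≤ η1 → ∃ C : ℝ, 1 ≤ C ∧ ∃ N0 : ℕ, 1 ≤ N0 ∧
      ∀ N : ℕ, N0 ≤ N → ∀ α φ : ℝ, C ≤ α * N → α * (N : ℝ) ^ η ≤ 1 → ∀ f ∈ SameT d,
      |∑ n ∈ Icc 1 N, f (n : ℕ) * Real.cos (2 * Real.pi * α * (n : ℕ) + φ)| ≤ ε * N := by
  obtain ⟨η1, hη1, hη12, hodd⟩ := odd_cos hd hd3 hdd (show 0 < ε / 8 by positivity) (by linarith)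
  refine ⟨η1, hη1, hη12, fun η hη hηη => ?_⟩
  obtain ⟨B0, hB0, hb⟩ := hodd η hη hηη
  obtain ⟨J, hJ⟩ := exists_pow_lt_of_lt_one (show 0 < ε / 16 by positivity) (show (1 / 2 : ℝ) < 1 by norm_num)
  -- N large
  set c0 : ℝ := 2 * (Real.log (4 * Real.pi) + 2 * J * Real.log 2) / η with hc0
  refine ⟨B0 * 2 ^ J, ?_, ⌈Real.exp c0⌉₊ + ⌈8 * (J : ℝ) / ε⌉₊ + 1, by omega, ?_⟩
  · exact one_le_mul_of_one_le_of_one_le hB0 (one_le_pow₀ (by norm_num))
  intro N hN α φ hα1 hα2 f hf
  have hN1 : 1 ≤ N := by omega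
  have hNR : (1 : ℝ) ≤ N := by exact_mod_cast hN1
  have hNe : Real.exp c0 ≤ N := by
    have h1 : ⌈Real.exp c0⌉₊ ≤ N := by omega
    exact (Nat.le_ceil _).trans (by exact_mod_cast h1)
  have hNJ : 8 * (J : ℝ) / ε ≤ N := by
    have h1 : ⌈8 * (J : ℝ) / ε⌉₊ ≤ N := by omega
    exact (Nat.le_ceil _).trans (by exact_mod_cast h1)
  have hlogN : c0 ≤ Real.log N := by
    rw [← Real.log_exp c0]
    exact Real.log_le_log (Real.exp_pos _) hNe
  have hα0 : 0 < α := by
    have h1 : 0 < B0 * 2 ^ J := by positivity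
    have h2 : 0 < α * N := by linarith
    by_contra hcon
    push Not at hcon
    nlinarith
  set M : ℝ := (N : ℝ) + 1 with hM
  have hM0 : 0 < M := by positivity
  set g : ℤ → ℝ := fun x => f x * Real.cos (2 * Real.pi * α * x + φ) with hg
  have hg1 : ∀ x, |g x| ≤ 1 := by
    intro x
    rw [hg]
    simp only
    rw [abs_mul]
    have a1 := hf.1 x
    have a2 := Real.abs_cos_le_one (2 * Real.pi * α * x + φ)
    nlinarith [abs_nonneg (f x), abs_nonneg (Real.cos (2 * Real.pi * α * x + φ))]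
  have hTS : ∑ n ∈ Icc 1 N, f (n : ℕ) * Real.cos (2 * Real.pi * α * (n : ℕ) + φ) = TS g M := by
    unfold TS
    have hceil : ⌈M⌉ = (N : ℤ) + 1 := by
      rw [hM]
      have : ((N : ℝ) + 1) = (((N : ℤ) + 1 : ℤ) : ℝ) := by push_cast; ring
      rw [this, Int.ceil_intCast]
    rw [hceil]
    refine sum_bij' (fun (n : ℕ) _ => (n : ℤ)) (fun (x : ℤ) _ => x.toNat) ?_ ?_ ?_ ?_ ?_
    · intro n hn
      rw [mem_Icc] at hn
      rw [mem_Ico]
      omega
    · intro x hx
      rw [mem_Ico] at hx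
      rw [mem_Icc]
      omega
    · intro n _; simp
    · intro x hx
      rw [mem_Ico] at hx
      exact Int.toNat_of_nonneg (by omega)
    · intro n _
      rw [hg]
      simp
  rw [hTS]
  have h2J : (0 : ℝ) < 2 ^ J := by positivity
  have key := TS_bound hg1 hM0.le (show 0 ≤ ε / 8 by positivity) J (by
    intro e j he hj
    set A := M / 2 ^ (e + j + 1) with hA
    have hA0 : 0 < A := by positivity
    set b := α * M / 2 ^ (j + 1) with hbdef
    have hfun : (fun x : ℤ => g (2 ^ e * x))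
        = fun x => (fun x => f (2 ^ e * x)) x * Real.cos (2 * Real.pi * b * (x / A) + φ) := by
      funext x
      rw [hg]
      simp only
      congr 2
      rw [hbdef, hA]
      push_cast
      rw [show e + j + 1 = e + (j + 1) by ring, pow_add 2 e (j + 1)]
      field_simp
    rw [hfun]
    apply hb b φ _ A hA0 _ _ (sameT_two hf e)
    · -- B0 ≤ b
      rw [hbdef, le_div_iff₀ (by positivity)]
      calc B0 * 2 ^ (j + 1) ≤ B0 * 2 ^ J := by
            apply mul_le_mul_of_nonneg_left _ (by linarith)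
            exact pow_le_pow_right₀ (by norm_num) (by omega)
        _ ≤ α * N := hα1
        _ ≤ α * M := mul_le_mul_of_nonneg_left (by linarith) hα0.le
    · -- size
      have hb0 : 0 < b := by positivity
      have h1 : 2 * Real.pi * b ≤ 4 * Real.pi * (N : ℝ) ^ (1 - η) := by
        have e1 : b ≤ α * M := by
          rw [hbdef]
          apply div_le_self (by positivity)
          exact one_le_pow₀ (by norm_num)
        have e2 : M ≤ 2 * N := by rw [hM]; linarith
        have e3 : α ≤ (N : ℝ) ^ (-η) := by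
          rw [Real.rpow_neg (by linarith), ← one_div, le_div_iff₀ (by positivity)]
          exact hα2
        have e4 : (N : ℝ) ^ (-η) * N = (N : ℝ) ^ (1 - η) := by
          rw [show (1 - η) = -η + 1 by ring, Real.rpow_add (by linarith), Real.rpow_one]
        have e5 : α * M ≤ 2 * (N : ℝ) ^ (1 - η) := by
          calc α * M ≤ (N : ℝ) ^ (-η) * (2 * N) := mul_le_mul e3 e2 (by linarith) (by positivity)
            _ = 2 * ((N : ℝ) ^ (-η) * N) := by ring
            _ = _ := by rw [e4]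
        have hpi := Real.pi_pos
        nlinarith
      have h2 : Real.log (2 * Real.pi * b) ≤ Real.log (4 * Real.pi) + (1 - η) * Real.log N := by
        have hpi := Real.pi_pos
        rw [← Real.log_rpow (by linarith : (0 : ℝ) < N), ← Real.log_mul (by positivity) (by positivity)]
        exact Real.log_le_log (by positivity) h1
      have h3 : Real.log N - 2 * J * Real.log 2 ≤ Real.log A := by
        have e1 : (N : ℝ) / 2 ^ (2 * J) ≤ A := by
          rw [hA]
          apply div_le_div₀ hM0.le (by linarith) (by positivity)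
          exact pow_le_pow_right₀ (by norm_num) (by omega)
        have e2 : Real.log N - 2 * J * Real.log 2 = Real.log ((N : ℝ) / 2 ^ (2 * J)) := by
          rw [Real.log_div (by positivity) (by positivity), Real.log_pow]
          push_cast; ring
        rw [e2]
        exact Real.log_le_log (by positivity) e1
      have h4 : η * c0 = 2 * (Real.log (4 * Real.pi) + 2 * J * Real.log 2) := by
        rw [hc0]; field_simp
      have h5 : η * c0 ≤ η * Real.log N := mul_le_mul_of_nonneg_left hlogN hη.le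
      have h6 : 0 ≤ (J : ℝ) * Real.log 2 := mul_nonneg (Nat.cast_nonneg _) (Real.log_nonneg (by norm_num))
      have h7 : η ≤ 1 / 2 := hηη.trans hη12
      have h8 : (1 - η / 2) * (Real.log N - 2 * J * Real.log 2) ≤ (1 - η / 2) * Real.log A :=
        mul_le_mul_of_nonneg_left h3 (by linarith)
      have h9 : 0 ≤ η / 2 * (2 * J * Real.log 2) := by positivity
      linarith)
  refine key.trans ?_
  have h1 : 2 * M / 2 ^ J ≤ ε / 4 * N := by
    have e1 : (1 / 2 : ℝ) ^ J = 1 / 2 ^ J := by rw [one_div, inv_pow, one_div]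
    rw [e1] at hJ
    have e2 : 2 * M / 2 ^ J = 2 * M * (1 / 2 ^ J) := by ring
    rw [e2]
    have e3 : M ≤ 2 * N := by rw [hM]; linarith
    calc 2 * M * (1 / 2 ^ J) ≤ 2 * (2 * N) * (ε / 16) :=
          mul_le_mul (by linarith) hJ.le (by positivity) (by positivity)
      _ = _ := by ring
  have h2 : (J : ℝ) ≤ ε / 8 * N := by
    rw [div_le_iff₀ hε] at hNJ
    linarith
  have h3 : ε / 8 * M ≤ ε / 4 * N := by
    rw [hM]
    nlinarith
  linarith

end Pool.Agent.W41.FU
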