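import Mathlib
import Pool.Agent.W41.Core

/-! Comparison of a function invariant under the `3x+d` map, along sifted progressions, with its mean. -/

set_option autoImplicit false

namespace Pool.Agent.W41

open Finset Pool.Agent.H499R2.CO

open Classical in
/-- the surviving pairs in the sifted progression -/
theorem surv_sum : ∃ K y0 : ℕ, 1 ≤ K ∧ 2 ≤ y0 ∧ ∀ y : ℕ, y0 ≤ y → ∀ k T : ℕ, 2 ^ k * y ^ K ≤ T →
    ∀ P : Finset ℕ, (∀ p ∈ P, p.Prime ∧ p ≤ y) → ∀ A B : ℤ, (∀ p ∈ P, ¬ (p : ℤ) ∣ B) →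
    ∀ d : ℤ, d % 2 = 1 → ∀ x0 R : ℤ, R % 2 = 1 → ∀ s : ℕ × ℤ,
    ∑ t ∈ Icc 1 T, wt P A B (t : ℕ) * (if surv d k s (x0 + R * (t : ℕ)) then 1 else 0) ≤
      8 * T * V P * q step (0, 0) k s := by
  obtain ⟨K, y0, hK, hy0, h⟩ := class_le
  refine ⟨K, y0, hK, hy0, fun y hy k T hT P hP A B hB d hd x0 R hR s => ?_⟩
  set χ : ℤ → ℝ := fun x => if surv d k s x then 1 else 0 with hχ
  have hχ0 : ∀ x, 0 ≤ χ x := fun x => by simp only [hχ]; split_ifs <;> norm_num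
  have hper : ∀ x m : ℤ, χ (x + m * 2 ^ k) = χ x := fun x m => by
    simp only [hχ, surv_periodic hd k s x m]
  have hcount : ∑ c ∈ range (2 ^ k), χ (x0 + R * (c : ℕ)) = 2 ^ k * q step (0, 0) k s := by
    rw [← count_surv hd k s, ← sum_affine k χ hper hR x0]
    apply sum_congr rfl
    intro c _
    congr 1
    ring
  calc ∑ t ∈ Icc 1 T, wt P A B (t : ℕ) * χ (x0 + R * (t : ℕ))
      ≤ ∑ t ∈ range (T + 1), wt P A B (t : ℕ) * χ (x0 + R * (t : ℕ)) := by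
        apply sum_le_sum_of_subset_of_nonneg
        · intro t ht
          rw [mem_Icc] at ht
          exact mem_range.2 (by omega)
        · intro t _ _
          exact mul_nonneg (wt_nonneg _ _ _ _) (hχ0 _)
    _ = ∑ c ∈ range (2 ^ k), ∑ t ∈ (range (T + 1)).filter (fun t => t % 2 ^ k = c),
          wt P A B (t : ℕ) * χ (x0 + R * (t : ℕ)) := by
        rw [sum_fiberwise_of_maps_to]
        intro t _
        exact mem_range.2 (Nat.mod_lt _ (by positivity))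
    _ = ∑ c ∈ range (2 ^ k), χ (x0 + R * (c : ℕ)) * ∑ t ∈ (range (T + 1)).filter (fun t => t % 2 ^ k = c),
          wt P A B (t : ℕ) := by
        apply sum_congr rfl
        intro c _
        rw [mul_sum]
        apply sum_congr rfl
        intro t ht
        rw [mem_filter] at ht
        have e : x0 + R * ((t : ℕ) : ℤ) = x0 + R * (c : ℕ) + (R * (t / 2 ^ k : ℕ)) * 2 ^ k := by
          have h1 := Nat.mod_add_div t (2 ^ k)
          rw [ht.2] at h1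
          have h2 : (t : ℤ) = c + 2 ^ k * (t / 2 ^ k : ℕ) := by exact_mod_cast h1.symm
          rw [h2]; push_cast; ring
        rw [e, hper]
        ring
    _ ≤ ∑ c ∈ range (2 ^ k), χ (x0 + R * (c : ℕ)) * (8 * T * V P / 2 ^ k) := by
        apply sum_le_sum
        intro c _
        exact mul_le_mul_of_nonneg_left (h y hy k T hT P hP A B hB c) (hχ0 _)
    _ = 8 * T * V P * q step (0, 0) k s := by
        rw [← sum_mul, hcount]
        field_simp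

/-- one shift -/
theorem shift_err : ∃ K y0 : ℕ, 1 ≤ K ∧ 2 ≤ y0 ∧ ∀ y : ℕ, y0 ≤ y → ∀ k T : ℕ, 2 ^ k * y ^ K ≤ T →
    ∀ P : Finset ℕ, (∀ p ∈ P, p.Prime ∧ p ≤ y) → ∀ A B : ℤ, (∀ p ∈ P, ¬ (p : ℤ) ∣ B) →
    ∀ d : ℤ, d % 2 = 1 → d * d = 1 → ∀ x0 R : ℤ, R % 2 = 1 →
    ∀ f : ℤ → ℝ, (∀ x, 0 ≤ f x) → (∀ x, f x ≤ 1) → (∀ x, f (Tz d x) = f x) → ∀ h : ℤ,
    |∑ t ∈ Icc 1 T, wt P A B (t : ℕ) * f (x0 + R * (t : ℕ)) -
      ∑ t ∈ Icc 1 T, wt P A B (t : ℕ) * f (x0 + R * (t : ℕ) - h)| ≤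
      8 * T * V P * q step (0, 0) k (0, -(d * h)) := by
  classical
  obtain ⟨K, y0, hK, hy0, H⟩ := surv_sum
  refine ⟨K, y0, hK, hy0, fun y hy k T hT P hP A B hB d hd hdd x0 R hR f hf0 hf1 hf h => ?_⟩
  refine le_trans ?_ (H y hy k T hT P hP A B hB d hd x0 R hR (0, -(d * h)))
  rw [← sum_sub_distrib]
  refine (abs_sum_le_sum_abs _ _).trans (sum_le_sum fun t _ => ?_)
  rw [← mul_sub, abs_mul, abs_of_nonneg (wt_nonneg _ _ _ _)]
  apply mul_le_mul_of_nonneg_left _ (wt_nonneg _ _ _ _)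
  split_ifs with hs
  · rw [abs_le]
    have a1 := hf0 (x0 + R * (t : ℕ)); have a2 := hf1 (x0 + R * (t : ℕ))
    have a3 := hf0 (x0 + R * (t : ℕ) - h); have a4 := hf1 (x0 + R * (t : ℕ) - h)
    constructor <;> linarith
  · obtain ⟨j, -, hj⟩ := coal hd k 0 (-(d * h)) _ hs
    have hit : ∀ (j : ℕ) (x : ℤ), f ((Tz d)^[j] x) = f x := by
      intro j
      induction j with
      | zero => intro x; rfl
      | succ j ih => intro x; rw [Function.iterate_succ_apply, ih, hf]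
    have e : (3 : ℤ) ^ 0 * (x0 + R * (t : ℕ)) + d * (-(d * h)) = x0 + R * (t : ℕ) - h := by
      have : d * (-(d * h)) = -(d * d) * h := by ring
      rw [this, hdd]; ring
    rw [e] at hj
    have := congrArg f hj
    rw [hit, hit] at this
    rw [this, sub_self, abs_zero]

/-- translating a sum by `g` -/
theorem trans_err (φ : ℤ → ℝ) (h0 : ∀ t, 0 ≤ φ t) (h1 : ∀ t, φ t ≤ 1) (T g : ℕ) :
    |∑ t ∈ Icc 1 T, φ (t : ℕ) - ∑ t ∈ Icc 1 T, φ ((t : ℕ) + g)| ≤ g := by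
  induction g with
  | zero => simp
  | succ g ih =>
    have e : ∀ ψ : ℤ → ℝ, ∑ t ∈ Icc 1 T, ψ ((t : ℕ) + 1) = ∑ t ∈ Icc 1 T, ψ (t : ℕ) + ψ (T + 1) - ψ 1 := by
      intro ψ
      clear ih
      induction T with
      | zero => simp
      | succ T ih =>
        rw [sum_Icc_succ_top (by omega), sum_Icc_succ_top (by omega), ih]
        push_cast
        ring
    have e1 := e (fun x => φ (x + g))
    have e2 : ∑ t ∈ Icc 1 T, φ ((t : ℕ) + ((g + 1 : ℕ) : ℤ)) = ∑ t ∈ Icc 1 T, φ ((t : ℕ) + 1 + g) := by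
      apply sum_congr rfl
      intro t _
      congr 1
      push_cast; ring
    rw [e2, e1]
    rw [abs_le] at ih ⊢
    have a1 := h0 (T + 1 + g); have a2 := h1 (T + 1 + g)
    have a3 := h0 (1 + g); have a4 := h1 (1 + g)
    push_cast
    constructor
    · linarith [ih.1]
    · linarith [ih.2]

/-- tiling -/
theorem tile (f : ℤ → ℝ) (x0 : ℤ) (R : ℕ) : ∀ T : ℕ,
    ∑ t ∈ Icc 1 T, ∑ r ∈ range R, f (x0 + R * (t : ℕ) - r) = ∑ m ∈ Ioc x0 (x0 + R * T), f m := by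
  intro T
  induction T with
  | zero => simp
  | succ T ih =>
    rw [sum_Icc_succ_top (by omega), ih]
    have e1 : Ioc x0 (x0 + R * ((T + 1 : ℕ) : ℤ)) =
        Ioc x0 (x0 + R * T) ∪ Ioc (x0 + R * T) (x0 + R * ((T + 1 : ℕ) : ℤ)) := by
      rw [Ioc_union_Ioc_eq_Ioc]
      · have : (0 : ℤ) ≤ R * T := by positivity
        linarith
      · push_cast
        have : (0 : ℤ) ≤ R := by positivity
        linarith
    rw [e1, sum_union (Ioc_disjoint_Ioc_of_le le_rfl)]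
    congr 1
    apply sum_bij' (fun (r : ℕ) _ => x0 + R * ((T + 1 : ℕ) : ℤ) - r)
      (fun (m : ℤ) _ => (x0 + R * ((T + 1 : ℕ) : ℤ) - m).toNat)
    · intro r hr
      rw [mem_range] at hr
      rw [mem_Ioc]
      push_cast
      have : (r : ℤ) < R := by exact_mod_cast hr
      constructor <;> nlinarith
    · intro m hm
      rw [mem_Ioc] at hm
      rw [mem_range]
      push_cast at hm ⊢
      have h2 := hm.1
      have h3 := hm.2
      have : x0 + R * (T + 1) - m < R := by nlinarith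
      omega
    · intro r hr
      simp
    · intro m hm
      rw [mem_Ioc] at hm
      have h3 := hm.2
      push_cast at h3 ⊢
      rw [Int.toNat_of_nonneg (by linarith)]
      ring
    · intro r _; rfl

/-- THE COMPARISON. -/
theorem core {ε : ℝ} (hε : 0 < ε) (hε1 : ε ≤ 1) : ∃ (K y0 k0 : ℕ) (θ : ℝ), 1 ≤ K ∧ 2 ≤ y0 ∧ 0 < θ ∧
    ∀ y : ℕ, y0 ≤ y → ∀ k : ℕ, k0 ≤ k → ∀ T : ℕ, 2 ^ k * y ^ K ≤ T →
    ∀ P : Finset ℕ, (∀ p ∈ P, p.Prime ∧ p ≤ y) → ∀ A B : ℤ, (∀ p ∈ P, ¬ (p : ℤ) ∣ B) →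
    ∀ d : ℤ, d % 2 = 1 → d * d = 1 → ∀ x0 : ℤ, ∀ R : ℕ, R % 2 = 1 →
    ∀ h0 : ℕ, y ^ K ≤ h0 → (R * h0 : ℝ) ≤ (2 : ℝ) ^ (θ * k) →
    ∀ f : ℤ → ℝ, (∀ x, 0 ≤ f x) → (∀ x, f x ≤ 1) → (∀ x, f (Tz d x) = f x) →
    |∑ t ∈ Icc 1 T, wt P A B (t : ℕ) * f (x0 + R * (t : ℕ)) -
      V P / R * ∑ m ∈ Ioc x0 (x0 + R * T), f m| ≤ ε * (T * V P) + h0 := by
  obtain ⟨K1, y1, hK1, hy1, H1⟩ := shift_err
  obtain ⟨K2, y2, hK2, hy2, H2⟩ := window (show 0 < ε / 2 by positivity)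
  obtain ⟨θ, hθ, k0, hq⟩ := q_quant (show 0 < ε / 16 by positivity) (by linarith)
  refine ⟨max K1 K2, max y1 y2, k0, θ, le_trans hK1 (le_max_left _ _), le_trans hy1 (le_max_left _ _), hθ, ?_⟩
  intro y hy k hk T hT P hP A B hB d hd hdd x0 R hR h0 hh0 hRh f hf0 hf1 hf
  have hy1' : y1 ≤ y := le_trans (le_max_left _ _) hy
  have hy2' : y2 ≤ y := le_trans (le_max_right _ _) hy
  have hyp : 1 ≤ y := by omega
  have hT1 : 2 ^ k * y ^ K1 ≤ T := le_trans (Nat.mul_le_mul_left _ (Nat.pow_le_pow_right hyp (le_max_left _ _))) hT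
  have hh2 : y ^ K2 ≤ h0 := le_trans (Nat.pow_le_pow_right hyp (le_max_right _ _)) hh0
  have hPp : ∀ p ∈ P, p.Prime := fun p hp => (hP p hp).1
  have hV0 := V_pos hPp
  have hR0 : 0 < R := by omega
  have hRR : (0 : ℝ) < R := by exact_mod_cast hR0
  have hh00 : 0 < h0 := lt_of_lt_of_le (Nat.pos_of_ne_zero (pow_ne_zero _ (by omega))) hh2
  have hhR : (0 : ℝ) < h0 := by exact_mod_cast hh00
  have hT0 : (0 : ℝ) ≤ T := Nat.cast_nonneg _
  have hRodd : ((R : ℕ) : ℤ) % 2 = 1 := by omega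
  set S : ℝ := ∑ t ∈ Icc 1 T, wt P A B (t : ℕ) * f (x0 + R * (t : ℕ)) with hS
  -- each shift
  have s1 : ∀ g ∈ range h0, ∀ r ∈ range R,
      |S - ∑ t ∈ Icc 1 T, wt P A B ((t : ℕ) + (g : ℕ)) * f (x0 + R * (t : ℕ) - r)| ≤ ε / 2 * (T * V P) + h0 := by
    intro g hg r hr
    rw [mem_range] at hg hr
    have a1 := H1 y hy1' k T hT1 P hP A B hB d hd hdd x0 R hRodd f hf0 hf1 hf (R * g + r)
    have a2 : q step (0, 0) k (0, -(d * ((R : ℤ) * g + r))) ≤ ε / 16 := by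
      apply hq k hk
      have e1 : |((-(d * ((R : ℤ) * g + r)) : ℤ) : ℝ)| = R * g + r := by
        have hd1 : |(d : ℝ)| = 1 := by
          have : (d : ℝ) * d = 1 := by exact_mod_cast hdd
          have h2 : |(d : ℝ)| * |(d : ℝ)| = 1 := by rw [← abs_mul, this, abs_one]
          nlinarith [abs_nonneg (d : ℝ)]
        push_cast
        rw [abs_neg, abs_mul, hd1, one_mul, abs_of_nonneg (by positivity)]
      rw [e1]
      refine le_trans ?_ hRh
      have h3 : (g : ℝ) + 1 ≤ h0 := by exact_mod_cast hg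
      have h4 : (r : ℝ) ≤ R := by exact_mod_cast hr.le
      nlinarith
    have a3 : 8 * T * V P * q step (0, 0) k (0, -(d * ((R : ℤ) * g + r))) ≤ ε / 2 * (T * V P) := by
      have : 0 ≤ 8 * T * V P := by positivity
      calc _ ≤ 8 * T * V P * (ε / 16) := mul_le_mul_of_nonneg_left a2 this
        _ = _ := by ring
    have a4 := trans_err (fun t => wt P A B t * f (x0 + R * t - (R * g + r)))
      (fun t => mul_nonneg (wt_nonneg _ _ _ _) (hf0 _))
      (fun t => mul_le_one₀ (wt_le_one _ _ _ _) (hf0 _) (hf1 _)) T g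
    have a5 : ∑ t ∈ Icc 1 T, wt P A B ((t : ℕ) + (g : ℕ)) * f (x0 + R * ((t : ℕ) + (g : ℕ)) - (R * g + r)) =
        ∑ t ∈ Icc 1 T, wt P A B ((t : ℕ) + (g : ℕ)) * f (x0 + R * (t : ℕ) - r) := by
      apply sum_congr rfl
      intro t _
      congr 2
      ring
    rw [a5] at a4
    have a6 : (g : ℝ) ≤ h0 := by exact_mod_cast hg.le
    have := abs_sub_le S (∑ t ∈ Icc 1 T, wt P A B (t : ℕ) * f (x0 + R * (t : ℕ) - (R * g + r)))
      (∑ t ∈ Icc 1 T, wt P A B ((t : ℕ) + (g : ℕ)) * f (x0 + R * (t : ℕ) - r))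
    linarith
  -- the mean over the shifts
  have s2 : |S * (h0 * R) - ∑ g ∈ range h0, ∑ r ∈ range R,
      ∑ t ∈ Icc 1 T, wt P A B ((t : ℕ) + (g : ℕ)) * f (x0 + R * (t : ℕ) - r)| ≤
      (ε / 2 * (T * V P) + h0) * (h0 * R) := by
    have e : S * (h0 * R) = ∑ g ∈ range h0, ∑ r ∈ range R, S := by
      simp only [sum_const, card_range, nsmul_eq_mul]; ring
    rw [e, ← sum_sub_distrib]
    refine (abs_sum_le_sum_abs _ _).trans ?_
    calc _ ≤ ∑ g ∈ range h0, ∑ r ∈ range R, (ε / 2 * (T * V P) + h0) := by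
          apply sum_le_sum
          intro g hg
          rw [← sum_sub_distrib]
          exact (abs_sum_le_sum_abs _ _).trans (sum_le_sum fun r hr => s1 g hg r hr)
      _ = _ := by simp only [sum_const, card_range, nsmul_eq_mul]; ring
  -- swap
  have s3 : ∑ g ∈ range h0, ∑ r ∈ range R,
      ∑ t ∈ Icc 1 T, wt P A B ((t : ℕ) + (g : ℕ)) * f (x0 + R * (t : ℕ) - r) =
      ∑ t ∈ Icc 1 T, (∑ g ∈ range h0, wt P A B ((t : ℕ) + (g : ℕ))) * ∑ r ∈ range R, f (x0 + R * (t : ℕ) - r) := by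
    have e : ∀ g ∈ range h0, ∑ r ∈ range R,
      ∑ t ∈ Icc 1 T, wt P A B ((t : ℕ) + (g : ℕ)) * f (x0 + R * (t : ℕ) - r) =
      ∑ t ∈ Icc 1 T, wt P A B ((t : ℕ) + (g : ℕ)) * ∑ r ∈ range R, f (x0 + R * (t : ℕ) - r) := by
      intro g _
      rw [sum_comm]
      exact sum_congr rfl fun t _ => (mul_sum _ _ _).symm
    rw [sum_congr rfl e, sum_comm]
    exact sum_congr rfl fun t _ => (sum_mul _ _ _).symm
  have s4 : |∑ t ∈ Icc 1 T, (∑ g ∈ range h0, wt P A B ((t : ℕ) + (g : ℕ))) * ∑ r ∈ range R, f (x0 + R * (t : ℕ) - r) -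
      (h0 * V P) * ∑ m ∈ Ioc x0 (x0 + R * T), f m| ≤ T * (ε / 2 * (h0 * V P) * R) := by
    rw [← tile, mul_sum, ← sum_sub_distrib]
    refine (abs_sum_le_sum_abs _ _).trans ?_
    calc _ ≤ ∑ t ∈ Icc 1 T, (ε / 2 * (h0 * V P) * R) := by
          apply sum_le_sum
          intro t _
          rw [← sub_mul, abs_mul]
          have b1 := H2 y hy2' h0 hh2 P hP A B hB t
          have b2 : |∑ r ∈ range R, f (x0 + R * (t : ℕ) - r)| ≤ R := by
            rw [abs_of_nonneg (sum_nonneg fun _ _ => hf0 _)]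
            calc _ ≤ ∑ r ∈ range R, (1 : ℝ) := sum_le_sum fun _ _ => hf1 _
              _ = R := by simp
          exact mul_le_mul b1 b2 (abs_nonneg _) (by positivity)
      _ = _ := by rw [sum_const, nsmul_eq_mul, Nat.card_Icc, Nat.add_sub_cancel]
  rw [s3] at s2
  have s5 : |S * (h0 * R) - (h0 * V P) * ∑ m ∈ Ioc x0 (x0 + R * T), f m| ≤
      (ε * (T * V P) + h0) * (h0 * R) := by
    have := abs_sub_le (S * (h0 * R)) (∑ t ∈ Icc 1 T, (∑ g ∈ range h0, wt P A B ((t : ℕ) + (g : ℕ))) *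
      ∑ r ∈ range R, f (x0 + R * (t : ℕ) - r)) ((h0 * V P) * ∑ m ∈ Ioc x0 (x0 + R * T), f m)
    calc _ ≤ _ := this
      _ ≤ (ε / 2 * (T * V P) + h0) * (h0 * R) + T * (ε / 2 * (h0 * V P) * R) := add_le_add s2 s4
      _ = _ := by ring
  have hM : (0 : ℝ) < h0 * R := by positivity
  have e : S - V P / R * ∑ m ∈ Ioc x0 (x0 + R * T), f m =
      (S * (h0 * R) - (h0 * V P) * ∑ m ∈ Ioc x0 (x0 + R * T), f m) / (h0 * R) := by
    field_simp
  rw [e, abs_div, abs_of_pos hM, div_le_iff₀ hM]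
  exact s5

end Pool.Agent.W41
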