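import Mathlib
import Pool.Agent.W41.Core2
import Pool.Agent.W41.Dens

/-! Invariant sets in sifted progressions. -/

set_option autoImplicit false

namespace Pool.Agent.W41

open Finset Filter Topology Pool.Agent.H499R2.CO Pool.Agent.H499R2.ND

theorem Tz_shift {d : ℤ} (x v : ℤ) : Tz d (x + 2 * v) = Tz d x + (if x % 2 = 0 then 1 else 3) * v := by
  unfold Tz
  have h : (x + 2 * v) % 2 = x % 2 := by omega
  rw [h]
  split_ifs <;> omega

/-- the iterate on a class modulo `2 ^ j` -/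
theorem iter_affine (d : ℤ) : ∀ (j : ℕ) (x : ℤ), ∃ i ≤ j, ∀ u : ℤ,
    (Tz d)^[j] (x + 2 ^ j * u) = (Tz d)^[j] x + 3 ^ i * u := by
  intro j
  induction j with
  | zero => intro x; exact ⟨0, le_rfl, fun u => by simp⟩
  | succ j ih =>
    intro x
    obtain ⟨i, hi, h⟩ := ih (Tz d x)
    by_cases hx : x % 2 = 0
    · refine ⟨i, by omega, fun u => ?_⟩
      have e : x + 2 ^ (j + 1) * u = x + 2 * (2 ^ j * u) := by ring
      rw [Function.iterate_succ_apply, Function.iterate_succ_apply, e, Tz_shift, if_pos hx, one_mul, h]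
    · refine ⟨i + 1, by omega, fun u => ?_⟩
      have e : x + 2 ^ (j + 1) * u = x + 2 * (2 ^ j * u) := by ring
      have e2 : (3 : ℤ) * (2 ^ j * u) = 2 ^ j * (3 * u) := by ring
      rw [Function.iterate_succ_apply, Function.iterate_succ_apply, e, Tz_shift, if_neg hx, e2, h]
      ring

theorem iter_bound {d : ℤ} (hd : d = 1 ∨ d = -1) : ∀ (j : ℕ) (x : ℤ), |(Tz d)^[j] x| ≤ 2 ^ j * |x| := by
  have h1 : ∀ x : ℤ, |Tz d x| ≤ 2 * |x| := by
    intro x
    unfold Tz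
    rcases abs_cases x with ⟨h, h'⟩ | ⟨h, h'⟩ <;> rw [h] <;> rcases hd with rfl | rfl <;>
      split_ifs <;> rw [abs_le] <;> constructor <;> omega
  intro j
  induction j with
  | zero => intro x; simp
  | succ j ih =>
    intro x
    rw [Function.iterate_succ_apply]
    calc _ ≤ 2 ^ j * |Tz d x| := ih _
      _ ≤ 2 ^ j * (2 * |x|) := mul_le_mul_of_nonneg_left (h1 x) (by positivity)
      _ = _ := by ring

theorem iter_inv {d : ℤ} {f : ℤ → ℝ} (hf : ∀ x, f (Tz d x) = f x) : ∀ (j : ℕ) (x : ℤ), f ((Tz d)^[j] x) = f x := by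
  intro j
  induction j with
  | zero => intro x; rfl
  | succ j ih => intro x; rw [Function.iterate_succ_apply, ih, hf]

open Classical in
/-- the sum of `f` over the sifted progression up to `N` -/
noncomputable def As (f : ℤ → ℝ) (N q : ℕ) (a : ℤ) (P : Finset ℕ) : ℝ :=
  ∑ m ∈ (Icc 1 N).filter (fun m : ℕ => (m : ℤ) ≡ a [ZMOD q] ∧ ∀ p ∈ P, ¬ (p : ℤ) ∣ m), f (m : ℕ)

theorem reindex (f : ℤ → ℝ) (N q : ℕ) (hq : 1 ≤ q) (a : ℤ) (P : Finset ℕ) :
    As f N q a P = ∑ t ∈ Icc 1 ((N + (-a) % q) / q).toNat, wt P (-((-a) % q)) q (t : ℕ) * f (-((-a) % q) + q * (t : ℕ)) := by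
  classical
  have hq0 : (0 : ℤ) < q := by exact_mod_cast hq
  set b : ℤ := (-a) % q with hb
  have hb0 : 0 ≤ b := Int.emod_nonneg _ hq0.ne'
  have hb1 : b < q := Int.emod_lt_of_pos _ hq0
  have hba : -b ≡ a [ZMOD q] := by
    have h1 : b ≡ -a [ZMOD q] := Int.mod_modEq _ _
    have h2 := h1.neg
    rwa [neg_neg] at h2
  have hT0 : 0 ≤ (N + b) / q := Int.ediv_nonneg (by positivity) hq0.le
  have e1 : ∀ t : ℕ, wt P (-b) q t * f (-b + q * t) = if ∀ p ∈ P, ¬ (p : ℤ) ∣ -b + q * t then f (-b + q * t) else 0 := by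
    intro t
    unfold wt
    split_ifs <;> simp
  rw [sum_congr rfl (fun t _ => e1 t), ← sum_filter]
  unfold As
  symm
  apply sum_bij' (fun (t : ℕ) _ => (-b + q * (t : ℤ)).toNat) (fun (m : ℕ) _ => (((m : ℤ) + b) / q).toNat)
  · intro t ht
    rw [mem_filter, mem_Icc] at ht
    obtain ⟨⟨h1, h2⟩, h3⟩ := ht
    have h1' : (1 : ℤ) ≤ t := by exact_mod_cast h1
    have hpos : 0 < -b + q * (t : ℤ) := by nlinarith
    have hcast : (((-b + q * (t : ℤ)).toNat : ℕ) : ℤ) = -b + q * (t : ℤ) := Int.toNat_of_nonneg hpos.le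
    rw [mem_filter, mem_Icc, hcast]
    refine ⟨⟨by omega, ?_⟩, ?_, h3⟩
    · have h4 : (t : ℤ) ≤ (N + b) / q := by omega
      have h5 : (t : ℤ) * q ≤ N + b := by
        calc (t : ℤ) * q ≤ (N + b) / q * q := mul_le_mul_of_nonneg_right h4 hq0.le
          _ ≤ N + b := Int.ediv_mul_le _ hq0.ne'
      have h6 : -b + q * (t : ℤ) ≤ N := by linarith [mul_comm (t : ℤ) q]
      omega
    · refine Int.ModEq.trans ?_ hba
      exact (Int.modEq_iff_dvd.2 ⟨-(t : ℤ), by ring⟩)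
  · intro m hm
    rw [mem_filter, mem_Icc] at hm
    obtain ⟨⟨h1, h2⟩, h3, h4⟩ := hm
    have hd : (q : ℤ) ∣ (m : ℤ) + b := by
      have := (h3.trans hba.symm).symm.dvd
      rwa [sub_neg_eq_add] at this
    obtain ⟨c, hc⟩ := hd
    have hc' : ((m : ℤ) + b) / q = c := by rw [hc]; exact Int.mul_ediv_cancel_left _ hq0.ne'
    have h1' : (1 : ℤ) ≤ m := by exact_mod_cast h1
    have hcpos : 1 ≤ c := by
      by_contra hcon
      have : c ≤ 0 := by omega
      nlinarith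
    rw [mem_filter, mem_Icc, hc', Int.toNat_of_nonneg (by omega)]
    refine ⟨⟨by omega, ?_⟩, ?_⟩
    · apply Int.toNat_le_toNat
      rw [Int.le_ediv_iff_mul_le hq0]
      have : (m : ℤ) ≤ N := by exact_mod_cast h2
      linarith [mul_comm (q : ℤ) c]
    · intro p hp
      have : -b + q * c = m := by linarith
      rw [this]; exact h4 p hp
  · intro t ht
    rw [mem_filter, mem_Icc] at ht
    have h1' : (1 : ℤ) ≤ t := by exact_mod_cast ht.1.1
    have hpos : 0 < -b + q * (t : ℤ) := by nlinarith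
    have hcast : (((-b + q * (t : ℤ)).toNat : ℕ) : ℤ) = -b + q * (t : ℤ) := Int.toNat_of_nonneg hpos.le
    simp only [hcast]
    have : -b + q * (t : ℤ) + b = q * t := by ring
    rw [this, Int.mul_ediv_cancel_left _ hq0.ne']
    simp
  · intro m hm
    rw [mem_filter, mem_Icc] at hm
    obtain ⟨⟨h1, h2⟩, h3, h4⟩ := hm
    have hd : (q : ℤ) ∣ (m : ℤ) + b := by
      have := (h3.trans hba.symm).symm.dvd
      rwa [sub_neg_eq_add] at this
    obtain ⟨c, hc⟩ := hd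
    have hc' : ((m : ℤ) + b) / q = c := by rw [hc]; exact Int.mul_ediv_cancel_left _ hq0.ne'
    have h1' : (1 : ℤ) ≤ m := by exact_mod_cast h1
    have hcpos : 1 ≤ c := by
      by_contra hcon
      have : c ≤ 0 := by omega
      nlinarith
    simp only [hc']
    rw [Int.toNat_of_nonneg (by omega)]
    have : -b + q * c = m := by linarith
    rw [this]; simp
  · intro t ht
    rw [mem_filter, mem_Icc] at ht
    have h1' : (1 : ℤ) ≤ t := by exact_mod_cast ht.1.1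
    have hpos : 0 < -b + q * (t : ℤ) := by nlinarith
    have hcast : (((-b + q * (t : ℤ)).toNat : ℕ) : ℤ) = -b + q * (t : ℤ) := Int.toNat_of_nonneg hpos.le
    simp only [hcast]

open Classical in
/-- the indicator function -/
noncomputable def ind (s : ℤ) (S : Set ℤ) (x : ℤ) : ℝ := if s * x ∈ S then 1 else 0

theorem ind_nonneg (s : ℤ) (S : Set ℤ) (x : ℤ) : 0 ≤ ind s S x := by unfold ind; split_ifs <;> norm_num
theorem ind_le_one (s : ℤ) (S : Set ℤ) (x : ℤ) : ind s S x ≤ 1 := by unfold ind; split_ifs <;> norm_num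

theorem ind_inv {s : ℤ} (hs : s = 1 ∨ s = -1) {S : Set ℤ} (hS : Inv 1 S) (x : ℤ) :
    ind s S (Tz s x) = ind s S x := by
  have h := side_inv odd_one hs hS x
  rw [mul_one] at h
  have h' : s * x ∈ S ↔ s * Tz s x ∈ S := h
  unfold ind
  split_ifs with a b b
  · rfl
  · exact absurd (h'.2 a) b
  · exact absurd (h'.1 b) a
  · rfl

theorem cF_eq_sum (s : ℤ) (S : Set ℤ) (X : ℕ) : (cF s S X : ℝ) = ∑ m ∈ Ioc (0 : ℤ) X, ind s S m := by
  classical
  unfold cF
  rw [card_filter]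
  push_cast
  apply sum_bij' (fun (m : ℕ) _ => (m : ℤ)) (fun (m : ℤ) _ => m.toNat)
  · intro m hm
    rw [mem_Icc] at hm
    rw [mem_Ioc]; omega
  · intro m hm
    rw [mem_Ioc] at hm
    rw [mem_Icc]; omega
  · intro m _; simp
  · intro m hm
    rw [mem_Ioc] at hm
    simp only [Int.toNat_of_nonneg hm.1.le]
  · intro m _; unfold ind; rfl

/-- sums over an interval whose lower end is not `0` -/
theorem shift_start (f : ℤ → ℝ) (h0 : ∀ x, 0 ≤ f x) (h1 : ∀ x, f x ≤ 1) (x0 X : ℤ) (hX : |x0| ≤ X) :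
    |∑ m ∈ Ioc x0 X, f m - ∑ m ∈ Ioc 0 X, f m| ≤ |(x0 : ℝ)| := by
  rw [abs_le] at hX
  have hc : ∀ a b : ℤ, a ≤ b → 0 ≤ ∑ m ∈ Ioc a b, f m ∧ ∑ m ∈ Ioc a b, f m ≤ b - a := by
    intro a b hab
    refine ⟨sum_nonneg fun _ _ => h0 _, ?_⟩
    calc _ ≤ ∑ m ∈ Ioc a b, (1 : ℝ) := sum_le_sum fun _ _ => h1 _
      _ = b - a := by
        rw [sum_const, nsmul_eq_mul, mul_one, Int.card_Ioc]
        have : (((b - a).toNat : ℕ) : ℤ) = b - a := Int.toNat_of_nonneg (by linarith)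
        exact_mod_cast this
  rcases le_total x0 0 with h | h
  · have e : Ioc x0 X = Ioc x0 0 ∪ Ioc 0 X := by rw [Ioc_union_Ioc_eq_Ioc h (by linarith)]
    rw [e, sum_union (Ioc_disjoint_Ioc_of_le le_rfl), add_sub_cancel_right]
    obtain ⟨a1, a2⟩ := hc x0 0 h
    rw [abs_of_nonneg a1, abs_of_nonpos (by exact_mod_cast h)]
    push_cast at a2
    linarith
  · have e : Ioc 0 X = Ioc 0 x0 ∪ Ioc x0 X := by rw [Ioc_union_Ioc_eq_Ioc h (by linarith)]
    rw [e, sum_union (Ioc_disjoint_Ioc_of_le le_rfl)]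
    obtain ⟨a1, a2⟩ := hc 0 x0 h
    have e2 : ∑ m ∈ Ioc x0 X, f m - (∑ m ∈ Ioc 0 x0, f m + ∑ m ∈ Ioc x0 X, f m) = -∑ m ∈ Ioc 0 x0, f m := by ring
    rw [e2, abs_neg, abs_of_nonneg a1, abs_of_nonneg (by exact_mod_cast h)]
    push_cast at a2
    linarith

theorem exists_root (W : ℕ) (hW : 1 ≤ W) (N : ℕ) : ∃ l : ℕ, l ^ W ≤ N ∧ N < (l + 1) ^ W := by
  have hex : ∃ l : ℕ, N < (l + 1) ^ W := ⟨N, lt_of_lt_of_le (Nat.lt_succ_self N) (Nat.le_self_pow (by omega) _)⟩
  classical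
  refine ⟨Nat.find hex, ?_, Nat.find_spec hex⟩
  rcases Nat.eq_zero_or_pos (Nat.find hex) with h | h
  · rw [h, zero_pow (by omega)]; exact Nat.zero_le _
  · have := Nat.find_min hex (m := Nat.find hex - 1) (by omega)
    rw [Nat.sub_add_cancel h] at this
    omega

end Pool.Agent.W41
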