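import Pool.Agent.W41.FU6
import Pool.Agent.W41.Base

/-! Fourier uniformity: all frequencies. -/

set_option autoImplicit false

namespace Pool.Agent.W41.FU

open Pool.Agent.H320R2.PD Pool.Agent.H499R2.ND Finset Pool.Agent.H499R2.CO Pool.Agent.W41

/-- the character -/
noncomputable def ee (α : ℝ) (x : ℤ) : ℂ := Complex.exp ((2 * Real.pi * α * (x : ℝ) : ℝ) * Complex.I)

theorem ee_norm (α : ℝ) (x : ℤ) : ‖ee α x‖ = 1 := Complex.norm_exp_ofReal_mul_I _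

theorem ee_add (α : ℝ) (x y : ℤ) : ee α (x + y) = ee α x * ee α y := by
  unfold ee
  rw [← Complex.exp_add]
  congr 1
  push_cast
  ring

theorem ee_zero (α : ℝ) : ee α 0 = 1 := by
  unfold ee; simp

theorem ee_cos (α : ℝ) (x : ℤ) : ee α x = (Real.cos (2 * Real.pi * α * (x : ℝ) + 0) : ℂ)
    + (Real.cos (2 * Real.pi * α * (x : ℝ) + (-(Real.pi / 2))) : ℂ) * Complex.I := by
  unfold ee
  rw [Complex.exp_mul_I, add_zero, ← sub_eq_add_neg, Real.cos_sub_pi_div_two, Complex.ofReal_cos,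
    Complex.ofReal_sin]

/-- the exponential sum -/
noncomputable def EE (f : ℤ → ℝ) (N : ℕ) (α : ℝ) : ℂ := ∑ n ∈ Icc 1 N, (f (n : ℕ) : ℂ) * ee α (n : ℕ)

theorem transl (G : ℤ → ℂ) (hG : ∀ x, ‖G x‖ ≤ 1) (N : ℕ) : ∀ h : ℕ,
    ‖∑ n ∈ Icc 1 N, G (n : ℕ) - ∑ n ∈ Icc 1 N, G ((n : ℕ) - (h : ℕ))‖ ≤ 2 * h := by
  intro h
  induction h with
  | zero => simp
  | succ h ih =>
    have e : ∀ (ψ : ℤ → ℂ) (N : ℕ), ∑ n ∈ Icc 1 N, ψ (n : ℕ) - ∑ n ∈ Icc 1 N, ψ ((n : ℕ) - 1)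
        = ψ N - ψ 0 := by
      intro ψ N
      induction N with
      | zero => simp
      | succ N ih =>
        rw [sum_Icc_succ_top (by omega), sum_Icc_succ_top (by omega)]
        have e1 : (((N + 1 : ℕ) : ℤ) - 1) = (N : ℤ) := by push_cast; ring
        rw [e1]
        linear_combination ih
    have e1 := e (fun x => G (x - h)) N
    have e2 : ∑ n ∈ Icc 1 N, G ((n : ℕ) - ((h + 1 : ℕ) : ℤ)) = ∑ n ∈ Icc 1 N, G ((n : ℕ) - 1 - h) := by
      apply sum_congr rfl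
      intro n _
      congr 1
      push_cast; ring
    rw [e2]
    have h1 : ‖∑ n ∈ Icc 1 N, G ((n : ℕ) - (h : ℕ)) - ∑ n ∈ Icc 1 N, G ((n : ℕ) - 1 - h)‖ ≤ 2 := by
      rw [e1]
      refine (norm_sub_le _ _).trans ?_
      linarith [hG ((N : ℤ) - h), hG (0 - h)]
    refine (norm_sub_le_norm_sub_add_norm_sub _ (∑ n ∈ Icc 1 N, G ((n : ℕ) - (h : ℕ))) _).trans ?_
    push_cast
    linarith

/-- LARGE frequencies. -/
theorem large {d : ℤ} (hd : Odd d) (hdd : d * d = 1) {ε : ℝ} (hε : 0 < ε) (hε1 : ε ≤ 1) :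
    ∃ η : ℝ, 0 < η ∧ η ≤ 1 / 2 ∧ ∃ N0 : ℕ, 1 ≤ N0 ∧ ∀ N : ℕ, N0 ≤ N → ∀ α : ℝ, 0 < α → α ≤ 1 / 2 →
      1 ≤ α * (N : ℝ) ^ η → ∀ f ∈ SameT d, ‖EE f N α‖ ≤ ε * N := by
  classical
  have hdm : d % 2 = 1 := by obtain ⟨t, ht⟩ := hd; omega
  obtain ⟨θ, hθ, k0, hq⟩ := q_quant (show 0 < ε / 32 by positivity) (by linarith)
  obtain ⟨K, y0, hK, hy0, hs⟩ := surv_sum
  have hl1 := Real.log_two_lt_d9
  have hl2 := Real.log_two_gt_d9
  have hl0 : 0 < Real.log 2 := by linarith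
  refine ⟨min (1 / 2) (θ / 4), by positivity, min_le_left _ _, ?_⟩
  set η := min (1 / 2) (θ / 4) with hη
  have hη0 : 0 < η := by positivity
  have hη2 : η ≤ 1 / 2 := min_le_left _ _
  have hηθ : η ≤ θ / 4 := min_le_right _ _
  refine ⟨⌈Real.exp (2 * ((k0 : ℝ) + 1) + 8)⌉₊ + (y0 ^ K) ^ 2 + ⌈(16 / ε) ^ 2⌉₊ + 1, by omega, ?_⟩
  intro N hN α hα0 hα1 hα2 f hf
  have hN1 : 1 ≤ N := by omega
  have hNR : (1 : ℝ) ≤ N := by exact_mod_cast hN1
  have hN2 : Real.exp (2 * ((k0 : ℝ) + 1) + 8) ≤ N := by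
    have h1 : ⌈Real.exp (2 * ((k0 : ℝ) + 1) + 8)⌉₊ ≤ N := by omega
    exact (Nat.le_ceil _).trans (by exact_mod_cast h1)
  have hN3 : (y0 ^ K) ^ 2 ≤ N := by omega
  have hN4 : (16 / ε) ^ 2 ≤ (N : ℝ) := by
    have h1 : ⌈(16 / ε) ^ 2⌉₊ ≤ N := by omega
    exact (Nat.le_ceil _).trans (by exact_mod_cast h1)
  set t := Real.log N with ht
  have hexp : Real.exp t = N := Real.exp_log (by linarith)
  have htk : 2 * ((k0 : ℝ) + 1) + 8 ≤ t := by
    rw [← Real.log_exp (2 * ((k0 : ℝ) + 1) + 8)]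
    exact Real.log_le_log (Real.exp_pos _) hN2
  have hk00 : (0 : ℝ) ≤ k0 := Nat.cast_nonneg _
  have htpos : 0 < t := by linarith
  set k := ⌊t / (2 * Real.log 2)⌋₊ with hk
  have hk1 : (k : ℝ) ≤ t / (2 * Real.log 2) := Nat.floor_le (by positivity)
  have hk1' : (k : ℝ) * Real.log 2 ≤ t / 2 := by
    rw [le_div_iff₀ (by positivity)] at hk1; linarith
  have hk2 : t / (2 * Real.log 2) - 1 ≤ k := by linarith [Nat.lt_floor_add_one (t / (2 * Real.log 2))]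
  have hk2' : t / 2 - Real.log 2 ≤ k * Real.log 2 := by
    have e : t / (2 * Real.log 2) * Real.log 2 = t / 2 := by field_simp
    nlinarith
  have hkk0 : k0 ≤ k := by
    have h1 : (k0 : ℝ) ≤ t / (2 * Real.log 2) := by
      rw [le_div_iff₀ (by positivity)]
      nlinarith
    exact Nat.le_floor h1
  have h2k : ((2 : ℝ) ^ k) ^ 2 ≤ N := by
    have h2 : (2 : ℝ) ^ k = Real.exp (k * Real.log 2) := by
      rw [Real.exp_nat_mul, Real.exp_log (by norm_num)]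
    rw [h2, ← Real.exp_nat_mul, ← hexp]
    apply Real.exp_le_exp.2
    push_cast
    linarith
  have hcond : 2 ^ k * y0 ^ K ≤ N := by
    have h1 : (2 ^ k) ^ 2 ≤ N := by exact_mod_cast h2k
    by_contra hcon
    push Not at hcon
    have h3 : N * N < (2 ^ k * y0 ^ K) * (2 ^ k * y0 ^ K) := Nat.mul_lt_mul'' hcon hcon
    have h4 : (2 ^ k * y0 ^ K) * (2 ^ k * y0 ^ K) = (2 ^ k) ^ 2 * (y0 ^ K) ^ 2 := by ring
    rw [h4] at h3
    have h5 := Nat.mul_le_mul h1 hN3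
    omega
  -- the shift
  set h := ⌈1 / (4 * α)⌉₊ with hh
  have hh1 : 1 / (4 * α) ≤ h := Nat.le_ceil _
  have hh2 : (h : ℝ) ≤ 1 / (4 * α) + 1 := (Nat.ceil_lt_add_one (by positivity)).le
  have hah1 : 1 / 4 ≤ α * h := by
    have := mul_le_mul_of_nonneg_left hh1 hα0.le
    have e : α * (1 / (4 * α)) = 1 / 4 := by field_simp
    linarith
  have hah2 : α * h ≤ 3 / 4 := by
    have := mul_le_mul_of_nonneg_left hh2 hα0.le
    have e : α * (1 / (4 * α) + 1) = 1 / 4 + α := by field_simp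
    linarith
  have hhN : (h : ℝ) ≤ (N : ℝ) ^ η := by
    have h1 : (h : ℝ) * α ≤ (N : ℝ) ^ η * α := by linarith
    exact le_of_mul_le_mul_right h1 hα0
  have hhs : (N : ℝ) ^ η ≤ ε / 16 * N := by
    have h1 : (N : ℝ) ^ η ≤ (N : ℝ) ^ (1 / 2 : ℝ) := Real.rpow_le_rpow_of_exponent_le hNR hη2
    have h2 : (N : ℝ) ^ (1 / 2 : ℝ) = Real.sqrt N := (Real.sqrt_eq_rpow N).symm
    rw [h2] at h1
    have h3 : 16 / ε ≤ Real.sqrt N := Real.le_sqrt_of_sq_le hN4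
    have h4 : Real.sqrt N * Real.sqrt N = N := Real.mul_self_sqrt (by linarith)
    rw [div_le_iff₀ hε] at h3
    have h5 : 0 ≤ Real.sqrt N := Real.sqrt_nonneg _
    nlinarith
  have hqq : q step (0, 0) k (0, -(d * (h : ℤ))) ≤ ε / 32 := by
    apply hq k hkk0
    have hd1 : |(d : ℝ)| = 1 := by
      have : (d : ℝ) * d = 1 := by exact_mod_cast hdd
      have h2 : |(d : ℝ)| * |(d : ℝ)| = 1 := by rw [← abs_mul, this, abs_one]
      nlinarith [abs_nonneg (d : ℝ)]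
    push_cast
    rw [abs_neg, abs_mul, hd1, one_mul, abs_of_nonneg (by positivity)]
    refine hhN.trans ?_
    have h2 : (2 : ℝ) ^ (θ * k) = Real.exp (θ * (k * Real.log 2)) := by
      rw [Real.rpow_def_of_pos (by norm_num)]
      congr 1; ring
    rw [h2, Real.rpow_def_of_pos (by linarith), ← ht]
    apply Real.exp_le_exp.2
    have h6 : θ * (t / 2 - Real.log 2) ≤ θ * (k * Real.log 2) := mul_le_mul_of_nonneg_left hk2' hθ.le
    have h8 : t * η ≤ t * (θ / 4) := mul_le_mul_of_nonneg_left hηθ htpos.le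
    nlinarith
  -- the comparison
  have hsurv := hs y0 le_rfl k N hcond ∅ (by simp) 0 1 (by simp) d hdm 0 1 (by norm_num) (0, -(d * (h : ℤ)))
  have hV : V ∅ = 1 := by unfold V; simp
  have s1 : ‖EE f N α - ∑ n ∈ Icc 1 N, (f ((n : ℕ) - (h : ℕ)) : ℂ) * ee α (n : ℕ)‖ ≤ ε / 2 * N := by
    unfold EE
    rw [← sum_sub_distrib]
    refine (norm_sum_le _ _).trans ?_
    have hb : ∀ n ∈ Icc 1 N, ‖(f (n : ℕ) : ℂ) * ee α (n : ℕ) - (f ((n : ℕ) - (h : ℕ)) : ℂ) * ee α (n : ℕ)‖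
        ≤ 2 * (wt ∅ 0 1 (n : ℕ) * (if surv d k (0, -(d * (h : ℤ))) (0 + 1 * (n : ℕ)) then 1 else 0)) := by
      intro n _
      rw [← sub_mul, norm_mul, ee_norm, mul_one, ← Complex.ofReal_sub, Complex.norm_real, Real.norm_eq_abs]
      have hw : wt ∅ 0 1 (n : ℕ) = 1 := by unfold wt; simp
      rw [hw, one_mul, zero_add, one_mul]
      split_ifs with hsv
      · have a1 := hf.1 (n : ℕ)
        have a2 := hf.1 ((n : ℕ) - (h : ℕ))
        have a3 := abs_sub (f (n : ℕ)) (f ((n : ℕ) - (h : ℕ)))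
        linarith
      · obtain ⟨j, -, hj⟩ := coal hdm k 0 (-(d * (h : ℤ))) _ hsv
        have e : (3 : ℤ) ^ 0 * (n : ℕ) + d * (-(d * (h : ℤ))) = (n : ℕ) - (h : ℕ) := by
          have : d * (-(d * (h : ℤ))) = -(d * d) * h := by ring
          rw [this, hdd]; ring
        rw [e] at hj
        rw [hf.2 j _ _ hj, sub_self, abs_zero]
        norm_num
    refine (sum_le_sum hb).trans ?_
    rw [← mul_sum]
    rw [hV] at hsurv
    have : 8 * (N : ℝ) * 1 * q step (0, 0) k (0, -(d * (h : ℤ))) ≤ 8 * N * 1 * (ε / 32) :=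
      mul_le_mul_of_nonneg_left hqq (by positivity)
    linarith
  have s2 : ∑ n ∈ Icc 1 N, (f ((n : ℕ) - (h : ℕ)) : ℂ) * ee α (n : ℕ)
      = ∑ n ∈ Icc 1 N, (fun x : ℤ => (f x : ℂ) * ee α (x + h)) ((n : ℕ) - (h : ℕ)) := by
    apply sum_congr rfl
    intro n _
    simp
  have s3 := transl (fun x : ℤ => (f x : ℂ) * ee α (x + h)) (fun x => by
    rw [norm_mul, ee_norm, mul_one, Complex.norm_real, Real.norm_eq_abs]; exact hf.1 x) N h
  rw [← s2] at s3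
  have s4 : ∑ n ∈ Icc 1 N, (fun x : ℤ => (f x : ℂ) * ee α (x + h)) (n : ℕ) = EE f N α * ee α h := by
    unfold EE
    rw [sum_mul]
    apply sum_congr rfl
    intro n _
    simp only
    rw [ee_add]
    ring
  rw [s4] at s3
  have s5 : ‖EE f N α * (1 - ee α h)‖ ≤ ε * N := by
    have e : EE f N α * (1 - ee α h) = (EE f N α - ∑ n ∈ Icc 1 N, (f ((n : ℕ) - (h : ℕ)) : ℂ) * ee α (n : ℕ))
        - (EE f N α * ee α h - ∑ n ∈ Icc 1 N, (f ((n : ℕ) - (h : ℕ)) : ℂ) * ee α (n : ℕ)) := by ring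
    rw [e]
    refine (norm_sub_le _ _).trans ?_
    have : 2 * (h : ℝ) ≤ ε / 8 * N := by linarith
    have hN0 : 0 ≤ ε * N := by positivity
    linarith
  have s6 : 1 ≤ ‖1 - ee α h‖ := by
    have h1 : (1 - ee α h).re = 1 - Real.cos (2 * Real.pi * α * (h : ℝ)) := by
      unfold ee
      rw [Complex.sub_re, Complex.one_re, Complex.exp_ofReal_mul_I_re]
      simp
    have h2 : Real.cos (2 * Real.pi * α * (h : ℝ)) ≤ 0 := by
      apply Real.cos_nonpos_of_pi_div_two_le_of_le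
      · have := mul_le_mul_of_nonneg_left hah1 (by positivity : 0 ≤ 2 * Real.pi)
        linarith
      · have := mul_le_mul_of_nonneg_left hah2 (by positivity : 0 ≤ 2 * Real.pi)
        linarith
    have h3 := Complex.abs_re_le_norm (1 - ee α h)
    rw [h1] at h3
    have h4 := le_abs_self (1 - Real.cos (2 * Real.pi * α * (h : ℝ)))
    linarith
  rw [norm_mul] at s5
  have h0 := norm_nonneg (EE f N α)
  nlinarith

/-- MIDDLE frequencies, complex form. -/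
theorem mid' {d : ℤ} (hd : Odd d) (hd3 : IsCoprime d 3) (hdd : d * d = 1) {ε : ℝ} (hε : 0 < ε) (hε1 : ε ≤ 1) :
    ∃ η1 : ℝ, 0 < η1 ∧ η1 ≤ 1 / 2 ∧ ∀ η : ℝ, 0 < η → η ≤ η1 → ∃ C : ℝ, 1 ≤ C ∧ ∃ N0 : ℕ, 1 ≤ N0 ∧
      ∀ N : ℕ, N0 ≤ N → ∀ α : ℝ, C ≤ α * N → α * (N : ℝ) ^ η ≤ 1 → ∀ f ∈ SameT d, ‖EE f N α‖ ≤ ε * N := by
  obtain ⟨η1, h1, h2, h⟩ := mid hd hd3 hdd (show 0 < ε / 2 by positivity) (by linarith)
  refine ⟨η1, h1, h2, fun η h3 h4 => ?_⟩
  obtain ⟨C, hC, N0, hN0, h5⟩ := h η h3 h4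
  refine ⟨C, hC, N0, hN0, fun N hN α hα1 hα2 f hf => ?_⟩
  have a1 := h5 N hN α 0 hα1 hα2 f hf
  have a2 := h5 N hN α (-(Real.pi / 2)) hα1 hα2 f hf
  have e : EE f N α = ((∑ n ∈ Icc 1 N, f (n : ℕ) * Real.cos (2 * Real.pi * α * (n : ℕ) + 0) : ℝ) : ℂ)
      + ((∑ n ∈ Icc 1 N, f (n : ℕ) * Real.cos (2 * Real.pi * α * (n : ℕ) + (-(Real.pi / 2))) : ℝ) : ℂ) * Complex.I := by
    unfold EE
    push_cast
    rw [sum_mul, ← sum_add_distrib]
    apply sum_congr rfl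
    intro n _
    rw [ee_cos]
    push_cast
    ring
  rw [e]
  refine (norm_add_le _ _).trans ?_
  rw [norm_mul, Complex.norm_I, mul_one, Complex.norm_real, Complex.norm_real, Real.norm_eq_abs, Real.norm_eq_abs]
  linarith

theorem ee_periodic (α : ℝ) (n x : ℤ) : ee (α + n) x = ee α x := by
  unfold ee
  rw [Complex.exp_eq_exp_iff_exists_int]
  refine ⟨n * x, ?_⟩
  push_cast
  ring

theorem EE_round (f : ℤ → ℝ) (N : ℕ) (α : ℝ) : EE f N α = EE f N (α - round α) := by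
  unfold EE
  apply sum_congr rfl
  intro n _
  have := ee_periodic α (-(round α)) (n : ℕ)
  push_cast at this
  rw [← sub_eq_add_neg] at this
  rw [this]

theorem EE_neg (f : ℤ → ℝ) (N : ℕ) (α : ℝ) : ‖EE f N (-α)‖ = ‖EE f N α‖ := by
  have : EE f N (-α) = (starRingEnd ℂ) (EE f N α) := by
    unfold EE
    rw [map_sum]
    apply sum_congr rfl
    intro n _
    rw [map_mul, Complex.conj_ofReal]
    congr 1
    unfold ee
    rw [← Complex.exp_conj, map_mul, Complex.conj_ofReal, Complex.conj_I]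
    congr 1
    push_cast
    ring
  rw [this, Complex.norm_conj]

theorem EE_abs (f : ℤ → ℝ) (N : ℕ) (α : ℝ) : ‖EE f N α‖ = ‖EE f N |α - round α|‖ := by
  rw [EE_round]
  rcases abs_choice (α - round α) with h | h
  · rw [h]
  · rw [h, EE_neg]

/-- FOURIER UNIFORMITY away from the integers -/
theorem fourier {d : ℤ} (hd : Odd d) (hd3 : IsCoprime d 3) (hdd : d * d = 1) {ε : ℝ} (hε : 0 < ε) (hε1 : ε ≤ 1) :
    ∃ C : ℝ, 1 ≤ C ∧ ∃ N0 : ℕ, 1 ≤ N0 ∧ ∀ N : ℕ, N0 ≤ N → ∀ α : ℝ, C ≤ |α - round α| * N →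
      ∀ f ∈ SameT d, ‖EE f N α‖ ≤ ε * N := by
  obtain ⟨η2, hη2, hη22, N2, hN2, h2⟩ := large hd hdd hε hε1
  obtain ⟨η1, hη1, hη11, h1⟩ := mid' hd hd3 hdd hε hε1
  obtain ⟨C, hC, N1, hN1, h1'⟩ := h1 (min η1 η2) (lt_min hη1 hη2) (min_le_left _ _)
  refine ⟨C, hC, N1 + N2, by omega, ?_⟩
  intro N hN α hα f hf
  have hNR : (1 : ℝ) ≤ N := by
    have : 1 ≤ N := by omega
    exact_mod_cast this
  rw [EE_abs]
  set a := |α - round α| with ha
  have ha0 : 0 < a := by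
    by_contra hcon
    push Not at hcon
    nlinarith
  have ha1 : a ≤ 1 / 2 := abs_sub_round α
  rcases le_or_gt (a * (N : ℝ) ^ (min η1 η2)) 1 with hc | hc
  · exact h1' N (by omega) a hα hc f hf
  · apply h2 N (by omega) a ha0 ha1 _ f hf
    refine hc.le.trans ?_
    apply mul_le_mul_of_nonneg_left _ ha0.le
    exact Real.rpow_le_rpow_of_exponent_le hNR (min_le_right _ _)

/-- summation by parts -/
theorem abel (f : ℤ → ℝ) (α : ℝ) (N : ℕ) :
    EE f N α = ((∑ n ∈ Icc 1 N, f (n : ℕ) : ℝ) : ℂ) * ee α (N + 1)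
      - ∑ n ∈ Icc 1 N, ((∑ m ∈ Icc 1 n, f (m : ℕ) : ℝ) : ℂ) * (ee α ((n : ℕ) + 1) - ee α (n : ℕ)) := by
  unfold EE
  induction N with
  | zero => simp
  | succ N ih =>
    rw [sum_Icc_succ_top (by omega), sum_Icc_succ_top (by omega), sum_Icc_succ_top (by omega), ih,
      sum_Icc_succ_top (by omega)]
    push_cast
    ring

theorem ee_diff (α : ℝ) (x : ℤ) : ‖ee α (x + 1) - ee α x‖ ≤ 2 * Real.pi * |α| := by
  rw [ee_add]
  have e : ee α x * ee α 1 - ee α x = ee α x * (ee α 1 - 1) := by ring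
  rw [e, norm_mul, ee_norm, one_mul]
  have h := Real.norm_exp_I_mul_ofReal_sub_one_le (x := 2 * Real.pi * α)
  have e2 : ee α 1 = Complex.exp (Complex.I * ((2 * Real.pi * α : ℝ) : ℂ)) := by
    unfold ee
    congr 1
    push_cast
    ring
  rw [e2]
  refine h.trans ?_
  rw [Real.norm_eq_abs, abs_mul, abs_of_nonneg (by positivity)]

end Pool.Agent.W41.FU
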