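import Pool.Agent.W41.FU7

/-! Fourier uniformity of invariant sets. -/

set_option autoImplicit false

namespace Pool.Agent.W41.FU

open Pool.Agent.H320R2.PD Pool.Agent.H499R2.ND Finset Pool.Agent.H499R2.CO Pool.Agent.W41 Filter Topology

/-- the balanced function of an invariant set -/
noncomputable def bal (s : ℤ) (S : Set ℤ) (δ : ℝ) (x : ℤ) : ℝ := ind s S x - δ

theorem HD_mem {s : ℤ} (hs : s = 1 ∨ s = -1) {S : Set ℤ} {δ : ℝ} (h : HD s S δ) : 0 ≤ δ ∧ δ ≤ 1 := by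
  constructor
  · exact ge_of_tendsto' (cF_tendsto hs h) fun N => by positivity
  · apply le_of_tendsto' (cF_tendsto hs h) fun N => ?_
    apply div_le_one_of_le₀ _ (Nat.cast_nonneg _)
    have := cF_compl s S N
    exact_mod_cast (by omega : cF s S N ≤ N)

theorem bal_abs {s : ℤ} {S : Set ℤ} {δ : ℝ} (h0 : 0 ≤ δ) (h1 : δ ≤ 1) (x : ℤ) : |bal s S δ x| ≤ 1 := by
  unfold bal
  have h2 := ind_nonneg s S x
  have h3 := ind_le_one s S x
  rw [abs_le]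
  constructor <;> linarith

theorem bal_same {s : ℤ} (hs : s = 1 ∨ s = -1) {S : Set ℤ} (hS : Inv 1 S) {δ : ℝ} (h0 : 0 ≤ δ) (h1 : δ ≤ 1) :
    bal s S δ ∈ SameT s := by
  refine ⟨bal_abs h0 h1, fun j x y h => ?_⟩
  have hi : ∀ x, bal s S δ (Tz s x) = bal s S δ x := fun x => by
    unfold bal; rw [ind_inv hs hS]
  rw [← iter_inv hi j x, ← iter_inv hi j y, h]

theorem sum_bal (s : ℤ) (S : Set ℤ) (δ : ℝ) (N : ℕ) :
    ∑ n ∈ Icc 1 N, bal s S δ (n : ℕ) = (cF s S N : ℝ) - δ * N := by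
  unfold bal cF ind
  rw [sum_sub_distrib, card_filter]
  simp [mul_comm]

theorem small {s : ℤ} (hs : s = 1 ∨ s = -1) {ε : ℝ} (hε : 0 < ε) {C : ℝ} (hC : 1 ≤ C) : ∃ N0 : ℕ, 1 ≤ N0 ∧
    ∀ S : Set ℤ, Inv 1 S → ∀ δ : ℝ, HD s S δ → ∀ N : ℕ, N0 ≤ N → ∀ α : ℝ, |α| * N ≤ C →
      ‖EE (bal s S δ) N α‖ ≤ ε * N := by
  set K : ℝ := 1 + 2 * Real.pi * C with hK
  have hKp : 0 < K := by positivity
  obtain ⟨n0, h⟩ := unif hs (show 0 < ε / (2 * K) by positivity)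
  obtain ⟨n1, hn1⟩ := exists_nat_ge (2 * K * n0 / ε)
  refine ⟨n0 + n1 + 1, by omega, fun S hS δ hδ N hN α hα => ?_⟩
  obtain ⟨d0, d1⟩ := HD_mem hs hδ
  have hN1 : (0 : ℝ) < N := by exact_mod_cast (by omega : 0 < N)
  have hb : ∀ n : ℕ, n ≤ N → |(cF s S n : ℝ) - δ * n| ≤ ε / (2 * K) * N + n0 := by
    intro n hn
    rcases le_or_gt n0 n with h1 | h1
    · refine (h S hS δ hδ n h1).trans ?_
      have : (n : ℝ) ≤ N := by exact_mod_cast hn
      have h2 : ε / (2 * K) * n ≤ ε / (2 * K) * N := mul_le_mul_of_nonneg_left this (by positivity)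
      have h3 : (0 : ℝ) ≤ n0 := Nat.cast_nonneg _
      linarith
    · have h2 : (cF s S n : ℝ) ≤ n := by
        have := cF_compl s S n
        exact_mod_cast (by omega : cF s S n ≤ n)
      have h3 : (0 : ℝ) ≤ cF s S n := Nat.cast_nonneg _
      have h4 : δ * n ≤ n := by
        have : (0 : ℝ) ≤ n := Nat.cast_nonneg _
        nlinarith
      have h5 : 0 ≤ δ * n := by positivity
      have h6 : (n : ℝ) ≤ n0 := by exact_mod_cast h1.le
      have h7 : 0 ≤ ε / (2 * K) * N := by positivity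
      rw [abs_le]
      constructor <;> linarith
  set B : ℝ := ε / (2 * K) * N + n0 with hB
  have hB0 : 0 ≤ B := by positivity
  rw [abel]
  refine (norm_sub_le _ _).trans ?_
  have e1 : ‖((∑ n ∈ Icc 1 N, bal s S δ (n : ℕ) : ℝ) : ℂ) * ee α (N + 1)‖ ≤ B := by
    rw [norm_mul, ee_norm, mul_one, Complex.norm_real, Real.norm_eq_abs, sum_bal]
    exact hb N le_rfl
  have e2 : ‖∑ n ∈ Icc 1 N, ((∑ m ∈ Icc 1 n, bal s S δ (m : ℕ) : ℝ) : ℂ) * (ee α ((n : ℕ) + 1) - ee α (n : ℕ))‖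
      ≤ 2 * Real.pi * C * B := by
    refine (norm_sum_le _ _).trans ?_
    have h1 : ∀ n ∈ Icc 1 N, ‖((∑ m ∈ Icc 1 n, bal s S δ (m : ℕ) : ℝ) : ℂ) * (ee α ((n : ℕ) + 1) - ee α (n : ℕ))‖
        ≤ B * (2 * Real.pi * |α|) := by
      intro n hn
      rw [norm_mul, Complex.norm_real, Real.norm_eq_abs, sum_bal]
      exact mul_le_mul (hb n (mem_Icc.1 hn).2) (ee_diff α n) (norm_nonneg _) hB0
    refine (sum_le_sum h1).trans ?_
    rw [sum_const, Nat.card_Icc, Nat.add_sub_cancel, nsmul_eq_mul]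
    calc (N : ℝ) * (B * (2 * Real.pi * |α|)) = 2 * Real.pi * B * (|α| * N) := by ring
      _ ≤ 2 * Real.pi * B * C := mul_le_mul_of_nonneg_left hα (by positivity)
      _ = _ := by ring
  have e3 : K * B ≤ ε * N := by
    have h1 : K * (ε / (2 * K) * N) = ε / 2 * N := by field_simp
    have h2 : 2 * K * n0 / ε ≤ N := hn1.trans (by exact_mod_cast (by omega : n1 ≤ N))
    rw [div_le_iff₀ hε] at h2
    rw [hB, mul_add, h1]
    linarith
  have e4 : B + 2 * Real.pi * C * B = K * B := by rw [hK]; ring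
  linarith

/-- FOURIER UNIFORMITY of invariant sets. -/
theorem fourier_inv {s : ℤ} (hs : s = 1 ∨ s = -1) {ε : ℝ} (hε : 0 < ε) (hε1 : ε ≤ 1) : ∃ N0 : ℕ, 1 ≤ N0 ∧
    ∀ S : Set ℤ, Inv 1 S → ∀ δ : ℝ, HD s S δ → ∀ N : ℕ, N0 ≤ N → ∀ α : ℝ,
      ‖EE (bal s S δ) N α‖ ≤ ε * N := by
  have hodd : Odd s := by rcases hs with rfl | rfl <;> decide
  have hco : IsCoprime s 3 := by
    rcases hs with rfl | rfl
    · exact isCoprime_one_left
    · exact (isCoprime_one_left).neg_left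
  have hss : s * s = 1 := by rcases hs with rfl | rfl <;> norm_num
  obtain ⟨C, hC, N1, hN1, h1⟩ := fourier hodd hco hss hε hε1
  obtain ⟨N2, hN2, h2⟩ := small hs hε hC
  refine ⟨N1 + N2, by omega, fun S hS δ hδ N hN α => ?_⟩
  obtain ⟨d0, d1⟩ := HD_mem hs hδ
  rcases le_or_gt C (|α - round α| * N) with h | h
  · exact h1 N (by omega) α h _ (bal_same hs hS d0 d1)
  · rw [EE_abs]
    apply h2 S hS δ hδ N (by omega)
    rw [abs_abs]
    exact h.le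

/-- restriction to an interval -/
noncomputable def res (M N : ℕ) (f : ℤ → ℝ) (x : ℤ) : ℝ := if (M : ℤ) < x ∧ x ≤ N then f x else 0

theorem EE_res (f : ℤ → ℝ) {M N X : ℕ} (hMN : M ≤ N) (hNX : N ≤ X) (α : ℝ) :
    EE (res M N f) X α = EE f N α - EE f M α := by
  have key : ∀ L : ℕ, L ≤ X → EE f L α = ∑ n ∈ Icc 1 X, (if n ≤ L then (f (n : ℕ) : ℂ) * ee α (n : ℕ) else 0) := by
    intro L hL
    unfold EE
    rw [← sum_filter]
    apply sum_congr _ fun _ _ => rfl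
    ext n
    simp only [mem_Icc, mem_filter]
    omega
  rw [key N hNX, key M (hMN.trans hNX)]
  unfold EE
  rw [← sum_sub_distrib]
  apply sum_congr rfl
  intro n _
  unfold res
  by_cases h1 : n ≤ M
  · have h2 : ¬ ((M : ℤ) < (n : ℕ) ∧ ((n : ℕ) : ℤ) ≤ N) := by omega
    have h3 : n ≤ N := by omega
    rw [if_neg h2, if_pos h3, if_pos h1]
    simp
  · by_cases h3 : n ≤ N
    · have h2 : ((M : ℤ) < (n : ℕ) ∧ ((n : ℕ) : ℤ) ≤ N) := by omega
      rw [if_pos h2, if_pos h3, if_neg h1]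
      simp
    · have h2 : ¬ ((M : ℤ) < (n : ℕ) ∧ ((n : ℕ) : ℤ) ≤ N) := by omega
      rw [if_neg h2, if_neg h3, if_neg h1]
      simp

theorem EE_triv {f : ℤ → ℝ} (hf : ∀ x, |f x| ≤ 1) (N : ℕ) (α : ℝ) : ‖EE f N α‖ ≤ N := by
  unfold EE
  refine (norm_sum_le _ _).trans ?_
  have : ∀ n ∈ Icc 1 N, ‖(f (n : ℕ) : ℂ) * ee α (n : ℕ)‖ ≤ 1 := by
    intro n _
    rw [norm_mul, ee_norm, mul_one, Complex.norm_real, Real.norm_eq_abs]
    exact hf _
  refine (sum_le_sum this).trans ?_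
  simp

/-- intervals -/
theorem fourier_int {s : ℤ} (hs : s = 1 ∨ s = -1) {ε : ℝ} (hε : 0 < ε) (hε1 : ε ≤ 1) : ∃ N0 : ℕ, 1 ≤ N0 ∧
    ∀ S : Set ℤ, Inv 1 S → ∀ δ : ℝ, HD s S δ → ∀ X : ℕ, N0 ≤ X → ∀ N : ℕ, N ≤ X → ∀ M : ℕ, M ≤ N → ∀ α : ℝ,
      ‖EE (res M N (bal s S δ)) X α‖ ≤ ε * X := by
  obtain ⟨n0, hn0, h⟩ := fourier_inv hs (show 0 < ε / 2 by positivity) (by linarith)
  obtain ⟨n1, hn1⟩ := exists_nat_ge (2 * n0 / ε)
  refine ⟨n0 + n1, by omega, fun S hS δ hδ X hX N hN M hM α => ?_⟩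
  obtain ⟨d0, d1⟩ := HD_mem hs hδ
  have hb : ∀ n : ℕ, n ≤ X → ‖EE (bal s S δ) n α‖ ≤ ε / 2 * X := by
    intro n hn
    rcases le_or_gt n0 n with h1 | h1
    · refine (h S hS δ hδ n h1 α).trans ?_
      have : (n : ℝ) ≤ X := by exact_mod_cast hn
      exact mul_le_mul_of_nonneg_left this (by positivity)
    · refine (EE_triv (bal_abs d0 d1) n α).trans ?_
      have h2 : 2 * n0 / ε ≤ X := hn1.trans (by exact_mod_cast (by omega : n1 ≤ X))
      rw [div_le_iff₀ hε] at h2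
      have h3 : (n : ℝ) ≤ n0 := by exact_mod_cast h1.le
      linarith
  rw [EE_res _ hM hN]
  refine (norm_sub_le _ _).trans ?_
  have := hb N hN
  have := hb M (hM.trans hN)
  linarith

end Pool.Agent.W41.FU
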