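import Pool.Agent.W41.FU11

/-! Correlations of invariant sets with shifts. -/

set_option autoImplicit false

namespace Pool.Agent.W41.FU

open Finset Pool.Agent.H499R2.ND Pool.Agent.W41

/-- correlation at the shift `h` -/
noncomputable def Cor (f g : ℤ → ℝ) (N h : ℕ) : ℝ := ∑ x ∈ Icc 1 N, f (x : ℕ) * g ((x : ℕ) + (h : ℕ))

theorem TT_cor (f g w : ℤ → ℝ) (N : ℕ) : TT (res 0 N f) (res 0 (2 * N) g) (res 0 N w) (2 * N) 1 (-1) 1 0 =
    ∑ h ∈ Icc 1 N, w (h : ℕ) * Cor f g N h := by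
  unfold TT Cor
  have hsub : Icc 1 N ⊆ Icc 1 (2 * N) := Icc_subset_Icc le_rfl (by omega)
  have e1 : ∀ x ∈ Icc 1 (2 * N), ∑ y ∈ Icc 1 (2 * N), ∑ z ∈ Icc 1 (2 * N),
      (if 1 * ((x : ℕ) : ℤ) + (-1) * ((y : ℕ) : ℤ) + 1 * ((z : ℕ) : ℤ) = 0 then res 0 N f (x : ℕ) *
        res 0 (2 * N) g (y : ℕ) * res 0 N w (z : ℕ) else 0)
      = if x ∈ Icc 1 N then ∑ z ∈ Icc 1 N, w (z : ℕ) * (f (x : ℕ) * g ((x : ℕ) + (z : ℕ))) else 0 := by
    intro x hx
    rw [mem_Icc] at hx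
    rw [sum_comm]
    by_cases hxN : x ∈ Icc 1 N
    · rw [if_pos hxN]
      rw [mem_Icc] at hxN
      rw [← sum_subset hsub]
      · apply sum_congr rfl
        intro z hz
        rw [mem_Icc] at hz
        rw [sum_eq_single (x + z)]
        · have h0 : 1 * ((x : ℕ) : ℤ) + (-1) * ((x + z : ℕ) : ℤ) + 1 * ((z : ℕ) : ℤ) = 0 := by push_cast; ring
          rw [if_pos h0]
          unfold res
          rw [if_pos (by omega), if_pos (by push_cast; omega), if_pos (by omega)]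
          push_cast
          ring
        · intro y _ hy
          rw [if_neg (by omega)]
        · intro h
          rw [mem_Icc] at h
          omega
      · intro z _ hz
        apply sum_eq_zero
        intro y _
        have : res 0 N w (z : ℕ) = 0 := by
          unfold res
          rw [mem_Icc] at hz
          rw [if_neg (by omega)]
        rw [this]
        simp
    · rw [if_neg hxN]
      apply sum_eq_zero
      intro z _
      apply sum_eq_zero
      intro y _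
      have : res 0 N f (x : ℕ) = 0 := by
        unfold res
        rw [mem_Icc] at hxN
        rw [if_neg (by omega)]
      rw [this]
      simp
  rw [sum_congr rfl e1, ← sum_filter]
  have e2 : (Icc 1 (2 * N)).filter (fun x => x ∈ Icc 1 N) = Icc 1 N := by
    ext x
    simp only [mem_filter, mem_Icc]
    omega
  rw [e2, sum_comm]
  apply sum_congr rfl
  intro z _
  rw [mul_sum]

theorem cor_count {s : ℤ} (hs : s = 1 ∨ s = -1) (S T : Set ℤ) (N h : ℕ) :
    Cor (ind s S) (ind s T) N h = ({x : ℤ | x ∈ S ∧ x + s * h ∈ T ∧ 0 < s * x ∧ s * x ≤ N}.ncard : ℝ) := by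
  classical
  have e : {x : ℤ | x ∈ S ∧ x + s * h ∈ T ∧ 0 < s * x ∧ s * x ≤ N} =
      (((Icc 1 N).filter (fun x : ℕ => s * (x : ℤ) ∈ S ∧ s * ((x : ℤ) + h) ∈ T)).image (fun x : ℕ => s * (x : ℤ)) :
        Finset ℤ) := by
    ext x
    simp only [Set.mem_ofPred_eq, coe_image, coe_filter, Set.mem_image, mem_Icc]
    constructor
    · rintro ⟨h1, h2, h3, h4⟩
      refine ⟨(s * x).toNat, ?_, ?_⟩
      · rw [Int.toNat_of_nonneg h3.le, mul_add, s_mul hs]
        exact ⟨⟨by omega, by omega⟩, h1, h2⟩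
      · rw [Int.toNat_of_nonneg h3.le, s_mul hs]
    · rintro ⟨x', ⟨⟨h1, h2⟩, h3, h4⟩, rfl⟩
      rw [s_mul hs]
      refine ⟨h3, ?_, by omega, by omega⟩
      rwa [← mul_add]
  rw [e, Set.ncard_coe_finset, card_image_of_injective, card_filter]
  · unfold Cor
    push_cast
    apply sum_congr rfl; intro x hx
    unfold ind
    by_cases h1 : s * (x : ℤ) ∈ S <;> by_cases h2 : s * ((x : ℤ) + h) ∈ T <;> simp [h1, h2]
  · intro x x' h
    have k1 := congrArg (fun x => s * x) h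
    simp only [s_mul hs, Nat.cast_inj] at k1
    exact k1

/-- almost all shifts -/
theorem shifts {s : ℤ} (hs : s = 1 ∨ s = -1) {ε : ℝ} (hε : 0 < ε) (hε1 : ε ≤ 1) :
    ∃ N0 : ℕ, 1 ≤ N0 ∧ ∀ S T : Set ℤ, Inv 1 S → Inv 1 T → ∀ δ τ : ℝ, HD s S δ → HD s T τ →
    ∀ N : ℕ, N0 ≤ N →
    ({h : ℕ | 1 ≤ h ∧ h ≤ N ∧ ε * N < |({x : ℤ | x ∈ S ∧ x + s * h ∈ T ∧ 0 < s * x ∧ s * x ≤ N}.ncard : ℝ)
      - δ * τ * N|}.ncard : ℝ) ≤ ε * N := by
  classical
  have hε2 : 0 < ε ^ 2 / 8 := by positivity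
  have hε3 : ε ^ 2 / 8 ≤ 1 := by nlinarith
  obtain ⟨n1, hn1, h1⟩ := fourier_int hs hε2 hε3
  refine ⟨n1, by omega, ?_⟩
  intro S T hS hT δ τ hδ hτ N hN
  obtain ⟨d0, d1⟩ := HD_mem hs hδ
  obtain ⟨t0, t1⟩ := HD_mem hs hτ
  have hN0 : (0 : ℝ) < N := by exact_mod_cast (by omega : 0 < N)
  set R : ℕ → ℝ := fun h => Cor (ind s S) (ind s T) N h with hR
  set B : Finset ℕ := (Icc 1 N).filter (fun n => ε * N < |R n - δ * τ * N|) with hB
  have e1 : {h : ℕ | 1 ≤ h ∧ h ≤ N ∧ ε * N < |({x : ℤ | x ∈ S ∧ x + s * h ∈ T ∧ 0 < s * x ∧ s * x ≤ N}.ncard : ℝ)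
      - δ * τ * N|} = (B : Set ℕ) := by
    ext n
    simp only [Set.mem_ofPred_eq, hB, coe_filter, mem_Icc]
    rw [← cor_count hs S T]
    tauto
  rw [e1, Set.ncard_coe_finset]
  have hsg : ∀ x : ℝ, |(if 0 ≤ x then (1 : ℝ) else -1)| ≤ 1 ∧ (if 0 ≤ x then (1 : ℝ) else -1) * x = |x| := by
    intro x
    by_cases h : 0 ≤ x
    · rw [if_pos h, abs_of_nonneg h]
      norm_num
    · rw [if_neg h, abs_of_neg (not_le.1 h)]
      norm_num
  obtain ⟨w, hw⟩ : ∃ w : ℤ → ℝ, w = (fun x => if x.toNat ∈ B then (if 0 ≤ R x.toNat - δ * τ * N then (1 : ℝ) else -1) else 0) :=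
    ⟨_, rfl⟩
  have hw1 : ∀ x, |w x| ≤ 1 := by
    intro x
    rw [hw]
    simp only
    split_ifs
    · norm_num
    · norm_num
    · norm_num
  have hX : n1 ≤ 2 * N := by omega
  have b1 := TT_bound (f := res 0 N (bal s S δ)) (g := res 0 (2 * N) (ind s T)) (h := res 0 N w) (N := 2 * N) (one_ne_zero)
    (by norm_num : (-1 : ℤ) ≠ 0) (one_ne_zero) 0
    (res_abs (bal_abs d0 d1) _ _) (res_abs (ind_abs s T) _ _) (res_abs hw1 _ _)
    (Or.inl (h1 S hS δ hδ (2 * N) hX N (by omega) 0 (by omega)))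
  have b2 := TT_bound (f := res 0 N (fun _ => δ)) (g := res 0 (2 * N) (bal s T τ)) (h := res 0 N w) (N := 2 * N) (one_ne_zero)
    (by norm_num : (-1 : ℤ) ≠ 0) (one_ne_zero) 0
    (res_abs (fun _ => by rw [abs_of_nonneg d0]; exact d1) _ _) (res_abs (bal_abs t0 t1) _ _) (res_abs hw1 _ _)
    (Or.inr (Or.inl (h1 T hT τ hτ (2 * N) hX (2 * N) le_rfl 0 (by omega))))
  rw [TT_cor] at b1 b2
  have e2 : ∑ h ∈ Icc 1 N, w (h : ℕ) * Cor (bal s S δ) (ind s T) N h + ∑ h ∈ Icc 1 N, w (h : ℕ) * Cor (fun _ => δ) (bal s T τ) N h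
      = ∑ h ∈ B, |R h - δ * τ * N| := by
    rw [← sum_add_distrib]
    have hsub : B ⊆ Icc 1 N := filter_subset _ _
    rw [← sum_subset hsub]
    · apply sum_congr rfl
      intro h hh
      rw [← mul_add]
      have e3 : Cor (bal s S δ) (ind s T) N h + Cor (fun _ => δ) (bal s T τ) N h = R h - δ * τ * N := by
        rw [hR]
        unfold Cor
        rw [← sum_add_distrib]
        have : δ * τ * (N : ℝ) = ∑ x ∈ Icc 1 N, δ * τ := by simp; ring
        rw [this]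
        simp only
        rw [← sum_sub_distrib]
        apply sum_congr rfl
        intro x _
        unfold bal
        ring
      rw [e3, hw]
      simp only [Int.toNat_natCast]
      rw [if_pos hh, ← (hsg _).2]
    · intro n _ hn
      rw [hw]
      simp only [Int.toNat_natCast]
      rw [if_neg hn, zero_mul, zero_mul, add_zero]
  have h2 : ∑ h ∈ B, |R h - δ * τ * N| ≤ ε ^ 2 * N ^ 2 := by
    rw [← e2]
    have c1 := le_of_abs_le b1
    have c2 := le_of_abs_le b2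
    push_cast at c1 c2
    have : ε ^ 2 / 8 * (2 * (N : ℝ)) * (2 * N) = ε ^ 2 / 2 * N ^ 2 := by ring
    rw [this] at c1 c2
    linarith
  have h3 : ∑ n ∈ B, (ε * N) ≤ ∑ n ∈ B, |R n - δ * τ * N| := by
    apply sum_le_sum
    intro n hn
    rw [hB, mem_filter] at hn
    exact hn.2.le
  rw [sum_const, nsmul_eq_mul] at h3
  have h5 : (B.card : ℝ) * (ε * N) ≤ (ε * N) * (ε * N) := by
    refine (h3.trans h2).trans (le_of_eq ?_)
    ring
  exact le_of_mul_le_mul_right h5 (by positivity)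

end Pool.Agent.W41.FU
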