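import Pool.Agent.W41.MU3

/-! Local constancy along progressions of odd difference. -/

set_option autoImplicit false

namespace Pool.Agent.W41.MU

open Pool.Agent.H320R2.PD Pool.Agent.H499R2.ND Finset Pool.Agent.H499R2.CO Pool.Agent.W41.FU Pool.Agent.W41

theorem lc {d : ℤ} (hd : Odd d) (hdd : d * d = 1) {ε : ℝ} (hε : 0 < ε) (hε1 : ε ≤ 1) :
    ∃ θ : ℝ, 0 < θ ∧ θ ≤ 1 / 2 ∧ ∃ M0 : ℕ, 1 ≤ M0 ∧ ∀ M : ℕ, M0 ≤ M → ∀ f ∈ SameT d, ∀ c : ℤ, c % 2 = 1 →
      ∀ x0 h : ℤ, |(h : ℝ)| ≤ (M : ℝ) ^ θ →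
      ∑ m ∈ Icc 1 M, |f (x0 + c * (m : ℕ) + h) - f (x0 + c * (m : ℕ))| ≤ ε * M := by
  classical
  have hdm : d % 2 = 1 := by obtain ⟨t, ht⟩ := hd; omega
  obtain ⟨θ, hθ, k0, hq⟩ := q_quant (show 0 < ε / 16 by positivity) (by linarith)
  obtain ⟨K, y0, hK, hy0, hs⟩ := surv_sum
  have hl1 := Real.log_two_lt_d9
  have hl2 := Real.log_two_gt_d9
  have hl0 : 0 < Real.log 2 := by linarith
  refine ⟨min (1 / 2) (θ / 4), by positivity, min_le_left _ _, ?_⟩
  set η := min (1 / 2) (θ / 4) with hη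
  have hη0 : 0 < η := by positivity
  have hηθ : η ≤ θ / 4 := min_le_right _ _
  refine ⟨⌈Real.exp (2 * ((k0 : ℝ) + 1) + 8)⌉₊ + (y0 ^ K) ^ 2 + 1, by omega, ?_⟩
  intro N hN f hf c hc x0 h hh
  have hN1 : 1 ≤ N := by omega
  have hNR : (1 : ℝ) ≤ N := by exact_mod_cast hN1
  have hN2 : Real.exp (2 * ((k0 : ℝ) + 1) + 8) ≤ N := by
    have h1 : ⌈Real.exp (2 * ((k0 : ℝ) + 1) + 8)⌉₊ ≤ N := by omega
    exact (Nat.le_ceil _).trans (by exact_mod_cast h1)
  have hN3 : (y0 ^ K) ^ 2 ≤ N := by omega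
  set t := Real.log N with ht
  have hexp : Real.exp t = N := Real.exp_log (by linarith)
  have htk : 2 * ((k0 : ℝ) + 1) + 8 ≤ t := by
    rw [← Real.log_exp (2 * ((k0 : ℝ) + 1) + 8)]
    exact Real.log_le_log (Real.exp_pos _) hN2
  have hk00 : (0 : ℝ) ≤ k0 := Nat.cast_nonneg _
  have htpos : 0 < t := by linarith
  set k := ⌊t / (2 * Real.log 2)⌋₊ with hk
  have hk1 : (k : ℝ) ≤ t / (2 * Real.log 2) := Nat.floor_le (by positivity)
  have hk1' : (k : ℝ) * Real.log 2 ≤ t / 2 := by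
    rw [le_div_iff₀ (by positivity)] at hk1; linarith
  have hk2 : t / (2 * Real.log 2) - 1 ≤ k := by linarith [Nat.lt_floor_add_one (t / (2 * Real.log 2))]
  have hk2' : t / 2 - Real.log 2 ≤ k * Real.log 2 := by
    have e : t / (2 * Real.log 2) * Real.log 2 = t / 2 := by field_simp
    nlinarith
  have hkk0 : k0 ≤ k := by
    have h1 : (k0 : ℝ) ≤ t / (2 * Real.log 2) := by
      rw [le_div_iff₀ (by positivity)]
      nlinarith
    exact Nat.le_floor h1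
  have h2k : ((2 : ℝ) ^ k) ^ 2 ≤ N := by
    have h2 : (2 : ℝ) ^ k = Real.exp (k * Real.log 2) := by
      rw [Real.exp_nat_mul, Real.exp_log (by norm_num)]
    rw [h2, ← Real.exp_nat_mul, ← hexp]
    apply Real.exp_le_exp.2
    push_cast
    linarith
  have hcond : 2 ^ k * y0 ^ K ≤ N := by
    have h1 : (2 ^ k) ^ 2 ≤ N := by exact_mod_cast h2k
    by_contra hcon
    push Not at hcon
    have h3 : N * N < (2 ^ k * y0 ^ K) * (2 ^ k * y0 ^ K) := Nat.mul_lt_mul'' hcon hcon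
    have h4 : (2 ^ k * y0 ^ K) * (2 ^ k * y0 ^ K) = (2 ^ k) ^ 2 * (y0 ^ K) ^ 2 := by ring
    rw [h4] at h3
    have h5 := Nat.mul_le_mul h1 hN3
    omega
  have hqq : q step (0, 0) k (0, d * h) ≤ ε / 16 := by
    apply hq k hkk0
    have hd1 : |(d : ℝ)| = 1 := by
      have : (d : ℝ) * d = 1 := by exact_mod_cast hdd
      have h2 : |(d : ℝ)| * |(d : ℝ)| = 1 := by rw [← abs_mul, this, abs_one]
      nlinarith [abs_nonneg (d : ℝ)]
    push_cast
    rw [abs_mul, hd1, one_mul]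
    refine hh.trans ?_
    have h2 : (2 : ℝ) ^ (θ * k) = Real.exp (θ * (k * Real.log 2)) := by
      rw [Real.rpow_def_of_pos (by norm_num)]
      congr 1; ring
    rw [h2, Real.rpow_def_of_pos (by linarith), ← ht]
    apply Real.exp_le_exp.2
    have h6 : θ * (t / 2 - Real.log 2) ≤ θ * (k * Real.log 2) := mul_le_mul_of_nonneg_left hk2' hθ.le
    have h8 : t * η ≤ t * (θ / 4) := mul_le_mul_of_nonneg_left hηθ htpos.le
    nlinarith
  have hsurv := hs y0 le_rfl k N hcond ∅ (by simp) 0 1 (by simp) d hdm x0 c hc (0, d * h)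
  have hV : V ∅ = 1 := by unfold V; simp
  have hb : ∀ n ∈ Icc 1 N, |f (x0 + c * (n : ℕ) + h) - f (x0 + c * (n : ℕ))|
      ≤ 2 * (wt ∅ 0 1 (n : ℕ) * (if surv d k (0, d * h) (x0 + c * (n : ℕ)) then 1 else 0)) := by
    intro n _
    have hw : wt ∅ 0 1 (n : ℕ) = 1 := by unfold wt; simp
    rw [hw, one_mul]
    split_ifs with hsv
    · have a1 := hf.1 (x0 + c * (n : ℕ) + h)
      have a2 := hf.1 (x0 + c * (n : ℕ))
      have a3 := abs_sub (f (x0 + c * (n : ℕ) + h)) (f (x0 + c * (n : ℕ)))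
      linarith
    · obtain ⟨j, -, hj⟩ := coal hdm k 0 (d * h) _ hsv
      have e : (3 : ℤ) ^ 0 * (x0 + c * (n : ℕ)) + d * (d * h) = x0 + c * (n : ℕ) + h := by
        have : d * (d * h) = (d * d) * h := by ring
        rw [this, hdd]; ring
      rw [e] at hj
      rw [← hf.2 j _ _ hj, sub_self, abs_zero]
      norm_num
  refine (sum_le_sum hb).trans ?_
  rw [← mul_sum]
  rw [hV] at hsurv
  have : 8 * (N : ℝ) * 1 * q step (0, 0) k (0, d * h) ≤ 8 * N * 1 * (ε / 16) :=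
    mul_le_mul_of_nonneg_left hqq (by positivity)
  linarith

end Pool.Agent.W41.MU
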