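import Pool.Agent.W41.FU2
import Pool.Agent.H499R2.NDErr

/-! Iteration over the scales for functions on the odd integers. -/

set_option autoImplicit false

namespace Pool.Agent.W41.FU

open Pool.Agent.H320R2.PD Pool.Agent.H499R2.ND Finset

/-- classes of functions that can be transported along the words of the map `x ↦ (3x+d)/2^e` -/
def Closed (d : ℤ) (CC : Set (ℤ → ℝ)) : Prop :=
  ∀ f ∈ CC, (∀ x, |f x| ≤ 1) ∧ ∀ k T : ℕ, ∃ f' ∈ CC, ∀ w : List ℕ, (∀ e ∈ w, 1 ≤ e) → w.length = k →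
    w.sum = T → ∀ M x : ℤ, Odd x → Vw d w M x → f M = f' x

/-- the relative size of the sums of `f x * G (x / A)` over the classes of odd integers of `[A,2A)` is
at most `ρ`, for all functions of the class -/
def PF (CC : Set (ℤ → ℝ)) (G : ℝ → ℝ) (A : ℝ) (m : ℕ) (ρ : ℝ) : Prop :=
  ∀ f ∈ CC, ∀ u v : ℤ, IsCoprime u 3 → |WS (fun x => f x * G (x / A)) A (2 * A) m u v| ≤ ρ * (A / (2 * 3 ^ m))

theorem PF.mono {CC : Set (ℤ → ℝ)} {G : ℝ → ℝ} {A : ℝ} (hA : 0 < A) {m : ℕ} {ρ ρ' : ℝ} (h : PF CC G A m ρ)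
    (hρ : ρ ≤ ρ') : PF CC G A m ρ' := fun f hf u v hu =>
  (h f hf u v hu).trans (mul_le_mul_of_nonneg_right hρ (by positivity))

/-- the total error of one stage -/
noncomputable def ErrF (β : ℝ) (d : ℤ) (A : ℝ) (k m m' : ℕ) : ℝ :=
  (1 + 2 ^ (41 * k / 20) * (2 * 3 ^ m / A))
      * (∑ T ∈ range (k * (3 * k) + 1), dev (FWT (3 * k) k T) wwt (fun w => (Wo w : ℤ)) (k + m) m'
          + β * |(d : ℝ)| * 2 ^ (41 * k / 20) / (2 ^ k * A))
    + (1 - ∑ w ∈ GW (3 * k) k ((39 * k + 19) / 20) (41 * k / 20), wwt w)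
    + (1 + (|(d : ℝ)| + 3) * 2 ^ (41 * k / 20)) * (2 * 3 ^ m / A)

/-- one stage -/
theorem stageF {d : ℤ} (hd : Odd d) (hd3 : IsCoprime d 3) {CC : Set (ℤ → ℝ)} (hC : Closed d CC) {G : ℝ → ℝ}
    (hG : ∀ u, |G u| ≤ 1) {β : ℝ} (hβ : 0 ≤ β) (hLip : ∀ u v, |G u - G v| ≤ β * |u - v|) {A : ℝ}
    (hA : 0 < A) {k m m' : ℕ} (hk : 1 ≤ k) (hm' : m' ≤ k) {ρ : ℝ} (hρ : 0 ≤ ρ)
    (h : ∀ T : ℕ, 39 * k ≤ 20 * T → 20 * T ≤ 41 * k → PF CC G (A * 3 ^ k / 2 ^ T) m' ρ) :
    PF CC G A m (ρ + ErrF β d A k m m') := by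
  intro f hf u v hu
  obtain ⟨hf1, hf2⟩ := hC f hf
  choose f' hf'C hf' using hf2 k
  have hf'1 : ∀ T x, |f' T x| ≤ 1 := fun T x => (hC _ (hf'C T)).1 x
  obtain ⟨p, q, hpq⟩ : IsCoprime u ((3 : ℤ) ^ m) := hu.pow_right
  have hc : cls Set.univ A (2 * A) m u v = cls Set.univ A (2 * A) m 1 (p * v) := by
    ext x
    rw [mem_cls, mem_cls]
    have key : (3 : ℤ) ^ m ∣ u * x - v ↔ (3 : ℤ) ^ m ∣ 1 * x - p * v := by
      have hcop : IsCoprime ((3 : ℤ) ^ m) u := ⟨q, p, by linarith⟩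
      constructor
      · intro h
        apply hcop.dvd_of_dvd_mul_left
        have : u * (1 * x - p * v) = (u * x - v) + 3 ^ m * (q * v) := by
          have h1 : u * p = 1 - q * 3 ^ m := by linarith
          calc u * (1 * x - p * v) = u * x - (u * p) * v := by ring
            _ = _ := by rw [h1]; ring
        rw [this]
        exact dvd_add h (dvd_mul_right _ _)
      · intro h
        have : u * x - v = u * (1 * x - p * v) - 3 ^ m * (q * v) := by
          have h1 : u * p = 1 - q * 3 ^ m := by linarith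
          have h2 : u * (1 * x - p * v) = u * x - (u * p) * v := by ring
          rw [h2, h1]; ring
        rw [this]
        exact dvd_sub (h.mul_left u) (dvd_mul_right _ _)
    rw [key]
  have hWS : WS (fun x => f x * G (x / A)) A (2 * A) m u v
      = WS (fun x => f x * G (x / A)) A (2 * A) m 1 (p * v) := by
    unfold WS; rw [hc]
  rw [hWS]
  have hTm : 41 * k / 20 ≤ k * (3 * k) := by nlinarith [Nat.div_mul_le_self (41 * k) 20]
  have h1 := starF hd hd3 (f := f) (f' := f') hf1 hf'1 hG hβ hLip hA (3 * k) k m m'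
    ((39 * k + 19) / 20) (41 * k / 20) (by
      intro w hw M x hx hV
      unfold GW at hw
      rw [mem_filter] at hw
      exact hf' w.sum w (FW_props hw.1).2 (FW_props hw.1).1 rfl M x hx hV) hk hm' hTm (p * v)
  set GG := GW (3 * k) k ((39 * k + 19) / 20) (41 * k / 20) with hGG
  have h2 : |∑ w ∈ GG, WS (fun x => f' w.sum x * G (x / (A * 3 ^ k / 2 ^ w.sum)))
          (A * 3 ^ k / 2 ^ w.sum) (2 * (A * 3 ^ k / 2 ^ w.sum)) m' (2 ^ w.sum) (d * Wo w)|
      ≤ ∑ w ∈ GG, ρ * (A * 3 ^ k / (2 * 3 ^ m')) * wwt w := by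
    refine (abs_sum_le_sum_abs _ _).trans ?_
    apply sum_le_sum
    intro w hw
    rw [hGG] at hw; unfold GW at hw; rw [mem_filter] at hw
    have h3 := h w.sum (by omega) (by omega) (f' w.sum) (hf'C w.sum) (2 ^ w.sum) (d * Wo w) (cop_two_pow _)
    refine h3.trans (le_of_eq ?_)
    unfold wwt
    rw [one_div, inv_pow]
    field_simp
  have hmass1 : ∑ w ∈ GG, wwt w ≤ 1 := by
    refine le_trans ?_ (sum_wwt_le (3 * k) k)
    rw [hGG]; unfold GW
    apply sum_le_sum_of_subset_of_nonneg (filter_subset _ _)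
    intro w _ _; unfold wwt; positivity
  rw [← mul_sum] at h2
  have h4 : |(∑ w ∈ GG, WS (fun x => f' w.sum x * G (x / (A * 3 ^ k / 2 ^ w.sum)))
          (A * 3 ^ k / 2 ^ w.sum) (2 * (A * 3 ^ k / 2 ^ w.sum)) m' (2 ^ w.sum) (d * Wo w)) / 3 ^ (k + m - m')|
      ≤ ρ * (A / (2 * 3 ^ m)) := by
    rw [abs_div, abs_of_pos (by positivity : (0 : ℝ) < 3 ^ (k + m - m')), div_le_iff₀ (by positivity)]
    refine h2.trans ?_
    have h5 : ρ * (A * 3 ^ k / (2 * 3 ^ m')) * ∑ w ∈ GG, wwt w ≤ ρ * (A * 3 ^ k / (2 * 3 ^ m')) * 1 :=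
      mul_le_mul_of_nonneg_left hmass1 (by positivity)
    refine h5.trans (le_of_eq ?_)
    have h6 : (3 : ℝ) ^ (k + m - m') * 3 ^ m' = 3 ^ k * 3 ^ m := by
      rw [← pow_add, ← pow_add]; congr 1; omega
    have h7 : (3 : ℝ) ^ k = 3 ^ (k + m - m') * 3 ^ m' / 3 ^ m := by
      rw [h6]; field_simp
    rw [h7]
    field_simp
  have h8 := abs_sub_abs_le_abs_sub (WS (fun x => f x * G (x / A)) A (2 * A) m 1 (p * v))
    ((∑ w ∈ GG, WS (fun x => f' w.sum x * G (x / (A * 3 ^ k / 2 ^ w.sum)))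
          (A * 3 ^ k / 2 ^ w.sum) (2 * (A * 3 ^ k / 2 ^ w.sum)) m' (2 ^ w.sum) (d * Wo w)) / 3 ^ (k + m - m'))
  unfold ErrF
  rw [← hGG]
  set X := (2 : ℝ) ^ (41 * k / 20) with hX
  set Y := A / (2 * 3 ^ m) with hY
  have hY0 : 0 < Y := by positivity
  set Z := 2 * 3 ^ m / A with hZ
  have hfac : Y * Z = 1 := by rw [hY, hZ]; field_simp
  set δ := ∑ T ∈ range (k * (3 * k) + 1), dev (FWT (3 * k) k T) wwt (fun w => (Wo w : ℤ)) (k + m) m'
    + β * |(d : ℝ)| * X / (2 ^ k * A) with hδ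
  set μ := ∑ w ∈ GG, wwt w with hμ
  have e1 : (ρ + ((1 + X * Z) * δ + (1 - μ) + (1 + (|(d : ℝ)| + 3) * X) * Z)) * Y
      = ρ * Y + (Y + X * (Y * Z)) * δ + Y * (1 - μ) + (1 + (|(d : ℝ)| + 3) * X) * (Y * Z) := by ring
  rw [e1, hfac]
  linarith

theorem exp_neg_le_inv {x : ℝ} (hx : 0 < x) : Real.exp (-x) ≤ 1 / x := by
  rw [Real.exp_neg, inv_eq_one_div]
  apply one_div_le_one_div_of_le hx
  have := Real.add_one_le_exp x
  linarith

theorem two_pow_le {t η : ℝ} {k : ℕ} (hk : (k : ℝ) ≤ η * t) :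
    (2 : ℝ) ^ (41 * k / 20) ≤ Real.exp (1.43 * (η * t)) ∧
    (2 : ℝ) ^ (41 * k / 20) / 2 ^ k ≤ Real.exp (0.73 * (η * t)) := by
  have h1 : ((41 * k / 20 : ℕ) : ℝ) ≤ 41 / 20 * k := by
    have h2 : 20 * (41 * k / 20) ≤ 41 * k := Nat.mul_div_le _ _
    have h3 : (20 : ℝ) * ((41 * k / 20 : ℕ) : ℝ) ≤ 41 * k := by exact_mod_cast h2
    linarith
  have h2 : (2 : ℝ) ^ (41 * k / 20) = Real.exp (Real.log 2 * ((41 * k / 20 : ℕ) : ℝ)) := by
    rw [mul_comm (Real.log 2), Real.exp_nat_mul, Real.exp_log (by norm_num)]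
  have h3 : (2 : ℝ) ^ k = Real.exp (Real.log 2 * k) := by
    rw [mul_comm (Real.log 2), Real.exp_nat_mul, Real.exp_log (by norm_num)]
  have hl1 := Real.log_two_lt_d9
  have hl2 := Real.log_two_gt_d9
  have hk0 : (0 : ℝ) ≤ k := Nat.cast_nonneg k
  constructor
  · rw [h2]
    apply Real.exp_le_exp.2
    nlinarith
  · rw [h2, h3, ← Real.exp_sub]
    apply Real.exp_le_exp.2
    nlinarith

/-- the error of one stage -/
theorem errF_bound (d : ℤ) {η : ℝ} (hη : 0 < η) (hη1 : η ≤ 1 / 2) : ∃ C : ℝ, 0 < C ∧ ∃ t1 : ℝ, 1000 ≤ t1 ∧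
    ∀ A : ℝ, 0 < A → t1 ≤ Real.log A → ∀ β : ℝ, 1 ≤ β → Real.log β ≤ (1 - η) * Real.log A → ∀ k m m' : ℕ,
    (m : ℝ) ^ 2 ≤ Real.log A → k = ⌊η * Real.log A⌋₊ → m' = ⌊Real.sqrt (0.8 * Real.log A)⌋₊ →
    1 ≤ k ∧ m' ≤ k ∧ ErrF β d A k m m' ≤ C / Real.log A := by
  obtain ⟨Cm, hCm, hmix⟩ := mix 4
  refine ⟨2 * (Cm * (16 + 16 / η ^ 4) + |(d : ℝ)| * (4 / η)) + 76800 / η + 1 + (|(d : ℝ)| + 4) * 10, by positivity,
    max 1000 (16 / η ^ 2), le_max_left _ _, ?_⟩
  intro A hA ht1 β hβ hβA k m m' hm hk hm'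
  set t := Real.log A with htdef
  have ht : 1000 ≤ t := (le_max_left _ _).trans ht1
  have ht2 : 16 / η ^ 2 ≤ t := (le_max_right _ _).trans ht1
  have htpos : 0 < t := by linarith
  have hexpA : Real.exp t = A := Real.exp_log hA
  have hηt : 32 ≤ η * t := by
    rw [div_le_iff₀ (by positivity)] at ht2
    have : 16 ≤ (η * t) * η := by nlinarith
    nlinarith [mul_pos hη htpos]
  have hk1 : (k : ℝ) ≤ η * t := by rw [hk]; exact Nat.floor_le (by positivity)
  have hk2 : η * t / 2 ≤ k := by rw [hk]; linarith [Nat.lt_floor_add_one (η * t)]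
  have hkpos : (1 : ℝ) ≤ k := by linarith
  have hk1N : 1 ≤ k := by exact_mod_cast hkpos
  set r := Real.sqrt t with hr
  have hrsq : r ^ 2 = t := Real.sq_sqrt htpos.le
  have hr30 : 30 ≤ r := by
    apply Real.le_sqrt_of_sq_le; linarith
  have hrpos : 0 < r := by linarith
  have hηr : 4 ≤ η * r := by
    rw [div_le_iff₀ (by positivity)] at ht2
    have h1 : (4 : ℝ) ^ 2 ≤ (η * r) ^ 2 := by rw [mul_pow, hrsq]; linarith
    exact le_of_sq_le_sq h1 (by positivity)
  have hmr : (m : ℝ) ≤ r := Real.le_sqrt_of_sq_le hm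
  have hs8 : Real.sqrt (0.8 * t) ≥ 0.8 * r := by
    apply Real.le_sqrt_of_sq_le
    rw [mul_pow, hrsq]; linarith
  have hs8' : Real.sqrt (0.8 * t) ≤ r := Real.sqrt_le_sqrt (by linarith)
  have hm'1 : r / 2 ≤ m' := by
    rw [hm']; linarith [Nat.lt_floor_add_one (Real.sqrt (0.8 * t))]
  have hm'2 : (m' : ℝ) ≤ r := by
    rw [hm']; exact (Nat.floor_le (Real.sqrt_nonneg _)).trans hs8'
  have hm'pos : 1 ≤ m' := by
    have : (1 : ℝ) ≤ m' := by linarith
    exact_mod_cast this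
  have hm'k : m' ≤ k := by
    have : (m' : ℝ) ≤ k := by
      have h1 : η * t = (η * r) * r := by rw [← hrsq]; ring
      nlinarith
    exact_mod_cast this
  refine ⟨hk1N, hm'k, ?_⟩
  obtain ⟨hX1, hX2⟩ := two_pow_le hk1
  set X := (2 : ℝ) ^ (41 * k / 20) with hX
  have hX0 : 1 ≤ X := one_le_pow₀ (by norm_num)
  have h3m := pow_m_le ht hm
  set Z := (2 * 3 ^ m / A : ℝ) with hZ
  have hZ0 : 0 < Z := by positivity
  have hXZ : X * Z ≤ 2 * Real.exp (-(t / 5)) := by
    have h3 : X * Z ≤ Real.exp (0.715 * t) * (2 * Real.exp (0.05 * t) / Real.exp t) := by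
      rw [hZ, ← hexpA]
      apply mul_le_mul _ _ (by positivity) (Real.exp_pos _).le
      · refine hX1.trans (Real.exp_le_exp.2 ?_)
        nlinarith
      · apply div_le_div_of_nonneg_right _ (Real.exp_pos _).le
        linarith
    have h4 : Real.exp (0.715 * t) * (2 * Real.exp (0.05 * t) / Real.exp t)
        = 2 * Real.exp (0.715 * t + 0.05 * t - t) := by
      rw [Real.exp_sub, Real.exp_add]; ring
    rw [h4] at h3
    refine h3.trans ?_
    apply mul_le_mul_of_nonneg_left _ (by norm_num)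
    apply Real.exp_le_exp.2
    linarith
  have hexp5 : Real.exp (-(t / 5)) ≤ 5 / t := by
    have := exp_neg_le_inv (x := t / 5) (by positivity)
    rwa [one_div_div] at this
  have h5t : 5 / t ≤ 1 / 2 := by
    rw [div_le_div_iff₀ htpos (by norm_num)]; linarith
  have hXZ1 : X * Z ≤ 1 := by linarith
  have hZle : Z ≤ X * Z := by nlinarith
  -- the Lipschitz error
  have hlam : β * |(d : ℝ)| * X / (2 ^ k * A) ≤ |(d : ℝ)| * (4 / η) / t := by
    have e1 : β * |(d : ℝ)| * X / (2 ^ k * A) = |(d : ℝ)| * ((X / 2 ^ k) * (β / A)) := by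
      field_simp
    rw [e1, mul_div_assoc]
    apply mul_le_mul_of_nonneg_left _ (abs_nonneg _)
    have h1 : β / A ≤ Real.exp (-(η * t)) := by
      have e2 : β = Real.exp (Real.log β) := (Real.exp_log (by linarith)).symm
      rw [e2, ← hexpA, ← Real.exp_sub]
      apply Real.exp_le_exp.2
      nlinarith
    have h2 : (X / 2 ^ k) * (β / A) ≤ Real.exp (0.73 * (η * t)) * Real.exp (-(η * t)) :=
      mul_le_mul hX2 h1 (by positivity) (Real.exp_pos _).le
    rw [← Real.exp_add] at h2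
    refine h2.trans ?_
    have h3 : 0.73 * (η * t) + -(η * t) = -(0.27 * (η * t)) := by ring
    rw [h3]
    refine (exp_neg_le_inv (by positivity)).trans ?_
    rw [div_div, div_le_div_iff₀ (by positivity) (by positivity)]
    have : 0 < η * t := by positivity
    nlinarith
  have hlam0 : 0 ≤ β * |(d : ℝ)| * X / (2 ^ k * A) := by positivity
  -- mixing
  have hδ := hmix k m m' (3 * k) hk1N hm'pos hm'k (le_refl _)
  set δ := ∑ T ∈ range (k * (3 * k) + 1), dev (FWT (3 * k) k T) wwt (fun w => (Wo w : ℤ)) (k + m) m'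
    with hδdef
  have hδnn : 0 ≤ δ := sum_nonneg fun _ _ => sum_nonneg fun _ _ => abs_nonneg _
  have hδ2 : δ ≤ (Cm * (16 + 16 / η ^ 4)) / t := by
    have e1 : ((k : ℝ) + m) ≤ t := by nlinarith
    have e2 : (1 / (m' : ℝ)) ^ 4 ≤ (2 / r) ^ 4 := by
      apply pow_le_pow_left₀ (by positivity)
      rw [div_le_div_iff₀ (by exact_mod_cast hm'pos) hrpos]
      linarith
    have e3 : ((m : ℝ) / k) ^ 4 ≤ (2 / (η * r)) ^ 4 := by
      apply pow_le_pow_left₀ (by positivity)
      rw [div_le_div_iff₀ (by linarith) (by positivity)]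
      have h1 : η * t = (η * r) * r := by rw [← hrsq]; ring
      have h2 : (m : ℝ) * (η * r) ≤ r * (η * r) := mul_le_mul_of_nonneg_right hmr (by positivity)
      nlinarith
    have e4 : t * (Cm * ((2 / r) ^ 4 + (2 / (η * r)) ^ 4))
        = (Cm * (16 + 16 / η ^ 4)) / t := by
      have : r ^ 4 = t * t := by
        rw [show r ^ 4 = (r ^ 2) * (r ^ 2) by ring, hrsq]
      rw [div_pow, div_pow, mul_pow, this]
      field_simp
      ring
    calc δ ≤ (k + m) * (Cm * ((1 / (m' : ℝ)) ^ 4 + ((m : ℝ) / k) ^ 4)) := hδ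
      _ ≤ t * (Cm * ((2 / r) ^ 4 + (2 / (η * r)) ^ 4)) := by
          apply mul_le_mul e1 _ (by positivity) htpos.le
          apply mul_le_mul_of_nonneg_left _ hCm.le
          linarith
      _ = _ := e4
  -- mass
  have hmass := mass_GW k
  have hmass2 : 3 * Real.exp (-(k / 12800 : ℝ)) ≤ 76800 / η / t := by
    have h1 := exp_neg_le_inv (x := (k / 12800 : ℝ)) (by positivity)
    rw [one_div_div] at h1
    have h2 : 12800 / (k : ℝ) ≤ 25600 / η / t := by
      rw [div_div, div_le_div_iff₀ (by linarith) (by positivity)]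
      linarith
    have h3 : 3 * (25600 / η / t) = 76800 / η / t := by ring
    linarith
  unfold ErrF
  rw [← hδdef]
  have hd0 : 0 ≤ |(d : ℝ)| := abs_nonneg _
  have f1 : (1 + X * Z) * (δ + β * |(d : ℝ)| * X / (2 ^ k * A))
      ≤ 2 * ((Cm * (16 + 16 / η ^ 4)) / t + |(d : ℝ)| * (4 / η) / t) := by
    apply mul_le_mul (by linarith) (by linarith) (by positivity) (by norm_num)
  have f2 : (1 + (|(d : ℝ)| + 3) * X) * Z ≤ (|(d : ℝ)| + 4) * (10 / t) := by
    calc (1 + (|(d : ℝ)| + 3) * X) * Z = Z + (|(d : ℝ)| + 3) * (X * Z) := by ring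
      _ ≤ X * Z + (|(d : ℝ)| + 3) * (X * Z) := by linarith
      _ = (|(d : ℝ)| + 4) * (X * Z) := by ring
      _ ≤ (|(d : ℝ)| + 4) * (10 / t) := by
          apply mul_le_mul_of_nonneg_left _ (by positivity)
          have : 2 * (5 / t) = 10 / t := by ring
          linarith
  have f3 : 0 < 1 / t := by positivity
  calc (1 + X * Z) * (δ + β * |(d : ℝ)| * X / (2 ^ k * A))
      + (1 - ∑ w ∈ GW (3 * k) k ((39 * k + 19) / 20) (41 * k / 20), wwt w)
      + (1 + (|(d : ℝ)| + 3) * X) * Z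
      ≤ 2 * ((Cm * (16 + 16 / η ^ 4)) / t + |(d : ℝ)| * (4 / η) / t) + 76800 / η / t
        + (|(d : ℝ)| + 4) * (10 / t) + 1 / t := by linarith
    _ = _ := by ring

/-- the next scale -/
theorem nextF {η : ℝ} (hη : 0 < η) (hη1 : η ≤ 1 / 2) {A : ℝ} (hA : 0 < A) (ht : 6 / η ≤ Real.log A) {k T : ℕ}
    (hk : k = ⌊η * Real.log A⌋₊) (h1 : 39 * k ≤ 20 * T) (h2 : 20 * T ≤ 41 * k) :
    (1 - 0.33 * η) * Real.log A ≤ Real.log (A * 3 ^ k / 2 ^ T) ∧
    Real.log (A * 3 ^ k / 2 ^ T) ≤ (1 - 0.2 * η) * Real.log A := by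
  set t := Real.log A with htdef
  have hηt : 6 ≤ η * t := by
    rw [div_le_iff₀ hη] at ht; linarith
  have htpos : 0 < t := by
    by_contra hcon
    push Not at hcon
    nlinarith
  have hk1 : (k : ℝ) ≤ η * t := by rw [hk]; exact Nat.floor_le (by positivity)
  have hk2 : η * t - 1 ≤ k := by rw [hk]; linarith [Nat.lt_floor_add_one (η * t)]
  have e : Real.log (A * 3 ^ k / 2 ^ T) = t + k * Real.log 3 - T * Real.log 2 := by
    rw [Real.log_div (by positivity) (by positivity), Real.log_mul (by positivity) (by positivity),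
      Real.log_pow, Real.log_pow]
  rw [e]
  have h1R : (39 : ℝ) * k ≤ 20 * T := by exact_mod_cast h1
  have h2R : (20 : ℝ) * T ≤ 41 * k := by exact_mod_cast h2
  have hl1 := Real.log_two_lt_d9
  have hl2 := Real.log_two_gt_d9
  have hl3 := log3_le
  have hl4 := log3_ge
  have hk0 : (0 : ℝ) ≤ k := Nat.cast_nonneg k
  constructor
  · -- T log 2 ≤ 41/20 k log 2, k log 3 ≥ 19/12 k log 2
    have a1 : (T : ℝ) * Real.log 2 ≤ 41 / 20 * k * Real.log 2 := by nlinarith
    have a2 : (k : ℝ) * (19 / 12 * Real.log 2) ≤ k * Real.log 3 := mul_le_mul_of_nonneg_left hl4 hk0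
    nlinarith
  · have a1 : 39 / 20 * k * Real.log 2 ≤ (T : ℝ) * Real.log 2 := by nlinarith
    have a2 : (k : ℝ) * Real.log 3 ≤ k * (8 / 5 * Real.log 2) := mul_le_mul_of_nonneg_left hl3 hk0
    nlinarith

/-- TRANSFER: correlations with a Lipschitz function at all scales are bounded by those at the scales
slightly above the Lipschitz constant. -/
theorem transfer {d : ℤ} (hd : Odd d) (hd3 : IsCoprime d 3) {η : ℝ} (hη : 0 < η) (hη1 : η ≤ 1 / 2) :
    ∃ K L0 : ℝ, 0 < K ∧ 1 ≤ L0 ∧ ∀ β : ℝ, L0 ≤ Real.log β → 1 ≤ β → ∀ CC : Set (ℤ → ℝ), Closed d CC →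
      ∀ G : ℝ → ℝ, (∀ u, |G u| ≤ 1) → (∀ u v, |G u - G v| ≤ β * |u - v|) → ∀ ρ : ℝ, 0 ≤ ρ →
      (∀ A : ℝ, 0 < A → (1 - η) * Real.log A ≤ Real.log β → Real.log β ≤ (1 - η / 2) * Real.log A →
        ∀ m : ℕ, (m : ℝ) ^ 2 ≤ Real.log A → PF CC G A m ρ) →
      ∀ A : ℝ, 0 < A → Real.log β ≤ (1 - η / 2) * Real.log A → ∀ m : ℕ, (m : ℝ) ^ 2 ≤ Real.log A →
        PF CC G A m (ρ + K / Real.log β) := by
  obtain ⟨C, hC, t1, ht1, herr⟩ := errF_bound d hη hη1
  set K : ℝ := 5 * C / η with hK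
  have hKpos : 0 < K := by positivity
  refine ⟨2 * K, max t1 (max (6 / η) (5 / η)), by positivity, ?_, ?_⟩
  · exact le_trans (by linarith) (le_max_left _ _)
  intro β hL hβ1 CC hCC G hG hLip ρ hρ hbot
  set L := Real.log β with hLdef
  have hL1 : t1 ≤ L := (le_max_left _ _).trans hL
  have hL2 : 6 / η ≤ L := (le_max_left _ _).trans ((le_max_right _ _).trans hL)
  have hL3 : 5 / η ≤ L := (le_max_right _ _).trans ((le_max_right _ _).trans hL)
  have hLpos : 0 < L := by linarith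
  have main : ∀ n : ℕ, ∀ A : ℝ, 0 < A → L ≤ (1 - η / 2) * Real.log A → Real.log A ≤ L + n →
      ∀ m : ℕ, (m : ℝ) ^ 2 ≤ Real.log A → PF CC G A m (ρ + K * (2 / L - 1 / Real.log A)) := by
    intro n
    induction n with
    | zero =>
      intro A hA h1 h2 m hm
      exfalso
      push_cast at h2
      have htA : 0 < Real.log A := by
        by_contra hcon
        push Not at hcon
        nlinarith
      nlinarith
    | succ n ih =>
      intro A hA h1 h2 m hm
      set t := Real.log A with htdef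
      have htA : 0 < t := by
        by_contra hcon
        push Not at hcon
        nlinarith
      have hLt : L ≤ t := by nlinarith
      have hgain : 0 ≤ K * (2 / L - 1 / t) := by
        apply mul_nonneg hKpos.le
        have a1 : 1 / t ≤ 1 / L := one_div_le_one_div_of_le hLpos hLt
        have a2 : 2 / L = 2 * (1 / L) := by ring
        have a3 : 0 < 1 / L := by positivity
        rw [a2]; linarith
      rcases le_or_gt ((1 - η) * t) L with hcase | hcase
      · -- bottom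
        exact (hbot A hA hcase h1 m hm).mono hA (by linarith)
      · set k := ⌊η * t⌋₊ with hk
        set m' := ⌊Real.sqrt (0.8 * t)⌋₊ with hm'
        obtain ⟨hk1, hm'k, hE⟩ := herr A hA (hL1.trans hLt) β hβ1 hcase.le k m m' hm hk hm'
        have hm'sq : (m' : ℝ) ^ 2 ≤ 0.8 * t := by
          have h1 : (m' : ℝ) ≤ Real.sqrt (0.8 * t) := by
            rw [hm']; exact Nat.floor_le (Real.sqrt_nonneg _)
          calc (m' : ℝ) ^ 2 ≤ (Real.sqrt (0.8 * t)) ^ 2 :=
                pow_le_pow_left₀ (Nat.cast_nonneg _) h1 2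
            _ = 0.8 * t := Real.sq_sqrt (by linarith)
        have hρ' : 0 ≤ ρ + K * (2 / L - 1 / ((1 - 0.2 * η) * t)) := by
          apply add_nonneg hρ
          apply mul_nonneg hKpos.le
          have a0 : (1 - 0.2 * η) * t ≥ L / 2 := by nlinarith
          have a1 : 1 / ((1 - 0.2 * η) * t) ≤ 1 / (L / 2) := one_div_le_one_div_of_le (by linarith) a0
          have a2 : 1 / (L / 2) = 2 / L := by rw [one_div_div]
          linarith
        have hst := stageF hd hd3 hCC hG (by linarith : (0 : ℝ) ≤ β) hLip hA hk1 hm'k (m := m) hρ' (fun T hT1 hT2 => by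
          have hn := nextF hη hη1 hA (hL2.trans hLt) hk hT1 hT2
          set A' := A * 3 ^ k / 2 ^ T with hA'
          have hA'pos : 0 < A' := by positivity
          have hn1 : (1 - 0.33 * η) * t ≤ Real.log A' := hn.1
          have hn2 : Real.log A' ≤ (1 - 0.2 * η) * t := hn.2
          have ht'pos : 0 < Real.log A' := by nlinarith
          have hih := ih A' hA'pos (by nlinarith) (by
              have h9 : t ≤ L + (n + 1 : ℕ) := h2
              push_cast at h9
              have h10 : 5 ≤ η * t := by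
                rw [div_le_iff₀ hη] at hL3
                nlinarith
              nlinarith) m' (by nlinarith)
          refine hih.mono hA'pos ?_
          have : 1 / ((1 - 0.2 * η) * t) ≤ 1 / Real.log A' :=
            one_div_le_one_div_of_le ht'pos hn2
          have := mul_le_mul_of_nonneg_left this hKpos.le
          nlinarith)
        refine hst.mono hA ?_
        have e1 : 1 / ((1 - 0.2 * η) * t) ≥ (1 + 0.2 * η) / t := by
          rw [ge_iff_le, div_le_div_iff₀ htA (by nlinarith)]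
          nlinarith [mul_pos hη hη, mul_pos (mul_pos hη hη) htA]
        have e2 : K * (0.2 * η) = C := by rw [hK]; field_simp; ring
        have e3 : K * ((1 + 0.2 * η) / t) = K * (1 / t) + C / t := by
          rw [← e2]; ring
        have e4 := mul_le_mul_of_nonneg_left e1 hKpos.le
        have e5 : K * (2 / L - 1 / ((1 - 0.2 * η) * t)) = K * (2 / L) - K * (1 / ((1 - 0.2 * η) * t)) := by ring
        have e6 : K * (2 / L - 1 / t) = K * (2 / L) - K * (1 / t) := by ring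
        rw [e5, e6]
        linarith
  intro A hA h1 m hm
  obtain ⟨n, hn⟩ := exists_nat_ge (Real.log A - L)
  refine (main n A hA h1 (by linarith) m hm).mono hA ?_
  have htA : 0 < Real.log A := by
    by_contra hcon
    push Not at hcon
    nlinarith
  have : 0 < 1 / Real.log A := by positivity
  have e : 2 * K / L = K * (2 / L) := by ring
  rw [e]
  have := mul_pos hKpos this
  nlinarith

end Pool.Agent.W41.FU
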