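import Pool.Agent.W41.FU3
import Pool.Agent.H499R2.NDTao
import Pool.Agent.H499R2.NDEqui
import Pool.Agent.H499R2.CO.Q5
import Pool.Agent.H499R2.CO.E
import Pool.Agent.H499R2.NDStruct

/-! Functions constant on coalescing trajectories, and cancellation against a shift. -/

set_option autoImplicit false

namespace Pool.Agent.W41.FU

open Pool.Agent.H320R2.PD Pool.Agent.H499R2.ND Finset Pool.Agent.H499R2.CO

/-- bounded functions that take the same value at `x` and `y` whenever the trajectories are at the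
same point at the same time -/
def SameT (d : ℤ) : Set (ℤ → ℝ) :=
  {f | (∀ x, |f x| ≤ 1) ∧ ∀ (j : ℕ) (x y : ℤ), (Tz d)^[j] x = (Tz d)^[j] y → f x = f y}

theorem iter_word' {d : ℤ} (hd : Odd d) (w : List ℕ) : (∀ a ∈ w, 1 ≤ a) → ∀ M x : ℤ, Odd M → Odd x →
    Vw d w M x → (Td d)^[w.sum] M = x := by
  induction w using List.reverseRecOn with
  | nil =>
    intro _ M x _ _ h
    unfold Vw at h; simp [Wo] at h; simpa using h
  | append_singleton u e ih =>
    intro hw M x hM hx h
    have hu : ∀ a ∈ u, 1 ≤ a := fun a ha => hw a (by simp [ha])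
    obtain ⟨M₁, hM₁, h1, h2⟩ := Vw_snoc hd hu hx h
    have h3 := ih hu M₁ x hM₁ hx h2
    have he : 1 ≤ e := hw e (by simp)
    obtain ⟨e', rfl⟩ : ∃ e', e = e' + 1 := ⟨e - 1, by omega⟩
    have h4 : Td d M = 2 ^ e' * M₁ := Td_odd hM (by rw [h1, pow_succ]; ring)
    have h5 : (Td d)^[e' + 1] M = M₁ := by rw [Function.iterate_succ_apply, h4, Td_two_pow]
    rw [List.sum_append, List.sum_singleton, Function.iterate_add_apply, h5, h3]

theorem sameT_closed {d : ℤ} (hd : Odd d) : Closed d (SameT d) := by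
  intro f hf
  refine ⟨hf.1, fun k T => ⟨fun x => f (2 ^ T * x), ⟨fun x => hf.1 _, ?_⟩, ?_⟩⟩
  · intro j x y hxy
    apply hf.2 (j + T)
    have e : ∀ z : ℤ, (Tz d)^[j + T] (2 ^ T * z) = (Tz d)^[j] z := by
      intro z
      rw [Function.iterate_add_apply]
      have : (Tz d)^[T] (2 ^ T * z) = z := Td_two_pow d T z
      rw [this]
    rw [e, e, hxy]
  · intro w hw hlen hsum M x hx hV
    apply hf.2 T
    have e : (Tz d)^[T] (2 ^ T * x) = x := Td_two_pow d T x
    rw [e]
    rcases eq_or_ne w [] with rfl | hne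
    · unfold Vw at hV
      simp [Wo] at hV hsum
      subst hsum
      simpa using hV
    · have hM : Odd M := Vw_odd_left hd hw hne hV
      have := iter_word' hd w hw M x hM hx hV
      rw [hsum] at this
      exact this

/-- difference of the sums over a shifted and an unshifted window -/
theorem shiftW {g : ℤ → ℝ} (hg : ∀ x, |g x| ≤ 1) {a b s K : ℝ} (hs : |s| ≤ K) (n : ℕ) {u : ℤ}
    (hu : IsCoprime u 3) (v : ℤ) :
    |WS g (a + s) (b + s) n u v - WS g a b n u v| ≤ 2 * (K / (2 * 3 ^ n) + 1) := by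
  classical
  have hK : 0 ≤ K := (abs_nonneg s).trans hs
  have hcard : ∀ a b : ℝ, a ≤ b → b - a ≤ K →
      ((cls Set.univ a b n u v).card : ℝ) ≤ K / (2 * 3 ^ n) + 1 := by
    intro a b hab hbK
    have h2 := cls_card_le Set.univ hab n hu v
    have h3 : (b - a) / (2 * 3 ^ n) ≤ K / (2 * 3 ^ n) :=
      div_le_div_of_nonneg_right hbK (by positivity)
    linarith
  set P := cls Set.univ (a + s) (b + s) n u v with hP
  set Q := cls Set.univ a b n u v with hQ
  have hsplit : WS g (a + s) (b + s) n u v - WS g a b n u v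
      = ∑ x ∈ P \ Q, g x - ∑ x ∈ Q \ P, g x := by
    unfold WS
    rw [← hP, ← hQ]
    have h1 : ∑ x ∈ P \ Q, g x + ∑ x ∈ P ∩ Q, g x = ∑ x ∈ P, g x := by
      have := sum_sdiff (f := g) (inter_subset_left : P ∩ Q ⊆ P)
      rwa [sdiff_inter_self_left] at this
    have h2 : ∑ x ∈ Q \ P, g x + ∑ x ∈ P ∩ Q, g x = ∑ x ∈ Q, g x := by
      have := sum_sdiff (f := g) (inter_subset_right : P ∩ Q ⊆ Q)
      rwa [sdiff_inter_self_right] at this
    linarith
  have hb : ∀ R : Finset ℤ, |∑ x ∈ R, g x| ≤ R.card := by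
    intro R
    refine (abs_sum_le_sum_abs _ _).trans ?_
    calc ∑ x ∈ R, |g x| ≤ ∑ x ∈ R, (1 : ℝ) := sum_le_sum fun x _ => hg x
      _ = _ := by rw [sum_const, nsmul_eq_mul, mul_one]
  have hPQ : ((P \ Q).card : ℝ) ≤ K / (2 * 3 ^ n) + 1 := by
    rcases le_or_gt 0 s with h | h
    · refine le_trans ?_ (hcard b (b + s) (by linarith) (by have := le_abs_self s; linarith))
      have : P \ Q ⊆ cls Set.univ b (b + s) n u v := by
        intro x hx
        rw [mem_sdiff, hP, hQ, mem_cls, mem_cls] at hx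
        rw [mem_cls]
        have h1 : (b : ℝ) ≤ x := by
          by_contra hcon
          push Not at hcon
          exact hx.2 ⟨⟨by linarith [hx.1.1.1], hcon⟩, hx.1.2⟩
        exact ⟨⟨h1, hx.1.1.2⟩, hx.1.2⟩
      exact_mod_cast card_le_card this
    · refine le_trans ?_ (hcard (a + s) a (by linarith) (by have := neg_le_abs s; linarith))
      have : P \ Q ⊆ cls Set.univ (a + s) a n u v := by
        intro x hx
        rw [mem_sdiff, hP, hQ, mem_cls, mem_cls] at hx
        rw [mem_cls]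
        have h1 : (x : ℝ) < a := by
          by_contra hcon
          push Not at hcon
          exact hx.2 ⟨⟨hcon, by linarith [hx.1.1.2]⟩, hx.1.2⟩
        exact ⟨⟨hx.1.1.1, h1⟩, hx.1.2⟩
      exact_mod_cast card_le_card this
  have hQP : ((Q \ P).card : ℝ) ≤ K / (2 * 3 ^ n) + 1 := by
    rcases le_or_gt 0 s with h | h
    · refine le_trans ?_ (hcard a (a + s) (by linarith) (by have := le_abs_self s; linarith))
      have : Q \ P ⊆ cls Set.univ a (a + s) n u v := by
        intro x hx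
        rw [mem_sdiff, hP, hQ, mem_cls, mem_cls] at hx
        rw [mem_cls]
        have h1 : (x : ℝ) < a + s := by
          by_contra hcon
          push Not at hcon
          exact hx.2 ⟨⟨hcon, by linarith [hx.1.1.2]⟩, hx.1.2⟩
        exact ⟨⟨hx.1.1.1, h1⟩, hx.1.2⟩
      exact_mod_cast card_le_card this
    · refine le_trans ?_ (hcard (b + s) b (by linarith) (by have := neg_le_abs s; linarith))
      have : Q \ P ⊆ cls Set.univ (b + s) b n u v := by
        intro x hx
        rw [mem_sdiff, hP, hQ, mem_cls, mem_cls] at hx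
        rw [mem_cls]
        have h1 : (b + s : ℝ) ≤ x := by
          by_contra hcon
          push Not at hcon
          exact hx.2 ⟨⟨by linarith [hx.1.1.1], hcon⟩, hx.1.2⟩
        exact ⟨⟨h1, hx.1.1.2⟩, hx.1.2⟩
      exact_mod_cast card_le_card this
  rw [hsplit]
  have h1 := hb (P \ Q)
  have h2 := hb (Q \ P)
  have h3 := abs_sub (∑ x ∈ P \ Q, g x) (∑ x ∈ Q \ P, g x)
  linarith

open Classical in
/-- the surviving pairs in a class of odd integers -/
theorem surv_card {d : ℤ} (hd : d % 2 = 1) (k : ℕ) (s : ℕ × ℤ) {a b : ℝ} (hab : a ≤ b) (m : ℕ) {u : ℤ}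
    (hu : IsCoprime u 3) (v : ℤ) :
    (((cls Set.univ a b m u v).filter fun x => surv d k s x).card : ℝ)
      ≤ q step (0, 0) k s * ((b - a) / 3 ^ m + 2 ^ k) := by
  set W := (cls Set.univ a b m u v).filter fun x => surv d k s x with hW
  have h2k : (0 : ℤ) < 2 ^ k := by positivity
  have hr : ∀ x : ℤ, (2 : ℤ) ^ k ∣ x - (((x % 2 ^ k).toNat : ℕ) : ℤ) := by
    intro x
    rw [Int.toNat_of_nonneg (Int.emod_nonneg _ h2k.ne')]
    exact Int.dvd_self_sub_emod
  have hlt : ∀ x : ℤ, (x % 2 ^ k).toNat < 2 ^ k := by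
    intro x
    have h1 := Int.emod_nonneg x h2k.ne'
    have h2 := Int.emod_lt_of_pos x h2k
    have h4 : (((x % 2 ^ k).toNat : ℕ) : ℤ) < ((2 ^ k : ℕ) : ℤ) := by
      rw [Int.toNat_of_nonneg h1]; push_cast; exact h2
    exact_mod_cast h4
  have hmap : ∀ x ∈ W, (x % 2 ^ k).toNat ∈ (range (2 ^ k)).filter (fun c : ℕ => surv d k s (c : ℤ)) := by
    intro x hx
    rw [mem_filter, mem_range]
    refine ⟨hlt x, ?_⟩
    obtain ⟨t, ht⟩ := hr x
    rw [hW, mem_filter] at hx
    have e : x = (((x % 2 ^ k).toNat : ℕ) : ℤ) + t * 2 ^ k := by linarith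
    have h1 := hx.2
    rw [e, surv_periodic hd] at h1
    exact h1
  have hfib : ∀ c ∈ (range (2 ^ k)).filter (fun c : ℕ => surv d k s (c : ℤ)),
      ((W.filter fun x => (x % 2 ^ k).toNat = c).card : ℝ) ≤ (b - a) / (2 ^ k * 3 ^ m) + 1 := by
    intro c _
    obtain ⟨c', hc'⟩ := crt k m (g := 1) (by decide) hu (c : ℤ) v
    have hsub : W.filter (fun x => (x % 2 ^ k).toNat = c) ⊆ ap a b (2 ^ k * 3 ^ m) c' := by
      intro x hx
      rw [mem_filter, hW, mem_filter, mem_cls] at hx
      rw [mem_ap]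
      refine ⟨hx.1.1.1, (hc' x).1 ⟨?_, hx.1.1.2.2.2⟩⟩
      have := hr x
      rw [hx.2] at this
      rwa [one_mul]
    have h1 : ((W.filter fun x => (x % 2 ^ k).toNat = c).card : ℝ) ≤ ((ap a b (2 ^ k * 3 ^ m) c').card : ℝ) := by
      exact_mod_cast card_le_card hsub
    refine h1.trans ((ap_card_le hab (by positivity) c').trans (le_of_eq ?_))
    push_cast
    ring
  have hcnt : (W.card : ℝ) = ∑ c ∈ (range (2 ^ k)).filter (fun c : ℕ => surv d k s (c : ℤ)),
      ((W.filter fun x => (x % 2 ^ k).toNat = c).card : ℝ) := by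
    rw [← Nat.cast_sum, ← card_eq_sum_card_fiberwise (fun x hx => hmap x hx)]
  rw [hcnt]
  refine (sum_le_sum hfib).trans ?_
  rw [sum_const, nsmul_eq_mul]
  have h3 : (((range (2 ^ k)).filter (fun c : ℕ => surv d k s (c : ℤ))).card : ℝ) = 2 ^ k * q step (0, 0) k s := by
    rw [← count_surv hd k s, card_filter]
    push_cast
    rfl
  rw [h3]
  apply le_of_eq
  field_simp

/-- CANCELLATION AGAINST A SHIFT. -/
theorem cancel {d : ℤ} (hd : d % 2 = 1) (hdd : d * d = 1) {f : ℤ → ℝ} (hf : f ∈ SameT d) {g : ℤ → ℝ}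
    (hg : ∀ x, |g x| ≤ 1) {a b : ℝ} (hab : a ≤ b) (m : ℕ) {u : ℤ} (hu : IsCoprime u 3) (v : ℤ) (k h' : ℕ)
    {ε1 : ℝ} (h0 : ∀ x : ℤ, a ≤ x → (x : ℝ) < b → |g (x + 2 * 3 ^ m * h') + g x| ≤ ε1) (hε1 : 0 ≤ ε1) :
    |WS (fun x => f x * g x) a b m u v| ≤
      q step (0, 0) k (0, -(d * (2 * 3 ^ m * h'))) * ((b - a) / 3 ^ m + 2 ^ k) + h' + 1
        + ε1 * ((b - a) / (2 * 3 ^ m) + 1) := by
  classical
  set h : ℤ := 2 * 3 ^ m * h' with hh
  set C := cls Set.univ a b m u v with hC
  set C' := cls Set.univ (a + (-(h : ℝ))) (b + (-(h : ℝ))) m u v with hC'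
  -- step 1: replace f x by f (x - h)
  have s1 : |∑ x ∈ C, f x * g x - ∑ x ∈ C, f (x - h) * g x|
      ≤ 2 * (q step (0, 0) k (0, -(d * h)) * ((b - a) / 3 ^ m + 2 ^ k)) := by
    rw [← sum_sub_distrib]
    refine (abs_sum_le_sum_abs _ _).trans ?_
    have hb : ∀ x ∈ C, |f x * g x - f (x - h) * g x| ≤ if surv d k (0, -(d * h)) x then 2 else 0 := by
      intro x _
      rw [← sub_mul, abs_mul]
      split_ifs with hs
      · have a1 := hf.1 x
        have a2 := hf.1 (x - h)
        have a3 := abs_sub (f x) (f (x - h))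
        have a4 := hg x
        nlinarith [abs_nonneg (g x), abs_nonneg (f x - f (x - h))]
      · obtain ⟨j, -, hj⟩ := coal hd k 0 (-(d * h)) _ hs
        have e : (3 : ℤ) ^ 0 * x + d * (-(d * h)) = x - h := by
          have : d * (-(d * h)) = -(d * d) * h := by ring
          rw [this, hdd]; ring
        rw [e] at hj
        rw [hf.2 j x (x - h) hj, sub_self, abs_zero, zero_mul]
    refine (sum_le_sum hb).trans ?_
    rw [← sum_filter, sum_const, nsmul_eq_mul]
    have := surv_card hd k (0, -(d * h)) hab m hu v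
    linarith
  -- step 2: reindex
  have s2 : ∑ x ∈ C, f (x - h) * g x = ∑ y ∈ C', f y * g (y + h) := by
    apply sum_bij' (fun x _ => x - h) (fun y _ => y + h)
    · intro x hx
      rw [hC, mem_cls] at hx
      rw [hC', mem_cls]
      push_cast
      refine ⟨⟨by linarith [hx.1.1], by linarith [hx.1.2]⟩, ?_, Set.mem_univ _, ?_⟩
      · obtain ⟨t, ht⟩ := hx.2.1
        exact ⟨t - 3 ^ m * h', by rw [ht, hh]; ring⟩
      · have h1 := hx.2.2.2
        have e : u * (x - h) - v = (u * x - v) - 3 ^ m * (u * (2 * h')) := by rw [hh]; ring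
        rw [e]
        exact dvd_sub h1 (dvd_mul_right _ _)
    · intro y hy
      rw [hC', mem_cls] at hy
      rw [hC, mem_cls]
      push_cast
      refine ⟨⟨by linarith [hy.1.1], by linarith [hy.1.2]⟩, ?_, Set.mem_univ _, ?_⟩
      · obtain ⟨t, ht⟩ := hy.2.1
        exact ⟨t + 3 ^ m * h', by rw [ht, hh]; ring⟩
      · have h1 := hy.2.2.2
        have e : u * (y + h) - v = (u * y - v) + 3 ^ m * (u * (2 * h')) := by rw [hh]; ring
        rw [e]
        exact dvd_add h1 (dvd_mul_right _ _)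
    · intro x _; ring
    · intro y _; ring
    · intro x _
      rw [sub_add_cancel]
  -- step 3: shift the window back
  have hg' : ∀ x, |f x * g (x + h)| ≤ 1 := by
    intro x
    rw [abs_mul]
    have a1 := hf.1 x
    have a4 := hg (x + h)
    nlinarith [abs_nonneg (g (x + h)), abs_nonneg (f x)]
  have hh0 : (0 : ℝ) ≤ h := by rw [hh]; push_cast; positivity
  have s3 : |WS (fun x => f x * g (x + h)) (a + (-(h : ℝ))) (b + (-(h : ℝ))) m u v
      - WS (fun x => f x * g (x + h)) a b m u v| ≤ 2 * ((h : ℝ) / (2 * 3 ^ m) + 1) := by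
    apply shiftW hg' _ m hu v
    rw [abs_neg, abs_of_nonneg hh0]
  have e3 : (h : ℝ) / (2 * 3 ^ m) = h' := by
    rw [hh]; push_cast; field_simp
  rw [e3] at s3
  -- step 4: the sign change
  have s4 : |WS (fun x => f x * g (x + h)) a b m u v + WS (fun x => f x * g x) a b m u v|
      ≤ ε1 * ((b - a) / (2 * 3 ^ m) + 1) := by
    unfold WS
    rw [← hC, ← sum_add_distrib]
    refine (abs_sum_le_sum_abs _ _).trans ?_
    have hb : ∀ x ∈ C, |f x * g (x + h) + f x * g x| ≤ ε1 := by
      intro x hx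
      rw [hC, mem_cls] at hx
      rw [← mul_add, abs_mul]
      have a1 := hf.1 x
      have a2 := h0 x hx.1.1 hx.1.2
      have a3 := abs_nonneg (g (x + h) + g x)
      nlinarith [abs_nonneg (f x)]
    refine (sum_le_sum hb).trans ?_
    rw [sum_const, nsmul_eq_mul, mul_comm]
    exact mul_le_mul_of_nonneg_left (cls_card_le Set.univ hab m hu v) hε1
  have e0 : WS (fun x => f x * g x) a b m u v = ∑ x ∈ C, f x * g x := rfl
  have e5 : WS (fun x => f x * g (x + h)) (a + (-(h : ℝ))) (b + (-(h : ℝ))) m u v = ∑ y ∈ C', f y * g (y + h) := rfl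
  rw [e5, ← s2] at s3
  set S0 := WS (fun x => f x * g x) a b m u v with hS0
  rw [← e0] at s1
  set S1 := ∑ x ∈ C, f (x - h) * g x with hS1
  set S3 := WS (fun x => f x * g (x + h)) a b m u v with hS3
  set Q := q step (0, 0) k (0, -(d * h)) * ((b - a) / 3 ^ m + 2 ^ k) with hQ
  have hX : 0 ≤ (b - a) / (2 * 3 ^ m) := div_nonneg (by linarith) (by positivity)
  rw [abs_le] at s1 s3 s4 ⊢
  have h9 : 0 ≤ ε1 * ((b - a) / (2 * 3 ^ m) + 1) := by positivity
  constructor
  · linarith [s1.1, s1.2, s3.1, s3.2, s4.1, s4.2]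
  · linarith [s1.1, s1.2, s3.1, s3.2, s4.1, s4.2]

end Pool.Agent.W41.FU
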