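import Mathlib
import Pool.Agent.W41.Base

/-! Invariant sets in sifted progressions: the base estimate. -/

set_option autoImplicit false

namespace Pool.Agent.W41

open Finset Filter Topology Pool.Agent.H499R2.CO Pool.Agent.H499R2.ND

/-- splitting off the power of two: sizes -/
theorem sizes {q j q' i l : ℕ} (hq'2 : q' % 2 = 1) (hqq : q = 2 ^ j * q') (hij : i ≤ j) (hql : q ≤ l) :
    2 ^ j ≤ l ∧ 3 ^ i * q' ≤ l ^ 2 ∧ (3 ^ i * q') % 2 = 1 ∧ 1 ≤ 3 ^ i * q' := by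
  have hjq : 2 ^ j ≤ q := by rw [hqq]; exact Nat.le_mul_of_pos_right _ (by omega)
  have hodd : (3 ^ i * q') % 2 = 1 := by
    rw [Nat.mul_mod, hq'2, Nat.pow_mod]; norm_num
  refine ⟨hjq.trans hql, ?_, hodd, by omega⟩
  have h1 : 3 ^ i ≤ 4 ^ j := (Nat.pow_le_pow_left (by norm_num) i).trans (Nat.pow_le_pow_right (by norm_num) hij)
  have h2 : 4 ^ j * q' = 2 ^ j * (2 ^ j * q') := by
    rw [show (4 : ℕ) = 2 * 2 by norm_num, mul_pow]; ring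
  calc 3 ^ i * q' ≤ 4 ^ j * q' := Nat.mul_le_mul_right _ h1
    _ = 2 ^ j * q := by rw [h2, ← hqq]
    _ ≤ l * l := Nat.mul_le_mul (hjq.trans hql) hql
    _ = l ^ 2 := by ring

/-- the number of terms -/
theorem terms {N q : ℕ} (hq : 1 ≤ q) (a : ℤ) :
    ((((N + (-a) % q) / q).toNat : ℕ) : ℝ) ≤ N / q + 1 ∧
      (N : ℝ) / q - 1 ≤ ((((N + (-a) % q) / q).toNat : ℕ) : ℝ) := by
  have hq0 : (0 : ℤ) < q := by exact_mod_cast hq
  have hq0R : (0 : ℝ) < q := by exact_mod_cast hq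
  have hb0 : 0 ≤ (-a) % (q : ℤ) := Int.emod_nonneg _ hq0.ne'
  have hb1 : (-a) % (q : ℤ) < q := Int.emod_lt_of_pos _ hq0
  obtain ⟨T, hT⟩ : ∃ T : ℕ, T = ((N + (-a) % q) / q).toNat := ⟨_, rfl⟩
  rw [← hT]
  have hTz : ((T : ℕ) : ℤ) = (N + (-a) % q) / q := by
    rw [hT, Int.toNat_of_nonneg (Int.ediv_nonneg (by positivity) hq0.le)]
  constructor
  · have h1 : (T : ℤ) * q ≤ N + (-a) % q := by rw [hTz]; exact Int.ediv_mul_le _ hq0.ne'
    have h2 : (T : ℤ) * q ≤ N + q := by linarith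
    have h3 : (T : ℝ) * q ≤ N + q := by exact_mod_cast h2
    have h4 : ((N : ℝ) / q + 1) = (N + q) / q := by field_simp
    rw [h4, le_div_iff₀ hq0R]
    exact h3
  · have h1 : (N : ℤ) + (-a) % q < (T + 1) * q := by rw [hTz]; exact Int.lt_ediv_add_one_mul_self _ hq0
    have h2 : (N : ℤ) < (T + 1) * q := by linarith
    have h3 : (N : ℝ) < (T + 1) * q := by exact_mod_cast h2
    have h4 : (N : ℝ) / q < T + 1 := by rwa [div_lt_iff₀ hq0R]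
    linarith

/-- the window fits -/
theorem win_num {K B W2 lam l k R : ℕ} {θ : ℝ} (hθ : 0 < θ) (hB : 2 * ((K : ℝ) + 2) / θ ≤ B) (hBW : B ≤ W2)
    (hlam : 1 ≤ lam) (hl : l < 2 ^ (lam + 1)) (hk : k = lam * W2) (hR : R ≤ l ^ 2) :
    ((R : ℝ) * ((l ^ K : ℕ) : ℝ)) ≤ (2 : ℝ) ^ (θ * k) := by
  have h1 : (R : ℝ) * ((l ^ K : ℕ) : ℝ) ≤ (l : ℝ) ^ (K + 2) := by
    have : R * l ^ K ≤ l ^ (K + 2) := by
      calc R * l ^ K ≤ l ^ 2 * l ^ K := Nat.mul_le_mul_right _ hR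
        _ = _ := by rw [← pow_add]; congr 1; omega
    exact_mod_cast this
  refine h1.trans ?_
  have h2 : (l : ℝ) ^ (K + 2) ≤ (2 : ℝ) ^ ((lam + 1) * (K + 2)) := by
    rw [pow_mul]
    exact pow_le_pow_left₀ (Nat.cast_nonneg _) (by exact_mod_cast hl.le) _
  refine h2.trans ?_
  rw [← Real.rpow_natCast]
  apply Real.rpow_le_rpow_of_exponent_le (by norm_num)
  rw [hk]
  push_cast
  have h3 : 2 * ((K : ℝ) + 2) ≤ θ * B := by
    rw [div_le_iff₀ hθ] at hB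
    linarith
  have hlamR : (1 : ℝ) ≤ lam := by exact_mod_cast hlam
  have h4 : lam * (θ * B) ≤ θ * (lam * W2) := by
    have : (B : ℝ) ≤ W2 := by exact_mod_cast hBW
    have h5 : θ * (lam * W2) = lam * (θ * W2) := by ring
    rw [h5]
    apply mul_le_mul_of_nonneg_left _ (by linarith)
    exact mul_le_mul_of_nonneg_left this hθ.le
  have h6 : lam * (2 * ((K : ℝ) + 2)) ≤ lam * (θ * B) := mul_le_mul_of_nonneg_left h3 (by linarith)
  have h7 : ((lam : ℝ) + 1) * (K + 2) ≤ lam * (2 * (K + 2)) := by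
    have : (0 : ℝ) ≤ K + 2 := by positivity
    nlinarith
  linarith

/-- the mean value over the interval -/
theorem mean_val {s : ℤ} {S : Set ℤ} {δ ε : ℝ} (hδ0 : 0 ≤ δ) (hδ1 : δ ≤ 1) (hε : 0 < ε) (hε1 : ε ≤ 1)
    {N1 : ℕ} (H : ∀ N : ℕ, N1 ≤ N → |(cF s S N : ℝ) - δ * N| ≤ ε * N) {x0 : ℤ} {l R T : ℕ}
    (hx0 : |x0| ≤ (l : ℤ) ^ 2) (hT : 2 * l ^ 2 + N1 ≤ T) (hR : 1 ≤ R) :
    |∑ m ∈ Ioc x0 (x0 + R * T), ind s S m - δ * (R * T)| ≤ ε * (R * T) + 3 * (l : ℝ) ^ 2 := by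
  have hTz : 2 * (l : ℤ) ^ 2 + N1 ≤ T := by exact_mod_cast hT
  have hRz : (1 : ℤ) ≤ R := by exact_mod_cast hR
  have hRT : (T : ℤ) ≤ R * T := by nlinarith [Int.natCast_nonneg T]
  have h1 := neg_abs_le x0
  have h2 := le_abs_self x0
  obtain ⟨X, hX⟩ : ∃ X : ℤ, X = x0 + R * T := ⟨_, rfl⟩
  have hXx : |x0| ≤ X := by rw [hX]; linarith [Int.natCast_nonneg N1]
  have hXN : (N1 : ℤ) ≤ X := by rw [hX]; nlinarith [sq_nonneg (l : ℤ)]
  have hX0 : 0 ≤ X := (abs_nonneg _).trans hXx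
  have a1 := shift_start (ind s S) (ind_nonneg s S) (ind_le_one s S) x0 X hXx
  have a2 := H X.toNat (by omega)
  have hXn : ((X.toNat : ℕ) : ℤ) = X := Int.toNat_of_nonneg hX0
  have hXnR : ((X.toNat : ℕ) : ℝ) = X := by exact_mod_cast hXn
  rw [cF_eq_sum, hXn, hXnR] at a2
  rw [← hX]
  have hXR : (X : ℝ) = x0 + R * T := by exact_mod_cast hX
  have hx0R : |(x0 : ℝ)| ≤ (l : ℝ) ^ 2 := by exact_mod_cast hx0
  have b1 := neg_abs_le (x0 : ℝ)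
  have b2 := le_abs_self (x0 : ℝ)
  have e : ∑ m ∈ Ioc x0 X, ind s S m - δ * (R * T) =
      (∑ m ∈ Ioc x0 X, ind s S m - ∑ m ∈ Ioc 0 X, ind s S m) + (∑ m ∈ Ioc 0 X, ind s S m - δ * X) + δ * x0 := by
    rw [hXR]; ring
  rw [e]
  have a3 : |δ * (x0 : ℝ)| ≤ |(x0 : ℝ)| := by
    rw [abs_mul, abs_of_nonneg hδ0]
    exact mul_le_of_le_one_left (abs_nonneg _) hδ1
  have a4 := abs_add_three (∑ m ∈ Ioc x0 X, ind s S m - ∑ m ∈ Ioc 0 X, ind s S m)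
    (∑ m ∈ Ioc 0 X, ind s S m - δ * X) (δ * x0)
  have a5 : ε * (X : ℝ) ≤ ε * (R * T) + (l : ℝ) ^ 2 := by
    rw [hXR]
    have : ε * (x0 : ℝ) ≤ (l : ℝ) ^ 2 := by
      calc ε * (x0 : ℝ) ≤ ε * |(x0 : ℝ)| := mul_le_mul_of_nonneg_left b2 hε.le
        _ ≤ |(x0 : ℝ)| := mul_le_of_le_one_left (abs_nonneg _) hε1
        _ ≤ _ := hx0R
    linarith
  linarith

/-- final numerics -/
theorem fin_num {A δ ε V T Nq l R M : ℝ} {K W2 : ℕ} (hε : 0 < ε) (hε1 : ε ≤ 1) (hδ0 : 0 ≤ δ) (hδ1 : δ ≤ 1)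
    (hV0 : 0 < V) (hV1 : V ≤ 1) (hVl : 1 / l ≤ V) (hR : 1 ≤ R) (hT0 : 0 ≤ T)
    (hT1 : T ≤ Nq + 1) (hT2 : Nq - 1 ≤ T) (hN : l ^ (2 * W2 - 1) ≤ Nq) (hW : K + 10 ≤ W2)
    (hl : 28 / ε ≤ l) (hl1 : 10 ≤ l)
    (h1 : |A - V / R * M| ≤ ε / 4 * (T * V) + l ^ K)
    (h2 : |M - δ * (R * T)| ≤ ε / 4 * (R * T) + 3 * l ^ 2) :
    |A - δ * (V * Nq)| ≤ ε * (V * Nq) := by
  have hR0 : 0 < R := by linarith
  have hl0 : 0 < l := by linarith
  have hVR : V / R ≤ 1 := by rw [div_le_one hR0]; linarith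
  have hVR0 : 0 < V / R := by positivity
  have e1 : V / R * M - δ * (V * T) = V / R * (M - δ * (R * T)) := by field_simp
  have h3 : |V / R * M - δ * (V * T)| ≤ ε / 4 * (V * T) + 3 * l ^ 2 := by
    rw [e1, abs_mul, abs_of_pos hVR0]
    calc V / R * |M - δ * (R * T)| ≤ V / R * (ε / 4 * (R * T) + 3 * l ^ 2) := mul_le_mul_of_nonneg_left h2 hVR0.le
      _ = ε / 4 * (V * T) + V / R * (3 * l ^ 2) := by field_simp
      _ ≤ ε / 4 * (V * T) + 3 * l ^ 2 := by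
          have : V / R * (3 * l ^ 2) ≤ 3 * l ^ 2 := mul_le_of_le_one_left (by positivity) hVR
          linarith
  have h4 : |δ * (V * T) - δ * (V * Nq)| ≤ 1 := by
    have : δ * (V * T) - δ * (V * Nq) = (δ * V) * (T - Nq) := by ring
    rw [this, abs_mul, abs_of_nonneg (by positivity)]
    have h5 : |T - Nq| ≤ 1 := by rw [abs_le]; constructor <;> linarith
    have h6 : δ * V ≤ 1 := mul_le_one₀ hδ1 hV0.le hV1
    calc _ ≤ 1 * 1 := mul_le_mul h6 h5 (abs_nonneg _) (by norm_num)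
      _ = 1 := by norm_num
  have h7 : |A - δ * (V * Nq)| ≤ ε / 4 * (T * V) + l ^ K + (ε / 4 * (V * T) + 3 * l ^ 2) + 1 := by
    have e2 : A - δ * (V * Nq) = (A - V / R * M) + (V / R * M - δ * (V * T)) + (δ * (V * T) - δ * (V * Nq)) := by ring
    rw [e2]
    refine (abs_add_three _ _ _).trans ?_
    linarith
  have h8 : ε / 4 * (T * V) ≤ ε / 4 * (V * Nq) + 1 := by
    have : T * V ≤ V * Nq + 1 := by nlinarith
    have h9 : ε / 4 * (T * V) ≤ ε / 4 * (V * Nq + 1) := mul_le_mul_of_nonneg_left this (by positivity)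
    linarith
  -- the main term is large
  have hK1 : 1 ≤ l ^ K := one_le_pow₀ (by linarith)
  have h10 : l ^ K + 3 * l ^ 2 + 3 ≤ 7 * l ^ (K + 2) := by
    have a1 : l ^ 2 ≤ l ^ (K + 2) := pow_le_pow_right₀ (by linarith) (by omega)
    have a2 : l ^ K ≤ l ^ (K + 2) := pow_le_pow_right₀ (by linarith) (by omega)
    have a3 : 1 ≤ l ^ (K + 2) := one_le_pow₀ (by linarith)
    linarith
  have h11 : 7 * l ^ (K + 2) ≤ ε / 4 * l ^ (K + 3) := by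
    have a1 : 28 ≤ ε * l := by
      rw [div_le_iff₀ hε] at hl
      linarith
    have a2 : 0 < l ^ (K + 2) := by positivity
    have a3 : l ^ (K + 3) = l ^ (K + 2) * l := pow_succ _ _
    rw [a3]
    nlinarith
  have h12 : l ^ (K + 3) ≤ V * Nq := by
    calc l ^ (K + 3) ≤ l ^ (2 * W2 - 2) := pow_le_pow_right₀ (by linarith) (by omega)
      _ = 1 / l * l ^ (2 * W2 - 1) := by
          have : 2 * W2 - 1 = (2 * W2 - 2) + 1 := by omega
          rw [this, pow_succ]; field_simp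
      _ ≤ V * Nq := mul_le_mul hVl hN (by positivity) hV0.le
  have h13 : ε / 4 * l ^ (K + 3) ≤ ε / 4 * (V * Nq) := mul_le_mul_of_nonneg_left h12 (by positivity)
  have h14 : T * V = V * T := mul_comm _ _
  rw [h14] at h7 h8
  have h15 : 0 ≤ V * Nq := le_trans (by positivity) h12
  have h16 : 0 ≤ ε * (V * Nq) := mul_nonneg hε.le h15
  linarith

/-- THE BASE ESTIMATE, in terms of the root `l`. -/
theorem base_l {s : ℤ} (hs : s = 1 ∨ s = -1) {ε : ℝ} (hε : 0 < ε) (hε1 : ε ≤ 1) : ∃ W2 l0 : ℕ, 10 ≤ W2 ∧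
    10 ≤ l0 ∧ ∀ S : Set ℤ, Inv 1 S → ∀ δ : ℝ, HD s S δ → ∀ l : ℕ, l0 ≤ l → ∀ N : ℕ, l ^ (2 * W2) ≤ N →
    ∀ q : ℕ, 1 ≤ q → q ≤ l → ∀ P : Finset ℕ, (∀ p ∈ P, p.Prime ∧ p ≤ l ∧ ¬ p ∣ q) → ∀ a : ℤ,
    |As (ind s S) N q a P - δ * (V P * (N / q))| ≤ ε * (V P * (N / q)) ∧ (l : ℝ) ^ W2 ≤ V P * (N / q) := by
  have hε3 : 0 < ε / 4 := by positivity
  obtain ⟨K, y0, k0, θ, hK, hy0, hθ, Hc⟩ := core hε3 (by linarith)
  obtain ⟨N1, HN1⟩ := unif hs hε3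
  obtain ⟨B, hB⟩ := exists_nat_ge (2 * ((K : ℝ) + 2) / θ)
  obtain ⟨E, hE⟩ := exists_nat_ge (28 / ε)
  obtain ⟨W2, hW2⟩ : ∃ W2 : ℕ, W2 = B + K + 10 := ⟨_, rfl⟩
  obtain ⟨k2, hk2⟩ : ∃ k2 : ℕ, k2 = 2 ^ k0 := ⟨_, rfl⟩
  refine ⟨W2, y0 + k2 + N1 + E + 10, by omega, by omega, ?_⟩
  intro S hS δ hδ l hl N hN q hq hql P hP a
  have hPl : ∀ p ∈ P, p.Prime ∧ p ≤ l := fun p hp => ⟨(hP p hp).1, (hP p hp).2.1⟩
  have hPp : ∀ p ∈ P, p.Prime := fun p hp => (hP p hp).1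
  have hl10 : 10 ≤ l := by omega
  have hlR : (10 : ℝ) ≤ l := by exact_mod_cast hl10
  have hl0R : (0 : ℝ) < l := by linarith
  have hqR : (1 : ℝ) ≤ q := by exact_mod_cast hq
  have hq0R : (0 : ℝ) < q := by linarith
  have hq0 : (0 : ℤ) < q := by exact_mod_cast hq
  have hVl : 1 / (l : ℝ) ≤ V P := V_ge hPp (by omega) (fun p hp => (hPl p hp).2)
  have hV0 := V_pos hPp
  -- splitting off the power of two
  obtain ⟨j, q', hq'2, hqq⟩ : ∃ j q' : ℕ, q' % 2 = 1 ∧ q = 2 ^ j * q' := by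
    obtain ⟨j, q', h1, h2⟩ := Nat.exists_eq_two_pow_mul_odd (n := q) (by omega)
    exact ⟨j, q', Nat.odd_iff.1 h1, h2⟩
  obtain ⟨i, hij, hi⟩ := iter_affine s j (-((-a) % q))
  obtain ⟨hjl, hR2, hRodd, hR1⟩ := sizes hq'2 hqq hij hql
  obtain ⟨R, hR⟩ : ∃ R : ℕ, R = 3 ^ i * q' := ⟨_, rfl⟩
  rw [← hR] at hR2 hRodd hR1
  obtain ⟨x0, hx0⟩ : ∃ x0 : ℤ, x0 = (Tz s)^[j] (-((-a) % q)) := ⟨_, rfl⟩
  have hb0 : 0 ≤ (-a) % (q : ℤ) := Int.emod_nonneg _ hq0.ne'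
  have hb1 : (-a) % (q : ℤ) < q := Int.emod_lt_of_pos _ hq0
  have hx0b : |x0| ≤ (l : ℤ) ^ 2 := by
    have h1 := iter_bound hs j (-((-a) % q))
    have h2 : |(-((-a) % (q : ℤ)))| ≤ l := by
      rw [abs_neg, abs_of_nonneg hb0]
      have : (q : ℤ) ≤ l := by exact_mod_cast hql
      linarith
    have h3 : (2 : ℤ) ^ j ≤ l := by exact_mod_cast hjl
    rw [hx0]
    calc _ ≤ 2 ^ j * |(-((-a) % (q : ℤ)))| := h1
      _ ≤ l * l := mul_le_mul h3 h2 (abs_nonneg _) (by positivity)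
      _ = _ := by ring
  rw [← hx0] at hi
  -- the number of terms
  obtain ⟨hT1, hT2⟩ := terms (N := N) hq a
  have hre := reindex (ind s S) N q hq a P
  obtain ⟨T, hT⟩ : ∃ T : ℕ, T = ((N + (-a) % q) / q).toNat := ⟨_, rfl⟩
  rw [← hT] at hT1 hT2 hre
  have hNq : (l : ℝ) ^ (2 * W2 - 1) ≤ N / q := by
    rw [le_div_iff₀ hq0R]
    calc (l : ℝ) ^ (2 * W2 - 1) * q ≤ (l : ℝ) ^ (2 * W2 - 1) * l := by
          apply mul_le_mul_of_nonneg_left _ (by positivity)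
          exact_mod_cast hql
      _ = (l : ℝ) ^ (2 * W2) := by rw [← pow_succ]; congr 1; omega
      _ ≤ N := by exact_mod_cast hN
  have hTl : l ^ (W2 + K) ≤ T := by
    have h3 : (l : ℝ) ^ (W2 + K) + 1 ≤ (l : ℝ) ^ (2 * W2 - 1) := by
      have h4 : (l : ℝ) ^ (W2 + K + 1) ≤ (l : ℝ) ^ (2 * W2 - 1) :=
        pow_le_pow_right₀ (by linarith) (by omega)
      have h5 : (1 : ℝ) ≤ (l : ℝ) ^ (W2 + K) := one_le_pow₀ (by linarith)
      rw [pow_succ] at h4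
      nlinarith
    have h2 : ((l ^ (W2 + K) : ℕ) : ℝ) ≤ T := by
      push_cast
      linarith
    exact_mod_cast h2
  -- the number of steps
  obtain ⟨lam, hlam⟩ : ∃ lam : ℕ, lam = Nat.log 2 l := ⟨_, rfl⟩
  have hlam1 : 2 ^ lam ≤ l := by rw [hlam]; exact Nat.pow_log_le_self 2 (by omega)
  have hlam2 : l < 2 ^ (lam + 1) := by rw [hlam]; exact Nat.lt_pow_succ_log_self (by norm_num) l
  have hlamk : k0 ≤ lam := by
    rw [hlam]
    apply Nat.le_log_of_pow_le (by norm_num)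
    rw [← hk2]; omega
  have hlam0 : 1 ≤ lam := by
    rw [hlam]
    apply Nat.le_log_of_pow_le (by norm_num)
    omega
  obtain ⟨k, hk⟩ : ∃ k : ℕ, k = lam * W2 := ⟨_, rfl⟩
  have hk0 : k0 ≤ k := by rw [hk]; exact hlamk.trans (Nat.le_mul_of_pos_right _ (by omega))
  have h2k : 2 ^ k ≤ l ^ W2 := by
    rw [hk, pow_mul]; exact Nat.pow_le_pow_left hlam1 _
  have hTbig : 2 ^ k * l ^ K ≤ T := by
    refine le_trans ?_ hTl
    rw [pow_add]; exact Nat.mul_le_mul_right _ h2k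
  have hwin := win_num (k := k) hθ hB (by omega : B ≤ W2) hlam0 hlam2 hk hR2
  have hPq : ∀ p ∈ P, ¬ (p : ℤ) ∣ q := fun p hp hd => (hP p hp).2.2 (by exact_mod_cast hd)
  have hsodd : s % 2 = 1 := by rcases hs with rfl | rfl <;> norm_num
  have hss : s * s = 1 := by rcases hs with rfl | rfl <;> norm_num
  have hfi : ∀ x, ind s S (Tz s x) = ind s S x := ind_inv hs hS
  have hmain := Hc l (by omega) k hk0 T hTbig P hPl (-((-a) % q)) q hPq s hsodd hss x0 R hRodd (l ^ K) le_rfl hwin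
    (ind s S) (ind_nonneg s S) (ind_le_one s S) hfi
  have hAs : As (ind s S) N q a P = ∑ t ∈ Icc 1 T, wt P (-((-a) % q)) q (t : ℕ) * ind s S (x0 + R * (t : ℕ)) := by
    rw [hre]
    apply sum_congr rfl
    intro t _
    congr 1
    have h1 : -((-a) % (q : ℤ)) + (q : ℤ) * (t : ℕ) = -((-a) % q) + 2 ^ j * (q' * (t : ℕ)) := by
      have : (q : ℤ) = 2 ^ j * q' := by exact_mod_cast hqq
      linear_combination ((t : ℕ) : ℤ) * this
    rw [h1, ← iter_inv hfi j, hi]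
    congr 1
    rw [hR]; push_cast; ring
  rw [← hAs] at hmain
  -- the mean value
  have hδ0 : 0 ≤ δ := ge_of_tendsto' (cF_tendsto hs hδ) fun N => by positivity
  have hδ1 : δ ≤ 1 := by
    apply le_of_tendsto' (cF_tendsto hs hδ) fun N => ?_
    apply div_le_one_of_le₀ _ (Nat.cast_nonneg _)
    have := cF_compl s S N
    exact_mod_cast (by omega : cF s S N ≤ N)
  have hTb : 2 * l ^ 2 + N1 ≤ T := by
    refine le_trans ?_ hTl
    have h1 : l ^ 3 ≤ l ^ (W2 + K) := Nat.pow_le_pow_right (by omega) (by omega)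
    have h2 : l ^ 3 = l * l ^ 2 := by ring
    have h3 : l ≤ l ^ 2 := by nlinarith
    have h4 : 3 * l ^ 2 ≤ l * l ^ 2 := Nat.mul_le_mul_right _ (by omega)
    omega
  have hmean := mean_val hδ0 hδ1 hε3 (by linarith) (HN1 S hS δ hδ) hx0b hTb hR1
  have hlK : ((l ^ K : ℕ) : ℝ) = (l : ℝ) ^ K := by push_cast; rfl
  rw [hlK] at hmain
  constructor
  · exact fin_num (W2 := W2) hε hε1 hδ0 hδ1 hV0 (V_le_one hPp) hVl (by exact_mod_cast hR1)
      (Nat.cast_nonneg _) hT1 hT2 hNq (by omega) (hE.trans (by exact_mod_cast (by omega : E ≤ l))) hlR hmain hmean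
  · calc (l : ℝ) ^ W2 ≤ (l : ℝ) ^ (2 * W2 - 2) := pow_le_pow_right₀ (by linarith) (by omega)
      _ = 1 / l * (l : ℝ) ^ (2 * W2 - 1) := by
          have : 2 * W2 - 1 = (2 * W2 - 2) + 1 := by omega
          rw [this, pow_succ]; field_simp
      _ ≤ V P * (N / q) := mul_le_mul hVl hNq (by positivity) hV0.le

end Pool.Agent.W41
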