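import Pool.Agent.H499R2.NDStep3

/-! Two-sided one-stage estimate for functions on the odd integers. -/

set_option autoImplicit false

namespace Pool.Agent.W41.FU

open Pool.Agent.H320R2.PD Pool.Agent.H499R2.ND Finset

/-- sum of `g` over the odd integers of `[a,b)` with `u x ≡ v` mod `3^n` -/
noncomputable def WS (g : ℤ → ℝ) (a b : ℝ) (n : ℕ) (u v : ℤ) : ℝ :=
  ∑ x ∈ cls Set.univ a b n u v, g x

theorem WS_abs {g : ℤ → ℝ} (hg : ∀ x, |g x| ≤ 1) (a b : ℝ) (n : ℕ) (u v : ℤ) :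
    |WS g a b n u v| ≤ ((cls Set.univ a b n u v).card : ℝ) := by
  unfold WS
  refine (abs_sum_le_sum_abs _ _).trans ?_
  calc ∑ x ∈ cls Set.univ a b n u v, |g x| ≤ ∑ x ∈ cls Set.univ a b n u v, (1 : ℝ) :=
        sum_le_sum fun x _ => hg x
    _ = _ := by rw [sum_const, nsmul_eq_mul, mul_one]

/-- mixing for a fixed size, two-sided, for functions -/
theorem mixF {d : ℤ} (hd3 : IsCoprime d 3) {g : ℤ → ℝ} (hg : ∀ x, |g x| ≤ 1) {L : ℝ} (hL : 0 ≤ L)
    (A k m m' T : ℕ) (hm' : m' ≤ k) (hk : 1 ≤ k) (c : ℤ) :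
    |∑ w ∈ FWT A k T, WS g L (2 * L) (k + m) (2 ^ T) (d * Wo w + 3 ^ k * c)
      - (∑ w ∈ FWT A k T, WS g L (2 * L) m' (2 ^ T) (d * Wo w)) / 3 ^ (k + m - m')|
        ≤ 2 ^ T * (L / (2 * 3 ^ (k + m)) + 1) * dev (FWT A k T) wwt (fun w => (Wo w : ℤ)) (k + m) m' := by
  classical
  obtain ⟨p, q, hpq⟩ : IsCoprime d ((3 : ℤ) ^ (k + m)) := hd3.pow_right
  set W : Finset ℤ := cls Set.univ L (2 * L) 0 1 0 with hWdef
  set e : ℤ → ℤ := fun x => p * (2 ^ T * x - 3 ^ k * c) with he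
  have hwt : ∀ w ∈ FWT A k T, wwt w = (1 / 2 : ℝ) ^ T := by
    intro w hw
    unfold FWT at hw
    unfold wwt
    rw [(mem_filter.1 hw).2]
  have hcls : ∀ (n : ℕ) (v : ℤ), cls Set.univ L (2 * L) n (2 ^ T) v
      = W.filter fun x => (3 : ℤ) ^ n ∣ 2 ^ T * x - v := by
    intro n v
    ext x
    rw [mem_filter, hWdef, mem_cls, mem_cls]
    simp only [pow_zero, isUnit_one, IsUnit.dvd, and_true]
    tauto
  have hcntgen : ∀ (n : ℕ) (u : ℤ → ℤ) (r : ℤ → ℤ),
      (∀ x : ℤ, ∀ w ∈ FWT A k T, ((3 : ℤ) ^ n ∣ 2 ^ T * x - u (Wo w : ℤ) ↔ (3 : ℤ) ^ n ∣ (Wo w : ℤ) - r x)) →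
      ∑ w ∈ FWT A k T, WS g L (2 * L) n (2 ^ T) (u (Wo w : ℤ))
        = ∑ x ∈ W, g x * (2 ^ T * cnt (FWT A k T) wwt (fun w => (Wo w : ℤ)) n (r x)) := by
    intro n u r hur
    calc ∑ w ∈ FWT A k T, WS g L (2 * L) n (2 ^ T) (u (Wo w : ℤ))
        = ∑ w ∈ FWT A k T, ∑ x ∈ W, (if (3 : ℤ) ^ n ∣ 2 ^ T * x - u (Wo w : ℤ) then g x else 0) := by
          apply sum_congr rfl
          intro w _
          unfold WS
          rw [hcls, sum_filter]
      _ = ∑ x ∈ W, ∑ w ∈ FWT A k T, (if (3 : ℤ) ^ n ∣ 2 ^ T * x - u (Wo w : ℤ) then g x else 0) :=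
          sum_comm
      _ = _ := by
          apply sum_congr rfl
          intro x _
          unfold cnt
          rw [mul_sum, mul_sum]
          apply sum_congr rfl
          intro w hw
          rw [hwt w hw]
          by_cases h : (3 : ℤ) ^ n ∣ 2 ^ T * x - u (Wo w : ℤ)
          · rw [if_pos h, if_pos ((hur x w hw).1 h), ← mul_pow]; norm_num
          · rw [if_neg h, if_neg (fun h' => h ((hur x w hw).2 h')), mul_zero, mul_zero]
  have hpcop : IsCoprime ((3 : ℤ) ^ (k + m)) p := ⟨q, d, by linarith⟩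
  have hdcop : IsCoprime ((3 : ℤ) ^ (k + m)) d := ⟨q, p, by linarith⟩
  have hfull := hcntgen (k + m) (fun W => d * W + 3 ^ k * c) e (by
    intro x w _
    constructor
    · intro h
      apply hdcop.dvd_of_dvd_mul_left
      have h1 := dvd_sub (Dvd.intro (q * (2 ^ T * x - 3 ^ k * c)) rfl :
        (3 : ℤ) ^ (k + m) ∣ 3 ^ (k + m) * (q * (2 ^ T * x - 3 ^ k * c))) h
      have e1 : d * ((Wo w : ℤ) - e x) = 3 ^ (k + m) * (q * (2 ^ T * x - 3 ^ k * c))
          - (2 ^ T * x - (d * (Wo w : ℤ) + 3 ^ k * c)) := by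
        rw [he]
        have : d * p = 1 - q * 3 ^ (k + m) := by linarith
        calc d * ((Wo w : ℤ) - p * (2 ^ T * x - 3 ^ k * c))
            = d * (Wo w : ℤ) - (d * p) * (2 ^ T * x - 3 ^ k * c) := by ring
          _ = _ := by rw [this]; ring
      rw [e1]; exact h1
    · intro h
      have h1 := dvd_sub (Dvd.intro (q * (2 ^ T * x - 3 ^ k * c)) rfl :
        (3 : ℤ) ^ (k + m) ∣ 3 ^ (k + m) * (q * (2 ^ T * x - 3 ^ k * c))) (h.mul_left d)
      have e1 : (2 ^ T * x - (d * (Wo w : ℤ) + 3 ^ k * c)) = 3 ^ (k + m) * (q * (2 ^ T * x - 3 ^ k * c))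
          - d * ((Wo w : ℤ) - e x) := by
        rw [he]
        have : d * p = 1 - q * 3 ^ (k + m) := by linarith
        have e2 : d * ((Wo w : ℤ) - p * (2 ^ T * x - 3 ^ k * c))
            = d * (Wo w : ℤ) - (d * p) * (2 ^ T * x - 3 ^ k * c) := by ring
        rw [e2, this]; ring
      rw [e1]; exact h1)
  have hlow := hcntgen m' (fun W => d * W) e (by
    intro x w _
    have hdm : (3 : ℤ) ^ m' ∣ 3 ^ (k + m) := pow_dvd_pow 3 (by omega)
    have hdk : (3 : ℤ) ^ m' ∣ 3 ^ k := pow_dvd_pow 3 hm'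
    have hdcop' : IsCoprime ((3 : ℤ) ^ m') d := hd3.symm.pow_left
    have key : (3 : ℤ) ^ m' ∣ (2 ^ T * x - d * (Wo w : ℤ)) + d * ((Wo w : ℤ) - e x) := by
      have : (2 ^ T * x - d * (Wo w : ℤ)) + d * ((Wo w : ℤ) - e x)
          = 3 ^ k * c + 3 ^ (k + m) * (q * (2 ^ T * x - 3 ^ k * c)) := by
        rw [he]
        have h1 : d * p = 1 - q * 3 ^ (k + m) := by linarith
        calc (2 ^ T * x - d * (Wo w : ℤ)) + d * ((Wo w : ℤ) - p * (2 ^ T * x - 3 ^ k * c))
            = 2 ^ T * x - (d * p) * (2 ^ T * x - 3 ^ k * c) := by ring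
          _ = _ := by rw [h1]; ring
      rw [this]
      exact dvd_add (hdk.mul_right _) (hdm.mul_right _)
    constructor
    · intro h
      apply hdcop'.dvd_of_dvd_mul_left
      have := dvd_sub key h
      rwa [add_sub_cancel_left] at this
    · intro h
      have := dvd_sub key (h.mul_left d)
      rwa [add_sub_cancel_right] at this)
  rw [hfull, hlow]
  set n := k + m with hn
  have hdiff : ∑ x ∈ W, |cnt (FWT A k T) wwt (fun w => (Wo w : ℤ)) n (e x)
        - cnt (FWT A k T) wwt (fun w => (Wo w : ℤ)) m' (e x) / 3 ^ (n - m')|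
      ≤ (L / (2 * 3 ^ n) + 1) * dev (FWT A k T) wwt (fun w => (Wo w : ℤ)) n m' := by
    unfold dev
    apply sum_periodic_le (g := fun c => |cnt (FWT A k T) wwt (fun w => (Wo w : ℤ)) n c
        - cnt (FWT A k T) wwt (fun w => (Wo w : ℤ)) m' c / 3 ^ (n - m')|)
    · intro r
      have hpc : IsCoprime (p * 2 ^ T) 3 := by
        apply IsCoprime.mul_left
        · have : IsCoprime p ((3 : ℤ) ^ (k + m)) := hpcop.symm
          exact this.of_isCoprime_of_dvd_right (dvd_pow_self 3 (by omega))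
        · exact cop_two_pow T
      have h1 := cls_card_le Set.univ (by linarith : L ≤ 2 * L) n hpc (p * 3 ^ k * c + r)
      have h2 : W.filter (fun x => (3 : ℤ) ^ n ∣ e x - r)
          ⊆ cls Set.univ L (2 * L) n (p * 2 ^ T) (p * 3 ^ k * c + r) := by
        intro x hx
        rw [mem_filter, hWdef, mem_cls] at hx
        rw [mem_cls]
        refine ⟨hx.1.1, hx.1.2.1, hx.1.2.2.1, ?_⟩
        have := hx.2
        rw [he] at this
        convert this using 1
        ring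
      have h4 : ((W.filter (fun x => (3 : ℤ) ^ n ∣ e x - r)).card : ℝ)
          ≤ (cls Set.univ L (2 * L) n (p * 2 ^ T) (p * 3 ^ k * c + r)).card := by
        exact_mod_cast card_le_card h2
      refine h4.trans (h1.trans (le_of_eq ?_))
      ring
    · intro c; exact abs_nonneg _
    · intro c c' hcc
      have h1 := cnt_congr (s := FWT A k T) (wt := wwt) (fun w => (Wo w : ℤ)) n hcc
      have h2 := cnt_congr (s := FWT A k T) (wt := wwt) (fun w => (Wo w : ℤ)) m'
        ((pow_dvd_pow 3 (by omega : m' ≤ n)).trans hcc)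
      rw [h1, h2]
  have hT : (0 : ℝ) < 2 ^ T := by positivity
  have e0 : ∑ x ∈ W, g x * (2 ^ T * cnt (FWT A k T) wwt (fun w => (Wo w : ℤ)) n (e x))
      - (∑ x ∈ W, g x * (2 ^ T * cnt (FWT A k T) wwt (fun w => (Wo w : ℤ)) m' (e x))) / 3 ^ (n - m')
      = ∑ x ∈ W, g x * (2 ^ T * (cnt (FWT A k T) wwt (fun w => (Wo w : ℤ)) n (e x)
        - cnt (FWT A k T) wwt (fun w => (Wo w : ℤ)) m' (e x) / 3 ^ (n - m'))) := by
    rw [sum_div, ← sum_sub_distrib]
    apply sum_congr rfl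
    intro x _
    ring
  rw [e0]
  refine (abs_sum_le_sum_abs _ _).trans ?_
  calc ∑ x ∈ W, |g x * (2 ^ T * (cnt (FWT A k T) wwt (fun w => (Wo w : ℤ)) n (e x)
        - cnt (FWT A k T) wwt (fun w => (Wo w : ℤ)) m' (e x) / 3 ^ (n - m')))|
      ≤ ∑ x ∈ W, 2 ^ T * |cnt (FWT A k T) wwt (fun w => (Wo w : ℤ)) n (e x)
        - cnt (FWT A k T) wwt (fun w => (Wo w : ℤ)) m' (e x) / 3 ^ (n - m')| := by
        apply sum_le_sum
        intro x _
        rw [abs_mul, abs_mul, abs_of_pos hT]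
        have h1 := hg x
        have h2 : 0 ≤ 2 ^ T * |cnt (FWT A k T) wwt (fun w => (Wo w : ℤ)) n (e x)
          - cnt (FWT A k T) wwt (fun w => (Wo w : ℤ)) m' (e x) / 3 ^ (n - m')| := by positivity
        nlinarith
    _ = 2 ^ T * ∑ x ∈ W, |cnt (FWT A k T) wwt (fun w => (Wo w : ℤ)) n (e x)
        - cnt (FWT A k T) wwt (fun w => (Wo w : ℤ)) m' (e x) / 3 ^ (n - m')| := by
        rw [mul_sum]
    _ ≤ _ := by
        rw [mul_assoc (2 ^ T)]
        exact mul_le_mul_of_nonneg_left hdiff hT.le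

/-- difference of the sums over a shifted and an unshifted window -/
theorem shiftF {g : ℤ → ℝ} (hg : ∀ x, |g x| ≤ 1) {L s K : ℝ} (hs : |s| ≤ K) (n : ℕ) {u : ℤ}
    (hu : IsCoprime u 3) (v : ℤ) :
    |WS g (L + s) (2 * L + s) n u v - WS g L (2 * L) n u v| ≤ 2 * (K / (2 * 3 ^ n) + 1) := by
  classical
  have hK : 0 ≤ K := (abs_nonneg s).trans hs
  have hcard : ∀ a b : ℝ, a ≤ b → b - a ≤ K →
      ((cls Set.univ a b n u v).card : ℝ) ≤ K / (2 * 3 ^ n) + 1 := by
    intro a b hab hbK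
    have h2 := cls_card_le Set.univ hab n hu v
    have h3 : (b - a) / (2 * 3 ^ n) ≤ K / (2 * 3 ^ n) :=
      div_le_div_of_nonneg_right hbK (by positivity)
    linarith
  set P := cls Set.univ (L + s) (2 * L + s) n u v with hP
  set Q := cls Set.univ L (2 * L) n u v with hQ
  have hsplit : WS g (L + s) (2 * L + s) n u v - WS g L (2 * L) n u v
      = ∑ x ∈ P \ Q, g x - ∑ x ∈ Q \ P, g x := by
    unfold WS
    rw [← hP, ← hQ]
    have h1 : ∑ x ∈ P \ Q, g x + ∑ x ∈ P ∩ Q, g x = ∑ x ∈ P, g x := by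
      have := sum_sdiff (f := g) (inter_subset_left : P ∩ Q ⊆ P)
      rwa [sdiff_inter_self_left] at this
    have h2 : ∑ x ∈ Q \ P, g x + ∑ x ∈ P ∩ Q, g x = ∑ x ∈ Q, g x := by
      have := sum_sdiff (f := g) (inter_subset_right : P ∩ Q ⊆ Q)
      rwa [sdiff_inter_self_right] at this
    linarith
  have hb : ∀ R : Finset ℤ, |∑ x ∈ R, g x| ≤ R.card := by
    intro R
    refine (abs_sum_le_sum_abs _ _).trans ?_
    calc ∑ x ∈ R, |g x| ≤ ∑ x ∈ R, (1 : ℝ) := sum_le_sum fun x _ => hg x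
      _ = _ := by rw [sum_const, nsmul_eq_mul, mul_one]
  have hPQ : ((P \ Q).card : ℝ) ≤ K / (2 * 3 ^ n) + 1 := by
    rcases le_or_gt 0 s with h | h
    · refine le_trans ?_ (hcard (2 * L) (2 * L + s) (by linarith) (by have := le_abs_self s; linarith))
      have : P \ Q ⊆ cls Set.univ (2 * L) (2 * L + s) n u v := by
        intro x hx
        rw [mem_sdiff, hP, hQ, mem_cls, mem_cls] at hx
        rw [mem_cls]
        have h1 : (2 * L : ℝ) ≤ x := by
          by_contra hcon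
          push Not at hcon
          exact hx.2 ⟨⟨by linarith [hx.1.1.1], hcon⟩, hx.1.2⟩
        exact ⟨⟨h1, hx.1.1.2⟩, hx.1.2⟩
      exact_mod_cast card_le_card this
    · refine le_trans ?_ (hcard (L + s) L (by linarith) (by have := neg_le_abs s; linarith))
      have : P \ Q ⊆ cls Set.univ (L + s) L n u v := by
        intro x hx
        rw [mem_sdiff, hP, hQ, mem_cls, mem_cls] at hx
        rw [mem_cls]
        have h1 : (x : ℝ) < L := by
          by_contra hcon
          push Not at hcon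
          exact hx.2 ⟨⟨hcon, by linarith [hx.1.1.2]⟩, hx.1.2⟩
        exact ⟨⟨hx.1.1.1, h1⟩, hx.1.2⟩
      exact_mod_cast card_le_card this
  have hQP : ((Q \ P).card : ℝ) ≤ K / (2 * 3 ^ n) + 1 := by
    rcases le_or_gt 0 s with h | h
    · refine le_trans ?_ (hcard L (L + s) (by linarith) (by have := le_abs_self s; linarith))
      have : Q \ P ⊆ cls Set.univ L (L + s) n u v := by
        intro x hx
        rw [mem_sdiff, hP, hQ, mem_cls, mem_cls] at hx
        rw [mem_cls]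
        have h1 : (x : ℝ) < L + s := by
          by_contra hcon
          push Not at hcon
          exact hx.2 ⟨⟨hcon, by linarith [hx.1.1.2]⟩, hx.1.2⟩
        exact ⟨⟨hx.1.1.1, h1⟩, hx.1.2⟩
      exact_mod_cast card_le_card this
    · refine le_trans ?_ (hcard (2 * L + s) (2 * L) (by linarith) (by have := neg_le_abs s; linarith))
      have : Q \ P ⊆ cls Set.univ (2 * L + s) (2 * L) n u v := by
        intro x hx
        rw [mem_sdiff, hP, hQ, mem_cls, mem_cls] at hx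
        rw [mem_cls]
        have h1 : (2 * L + s : ℝ) ≤ x := by
          by_contra hcon
          push Not at hcon
          exact hx.2 ⟨⟨by linarith [hx.1.1.1], hcon⟩, hx.1.2⟩
        exact ⟨⟨h1, hx.1.1.2⟩, hx.1.2⟩
      exact_mod_cast card_le_card this
  rw [hsplit]
  have h1 := hb (P \ Q)
  have h2 := hb (Q \ P)
  have h3 := abs_sub (∑ x ∈ P \ Q, g x) (∑ x ∈ Q \ P, g x)
  linarith

end Pool.Agent.W41.FU
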