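import Pool.Agent.W41.FU9

/-! Linear equations in invariant sets. -/

set_option autoImplicit false

namespace Pool.Agent.W41.FU

open Finset Pool.Agent.H499R2.ND Pool.Agent.W41

theorem TT_sub1 (f f' g h : ℤ → ℝ) (N : ℕ) (a b c m : ℤ) :
    TT f g h N a b c m - TT f' g h N a b c m = TT (fun x => f x - f' x) g h N a b c m := by
  unfold TT
  rw [← sum_sub_distrib]
  apply sum_congr rfl; intro x _
  rw [← sum_sub_distrib]
  apply sum_congr rfl; intro y _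
  rw [← sum_sub_distrib]
  apply sum_congr rfl; intro z _
  split_ifs <;> ring

theorem TT_sub2 (f g g' h : ℤ → ℝ) (N : ℕ) (a b c m : ℤ) :
    TT f g h N a b c m - TT f g' h N a b c m = TT f (fun x => g x - g' x) h N a b c m := by
  unfold TT
  rw [← sum_sub_distrib]
  apply sum_congr rfl; intro x _
  rw [← sum_sub_distrib]
  apply sum_congr rfl; intro y _
  rw [← sum_sub_distrib]
  apply sum_congr rfl; intro z _
  split_ifs <;> ring

theorem TT_sub3 (f g h h' : ℤ → ℝ) (N : ℕ) (a b c m : ℤ) :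
    TT f g h N a b c m - TT f g h' N a b c m = TT f g (fun x => h x - h' x) N a b c m := by
  unfold TT
  rw [← sum_sub_distrib]
  apply sum_congr rfl; intro x _
  rw [← sum_sub_distrib]
  apply sum_congr rfl; intro y _
  rw [← sum_sub_distrib]
  apply sum_congr rfl; intro z _
  split_ifs <;> ring

theorem TT_smul (r t v : ℝ) (f g h : ℤ → ℝ) (N : ℕ) (a b c m : ℤ) :
    TT (fun x => r * f x) (fun x => t * g x) (fun x => v * h x) N a b c m = r * t * v * TT f g h N a b c m := by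
  unfold TT
  rw [mul_sum]
  apply sum_congr rfl; intro x _
  rw [mul_sum]
  apply sum_congr rfl; intro y _
  rw [mul_sum]
  apply sum_congr rfl; intro z _
  split_ifs <;> ring

theorem res_abs {f : ℤ → ℝ} (hf : ∀ x, |f x| ≤ 1) (M N : ℕ) (x : ℤ) : |res M N f x| ≤ 1 := by
  unfold res
  split_ifs
  · exact hf x
  · simp

theorem ind_abs (s : ℤ) (S : Set ℤ) (x : ℤ) : |ind s S x| ≤ 1 := by
  have h2 := ind_nonneg s S x
  have h3 := ind_le_one s S x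
  rw [abs_le]
  constructor <;> linarith

theorem res_bal (M N : ℕ) (s : ℤ) (S : Set ℤ) (δ : ℝ) (x : ℤ) :
    res M N (ind s S) x - δ * res M N (fun _ => 1) x = res M N (bal s S δ) x := by
  unfold res bal
  split_ifs <;> ring

theorem const_abs {δ : ℝ} (h0 : 0 ≤ δ) (h1 : δ ≤ 1) (M N : ℕ) (x : ℤ) : |δ * res M N (fun _ => 1) x| ≤ 1 := by
  unfold res
  split_ifs
  · rw [mul_one, abs_le]; constructor <;> linarith
  · simp

/-- the number of solutions of a linear equation in three invariant sets -/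
theorem solutions {s t v : ℤ} (hs : s = 1 ∨ s = -1) (ht : t = 1 ∨ t = -1) (hv : v = 1 ∨ v = -1) {ε : ℝ} (hε : 0 < ε)
    (hε1 : ε ≤ 1) : ∃ N0 : ℕ, 1 ≤ N0 ∧ ∀ S T V : Set ℤ, Inv 1 S → Inv 1 T → Inv 1 V → ∀ δ τ ν : ℝ, HD s S δ → HD t T τ → HD v V ν →
    ∀ X : ℕ, N0 ≤ X → ∀ N₁ N₂ N₃ : ℕ, N₁ ≤ X → N₂ ≤ X → N₃ ≤ X → ∀ M₁ M₂ M₃ : ℕ, M₁ ≤ N₁ → M₂ ≤ N₂ → M₃ ≤ N₃ →
    ∀ a b c m : ℤ, a ≠ 0 → b ≠ 0 → c ≠ 0 →
    |TT (res M₁ N₁ (ind s S)) (res M₂ N₂ (ind t T)) (res M₃ N₃ (ind v V)) X a b c m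
      - δ * τ * ν * TT (res M₁ N₁ (fun _ => 1)) (res M₂ N₂ (fun _ => 1)) (res M₃ N₃ (fun _ => 1)) X a b c m|
      ≤ ε * X ^ 2 := by
  have hε3 : 0 < ε / 3 := by positivity
  obtain ⟨n1, hn1, h1⟩ := fourier_int hs hε3 (by linarith)
  obtain ⟨n2, hn2, h2⟩ := fourier_int ht hε3 (by linarith)
  obtain ⟨n3, hn3, h3⟩ := fourier_int hv hε3 (by linarith)
  refine ⟨n1 + n2 + n3, by omega, ?_⟩
  intro S T V hS hT hV δ τ ν hδ hτ hν X hX N₁ N₂ N₃ hN1 hN2 hN3 M₁ M₂ M₃ hM1 hM2 hM3 a b c m ha hb hc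
  obtain ⟨d0, d1⟩ := HD_mem hs hδ
  obtain ⟨t0, t1⟩ := HD_mem ht hτ
  obtain ⟨v0, v1⟩ := HD_mem hv hν
  rw [← TT_smul]
  have e : TT (res M₁ N₁ (ind s S)) (res M₂ N₂ (ind t T)) (res M₃ N₃ (ind v V)) X a b c m
      - TT (fun x => δ * res M₁ N₁ (fun _ => 1) x) (fun x => τ * res M₂ N₂ (fun _ => 1) x)
        (fun x => ν * res M₃ N₃ (fun _ => 1) x) X a b c m =
      (TT (res M₁ N₁ (ind s S)) (res M₂ N₂ (ind t T)) (res M₃ N₃ (ind v V)) X a b c m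
        - TT (fun x => δ * res M₁ N₁ (fun _ => 1) x) (res M₂ N₂ (ind t T)) (res M₃ N₃ (ind v V)) X a b c m)
      + (TT (fun x => δ * res M₁ N₁ (fun _ => 1) x) (res M₂ N₂ (ind t T)) (res M₃ N₃ (ind v V)) X a b c m
        - TT (fun x => δ * res M₁ N₁ (fun _ => 1) x) (fun x => τ * res M₂ N₂ (fun _ => 1) x) (res M₃ N₃ (ind v V)) X a b c m)
      + (TT (fun x => δ * res M₁ N₁ (fun _ => 1) x) (fun x => τ * res M₂ N₂ (fun _ => 1) x) (res M₃ N₃ (ind v V)) X a b c m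
        - TT (fun x => δ * res M₁ N₁ (fun _ => 1) x) (fun x => τ * res M₂ N₂ (fun _ => 1) x)
        (fun x => ν * res M₃ N₃ (fun _ => 1) x) X a b c m) := by ring
  rw [e, TT_sub1, TT_sub2, TT_sub3]
  simp only [res_bal]
  have b1 := TT_bound (f := res M₁ N₁ (bal s S δ)) (g := res M₂ N₂ (ind t T)) (h := res M₃ N₃ (ind v V)) ha hb hc m
    (res_abs (bal_abs d0 d1) _ _) (res_abs (ind_abs t T) _ _) (res_abs (ind_abs v V) _ _)
    (Or.inl (h1 S hS δ hδ X (by omega) N₁ hN1 M₁ hM1))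
  have b2 := TT_bound (f := fun x => δ * res M₁ N₁ (fun _ => 1) x) (g := res M₂ N₂ (bal t T τ)) (h := res M₃ N₃ (ind v V)) ha hb hc m
    (const_abs d0 d1 _ _) (res_abs (bal_abs t0 t1) _ _) (res_abs (ind_abs v V) _ _)
    (Or.inr (Or.inl (h2 T hT τ hτ X (by omega) N₂ hN2 M₂ hM2)))
  have b3 := TT_bound (f := fun x => δ * res M₁ N₁ (fun _ => 1) x) (g := fun x => τ * res M₂ N₂ (fun _ => 1) x)
    (h := res M₃ N₃ (bal v V ν)) ha hb hc m
    (const_abs d0 d1 _ _) (const_abs t0 t1 _ _) (res_abs (bal_abs v0 v1) _ _)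
    (Or.inr (Or.inr (h3 V hV ν hν X (by omega) N₃ hN3 M₃ hM3)))
  refine (abs_add_three _ _ _).trans ?_
  have : ε * (X : ℝ) ^ 2 = ε / 3 * X * X + ε / 3 * X * X + ε / 3 * X * X := by ring
  rw [this]
  linarith

open Classical in
/-- from sums to sets -/
theorem TT_count {f g h : ℤ → ℝ} {P Q R : ℤ → Prop} (hf : ∀ x, f x = if P x then 1 else 0)
    (hg : ∀ x, g x = if Q x then 1 else 0) (hh : ∀ x, h x = if R x then 1 else 0) {X : ℕ}
    (hP : ∀ x : ℤ, P x → 0 < x ∧ x ≤ X) (hQ : ∀ x : ℤ, Q x → 0 < x ∧ x ≤ X) (hR : ∀ x : ℤ, R x → 0 < x ∧ x ≤ X)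
    (a b c m : ℤ) :
    TT f g h X a b c m = ({p : ℤ × ℤ × ℤ | P p.1 ∧ Q p.2.1 ∧ R p.2.2 ∧ a * p.1 + b * p.2.1 + c * p.2.2 = m}.ncard : ℝ) := by
  have e : {p : ℤ × ℤ × ℤ | P p.1 ∧ Q p.2.1 ∧ R p.2.2 ∧ a * p.1 + b * p.2.1 + c * p.2.2 = m} =
      ((((Icc 1 X) ×ˢ (Icc 1 X) ×ˢ (Icc 1 X)).filter (fun p : ℕ × ℕ × ℕ => P p.1 ∧ Q p.2.1 ∧ R p.2.2 ∧
        a * p.1 + b * p.2.1 + c * p.2.2 = m)).image (fun p : ℕ × ℕ × ℕ => ((p.1 : ℤ), ((p.2.1 : ℤ), (p.2.2 : ℤ)))) :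
        Finset (ℤ × ℤ × ℤ)) := by
    ext ⟨x, y, z⟩
    simp only [Set.mem_ofPred_eq, coe_image, coe_filter, Set.mem_image, mem_product, mem_Icc, Prod.mk.injEq, Prod.exists]
    constructor
    · rintro ⟨h1, h2, h3, h4⟩
      have h1' := hP x h1
      have h2' := hQ y h2
      have h3' := hR z h3
      refine ⟨x.toNat, y.toNat, z.toNat, ?_, ?_⟩
      · rw [Int.toNat_of_nonneg h1'.1.le, Int.toNat_of_nonneg h2'.1.le, Int.toNat_of_nonneg h3'.1.le]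
        exact ⟨⟨⟨by omega, by omega⟩, ⟨by omega, by omega⟩, ⟨by omega, by omega⟩⟩, h1, h2, h3, h4⟩
      · exact ⟨Int.toNat_of_nonneg h1'.1.le, Int.toNat_of_nonneg h2'.1.le, Int.toNat_of_nonneg h3'.1.le⟩
    · rintro ⟨x', y', z', ⟨-, h1, h2, h3, h4⟩, rfl, rfl, rfl⟩
      exact ⟨h1, h2, h3, h4⟩
  rw [e, Set.ncard_coe_finset, card_image_of_injective, card_filter, sum_product]
  · unfold TT
    push_cast
    apply sum_congr rfl; intro x _
    rw [sum_product]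
    apply sum_congr rfl; intro y _
    apply sum_congr rfl; intro z _
    rw [hf, hg, hh]
    by_cases h0 : a * (x : ℤ) + b * (y : ℤ) + c * (z : ℤ) = m
    · by_cases h1 : P x <;> by_cases h2 : Q y <;> by_cases h3 : R z <;> simp [h0, h1, h2, h3]
    · simp [h0]
  · rintro ⟨x, y, z⟩ ⟨x', y', z'⟩ h
    simp only [Prod.mk.injEq, Nat.cast_inj] at h
    obtain ⟨rfl, rfl, rfl⟩ := h
    rfl

end Pool.Agent.W41.FU
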