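import Pool.Agent.W41.FU10

/-! Sums of two elements of invariant sets. -/

set_option autoImplicit false

namespace Pool.Agent.W41.FU

open Finset Pool.Agent.H499R2.ND Pool.Agent.W41

/-- weighted number of representations `x + y = n` with `1 ≤ x, y ≤ N` -/
noncomputable def R2 (f g : ℤ → ℝ) (N n : ℕ) : ℝ :=
  ∑ x ∈ Icc 1 N, ∑ y ∈ Icc 1 N, (if x + y = n then f (x : ℕ) * g (y : ℕ) else 0)

theorem TT_R2 (f g w : ℤ → ℝ) (N : ℕ) : TT f g w N 1 1 (-1) 0 = ∑ n ∈ Icc 1 N, w (n : ℕ) * R2 f g N n := by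
  unfold TT R2
  have e1 : ∀ x ∈ Icc 1 N, ∑ y ∈ Icc 1 N, ∑ z ∈ Icc 1 N,
      (if 1 * ((x : ℕ) : ℤ) + 1 * ((y : ℕ) : ℤ) + (-1) * ((z : ℕ) : ℤ) = 0 then f (x : ℕ) * g (y : ℕ) * w (z : ℕ) else 0)
      = ∑ z ∈ Icc 1 N, ∑ y ∈ Icc 1 N, w (z : ℕ) * (if x + y = z then f (x : ℕ) * g (y : ℕ) else 0) := by
    intro x _
    rw [sum_comm]
    apply sum_congr rfl; intro z _
    apply sum_congr rfl; intro y _
    by_cases h : x + y = z
    · have h' : 1 * ((x : ℕ) : ℤ) + 1 * ((y : ℕ) : ℤ) + (-1) * ((z : ℕ) : ℤ) = 0 := by omega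
      rw [if_pos h', if_pos h]; ring
    · have h' : ¬ (1 * ((x : ℕ) : ℤ) + 1 * ((y : ℕ) : ℤ) + (-1) * ((z : ℕ) : ℤ) = 0) := by omega
      rw [if_neg h', if_neg h, mul_zero]
  rw [sum_congr rfl e1, sum_comm]
  apply sum_congr rfl; intro z _
  rw [mul_sum]
  apply sum_congr rfl; intro x _
  rw [mul_sum]

theorem R2_one {N n : ℕ} (hn : 1 ≤ n) (hnN : n ≤ N) (f : ℤ → ℝ) (hf : ∀ x : ℕ, 1 ≤ x → x ≤ N → f (x : ℕ) = 1) :
    R2 f f N n = n - 1 := by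
  unfold R2
  have e1 : ∀ x ∈ Icc 1 N, ∑ y ∈ Icc 1 N, (if x + y = n then f (x : ℕ) * f (y : ℕ) else 0) = if x < n then (1 : ℝ) else 0 := by
    intro x hx
    rw [mem_Icc] at hx
    by_cases h : x < n
    · rw [if_pos h, sum_eq_single (n - x)]
      · rw [if_pos (by omega), hf x hx.1 hx.2, hf (n - x) (by omega) (by omega)]
        norm_num
      · intro y _ hy
        rw [if_neg (by omega)]
      · intro h2
        rw [mem_Icc] at h2
        omega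
    · rw [if_neg h]
      apply sum_eq_zero
      intro y hy
      rw [mem_Icc] at hy
      rw [if_neg (by omega)]
  rw [sum_congr rfl e1, ← sum_filter, sum_const, nsmul_eq_mul, mul_one]
  have : (Icc 1 N).filter (fun x => x < n) = Icc 1 (n - 1) := by
    ext x
    simp only [mem_filter, mem_Icc]
    omega
  rw [this, Nat.card_Icc, Nat.add_sub_cancel, Nat.cast_sub hn, Nat.cast_one]

theorem R2_count {s : ℤ} (hs : s = 1 ∨ s = -1) (S T : Set ℤ) {N n : ℕ} (hn : n ≤ N) :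
    R2 (res 0 N (ind s S)) (res 0 N (ind s T)) N n =
      ({p : ℤ × ℤ | p.1 ∈ S ∧ p.2 ∈ T ∧ 0 < s * p.1 ∧ 0 < s * p.2 ∧ p.1 + p.2 = s * n}.ncard : ℝ) := by
  classical
  have e : {p : ℤ × ℤ | p.1 ∈ S ∧ p.2 ∈ T ∧ 0 < s * p.1 ∧ 0 < s * p.2 ∧ p.1 + p.2 = s * n} =
      ((((Icc 1 N) ×ˢ (Icc 1 N)).filter (fun p : ℕ × ℕ => s * (p.1 : ℤ) ∈ S ∧ s * (p.2 : ℤ) ∈ T ∧
        p.1 + p.2 = n)).image (fun p : ℕ × ℕ => (s * (p.1 : ℤ), s * (p.2 : ℤ))) :
        Finset (ℤ × ℤ)) := by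
    ext ⟨x, y⟩
    simp only [Set.mem_ofPred_eq, coe_image, coe_filter, Set.mem_image, mem_product, mem_Icc, Prod.mk.injEq, Prod.exists]
    constructor
    · rintro ⟨h1, h2, h3, h4, h5⟩
      have hsum : s * x + s * y = n := by
        rw [← mul_add, h5, s_mul hs]
      refine ⟨(s * x).toNat, (s * y).toNat, ?_, ?_⟩
      · rw [Int.toNat_of_nonneg h3.le, Int.toNat_of_nonneg h4.le, s_mul hs, s_mul hs]
        exact ⟨⟨⟨by omega, by omega⟩, ⟨by omega, by omega⟩⟩, h1, h2, by omega⟩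
      · rw [Int.toNat_of_nonneg h3.le, Int.toNat_of_nonneg h4.le, s_mul hs, s_mul hs]
        exact ⟨rfl, rfl⟩
    · rintro ⟨x', y', ⟨⟨⟨h1, h2⟩, h3, h4⟩, h5, h6, h7⟩, rfl, rfl⟩
      rw [s_mul hs, s_mul hs]
      refine ⟨h5, h6, by omega, by omega, ?_⟩
      rw [← mul_add, ← h7]
      push_cast
      ring
  rw [e, Set.ncard_coe_finset, card_image_of_injective, card_filter, sum_product]
  · unfold R2
    push_cast
    apply sum_congr rfl; intro x hx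
    apply sum_congr rfl; intro y hy
    rw [mem_Icc] at hx hy
    have hr : ∀ (U : Set ℤ) (x : ℕ), 1 ≤ x ∧ x ≤ N → res 0 N (ind s U) (x : ℕ) = if s * (x : ℤ) ∈ U then 1 else 0 := by
      intro U x hx
      unfold res ind
      rw [if_pos (by omega)]
    rw [hr S x hx, hr T y hy]
    by_cases h0 : x + y = n
    · by_cases h1 : s * (x : ℤ) ∈ S <;> by_cases h2 : s * (y : ℤ) ∈ T <;> simp [h0, h1, h2]
    · simp [h0]
  · rintro ⟨x, y⟩ ⟨x', y'⟩ h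
    simp only [Prod.mk.injEq] at h
    obtain ⟨h1, h2⟩ := h
    have k1 := congrArg (fun x => s * x) h1
    have k2 := congrArg (fun x => s * x) h2
    simp only [s_mul hs, Nat.cast_inj] at k1 k2
    rw [k1, k2]

theorem two_w {s : ℤ} (hs : s = 1 ∨ s = -1) {ε : ℝ} (hε : 0 < ε)
    (hε1 : ε ≤ 1) : ∃ N0 : ℕ, 1 ≤ N0 ∧ ∀ S T : Set ℤ, Inv 1 S → Inv 1 T → ∀ δ τ : ℝ, HD s S δ → HD s T τ →
    ∀ X : ℕ, N0 ≤ X → ∀ w : ℤ → ℝ, (∀ x, |w x| ≤ 1) →
    |∑ n ∈ Icc 1 X, w (n : ℕ) * (R2 (res 0 X (ind s S)) (res 0 X (ind s T)) X n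
      - δ * τ * ((n : ℕ) - 1))| ≤ ε * X ^ 2 := by
  have hε3 : 0 < ε / 2 := by positivity
  obtain ⟨n1, hn1, h1⟩ := fourier_int hs hε3 (by linarith)
  refine ⟨n1, by omega, ?_⟩
  intro S T hS hT δ τ hδ hτ X hX w hw
  obtain ⟨d0, d1⟩ := HD_mem hs hδ
  obtain ⟨t0, t1⟩ := HD_mem hs hτ
  have e0 : ∑ n ∈ Icc 1 X, w (n : ℕ) * (R2 (res 0 X (ind s S)) (res 0 X (ind s T)) X n
      - δ * τ * ((n : ℕ) - 1)) = TT (res 0 X (ind s S)) (res 0 X (ind s T)) w X 1 1 (-1) 0 -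
      TT (fun x => δ * res 0 X (fun _ => 1) x) (fun x => τ * res 0 X (fun _ => 1) x) (fun x => 1 * w x) X 1 1 (-1) 0 := by
    rw [TT_smul, TT_R2, TT_R2, mul_sum, ← sum_sub_distrib]
    apply sum_congr rfl
    intro n hn
    rw [mem_Icc] at hn
    rw [R2_one hn.1 hn.2 (res 0 X (fun _ => 1)) (fun x h1 h2 => by unfold res; rw [if_pos (by omega)])]
    ring
  have e1 : (fun x => 1 * w x) = w := by ext x; ring
  rw [e0, e1]
  have e : TT (res 0 X (ind s S)) (res 0 X (ind s T)) w X 1 1 (-1) 0 -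
      TT (fun x => δ * res 0 X (fun _ => 1) x) (fun x => τ * res 0 X (fun _ => 1) x) w X 1 1 (-1) 0 =
      (TT (res 0 X (ind s S)) (res 0 X (ind s T)) w X 1 1 (-1) 0
        - TT (fun x => δ * res 0 X (fun _ => 1) x) (res 0 X (ind s T)) w X 1 1 (-1) 0)
      + (TT (fun x => δ * res 0 X (fun _ => 1) x) (res 0 X (ind s T)) w X 1 1 (-1) 0
        - TT (fun x => δ * res 0 X (fun _ => 1) x) (fun x => τ * res 0 X (fun _ => 1) x) w X 1 1 (-1) 0) := by ring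
  rw [e, TT_sub1, TT_sub2]
  simp only [res_bal]
  have b1 := TT_bound (f := res 0 X (bal s S δ)) (g := res 0 X (ind s T)) (h := w) (one_ne_zero) (one_ne_zero)
    (by norm_num : (-1 : ℤ) ≠ 0) 0
    (res_abs (bal_abs d0 d1) _ _) (res_abs (ind_abs s T) _ _) hw
    (Or.inl (h1 S hS δ hδ X (by omega) X le_rfl 0 (by omega)))
  have b2 := TT_bound (f := fun x => δ * res 0 X (fun _ => 1) x) (g := res 0 X (bal s T τ)) (h := w) (one_ne_zero) (one_ne_zero)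
    (by norm_num : (-1 : ℤ) ≠ 0) 0
    (const_abs d0 d1 _ _) (res_abs (bal_abs t0 t1) _ _) hw
    (Or.inr (Or.inl (h1 T hT τ hτ X (by omega) X le_rfl 0 (by omega))))
  refine (abs_add_le _ _).trans ?_
  have : ε * (X : ℝ) ^ 2 = ε / 2 * X * X + ε / 2 * X * X := by ring
  rw [this]
  linarith

/-- almost every integer is a sum of two elements in the expected number of ways -/
theorem two_sum {s : ℤ} (hs : s = 1 ∨ s = -1) {ε : ℝ} (hε : 0 < ε) (hε1 : ε ≤ 1) :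
    ∃ N0 : ℕ, 1 ≤ N0 ∧ ∀ S T : Set ℤ, Inv 1 S → Inv 1 T → ∀ δ τ : ℝ, HD s S δ → HD s T τ →
    ∀ N : ℕ, N0 ≤ N →
    ({n : ℕ | 1 ≤ n ∧ n ≤ N ∧ ε * N < |({p : ℤ × ℤ | p.1 ∈ S ∧ p.2 ∈ T ∧ 0 < s * p.1 ∧ 0 < s * p.2 ∧
      p.1 + p.2 = s * n}.ncard : ℝ) - δ * τ * n|}.ncard : ℝ) ≤ ε * N := by
  classical
  have hε2 : 0 < ε ^ 2 / 2 := by positivity
  obtain ⟨n1, hn1, h1⟩ := two_w hs hε2 (by nlinarith)
  obtain ⟨n2, hn2⟩ := exists_nat_ge (2 / ε)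
  refine ⟨n1 + n2, by omega, ?_⟩
  intro S T hS hT δ τ hδ hτ N hN
  obtain ⟨d0, d1⟩ := HD_mem hs hδ
  obtain ⟨t0, t1⟩ := HD_mem hs hτ
  have hN0 : (0 : ℝ) < N := by exact_mod_cast (by omega : 0 < N)
  have hεN : 2 ≤ ε * N := by
    have : 2 / ε ≤ N := hn2.trans (by exact_mod_cast (by omega : n2 ≤ N))
    rw [div_le_iff₀ hε] at this
    linarith
  set R : ℕ → ℝ := fun n => R2 (res 0 N (ind s S)) (res 0 N (ind s T)) N n with hR
  set B : Finset ℕ := (Icc 1 N).filter (fun n => ε * N < |R n - δ * τ * n|) with hB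
  have e1 : {n : ℕ | 1 ≤ n ∧ n ≤ N ∧ ε * N < |({p : ℤ × ℤ | p.1 ∈ S ∧ p.2 ∈ T ∧ 0 < s * p.1 ∧ 0 < s * p.2 ∧
      p.1 + p.2 = s * n}.ncard : ℝ) - δ * τ * n|} = (B : Set ℕ) := by
    ext n
    simp only [Set.mem_ofPred_eq, hB, coe_filter, mem_Icc]
    constructor
    · rintro ⟨h1, h2, h3⟩
      rw [← R2_count hs S T h2] at h3
      exact ⟨⟨h1, h2⟩, h3⟩
    · rintro ⟨⟨h1, h2⟩, h3⟩
      rw [← R2_count hs S T h2]
      exact ⟨h1, h2, h3⟩
  rw [e1, Set.ncard_coe_finset]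
  have hsg : ∀ x : ℝ, |(if 0 ≤ x then (1 : ℝ) else -1)| ≤ 1 ∧ (if 0 ≤ x then (1 : ℝ) else -1) * x = |x| := by
    intro x
    by_cases h : 0 ≤ x
    · rw [if_pos h, abs_of_nonneg h]
      norm_num
    · rw [if_neg h, abs_of_neg (not_le.1 h)]
      norm_num
  have h2 := h1 S T hS hT δ τ hδ hτ N (by omega)
    (fun x => if x.toNat ∈ B then (if 0 ≤ R x.toNat - δ * τ * ((x.toNat : ℝ) - 1) then (1 : ℝ) else -1) else 0) (by
      intro x
      split_ifs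
      · norm_num
      · norm_num
      · norm_num)
  have e2 : ∑ n ∈ Icc 1 N, (fun x : ℤ => if x.toNat ∈ B then (if 0 ≤ R x.toNat - δ * τ * ((x.toNat : ℝ) - 1) then (1 : ℝ) else -1) else 0)
      (n : ℕ) * (R2 (res 0 N (ind s S)) (res 0 N (ind s T)) N n - δ * τ * ((n : ℕ) - 1)) =
      ∑ n ∈ B, |R n - δ * τ * ((n : ℝ) - 1)| := by
    have hsub : B ⊆ Icc 1 N := filter_subset _ _
    rw [← sum_subset hsub]
    · apply sum_congr rfl
      intro n hn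
      simp only [Int.toNat_natCast]
      rw [if_pos hn, ← (hsg _).2]
    · intro n _ hn
      simp only [Int.toNat_natCast]
      rw [if_neg hn, zero_mul]
  rw [e2, abs_of_nonneg (sum_nonneg fun _ _ => abs_nonneg _)] at h2
  have h3 : ∑ n ∈ B, (ε * N / 2) ≤ ∑ n ∈ B, |R n - δ * τ * ((n : ℝ) - 1)| := by
    apply sum_le_sum
    intro n hn
    rw [hB, mem_filter] at hn
    have h4 := hn.2
    have h5 : R n - δ * τ * n = (R n - δ * τ * ((n : ℝ) - 1)) - δ * τ := by ring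
    rw [h5] at h4
    have h6 := abs_sub (R n - δ * τ * ((n : ℝ) - 1)) (δ * τ)
    have h7 : |δ * τ| ≤ 1 := by
      rw [abs_of_nonneg (by positivity)]
      nlinarith
    linarith
  rw [sum_const, nsmul_eq_mul] at h3
  have h4 : (B.card : ℝ) * (ε * N / 2) ≤ ε ^ 2 / 2 * N ^ 2 := h3.trans h2
  have h5 : (B.card : ℝ) * (ε * N / 2) ≤ (ε * N) * (ε * N / 2) := by
    refine h4.trans (le_of_eq ?_)
    ring
  exact le_of_mul_le_mul_right h5 (by positivity)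

end Pool.Agent.W41.FU
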