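import Pool.Agent.W41.FU8

/-! Linear equations in three unknowns: the circle method on a finite cyclic group. -/

set_option autoImplicit false

namespace Pool.Agent.W41.FU

open Finset Pool.Agent.H499R2.ND Pool.Agent.W41

theorem ee_mul (α : ℝ) (a x : ℤ) : ee (a * α) x = ee α (a * x) := by
  unfold ee
  congr 1
  push_cast
  ring

theorem ee_sum (α : ℝ) (x : ℤ) (r : ℕ) : ee (r * α) x = ee α x ^ r := by
  unfold ee
  rw [← Complex.exp_nat_mul]
  congr 1
  push_cast
  ring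

/-- sums over the characters -/
theorem root_sum {M : ℕ} (hM : 1 ≤ M) {k : ℤ} (hk : |k| < M) :
    ∑ r ∈ range M, ee (r * (1 / M : ℝ)) k = if k = 0 then (M : ℂ) else 0 := by
  have hM0 : (0 : ℝ) < M := by exact_mod_cast hM
  simp only [ee_sum]
  by_cases h0 : k = 0
  · rw [if_pos h0, h0, ee_zero]
    simp
  · rw [if_neg h0]
    have h1 : ee (1 / M : ℝ) k ≠ 1 := by
      intro h
      unfold ee at h
      rw [Complex.exp_eq_one_iff] at h
      obtain ⟨n, hn⟩ := h
      have h2 : ((2 * Real.pi * (1 / M) * (k : ℝ) : ℝ) : ℂ) = ((n * (2 * Real.pi) : ℝ) : ℂ) := by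
        have hI : Complex.I ≠ 0 := Complex.I_ne_zero
        apply mul_right_cancel₀ hI
        rw [hn]
        push_cast
        ring
      have h3 : 2 * Real.pi * (1 / M) * (k : ℝ) = n * (2 * Real.pi) := by exact_mod_cast h2
      have h4 : (k : ℝ) = n * M := by
        have hp : (2 * Real.pi) ≠ 0 := by positivity
        field_simp at h3
        linarith
      have h5 : k = n * M := by exact_mod_cast h4
      have h6 : n ≠ 0 := by
        rintro rfl
        apply h0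
        rw [h5]; ring
      rw [h5, abs_mul] at hk
      have h7 : 1 ≤ |n| := Int.one_le_abs h6
      have h8 : |(M : ℤ)| = M := abs_of_nonneg (Int.natCast_nonneg _)
      rw [h8] at hk
      nlinarith
    rw [geom_sum_eq h1]
    have h2 : ee (1 / M : ℝ) k ^ M = 1 := by
      rw [← ee_sum]
      have : (M : ℝ) * (1 / M) = 1 := by field_simp
      rw [this]
      unfold ee
      rw [Complex.exp_eq_one_iff]
      exact ⟨k, by push_cast; ring⟩
    rw [h2]
    simp

/-- weighted number of solutions -/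
noncomputable def TT (f g h : ℤ → ℝ) (N : ℕ) (a b c m : ℤ) : ℝ :=
  ∑ x ∈ Icc 1 N, ∑ y ∈ Icc 1 N, ∑ z ∈ Icc 1 N,
    (if a * (x : ℕ) + b * (y : ℕ) + c * (z : ℕ) = m then f (x : ℕ) * g (y : ℕ) * h (z : ℕ) else 0)

theorem TT_four (f g h : ℤ → ℝ) (N : ℕ) (a b c m : ℤ) {M : ℕ} (hM : |m| + (|a| + |b| + |c|) * N < M) :
    (M : ℂ) * (TT f g h N a b c m : ℂ) = ∑ r ∈ range M, EE f N (a * (r * (1 / M : ℝ))) * EE g N (b * (r * (1 / M : ℝ)))
      * EE h N (c * (r * (1 / M : ℝ))) * ee (r * (1 / M : ℝ)) (-m) := by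
  have hM1 : 1 ≤ M := by
    have h1 := abs_nonneg m
    have h2 : 0 ≤ (|a| + |b| + |c|) * (N : ℤ) := by positivity
    omega
  have e : ∀ r ∈ range M, EE f N (a * (r * (1 / M : ℝ))) * EE g N (b * (r * (1 / M : ℝ)))
      * EE h N (c * (r * (1 / M : ℝ))) * ee (r * (1 / M : ℝ)) (-m) =
      ∑ x ∈ Icc 1 N, ∑ y ∈ Icc 1 N, ∑ z ∈ Icc 1 N, ((f (x : ℕ) * g (y : ℕ) * h (z : ℕ) : ℝ) : ℂ) *
        ee (r * (1 / M : ℝ)) (a * (x : ℕ) + b * (y : ℕ) + c * (z : ℕ) - m) := by
    intro r _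
    unfold EE
    rw [sum_mul_sum, sum_mul, sum_mul]
    apply sum_congr rfl
    intro x _
    rw [sum_mul, sum_mul]
    apply sum_congr rfl
    intro y _
    rw [mul_sum, sum_mul]
    apply sum_congr rfl
    intro z _
    rw [ee_mul, ee_mul, ee_mul, sub_eq_add_neg, ee_add, ee_add, ee_add]
    push_cast
    ring
  rw [sum_congr rfl e]
  rw [sum_comm]
  unfold TT
  push_cast
  rw [mul_sum]
  apply sum_congr rfl
  intro x hx
  rw [mul_sum]
  refine Eq.trans ?_ sum_comm
  apply sum_congr rfl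
  intro y hy
  rw [mul_sum]
  refine Eq.trans ?_ sum_comm
  apply sum_congr rfl
  intro z hz
  rw [← mul_sum, root_sum hM1]
  · by_cases h0 : a * (x : ℕ) + b * (y : ℕ) + c * (z : ℕ) = m
    · rw [if_pos h0, if_pos (by rw [h0]; ring)]
      push_cast
      ring
    · rw [if_neg h0, if_neg (by intro h1; apply h0; linarith)]
      simp
  · rw [mem_Icc] at hx hy hz
    have b1 : ∀ (a : ℤ) (x : ℕ), x ≤ N → |a * (x : ℤ)| ≤ |a| * N := by
      intro a x hx
      rw [abs_mul]
      have : |(x : ℤ)| = x := abs_of_nonneg (Int.natCast_nonneg _)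
      rw [this]
      exact mul_le_mul_of_nonneg_left (by exact_mod_cast hx) (abs_nonneg _)
    have h1 := b1 a x hx.2
    have h2 := b1 b y hy.2
    have h3 := b1 c z hz.2
    have h4 := abs_sub (a * (x : ℤ) + b * (y : ℤ) + c * (z : ℤ)) m
    have h5 := abs_add_three (a * (x : ℤ)) (b * (y : ℤ)) (c * (z : ℤ))
    have h6 : (|a| + |b| + |c|) * (N : ℤ) = |a| * N + |b| * N + |c| * N := by ring
    linarith

theorem TT_le (f g h : ℤ → ℝ) (N : ℕ) (a b c m : ℤ) {M : ℕ} (hM : |m| + (|a| + |b| + |c|) * N < M) :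
    (M : ℝ) * |TT f g h N a b c m| ≤ ∑ r ∈ range M, ‖EE f N (a * (r * (1 / M : ℝ)))‖ * ‖EE g N (b * (r * (1 / M : ℝ)))‖
      * ‖EE h N (c * (r * (1 / M : ℝ)))‖ := by
  have h1 := TT_four f g h N a b c m hM
  have h2 : (M : ℝ) * |TT f g h N a b c m| = ‖(M : ℂ) * (TT f g h N a b c m : ℂ)‖ := by
    rw [norm_mul, Complex.norm_natCast, Complex.norm_real, Real.norm_eq_abs]
  rw [h2, h1]
  refine (norm_sum_le _ _).trans (le_of_eq ?_)
  apply sum_congr rfl
  intro r _
  rw [norm_mul, norm_mul, norm_mul, ee_norm, mul_one]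

/-- Parseval -/
theorem parseval {g : ℤ → ℝ} (hg : ∀ x, |g x| ≤ 1) (N : ℕ) {b : ℤ} (hb : b ≠ 0) {M : ℕ} (hM : |b| * N < M) :
    ∑ r ∈ range M, ‖EE g N (b * (r * (1 / M : ℝ)))‖ ^ 2 ≤ M * N := by
  have hM1 : 1 ≤ M := by
    have h2 : 0 ≤ |b| * (N : ℤ) := by positivity
    omega
  have key : (∑ r ∈ range M, ((‖EE g N (b * (r * (1 / M : ℝ)))‖ ^ 2 : ℝ) : ℂ)) =
      ∑ x ∈ Icc 1 N, ((M * (g (x : ℕ) * g (x : ℕ)) : ℝ) : ℂ) := by
    have e : ∀ r ∈ range M, ((‖EE g N (b * (r * (1 / M : ℝ)))‖ ^ 2 : ℝ) : ℂ) =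
        ∑ x ∈ Icc 1 N, ∑ y ∈ Icc 1 N, ((g (x : ℕ) * g (y : ℕ) : ℝ) : ℂ) *
          ee (r * (1 / M : ℝ)) (b * (x : ℕ) - b * (y : ℕ)) := by
      intro r _
      have h1 : ((‖EE g N (b * (r * (1 / M : ℝ)))‖ ^ 2 : ℝ) : ℂ) =
          EE g N (b * (r * (1 / M : ℝ))) * (starRingEnd ℂ) (EE g N (b * (r * (1 / M : ℝ)))) := by
        rw [Complex.mul_conj, Complex.normSq_eq_norm_sq]
      rw [h1]
      have h2 : (starRingEnd ℂ) (EE g N (b * (r * (1 / M : ℝ)))) =
          ∑ y ∈ Icc 1 N, (g (y : ℕ) : ℂ) * ee (b * (r * (1 / M : ℝ))) (-(y : ℕ)) := by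
        unfold EE
        rw [map_sum]
        apply sum_congr rfl
        intro n _
        rw [map_mul, Complex.conj_ofReal]
        congr 1
        unfold ee
        rw [← Complex.exp_conj, map_mul, Complex.conj_ofReal, Complex.conj_I]
        congr 1
        push_cast
        ring
      rw [h2]
      unfold EE
      rw [sum_mul_sum]
      apply sum_congr rfl
      intro x _
      apply sum_congr rfl
      intro y _
      have e3 : b * (x : ℤ) - b * (y : ℤ) = b * x + b * (-y) := by ring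
      rw [e3, ee_add, ee_mul, ee_mul]
      push_cast
      ring
    rw [sum_congr rfl e, sum_comm]
    apply sum_congr rfl
    intro x hx
    rw [sum_comm]
    rw [sum_eq_single x]
    · rw [← mul_sum, root_sum hM1 (by simp; omega)]
      simp
      ring
    · intro y hy hxy
      rw [← mul_sum, root_sum hM1]
      · rw [if_neg, mul_zero]
        intro h0
        apply hxy
        have h1 : b * ((x : ℤ) - y) = 0 := by linarith
        rcases mul_eq_zero.1 h1 with h2 | h2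
        · exact absurd h2 hb
        · omega
      · rw [mem_Icc] at hx hy
        have e3 : b * (x : ℤ) - b * (y : ℤ) = b * ((x : ℤ) - y) := by ring
        rw [e3, abs_mul]
        refine lt_of_le_of_lt ?_ hM
        apply mul_le_mul_of_nonneg_left _ (abs_nonneg _)
        rw [abs_le]
        constructor <;> omega
    · intro hx'
      exact absurd hx hx'
  have key2 : (∑ r ∈ range M, ‖EE g N (b * (r * (1 / M : ℝ)))‖ ^ 2) =
      ∑ x ∈ Icc 1 N, (M * (g (x : ℕ) * g (x : ℕ)) : ℝ) := by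
    exact_mod_cast key
  rw [key2]
  calc ∑ x ∈ Icc 1 N, (M * (g (x : ℕ) * g (x : ℕ)) : ℝ) ≤ ∑ x ∈ Icc 1 N, (M : ℝ) := by
        apply sum_le_sum
        intro x _
        have h1 : g (x : ℕ) * g (x : ℕ) ≤ 1 := by
          have := hg (x : ℕ)
          have h2 : |g (x : ℕ)| * |g (x : ℕ)| ≤ 1 * 1 := mul_le_mul this this (abs_nonneg _) (by norm_num)
          rw [abs_mul_abs_self] at h2
          linarith
        have : (0 : ℝ) ≤ M := Nat.cast_nonneg _
        nlinarith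
    _ = M * N := by simp [mul_comm]

theorem prod_bound {A B : ℕ → ℝ} {M N : ℕ} (hA : ∑ r ∈ range M, A r ^ 2 ≤ M * N) (hB : ∑ r ∈ range M, B r ^ 2 ≤ M * N) :
    ∑ r ∈ range M, A r * B r ≤ M * N := by
  have h : ∀ r ∈ range M, A r * B r ≤ (A r ^ 2 + B r ^ 2) / 2 := by
    intro r _
    nlinarith [sq_nonneg (A r - B r)]
  refine (sum_le_sum h).trans ?_
  rw [← sum_div, sum_add_distrib]
  linarith

/-- the counting bound -/
theorem TT_bound {f g h : ℤ → ℝ} {N : ℕ} {a b c : ℤ} (ha : a ≠ 0) (hb : b ≠ 0) (hc : c ≠ 0) (m : ℤ)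
    (hf : ∀ x, |f x| ≤ 1) (hg : ∀ x, |g x| ≤ 1) (hh : ∀ x, |h x| ≤ 1) {K : ℝ}
    (H : (∀ α, ‖EE f N α‖ ≤ K) ∨ (∀ α, ‖EE g N α‖ ≤ K) ∨ (∀ α, ‖EE h N α‖ ≤ K)) :
    |TT f g h N a b c m| ≤ K * N := by
  obtain ⟨M, hM⟩ : ∃ M : ℕ, M = (|m| + (|a| + |b| + |c|) * N).toNat + 1 := ⟨_, rfl⟩
  have hM' : |m| + (|a| + |b| + |c|) * N < M := by
    rw [hM]
    have := Int.self_le_toNat (|m| + (|a| + |b| + |c|) * N)
    push_cast
    omega
  have hM0 : (0 : ℝ) < M := by
    have : 0 < M := by omega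
    exact_mod_cast this
  have p : ∀ {g : ℤ → ℝ}, (∀ x, |g x| ≤ 1) → ∀ {b' : ℤ}, b' ≠ 0 → |b'| ≤ |a| + |b| + |c| →
      ∑ r ∈ range M, ‖EE g N (b' * (r * (1 / M : ℝ)))‖ ^ 2 ≤ M * N := by
    intro g hg b' hb' hle
    apply parseval hg N hb'
    refine lt_of_le_of_lt ?_ hM'
    have h1 := abs_nonneg m
    have h2 : |b'| * (N : ℤ) ≤ (|a| + |b| + |c|) * N := mul_le_mul_of_nonneg_right hle (Int.natCast_nonneg _)
    linarith
  have pa := p hf ha (by have := abs_nonneg b; have := abs_nonneg c; linarith)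
  have pb := p hg hb (by have := abs_nonneg a; have := abs_nonneg c; linarith)
  have pc := p hh hc (by have := abs_nonneg a; have := abs_nonneg b; linarith)
  have main := TT_le f g h N a b c m hM'
  have fin : (M : ℝ) * |TT f g h N a b c m| ≤ K * (M * N) := by
    refine main.trans ?_
    have hK : 0 ≤ K := by
      rcases H with H | H | H
      · exact (norm_nonneg _).trans (H 0)
      · exact (norm_nonneg _).trans (H 0)
      · exact (norm_nonneg _).trans (H 0)
    rcases H with H | H | H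
    · have q := prod_bound pb pc
      refine le_trans ?_ (mul_le_mul_of_nonneg_left q hK)
      rw [mul_sum]
      apply sum_le_sum
      intro r _
      rw [mul_assoc]
      exact mul_le_mul_of_nonneg_right (H _) (by positivity)
    · have q := prod_bound pa pc
      refine le_trans ?_ (mul_le_mul_of_nonneg_left q hK)
      rw [mul_sum]
      apply sum_le_sum
      intro r _
      have e : ‖EE f N (a * (r * (1 / M : ℝ)))‖ * ‖EE g N (b * (r * (1 / M : ℝ)))‖ * ‖EE h N (c * (r * (1 / M : ℝ)))‖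
        = ‖EE g N (b * (r * (1 / M : ℝ)))‖ * (‖EE f N (a * (r * (1 / M : ℝ)))‖ * ‖EE h N (c * (r * (1 / M : ℝ)))‖) := by ring
      rw [e]
      exact mul_le_mul_of_nonneg_right (H _) (by positivity)
    · have q := prod_bound pa pb
      refine le_trans ?_ (mul_le_mul_of_nonneg_left q hK)
      rw [mul_sum]
      apply sum_le_sum
      intro r _
      rw [mul_comm]
      exact mul_le_mul_of_nonneg_right (H _) (by positivity)
  have : (M : ℝ) * |TT f g h N a b c m| ≤ M * (K * N) := by linarith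
  exact le_of_mul_le_mul_left this hM0

/-- two unknowns, in the mean -/
theorem TT2 {f g : ℤ → ℝ} {N : ℕ} {a b c : ℤ} (ha : a ≠ 0) (hb : b ≠ 0) (hc : c ≠ 0) (m : ℤ)
    (hf : ∀ x, |f x| ≤ 1) (hg : ∀ x, |g x| ≤ 1) {K : ℝ}
    (H : (∀ α, ‖EE f N α‖ ≤ K) ∨ (∀ α, ‖EE g N α‖ ≤ K)) (w : ℤ → ℝ) (hw : ∀ x, |w x| ≤ 1) :
    |TT f g w N a b c m| ≤ K * N :=
  TT_bound ha hb hc m hf hg hw (by rcases H with H | H; exact Or.inl H; exact Or.inr (Or.inl H))

end Pool.Agent.W41.FU
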