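import Mathlib
import Pool.Agent.W41.Base2

/-! Invariant sets in sifted progressions: intervals. -/

set_option autoImplicit false

namespace Pool.Agent.W41

open Finset Filter Topology Pool.Agent.H499R2.ND

theorem As_nonneg {f : ℤ → ℝ} (hf : ∀ x, 0 ≤ f x) (N q : ℕ) (a : ℤ) (P : Finset ℕ) : 0 ≤ As f N q a P :=
  sum_nonneg fun _ _ => hf _

theorem As_le {f : ℤ → ℝ} (hf0 : ∀ x, 0 ≤ f x) (hf : ∀ x, f x ≤ 1) (N q : ℕ) (a : ℤ) (P : Finset ℕ) : As f N q a P ≤ N := by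
  classical
  unfold As
  calc _ ≤ ∑ m ∈ Icc 1 N, f (m : ℕ) := sum_le_sum_of_subset_of_nonneg (filter_subset _ _) fun _ _ _ => hf0 _
    _ ≤ ∑ m ∈ Icc 1 N, (1 : ℝ) := sum_le_sum fun _ _ => hf _
    _ = N := by simp

/-- choice of `l` -/
theorem choose_l {W2 c : ℕ} (hW : 1 ≤ W2) (hc : 2 ≤ c) {N : ℕ} (hN : c ^ (8 * W2) ≤ N) :
    ∃ l : ℕ, c ≤ l ∧ (N : ℝ) ^ (1 / (8 * W2 : ℝ)) ≤ l ∧ l ^ (4 * W2) ≤ N := by
  obtain ⟨L, hL⟩ : ∃ L : ℝ, L = (N : ℝ) ^ (1 / (8 * W2 : ℝ)) := ⟨_, rfl⟩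
  have hW0 : (0 : ℝ) < W2 := by exact_mod_cast hW
  have hLp : L ^ (8 * W2) = N := by
    rw [hL, ← Real.rpow_natCast, ← Real.rpow_mul (Nat.cast_nonneg _)]
    push_cast
    rw [one_div_mul_cancel (by positivity), Real.rpow_one]
  have hL0 : 0 ≤ L := by rw [hL]; positivity
  have hcL : (c : ℝ) ≤ L := by
    have h1 : (c : ℝ) ^ (8 * W2) ≤ L ^ (8 * W2) := by rw [hLp]; exact_mod_cast hN
    exact le_of_pow_le_pow_left₀ (by omega) hL0 h1
  refine ⟨⌈L⌉₊, ?_, ?_, ?_⟩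
  · have := Nat.le_ceil L
    exact_mod_cast hcL.trans this
  · rw [← hL]; exact Nat.le_ceil L
  · have h2 : (2 : ℝ) ≤ L := le_trans (by exact_mod_cast hc) hcL
    have h1 : (⌈L⌉₊ : ℝ) ≤ 2 * L := by
      have := Nat.ceil_lt_add_one hL0
      linarith
    have h3 : ((⌈L⌉₊ : ℕ) : ℝ) ^ (4 * W2) ≤ N := by
      calc ((⌈L⌉₊ : ℕ) : ℝ) ^ (4 * W2) ≤ (2 * L) ^ (4 * W2) := pow_le_pow_left₀ (Nat.cast_nonneg _) h1 _
        _ ≤ (L * L) ^ (4 * W2) := by
            apply pow_le_pow_left₀ (by positivity)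
            nlinarith
        _ = L ^ (8 * W2) := by rw [← pow_two, ← pow_mul]; congr 1; ring
        _ = N := hLp
    exact_mod_cast h3

theorem interval {s : ℤ} (hs : s = 1 ∨ s = -1) {ε : ℝ} (hε : 0 < ε) (hε1 : ε ≤ 1) : ∃ θ : ℝ, 0 < θ ∧ ∃ N0 : ℕ, 2 ≤ N0 ∧
    ∀ S : Set ℤ, Inv 1 S → ∀ δ : ℝ, HD s S δ → ∀ N : ℕ, N0 ≤ N → ∀ M : ℕ, M ≤ N →
    ∀ q : ℕ, 1 ≤ q → (q : ℝ) ≤ (N : ℝ) ^ θ → ∀ P : Finset ℕ, (∀ p ∈ P, p.Prime ∧ (p : ℝ) ≤ (N : ℝ) ^ θ ∧ ¬ p ∣ q) →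
    ∀ a : ℤ, |(As (ind s S) N q a P - As (ind s S) M q a P) - δ * (V P * ((N - M) / q))| ≤ ε * (V P * (N / q)) := by
  obtain ⟨W2, l0, hW2, hl0, H⟩ := base_l hs (show 0 < ε / 4 by positivity) (by linarith)
  obtain ⟨E, hE⟩ := exists_nat_ge (4 / ε)
  obtain ⟨c, hc⟩ : ∃ c : ℕ, c = l0 + E := ⟨_, rfl⟩
  have hW0 : (0 : ℝ) < W2 := by exact_mod_cast (by omega : 0 < W2)
  refine ⟨1 / (8 * W2 : ℝ), by positivity, c ^ (8 * W2), ?_, ?_⟩
  · calc 2 ≤ c := by omega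
      _ ≤ c ^ (8 * W2) := Nat.le_self_pow (by omega) _
  intro S hS δ hδ N hN M hMN q hq hqN P hP a
  obtain ⟨l, hcl, hNl, hlN⟩ := choose_l (by omega) (by omega : 2 ≤ c) hN
  have hql : q ≤ l := by exact_mod_cast hqN.trans hNl
  have hPl : ∀ p ∈ P, p.Prime ∧ p ≤ l ∧ ¬ p ∣ q := fun p hp =>
    ⟨(hP p hp).1, by exact_mod_cast (hP p hp).2.1.trans hNl, (hP p hp).2.2⟩
  have hPp : ∀ p ∈ P, p.Prime := fun p hp => (hP p hp).1
  have hV0 := V_pos hPp
  have hV1 := V_le_one hPp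
  have hVl : 1 / (l : ℝ) ≤ V P := V_ge hPp (by omega) (fun p hp => (hPl p hp).2.1)
  have hq0 : (0 : ℝ) < q := by exact_mod_cast hq
  have hl2N : l ^ (2 * W2) ≤ N := le_trans (Nat.pow_le_pow_right (by omega) (by omega)) hlN
  obtain ⟨a1, -⟩ := H S hS δ hδ l (by omega) N hl2N q hq hql P hPl a
  have hMR : (M : ℝ) ≤ N := by exact_mod_cast hMN
  have hδ0 : 0 ≤ δ := ge_of_tendsto' (cF_tendsto hs hδ) fun N => by positivity
  have hδ1 : δ ≤ 1 := by
    apply le_of_tendsto' (cF_tendsto hs hδ) fun N => ?_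
    apply div_le_one_of_le₀ _ (Nat.cast_nonneg _)
    have := cF_compl s S N
    exact_mod_cast (by omega : cF s S N ≤ N)
  have hEN : 0 ≤ V P * ((N : ℝ) / q) := by positivity
  have e : (As (ind s S) N q a P - As (ind s S) M q a P) - δ * (V P * ((N - M) / q)) =
      (As (ind s S) N q a P - δ * (V P * (N / q))) - (As (ind s S) M q a P - δ * (V P * (M / q))) := by
    rw [sub_div]; ring
  rw [e]
  refine (abs_sub _ _).trans ?_
  have a2 : |As (ind s S) M q a P - δ * (V P * (M / q))| ≤ ε / 2 * (V P * (N / q)) := by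
    rcases le_or_gt N (M ^ 2) with h | h
    · have hlM : l ^ (2 * W2) ≤ M := by
        have h1 : (l ^ (2 * W2)) ^ 2 ≤ M ^ 2 := by
          rw [← pow_mul]
          calc l ^ (2 * W2 * 2) = l ^ (4 * W2) := by congr 1; ring
            _ ≤ N := hlN
            _ ≤ M ^ 2 := h
        exact le_of_pow_le_pow_left₀ (by norm_num) (Nat.zero_le _) h1
      obtain ⟨a3, -⟩ := H S hS δ hδ l (by omega) M hlM q hq hql P hPl a
      refine a3.trans ?_
      have : V P * ((M : ℝ) / q) ≤ V P * (N / q) :=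
        mul_le_mul_of_nonneg_left (div_le_div_of_nonneg_right hMR hq0.le) hV0.le
      nlinarith
    · -- `M` is small
      have b1 : |As (ind s S) M q a P - δ * (V P * (M / q))| ≤ M := by
        have c1 := As_nonneg (ind_nonneg s S) M q a P
        have c2 := As_le (ind_nonneg s S) (ind_le_one s S) M q a P
        have c3 : 0 ≤ δ * (V P * ((M : ℝ) / q)) := by positivity
        have c4 : δ * (V P * ((M : ℝ) / q)) ≤ M := by
          have d1 : (M : ℝ) / q ≤ M := div_le_self (Nat.cast_nonneg _) (by exact_mod_cast hq)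
          have d2 : V P * ((M : ℝ) / q) ≤ 1 * M := mul_le_mul hV1 d1 (by positivity) (by norm_num)
          calc _ ≤ 1 * (V P * ((M : ℝ) / q)) := mul_le_mul_of_nonneg_right hδ1 (by positivity)
            _ ≤ _ := by linarith
        rw [abs_le]; constructor <;> linarith
      refine b1.trans ?_
      have hl1 : (1 : ℝ) ≤ l := by exact_mod_cast (by omega : 1 ≤ l)
      have hlp : (0 : ℝ) < l := by linarith
      have b2 : (N : ℝ) / l ^ 2 ≤ V P * (N / q) := by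
        calc (N : ℝ) / l ^ 2 = 1 / l * (N / l) := by field_simp
          _ ≤ V P * (N / q) := by
            apply mul_le_mul hVl _ (by positivity) hV0.le
            exact div_le_div_of_nonneg_left (Nat.cast_nonneg _) hq0 (by exact_mod_cast hql)
      -- `M * l ^ 4 ≤ N`
      have b3 : M * l ^ 4 ≤ N := by
        have h1 : (l ^ 4) ^ 2 ≤ N := by
          calc (l ^ 4) ^ 2 = l ^ 8 := by ring
            _ ≤ l ^ (4 * W2) := Nat.pow_le_pow_right (by omega) (by omega)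
            _ ≤ N := hlN
        have h2 : (M * l ^ 4) ^ 2 ≤ N ^ 2 := by
          calc (M * l ^ 4) ^ 2 = M ^ 2 * (l ^ 4) ^ 2 := by ring
            _ ≤ N * N := Nat.mul_le_mul h.le h1
            _ = N ^ 2 := by ring
        exact le_of_pow_le_pow_left₀ (by norm_num) (Nat.zero_le _) h2
      have b4 : (M : ℝ) * l ^ 4 ≤ N := by exact_mod_cast b3
      have b5 : 4 ≤ ε * l := by
        have : (E : ℝ) ≤ l := by exact_mod_cast (by omega : E ≤ l)
        have h4 : 4 / ε ≤ l := hE.trans this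
        rw [div_le_iff₀ hε] at h4; linarith
      have b6 : (M : ℝ) ≤ ε / 2 * (N / l ^ 2) := by
        have h5 : (M : ℝ) * l ^ 2 * (l ^ 2) ≤ N := by
          calc (M : ℝ) * l ^ 2 * (l ^ 2) = M * l ^ 4 := by ring
            _ ≤ (N : ℝ) := b4
        have h6 : (M : ℝ) * l ^ 2 ≤ ε / 2 * N := by
          have h7 : 2 ≤ ε * l ^ 2 := by nlinarith
          have h8 : (0 : ℝ) ≤ M * l ^ 2 := by positivity
          nlinarith
        rw [mul_div_assoc', le_div_iff₀ (by positivity)]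
        exact h6
      calc (M : ℝ) ≤ ε / 2 * (N / l ^ 2) := b6
        _ ≤ ε / 2 * (V P * (N / q)) := mul_le_mul_of_nonneg_left b2 (by positivity)
  have a3 : 0 ≤ ε * (V P * ((N : ℝ) / q)) := mul_nonneg hε.le hEN
  linarith

open Classical in
theorem As_sub (f : ℤ → ℝ) {M N : ℕ} (hMN : M ≤ N) (q : ℕ) (a : ℤ) (P : Finset ℕ) :
    As f N q a P - As f M q a P =
      ∑ m ∈ (Ioc M N).filter (fun m : ℕ => (m : ℤ) ≡ a [ZMOD q] ∧ ∀ p ∈ P, ¬ (p : ℤ) ∣ m), f (m : ℕ) := by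
  unfold As
  have e : Icc 1 N = Icc 1 M ∪ Ioc M N := by
    ext m
    simp only [mem_union, mem_Icc, mem_Ioc]
    omega
  have hd : Disjoint (Icc 1 M) (Ioc M N) := by
    rw [disjoint_left]
    intro m h1 h2
    rw [mem_Icc] at h1
    rw [mem_Ioc] at h2
    omega
  rw [e, filter_union, sum_union (disjoint_filter_filter hd)]
  ring

/-- from sets to sums -/
theorem ncard_eq {s : ℤ} (hs : s = 1 ∨ s = -1) (S : Set ℤ) {M N : ℕ} (hMN : M ≤ N) (q : ℕ) (a : ℤ) (P : Finset ℕ) :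
    ({n : ℤ | n ∈ S ∧ (M : ℤ) < s * n ∧ s * n ≤ N ∧ n ≡ a [ZMOD q] ∧ ∀ p ∈ P, ¬ (p : ℤ) ∣ n}.ncard : ℝ) =
      As (ind s S) N q (s * a) P - As (ind s S) M q (s * a) P := by
  classical
  rw [As_sub _ hMN]
  have e0 : ∑ m ∈ (Ioc M N).filter (fun m : ℕ => (m : ℤ) ≡ s * a [ZMOD q] ∧ ∀ p ∈ P, ¬ (p : ℤ) ∣ m), ind s S (m : ℕ) =
      (((Ioc M N).filter (fun m : ℕ => ((m : ℤ) ≡ s * a [ZMOD q] ∧ ∀ p ∈ P, ¬ (p : ℤ) ∣ m) ∧ s * (m : ℤ) ∈ S)).card : ℝ) := by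
    rw [sum_filter, card_filter]
    push_cast
    apply sum_congr rfl
    intro m _
    unfold ind
    by_cases h1 : (m : ℤ) ≡ s * a [ZMOD q] ∧ ∀ p ∈ P, ¬ (p : ℤ) ∣ m
    · by_cases h2 : s * (m : ℤ) ∈ S
      · rw [if_pos h1, if_pos h2, if_pos ⟨h1, h2⟩]
      · rw [if_pos h1, if_neg h2, if_neg (fun h => h2 h.2)]
    · rw [if_neg h1, if_neg (fun h => h1 h.1)]
  rw [e0]
  have hmod : ∀ n : ℤ, n ≡ a [ZMOD q] ↔ s * n ≡ s * a [ZMOD q] := by
    intro n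
    constructor
    · intro h; exact h.mul_left s
    · intro h
      have := h.mul_left s
      rwa [s_mul hs, s_mul hs] at this
  have hdiv : ∀ (p : ℕ) (n : ℤ), (p : ℤ) ∣ n ↔ (p : ℤ) ∣ s * n := by
    intro p n
    rcases hs with rfl | rfl
    · rw [one_mul]
    · rw [neg_one_mul, dvd_neg]
  have e : {n : ℤ | n ∈ S ∧ (M : ℤ) < s * n ∧ s * n ≤ N ∧ n ≡ a [ZMOD q] ∧ ∀ p ∈ P, ¬ (p : ℤ) ∣ n} =
      (((Ioc M N).filter (fun m : ℕ => ((m : ℤ) ≡ s * a [ZMOD q] ∧ ∀ p ∈ P, ¬ (p : ℤ) ∣ m) ∧ s * (m : ℤ) ∈ S)).image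
        (fun m : ℕ => s * (m : ℤ)) : Finset ℤ) := by
    ext n
    simp only [Set.mem_ofPred_eq, coe_image, coe_filter, Set.mem_image, mem_Ioc]
    constructor
    · rintro ⟨h3, h1, h2, h4, h5⟩
      have h0 : 0 ≤ s * n := by omega
      refine ⟨(s * n).toNat, ⟨⟨by omega, by omega⟩, ?_⟩, ?_⟩
      · rw [Int.toNat_of_nonneg h0, s_mul hs]
        exact ⟨⟨(hmod n).1 h4, fun p hp hd => h5 p hp ((hdiv p n).2 hd)⟩, h3⟩
      · rw [Int.toNat_of_nonneg h0, s_mul hs]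
    · rintro ⟨m, ⟨⟨h1, h2⟩, ⟨h3, h4⟩, h5⟩, rfl⟩
      refine ⟨h5, ?_, ?_, ?_, ?_⟩
      · rw [s_mul hs]; exact_mod_cast h1
      · rw [s_mul hs]; exact_mod_cast h2
      · rw [hmod, s_mul hs]; exact h3
      · intro p hp hd
        rw [hdiv, s_mul hs] at hd
        exact h4 p hp hd
  rw [e, Set.ncard_coe_finset, card_image_of_injective]
  intro a b hab
  have h1 : s * (a : ℤ) = s * (b : ℤ) := hab
  have h2 := congrArg (fun x => s * x) h1
  simp only [s_mul hs] at h2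
  exact_mod_cast h2

/-- the whole line has density one -/
theorem HD_univ {s : ℤ} (hs : s = 1 ∨ s = -1) : HD s Set.univ 1 := by
  have hinv : Inv 1 (Set.univ : Set ℤ) := fun x => by simp
  obtain ⟨l, -, -, hl⟩ := dens_side (d := 1) odd_one (by norm_num) hs hinv
  have hempty : Inv 1 (∅ : Set ℤ) := fun x => by simp
  obtain ⟨l', -, -, hl'⟩ := dens_side (d := 1) odd_one (by norm_num) hs hempty
  have h0 : l' = 0 := one_eq_zero hs (fun a ha => by simp at ha) hl'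
  have hc : HD s (Set.univ : Set ℤ)ᶜ l' := by rw [Set.compl_univ]; exact hl'
  have := HD_compl hl hc
  rw [h0, add_zero] at this
  rw [← this]; exact hl

end Pool.Agent.W41
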