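import Pool.Agent.W41.FU8

/-! Correlations with the functions `cos (γ n + τ log n + φ)`: preliminaries. -/

set_option autoImplicit false

namespace Pool.Agent.W41.MU

open Pool.Agent.H320R2.PD Pool.Agent.H499R2.ND Finset Pool.Agent.H499R2.CO Pool.Agent.W41.FU Pool.Agent.W41

/-- the clamped variable -/
noncomputable def cl (u : ℝ) : ℝ := max 1 (min u 4)

theorem cl_ge (u : ℝ) : 1 ≤ cl u := le_max_left _ _

theorem cl_eq {u : ℝ} (h1 : 1 ≤ u) (h4 : u ≤ 4) : cl u = u := by
  unfold cl; rw [min_eq_left h4, max_eq_right h1]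

theorem cl_lip (u v : ℝ) : |cl u - cl v| ≤ |u - v| := by
  unfold cl
  rcases le_total u v with h | h
  · have h1 : min u 4 ≤ min v 4 := min_le_min_right _ h
    have h2 : max 1 (min u 4) ≤ max 1 (min v 4) := max_le_max_left _ h1
    rw [abs_of_nonpos (by linarith), abs_of_nonpos (by linarith)]
    have h3 : min v 4 - min u 4 ≤ v - u := by
      rcases le_total v 4 with h4 | h4
      · rw [min_eq_left h4, min_eq_left (h.trans h4)]
      · rw [min_eq_right h4]
        rcases le_total u 4 with h5 | h5
        · rw [min_eq_left h5]; linarith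
        · rw [min_eq_right h5]; linarith
    rcases le_total 1 (min u 4) with h4 | h4
    · rw [max_eq_right h4, max_eq_right (h4.trans h1)]; linarith
    · rw [max_eq_left h4]
      rcases le_total 1 (min v 4) with h5 | h5
      · rw [max_eq_right h5]; linarith
      · rw [max_eq_left h5]; linarith
  · have h1 : min v 4 ≤ min u 4 := min_le_min_right _ h
    have h2 : max 1 (min v 4) ≤ max 1 (min u 4) := max_le_max_left _ h1
    rw [abs_of_nonneg (by linarith), abs_of_nonneg (by linarith)]
    have h3 : min u 4 - min v 4 ≤ u - v := by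
      rcases le_total u 4 with h4 | h4
      · rw [min_eq_left h4, min_eq_left (h.trans h4)]
      · rw [min_eq_right h4]
        rcases le_total v 4 with h5 | h5
        · rw [min_eq_left h5]; linarith
        · rw [min_eq_right h5]; linarith
    rcases le_total 1 (min v 4) with h4 | h4
    · rw [max_eq_right h4, max_eq_right (h4.trans h1)]; linarith
    · rw [max_eq_left h4]
      rcases le_total 1 (min u 4) with h5 | h5
      · rw [max_eq_right h5]; linarith
      · rw [max_eq_left h5]; linarith

theorem log_sub_le {x y : ℝ} (hx : 1 ≤ x) (hxy : x ≤ y) : Real.log y - Real.log x ≤ y - x := by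
  have h1 : Real.log y - Real.log x = Real.log (y / x) := by
    rw [Real.log_div (by linarith) (by linarith)]
  rw [h1]
  refine (Real.log_le_sub_one_of_pos (div_pos (by linarith) (by linarith))).trans ?_
  have h2 : y / x - 1 = (y - x) / x := by field_simp
  rw [h2]
  exact div_le_self (by linarith) hx

theorem log_lip {x y : ℝ} (hx : 1 ≤ x) (hy : 1 ≤ y) : |Real.log x - Real.log y| ≤ |x - y| := by
  rcases le_total x y with h | h
  · have h1 := Real.log_le_log (by linarith) h
    rw [abs_of_nonpos (by linarith), abs_of_nonpos (by linarith)]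
    have := log_sub_le hx h
    linarith
  · have h1 := Real.log_le_log (by linarith) h
    rw [abs_of_nonneg (by linarith), abs_of_nonneg (by linarith)]
    exact log_sub_le hy h

/-- the test function -/
noncomputable def GLo (b τ φ u : ℝ) : ℝ := Real.cos (b * u + τ * Real.log (cl u) + φ)

theorem GLo_abs (b τ φ u : ℝ) : |GLo b τ φ u| ≤ 1 := Real.abs_cos_le_one _

theorem GLo_lip (b τ φ u v : ℝ) : |GLo b τ φ u - GLo b τ φ v| ≤ (|b| + |τ|) * |u - v| := by
  unfold GLo
  refine (Real.abs_cos_sub_cos_le _ _).trans ?_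
  have e : b * u + τ * Real.log (cl u) + φ - (b * v + τ * Real.log (cl v) + φ)
      = b * (u - v) + τ * (Real.log (cl u) - Real.log (cl v)) := by ring
  rw [e]
  refine (abs_add_le _ _).trans ?_
  rw [abs_mul, abs_mul, add_mul]
  have h1 := log_lip (cl_ge u) (cl_ge v)
  have h2 := cl_lip u v
  have h3 : |τ| * |Real.log (cl u) - Real.log (cl v)| ≤ |τ| * |u - v| :=
    mul_le_mul_of_nonneg_left (h1.trans h2) (abs_nonneg _)
  linarith

/-- the change of the phase under a small shift -/
theorem phase_shift {b τ u y w δ : ℝ} (hu : 1 ≤ u) (hw : 1 ≤ w) (hy : 0 ≤ y) (hδ : |u - w| ≤ δ) :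
    |(b * (u + y) + τ * Real.log (u + y)) - (b * u + τ * Real.log u) - y * (b + τ / w)|
      ≤ |τ| * (y * δ + y ^ 2) := by
  have hu0 : 0 < u := by linarith
  have hw0 : 0 < w := by linarith
  set z := y / u with hz
  have hz0 : 0 ≤ z := by positivity
  have hzy : z ≤ y := div_le_self hy hu
  have e1 : Real.log (u + y) - Real.log u = Real.log (1 + z) := by
    rw [← Real.log_div (by linarith) (by linarith)]
    congr 1
    rw [hz]; field_simp
  have e2 : (b * (u + y) + τ * Real.log (u + y)) - (b * u + τ * Real.log u) - y * (b + τ / w)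
      = τ * ((Real.log (1 + z) - z) + (y / u - y / w)) := by
    have : Real.log (u + y) = Real.log (1 + z) + Real.log u := by linarith
    rw [this, ← hz]; ring
  rw [e2, abs_mul]
  apply mul_le_mul_of_nonneg_left _ (abs_nonneg _)
  refine (abs_add_le _ _).trans ?_
  have h1 : |Real.log (1 + z) - z| ≤ y ^ 2 := by
    have a1 : Real.log (1 + z) ≤ z := by
      have := Real.log_le_sub_one_of_pos (show 0 < 1 + z by linarith)
      linarith
    have a2 : 1 - (1 + z)⁻¹ ≤ Real.log (1 + z) := Real.one_sub_inv_le_log_of_pos (by linarith)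
    have a3 : z - z ^ 2 ≤ 1 - (1 + z)⁻¹ := by
      have : 1 - (1 + z)⁻¹ - (z - z ^ 2) = z ^ 3 / (1 + z) := by field_simp; ring
      have h3 : 0 ≤ z ^ 3 / (1 + z) := by positivity
      linarith
    have a4 : z ^ 2 ≤ y ^ 2 := pow_le_pow_left₀ hz0 hzy 2
    rw [abs_le]
    constructor <;> nlinarith [sq_nonneg z]
  have h2 : |y / u - y / w| ≤ y * δ := by
    have e3 : y / u - y / w = y * ((w - u) / (u * w)) := by field_simp
    rw [e3, abs_mul, abs_of_nonneg hy]
    apply mul_le_mul_of_nonneg_left _ hy
    rw [abs_div, abs_of_pos (by positivity : 0 < u * w), abs_sub_comm w u]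
    refine (div_le_self (abs_nonneg _) ?_).trans hδ
    nlinarith
  linarith

theorem cos_anti {a b σ e : ℝ} (hσ : σ = 1 ∨ σ = -1) (h : |a - b - σ * Real.pi| ≤ e) :
    |Real.cos a + Real.cos b| ≤ e := by
  have e1 : Real.cos b = -Real.cos (b + σ * Real.pi) := by
    rcases hσ with rfl | rfl
    · rw [one_mul, Real.cos_add_pi]; ring
    · rw [neg_one_mul, ← sub_eq_add_neg, Real.cos_sub_pi]; ring
  have e2 : Real.cos a + Real.cos b = Real.cos a - Real.cos (b + σ * Real.pi) := by rw [e1]; ring
  rw [e2]
  refine (Real.abs_cos_sub_cos_le _ _).trans ?_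
  rw [show a - (b + σ * Real.pi) = a - b - σ * Real.pi by ring]
  exact h

/-- a set of integers with small differences -/
theorem card_of_diff {S : Finset ℕ} {D : ℝ} (hD : 0 ≤ D) (h : ∀ i ∈ S, ∀ j ∈ S, (j : ℝ) - i ≤ D) :
    (S.card : ℝ) ≤ D + 1 := by
  rcases S.eq_empty_or_nonempty with rfl | hne
  · simp; linarith
  · have hsub : S ⊆ Icc (S.min' hne) (S.min' hne + ⌊D⌋₊) := by
      intro j hj
      rw [mem_Icc]
      refine ⟨S.min'_le j hj, ?_⟩
      have h1 := h _ (S.min'_mem hne) j hj
      have h2 : ((j - S.min' hne : ℕ) : ℝ) ≤ D := by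
        rw [Nat.cast_sub (S.min'_le j hj)]; exact h1
      have h3 := Nat.le_floor h2
      omega
    have h4 := card_le_card hsub
    rw [Nat.card_Icc] at h4
    have h5 : S.card ≤ ⌊D⌋₊ + 1 := by omega
    have h6 : (S.card : ℝ) ≤ (⌊D⌋₊ : ℝ) + 1 := by exact_mod_cast h5
    have h7 := Nat.floor_le hD
    linarith

/-- decomposition of a window into blocks -/
theorem WS_blocks (g : ℤ → ℝ) {A : ℝ} (hA : 0 < A) {J : ℕ} (hJ : 1 ≤ J) (m : ℕ) (u v : ℤ) (n : ℕ) :
    WS g A (A * (1 + n / J)) m u v
      = ∑ j ∈ range n, WS g (A * (1 + j / J)) (A * (1 + (j + 1) / J)) m u v := by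
  have hJ0 : (0 : ℝ) < J := by exact_mod_cast hJ
  induction n with
  | zero =>
    simp only [Nat.cast_zero, zero_div, add_zero, mul_one, range_zero, sum_empty]
    unfold WS
    apply sum_eq_zero
    intro x hx
    rw [mem_cls] at hx
    linarith [hx.1.1, hx.1.2]
  | succ n ih =>
    rw [sum_range_succ, ← ih, ← WS_split]
    · push_cast; rfl
    · have : (0 : ℝ) ≤ n / J := by positivity
      nlinarith
    · apply mul_le_mul_of_nonneg_left _ hA.le
      have : (n : ℝ) / J ≤ (n + 1) / J := div_le_div_of_nonneg_right (by linarith) hJ0.le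
      linarith

end Pool.Agent.W41.MU
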