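import Pool.Agent.W41.MU9

/-! Few large values of Dirichlet polynomials over the primes of a cell. -/

set_option autoImplicit false

namespace Pool.Agent.W41.MU

open Finset Filter Pool.Agent.H376R2.MR

/-- the duality step for well spaced frequencies -/
theorem lv_spaced {H v : ℕ} (hv : 1 ≤ v) {κ ε3 B : ℝ} (hκ : κ = ε3 ^ 2 / 4) (hε3 : 0 < ε3) {lam : ℕ → ℝ}
    (hlam0 : ∀ n, 0 ≤ lam n) (hlam1 : ∀ p ∈ cell H v, lam p = 1) {T₀ : ℕ}
    (hS0 : ∀ k : ℤ, |(k : ℝ)| ≤ B → ‖∑ n ∈ nint H v, (lam n : ℂ) * ch k (Real.log n) / (n : ℂ)‖ ≤ 9 / v)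
    (hS1 : ∀ k : ℤ, (T₀ : ℝ) ≤ |(k : ℝ)| → |(k : ℝ)| ≤ B →
        ‖∑ n ∈ nint H v, (lam n : ℂ) * ch k (Real.log n) / (n : ℂ)‖ ≤ κ / v)
    (hmm : 1 / 2 ≤ v * mm H v) {w : ℕ → ℂ} (hw : ∀ p ∈ cell H v, ‖w p‖ ≤ 1 / p) {V : Finset ℤ}
    (hVB : ∀ k ∈ V, ∀ l ∈ V, |((k - l : ℤ) : ℝ)| ≤ B) (hVT : ∀ k ∈ V, ∀ l ∈ V, k ≠ l → (T₀ : ℝ) ≤ |((k - l : ℤ) : ℝ)|)
    (hV : ∀ k ∈ V, ε3 * mm H v < ‖∑ p ∈ cell H v, w p * ch k (Real.log p)‖) : (V.card : ℝ) ≤ 36 / ε3 ^ 2 := by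
  classical
  have hv0 : (0 : ℝ) < v := by exact_mod_cast hv
  set μ := mm H v with hμ
  have hμ0 : 0 < μ := by
    by_contra hcon
    push Not at hcon
    nlinarith
  rcases V.eq_empty_or_nonempty with rfl | hne
  · simp only [card_empty, Nat.cast_zero]; positivity
  have hR0 : (0 : ℝ) < V.card := by exact_mod_cast hne.card_pos
  set P : ℤ → ℂ := fun k => ∑ p ∈ cell H v, w p * ch k (Real.log p) with hP
  have hPpos : ∀ k ∈ V, 0 < ‖P k‖ := fun k hk => lt_of_le_of_lt (by positivity) (hV k hk)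
  set c : ℤ → ℂ := fun k => (starRingEnd ℂ) (P k) / (‖P k‖ : ℂ) with hc
  have hc1 : ∀ k ∈ V, ‖c k‖ = 1 := by
    intro k hk
    simp only [hc]
    rw [norm_div, RCLike.norm_conj, Complex.norm_real, norm_norm, div_self (hPpos k hk).ne']
  have hcP : ∀ k ∈ V, c k * P k = (‖P k‖ : ℂ) := by
    intro k hk
    simp only [hc]
    have h0 : (‖P k‖ : ℂ) ≠ 0 := by exact_mod_cast (hPpos k hk).ne'
    rw [div_mul_eq_mul_div, mul_comm, Complex.mul_conj', div_eq_iff h0]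
    ring
  set T : ℝ → ℂ := fun x => ∑ k ∈ V, c k * ch k x with hT
  -- lower bound
  have h1 : V.card * (ε3 * μ) ≤ ∑ p ∈ cell H v, 1 / (p : ℝ) * ‖T (Real.log p)‖ := by
    have e1 : ((∑ k ∈ V, ‖P k‖ : ℝ) : ℂ) = ∑ p ∈ cell H v, w p * T (Real.log p) := by
      rw [Complex.ofReal_sum, ← sum_congr rfl hcP]
      simp only [hP, hT, mul_sum]
      rw [sum_comm]
      apply sum_congr rfl
      intro p _
      apply sum_congr rfl
      intro k _
      ring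
    have e2 : V.card * (ε3 * μ) ≤ ∑ k ∈ V, ‖P k‖ := by
      rw [← nsmul_eq_mul, ← sum_const]
      exact sum_le_sum fun k hk => (hV k hk).le
    have e3 : ∑ k ∈ V, ‖P k‖ = ‖∑ p ∈ cell H v, w p * T (Real.log p)‖ := by
      rw [← e1, Complex.norm_real, Real.norm_eq_abs, abs_of_nonneg (sum_nonneg fun k _ => norm_nonneg _)]
    rw [e3] at e2
    refine e2.trans ((norm_sum_le _ _).trans (sum_le_sum fun p hp => ?_))
    rw [norm_mul]
    exact mul_le_mul_of_nonneg_right (hw p hp) (norm_nonneg _)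
  -- Cauchy
  have h2 : (∑ p ∈ cell H v, 1 / (p : ℝ) * ‖T (Real.log p)‖) ^ 2
      ≤ μ * ∑ p ∈ cell H v, 1 / (p : ℝ) * ‖T (Real.log p)‖ ^ 2 := by
    have := sum_mul_sq_le_sq_mul_sq (cell H v) (fun p => Real.sqrt (1 / (p : ℝ)))
      (fun p => Real.sqrt (1 / (p : ℝ)) * ‖T (Real.log p)‖)
    have e1 : ∀ p : ℕ, Real.sqrt (1 / (p : ℝ)) * Real.sqrt (1 / (p : ℝ)) = 1 / p := fun p =>
      Real.mul_self_sqrt (by positivity)
    have e2 : ∑ p ∈ cell H v, Real.sqrt (1 / (p : ℝ)) * (Real.sqrt (1 / (p : ℝ)) * ‖T (Real.log p)‖)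
        = ∑ p ∈ cell H v, 1 / (p : ℝ) * ‖T (Real.log p)‖ := by
      apply sum_congr rfl; intro p _; rw [← mul_assoc, e1]
    have e3 : ∑ p ∈ cell H v, Real.sqrt (1 / (p : ℝ)) ^ 2 = μ := by
      rw [hμ]; unfold mm; apply sum_congr rfl; intro p _; rw [sq, e1]
    have e4 : ∑ p ∈ cell H v, (Real.sqrt (1 / (p : ℝ)) * ‖T (Real.log p)‖) ^ 2
        = ∑ p ∈ cell H v, 1 / (p : ℝ) * ‖T (Real.log p)‖ ^ 2 := by
      apply sum_congr rfl; intro p _; rw [mul_pow, sq, e1]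
    rw [e2, e3, e4] at this
    exact this
  -- the sieve majorant
  have h3 : ∑ p ∈ cell H v, 1 / (p : ℝ) * ‖T (Real.log p)‖ ^ 2
      ≤ ∑ n ∈ nint H v, lam n / (n : ℝ) * ‖T (Real.log n)‖ ^ 2 := by
    have hsub : cell H v ⊆ nint H v := by
      intro p hp
      unfold cell at hp
      unfold nint
      rw [Finset.mem_filter] at hp ⊢
      exact ⟨hp.1, hp.2.2⟩
    have e1 : ∑ p ∈ cell H v, 1 / (p : ℝ) * ‖T (Real.log p)‖ ^ 2
        = ∑ n ∈ cell H v, lam n / (n : ℝ) * ‖T (Real.log n)‖ ^ 2 := by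
      apply sum_congr rfl; intro p hp; rw [hlam1 p hp]
    rw [e1]
    apply sum_le_sum_of_subset_of_nonneg hsub
    intro n _ _
    exact mul_nonneg (div_nonneg (hlam0 n) (Nat.cast_nonneg n)) (by positivity)
  have h4 : ∑ n ∈ nint H v, lam n / (n : ℝ) * ‖T (Real.log n)‖ ^ 2 ≤ V.card * (9 / v) + V.card * (V.card * (κ / v)) := by
    set Z := ∑ n ∈ nint H v, lam n / (n : ℝ) * ‖T (Real.log n)‖ ^ 2 with hZ
    have e1 : (Z : ℂ) = ∑ k ∈ V, ∑ l ∈ V, c k * (starRingEnd ℂ) (c l)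
        * ∑ n ∈ nint H v, (lam n : ℂ) * ch (k - l) (Real.log n) / (n : ℂ) := by
      rw [hZ, Complex.ofReal_sum]
      have e2 : ∀ n ∈ nint H v, ((lam n / (n : ℝ) * ‖T (Real.log n)‖ ^ 2 : ℝ) : ℂ)
          = ∑ k ∈ V, ∑ l ∈ V, c k * (starRingEnd ℂ) (c l) * ((lam n : ℂ) * ch (k - l) (Real.log n) / (n : ℂ)) := by
        intro n _
        rw [Complex.ofReal_mul]
        simp only [hT]
        rw [ls_sq, mul_sum]
        apply sum_congr rfl
        intro k _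
        rw [mul_sum]
        apply sum_congr rfl
        intro l _
        push_cast
        ring
      rw [sum_congr rfl e2, sum_comm]
      apply sum_congr rfl
      intro k _
      rw [sum_comm]
      apply sum_congr rfl
      intro l _
      rw [mul_sum]
    have e3 : Z ≤ ‖(Z : ℂ)‖ := by
      rw [Complex.norm_real, Real.norm_eq_abs]; exact le_abs_self _
    refine e3.trans ?_
    rw [e1]
    have e4 : ∀ k ∈ V, ∀ l ∈ V, ‖c k * (starRingEnd ℂ) (c l)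
        * ∑ n ∈ nint H v, (lam n : ℂ) * ch (k - l) (Real.log n) / (n : ℂ)‖ ≤ (if k = l then 9 / (v : ℝ) else 0) + κ / v := by
      intro k hk l hl
      rw [norm_mul, norm_mul, RCLike.norm_conj, hc1 k hk, hc1 l hl, one_mul, one_mul]
      have hκ0 : 0 ≤ κ / v := by rw [hκ]; positivity
      split_ifs with hkl
      · have := hS0 (k - l) (hVB k hk l hl)
        linarith
      · have := hS1 (k - l) (hVT k hk l hl hkl) (hVB k hk l hl)
        linarith
    calc ‖∑ k ∈ V, ∑ l ∈ V, c k * (starRingEnd ℂ) (c l)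
          * ∑ n ∈ nint H v, (lam n : ℂ) * ch (k - l) (Real.log n) / (n : ℂ)‖
        ≤ ∑ k ∈ V, ∑ l ∈ V, ((if k = l then 9 / (v : ℝ) else 0) + κ / v) := by
          refine (norm_sum_le _ _).trans (sum_le_sum fun k hk => ?_)
          exact (norm_sum_le _ _).trans (sum_le_sum fun l hl => e4 k hk l hl)
      _ = V.card * (9 / v) + V.card * (V.card * (κ / v)) := by
          have e5 : ∀ k ∈ V, ∑ l ∈ V, ((if k = l then 9 / (v : ℝ) else 0) + κ / v) = 9 / v + V.card * (κ / v) := by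
            intro k hk
            rw [sum_add_distrib, sum_ite_eq V k, if_pos hk, sum_const, nsmul_eq_mul]
          rw [sum_congr rfl e5, sum_const, nsmul_eq_mul]
          ring
  have h5 : (V.card * (ε3 * μ)) ^ 2 ≤ μ * (V.card * (9 / v) + V.card * (V.card * (κ / v))) := by
    have a1 : (V.card * (ε3 * μ)) ^ 2 ≤ (∑ p ∈ cell H v, 1 / (p : ℝ) * ‖T (Real.log p)‖) ^ 2 :=
      pow_le_pow_left₀ (by positivity) h1 2
    refine a1.trans (h2.trans ?_)
    exact mul_le_mul_of_nonneg_left (h3.trans h4) hμ0.le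
  have h6 : 1 / (v : ℝ) ≤ 2 * μ := by
    rw [div_le_iff₀ hv0]
    linarith
  set r : ℝ := (V.card : ℝ) with hr
  have h7 : μ * (r * (9 / v) + r * (r * (κ / v))) ≤ μ * ((9 * r + κ * r ^ 2) * (2 * μ)) := by
    apply mul_le_mul_of_nonneg_left _ hμ0.le
    have e : r * (9 / v) + r * (r * (κ / v)) = (9 * r + κ * r ^ 2) * (1 / v) := by ring
    rw [e]
    apply mul_le_mul_of_nonneg_left h6
    rw [hκ]; positivity
  have h8 : (r * (ε3 * μ)) ^ 2 ≤ μ * ((9 * r + κ * r ^ 2) * (2 * μ)) := h5.trans h7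
  have h9 : (r * ε3 ^ 2) * (r * μ ^ 2) ≤ (18 + 2 * κ * r) * (r * μ ^ 2) := by
    calc (r * ε3 ^ 2) * (r * μ ^ 2) = (r * (ε3 * μ)) ^ 2 := by ring
      _ ≤ _ := h8
      _ = _ := by ring
  have h10 := le_of_mul_le_mul_right h9 (by positivity)
  rw [hκ] at h10
  rw [le_div_iff₀ (by positivity)]
  linarith

/-- FEW LARGE VALUES. -/
theorem lv (H : ℕ) (hH : 1 ≤ H) {ε3 : ℝ} (hε3 : 0 < ε3) : ∃ R : ℕ, ∀ M : ℕ, ∃ v₀ : ℕ, ∀ v : ℕ, v₀ ≤ v →
    ∀ w : ℕ → ℂ, (∀ p ∈ cell H v, ‖w p‖ ≤ 1 / p) → ∀ U : Finset ℤ,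
      (∀ k ∈ U, |(k : ℝ)| ≤ Real.exp (M * (v : ℝ) / H)) →
      (∀ k ∈ U, ε3 * mm H v < ‖∑ p ∈ cell H v, w p * ch k (Real.log p)‖) → U.card ≤ R := by
  classical
  have hHpos : (0 : ℝ) < H := by exact_mod_cast hH
  obtain ⟨T₀, hT₀, hsel⟩ := sel_S H hH (show 0 < ε3 ^ 2 / 4 by positivity)
  refine ⟨⌈T₀ * (36 / ε3 ^ 2)⌉₊, fun M => ?_⟩
  obtain ⟨v₁, h1⟩ := hsel (M + 1)
  have hpnt := cell_pnt H hH
  have hev1 := hpnt.eventually (lt_mem_nhds (show (1 / 2 : ℝ) < 1 by norm_num))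
  have hev2 : ∀ᶠ v : ℕ in atTop, (2 : ℝ) ≤ Real.exp ((v : ℝ) / H) := by
    have h1 : Tendsto (fun v : ℕ => Real.exp ((v : ℝ) / H)) atTop atTop :=
      Real.tendsto_exp_atTop.comp (tendsto_natCast_atTop_atTop.atTop_div_const hHpos)
    exact h1.eventually_ge_atTop _
  obtain ⟨v₀, hv₀⟩ := eventually_atTop.1 (hev1.and (hev2.and (eventually_ge_atTop (v₁ + 1))))
  refine ⟨v₀, fun v hv w hw U hUB hU => ?_⟩
  obtain ⟨hmm, h2, hv1⟩ := hv₀ v hv
  obtain ⟨lam, hl0, hl1, hS0, hS1⟩ := h1 v (by omega)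
  have hT0 : 0 < T₀ := hT₀
  -- classes modulo T₀
  have hcls : ∀ r ∈ range T₀, (((U.filter fun k : ℤ => (k % T₀).toNat = r).card : ℕ) : ℝ) ≤ 36 / ε3 ^ 2 := by
    intro r _
    apply lv_spaced (H := H) (v := v) (by omega) rfl hε3 hl0 hl1 hS0 hS1 hmm.le hw
    · intro k hk l hl
      rw [mem_filter] at hk hl
      have a1 := hUB k hk.1
      have a2 := hUB l hl.1
      push_cast
      refine (abs_sub _ _).trans ?_
      have e : Real.exp (((M + 1 : ℕ) : ℝ) * v / H) = Real.exp ((v : ℝ) / H) * Real.exp (M * (v : ℝ) / H) := by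
        rw [← Real.exp_add]; congr 1; push_cast; ring
      push_cast at e
      rw [e]
      have := mul_le_mul_of_nonneg_right h2 (Real.exp_pos (M * (v : ℝ) / H)).le
      linarith
    · intro k hk l hl hkl
      rw [mem_filter] at hk hl
      have hTz : (T₀ : ℤ) ≠ 0 := by omega
      have e : k % T₀ = l % T₀ := by
        have a1 := Int.emod_nonneg k hTz
        have a2 := Int.emod_nonneg l hTz
        omega
      have hdvd : (T₀ : ℤ) ∣ k - l := Int.ModEq.dvd e.symm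
      have h5 : (T₀ : ℤ) ≤ |k - l| := by
        apply Int.le_of_dvd
        · exact abs_pos.2 (sub_ne_zero.2 hkl)
        · exact (dvd_abs _ _).2 hdvd
      exact_mod_cast h5
    · intro k hk
      rw [mem_filter] at hk
      exact hU k hk.1
  have hcard : U.card = ∑ r ∈ range T₀, (U.filter fun k : ℤ => (k % T₀).toNat = r).card := by
    apply card_eq_sum_card_fiberwise
    intro k _
    have hTz : (0 : ℤ) < T₀ := by omega
    have a1 := Int.emod_nonneg k hTz.ne'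
    have a2 := Int.emod_lt_of_pos k hTz
    simp only [coe_range, Set.mem_Iio]
    omega
  have hR : (U.card : ℝ) ≤ T₀ * (36 / ε3 ^ 2) := by
    rw [hcard]
    push_cast
    refine (sum_le_sum hcls).trans ?_
    rw [sum_const, card_range, nsmul_eq_mul]
  have := hR.trans (Nat.le_ceil _)
  exact_mod_cast this

end Pool.Agent.W41.MU
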