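import Pool.Agent.W41.MU10

/-! Passing from integers to the logarithmic scale. -/

set_option autoImplicit false

namespace Pool.Agent.W41.MU

open Finset MeasureTheory Pool.Agent.H376R2.MR

/-- from the integers to the logarithmic scale -/
theorem ms_reduce {F : ℤ → ℂ} (hF : ∀ n, ‖F n‖ ≤ 1) {M h : ℕ} (hM : 1 ≤ M) (hh : 1 ≤ h) {T : Finset ℕ}
    (hT : ∀ p ∈ T, 1 ≤ p ∧ p ≤ h) {w : ℕ → ℂ} (hw : ∀ p ∈ T, ‖w p‖ ≤ 1 / p) {μ : ℝ}
    (hμ : ∑ p ∈ T, 1 / (p : ℝ) = μ) {B J : ℝ}
    (h1 : ∀ p ∈ T, ∑ m ∈ Ico M (2 * M), EF F h (((p * m : ℕ) : ℤ)) ≤ B * M)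
    (h2 : ∀ p ∈ T, ∑ n ∈ Ico (p * M) (p * (2 * M)), EF F h (n : ℤ) ≤ B * (p * M : ℕ))
    (hJ : ∫ s in (Real.log M)..(Real.log ((2 * M : ℕ) : ℝ)), ‖∑ p ∈ T, w p * ph F (s + Real.log p)‖ ^ 2 ≤ J) :
    ∑ m ∈ Ico M (2 * M), ‖∑ p ∈ T, w p * F (((p * m : ℕ) : ℤ))‖ ^ 2 ≤ (2 * M) * (2 * J + 8 * μ ^ 2 * B) := by
  have hM0 : (0 : ℝ) < M := by exact_mod_cast hM
  have hμ0 : 0 ≤ μ := by rw [← hμ]; exact sum_nonneg fun p _ => by positivity
  set G : ℤ → ℝ := fun m => ‖∑ p ∈ T, w p * F ((p : ℤ) * m)‖ ^ 2 with hG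
  have hsum : ∀ m : ℤ, ‖∑ p ∈ T, w p * F ((p : ℤ) * m)‖ ≤ μ := by
    intro m
    refine (norm_sum_le _ _).trans ?_
    rw [← hμ]
    apply sum_le_sum
    intro p hp
    rw [norm_mul]
    calc ‖w p‖ * ‖F ((p : ℤ) * m)‖ ≤ 1 / p * 1 := mul_le_mul (hw p hp) (hF _) (norm_nonneg _) (by positivity)
      _ = _ := mul_one _
  have hGb : ∀ m, ‖G m‖ ≤ μ ^ 2 := by
    intro m
    simp only [hG]
    rw [Real.norm_eq_abs, abs_of_nonneg (by positivity)]
    exact pow_le_pow_left₀ (norm_nonneg _) (hsum m) 2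
  have hG0 : ∀ m, 0 ≤ G m := fun m => by simp only [hG]; positivity
  have hlow := ph_lower hGb hG0 hM (show M ≤ 2 * M by omega)
  have e0 : ∑ m ∈ Ico M (2 * M), ‖∑ p ∈ T, w p * F (((p * m : ℕ) : ℤ))‖ ^ 2 = ∑ m ∈ Ico M (2 * M), G m := by
    apply sum_congr rfl
    intro m _
    simp only [hG]
    push_cast
    rfl
  rw [e0]
  refine hlow.trans ?_
  push_cast
  apply mul_le_mul_of_nonneg_left _ (by positivity)
  have hlog : Real.log M ≤ Real.log (2 * (M : ℝ)) := Real.log_le_log hM0 (by linarith)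
  push_cast at hJ
  -- the pointwise bound
  set e : ℕ → ℝ → ℝ := fun p s => EF F h ((p : ℤ) * ⌊Real.exp s⌋) + EF F h ⌊Real.exp (s + Real.log p)⌋ with he
  have hpt : ∀ s ∈ Set.Icc (Real.log M) (Real.log (2 * (M : ℝ))), ph G s
      ≤ 2 * ‖∑ p ∈ T, w p * ph F (s + Real.log p)‖ ^ 2 + 4 * μ * ∑ p ∈ T, 1 / (p : ℝ) * e p s := by
    intro s _
    have a1 : ‖∑ p ∈ T, w p * F ((p : ℤ) * ⌊Real.exp s⌋) - ∑ p ∈ T, w p * ph F (s + Real.log p)‖
        ≤ ∑ p ∈ T, 1 / (p : ℝ) * ‖F ((p : ℤ) * ⌊Real.exp s⌋) - ph F (s + Real.log p)‖ := by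
      rw [← sum_sub_distrib]
      refine (norm_sum_le _ _).trans (sum_le_sum fun p hp => ?_)
      rw [← mul_sub, norm_mul]
      exact mul_le_mul_of_nonneg_right (hw p hp) (norm_nonneg _)
    have a2 : ∑ p ∈ T, 1 / (p : ℝ) * ‖F ((p : ℤ) * ⌊Real.exp s⌋) - ph F (s + Real.log p)‖
        ≤ ∑ p ∈ T, 1 / (p : ℝ) * e p s := by
      apply sum_le_sum
      intro p hp
      apply mul_le_mul_of_nonneg_left _ (by positivity)
      simp only [he]
      unfold ph
      apply EF_pair hh
      obtain ⟨p1, ph'⟩ := hT p hp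
      have hp0 : (0 : ℝ) < p := by exact_mod_cast p1
      have e1 : Real.exp (s + Real.log p) = p * Real.exp s := by
        rw [Real.exp_add, Real.exp_log hp0]; ring
      rw [e1]
      have b1 : (p : ℤ) * ⌊Real.exp s⌋ ≤ ⌊(p : ℝ) * Real.exp s⌋ := by
        apply Int.le_floor.2
        push_cast
        exact mul_le_mul_of_nonneg_left (Int.floor_le _) hp0.le
      have b2 : ⌊(p : ℝ) * Real.exp s⌋ ≤ (p : ℤ) * ⌊Real.exp s⌋ + p := by
        have c1 : ((⌊(p : ℝ) * Real.exp s⌋ : ℤ) : ℝ) ≤ (((p : ℤ) * ⌊Real.exp s⌋ + p : ℤ) : ℝ) := by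
          refine (Int.floor_le _).trans ?_
          push_cast
          have := (Int.lt_floor_add_one (Real.exp s)).le
          nlinarith
        exact_mod_cast c1
      rw [abs_le]
      constructor <;> omega
    have a3 : ∑ p ∈ T, 1 / (p : ℝ) * ‖F ((p : ℤ) * ⌊Real.exp s⌋) - ph F (s + Real.log p)‖ ≤ 2 * μ := by
      rw [← hμ, mul_sum]
      apply sum_le_sum
      intro p _
      rw [mul_comm 2 _]
      apply mul_le_mul_of_nonneg_left _ (by positivity)
      refine (norm_sub_le _ _).trans ?_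
      have b1 := hF ((p : ℤ) * ⌊Real.exp s⌋)
      have b2 : ‖ph F (s + Real.log p)‖ ≤ 1 := hF _
      linarith
    set x := ‖∑ p ∈ T, w p * ph F (s + Real.log p)‖ with hx
    set y := ‖∑ p ∈ T, w p * F ((p : ℤ) * ⌊Real.exp s⌋) - ∑ p ∈ T, w p * ph F (s + Real.log p)‖ with hy
    have a4 : ph G s = ‖∑ p ∈ T, w p * F ((p : ℤ) * ⌊Real.exp s⌋)‖ ^ 2 := rfl
    have a5 : ‖∑ p ∈ T, w p * F ((p : ℤ) * ⌊Real.exp s⌋)‖ ≤ x + y := by
      have := norm_add_le (∑ p ∈ T, w p * ph F (s + Real.log p))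
        (∑ p ∈ T, w p * F ((p : ℤ) * ⌊Real.exp s⌋) - ∑ p ∈ T, w p * ph F (s + Real.log p))
      rw [add_sub_cancel] at this
      exact this
    rw [a4]
    have hx0 : 0 ≤ x := norm_nonneg _
    have hy0 : 0 ≤ y := norm_nonneg _
    have a6 := pow_le_pow_left₀ (norm_nonneg _) a5 2
    have a7 : y * y ≤ 2 * μ * ∑ p ∈ T, 1 / (p : ℝ) * e p s := by
      have b1 : y ≤ 2 * μ := a1.trans a3
      have b2 : y ≤ ∑ p ∈ T, 1 / (p : ℝ) * e p s := a1.trans a2
      exact mul_le_mul b1 b2 hy0 (by positivity)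
    nlinarith [sq_nonneg (x - y)]
  -- integrability
  have hFm := ph_meas F
  have hadd : ∀ x : ℝ, Measurable fun s : ℝ => s + x := fun x => measurable_id.add_const x
  have hi1 : IntervalIntegrable (fun s => ‖∑ p ∈ T, w p * ph F (s + Real.log p)‖ ^ 2) volume (Real.log M)
      (Real.log (2 * (M : ℝ))) := by
    refine ii_bdd (C := μ ^ 2) ?_ ?_ _ _
    · apply Measurable.pow_const
      apply Measurable.norm
      apply Finset.measurable_sum
      intro p _
      exact measurable_const.mul (hFm.comp (hadd _))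
    · intro s
      rw [Real.norm_eq_abs, abs_of_nonneg (by positivity)]
      apply pow_le_pow_left₀ (norm_nonneg _)
      refine (norm_sum_le _ _).trans ?_
      rw [← hμ]
      apply sum_le_sum
      intro p hp
      rw [norm_mul]
      calc ‖w p‖ * ‖ph F (s + Real.log p)‖ ≤ 1 / p * 1 := mul_le_mul (hw p hp) (hF _) (norm_nonneg _) (by positivity)
        _ = _ := mul_one _
  have hea : ∀ (p : ℕ) (a b : ℝ), IntervalIntegrable (fun s => EF F h ((p : ℤ) * ⌊Real.exp s⌋)) volume a b := by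
    intro p a b
    exact ii_bdd (ph_meas fun m : ℤ => EF F h ((p : ℤ) * m)) (fun s => EF_le hF hh _) a b
  have heb : ∀ (x : ℝ) (a b : ℝ), IntervalIntegrable (fun s => EF F h ⌊Real.exp (s + x)⌋) volume a b := by
    intro x a b
    exact ii_bdd ((ph_meas fun m : ℤ => EF F h m).comp (hadd x)) (fun s => EF_le hF hh _) a b
  have hi2 : ∀ p ∈ T, IntervalIntegrable (fun s => 1 / (p : ℝ) * e p s) volume (Real.log M) (Real.log (2 * (M : ℝ))) :=
    fun p _ => ((hea p _ _).add (heb _ _ _)).const_mul _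
  have hi3 : IntervalIntegrable (fun s => ∑ p ∈ T, 1 / (p : ℝ) * e p s) volume (Real.log M) (Real.log (2 * (M : ℝ))) := by
    refine (IntervalIntegrable.sum T hi2).congr ?_
    intro s _
    simp
  have hint : ∫ s in (Real.log M)..(Real.log (2 * (M : ℝ))), ph G s
      ≤ ∫ s in (Real.log M)..(Real.log (2 * (M : ℝ))), (2 * ‖∑ p ∈ T, w p * ph F (s + Real.log p)‖ ^ 2
        + 4 * μ * ∑ p ∈ T, 1 / (p : ℝ) * e p s) := by
    apply intervalIntegral.integral_mono_on hlog
    · exact ii_bdd (ph_meas G) (fun s => hGb _) _ _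
    · exact (hi1.const_mul 2).add (hi3.const_mul _)
    · exact hpt
  refine hint.trans ?_
  rw [intervalIntegral.integral_add (hi1.const_mul 2) (hi3.const_mul _), intervalIntegral.integral_const_mul,
    intervalIntegral.integral_const_mul, intervalIntegral.integral_finsetSum hi2]
  have hlast : ∑ p ∈ T, ∫ s in (Real.log M)..(Real.log (2 * (M : ℝ))), 1 / (p : ℝ) * e p s ≤ μ * (2 * B) := by
    rw [← hμ, sum_mul]
    apply sum_le_sum
    intro p hp
    obtain ⟨p1, -⟩ := hT p hp
    have hp0 : (0 : ℝ) < p := by exact_mod_cast p1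
    rw [intervalIntegral.integral_const_mul]
    apply mul_le_mul_of_nonneg_left _ (by positivity)
    simp only [he]
    rw [intervalIntegral.integral_add (hea p _ _) (heb _ _ _)]
    have b1 : ∫ s in (Real.log M)..(Real.log (2 * (M : ℝ))), EF F h ((p : ℤ) * ⌊Real.exp s⌋) ≤ B := by
      have := ph_upper (G := fun m : ℤ => EF F h ((p : ℤ) * m)) (fun m => EF_le hF hh _) (fun m => EF_nonneg _ _ _) hM
        (show M ≤ 2 * M by omega)
      push_cast at this
      refine this.trans ?_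
      rw [div_le_iff₀ hM0]
      refine le_trans (le_of_eq ?_) (h1 p hp)
      apply sum_congr rfl
      intro m _
      push_cast
      rfl
    have b2 : ∫ s in (Real.log M)..(Real.log (2 * (M : ℝ))), EF F h ⌊Real.exp (s + Real.log p)⌋ ≤ B := by
      rw [intervalIntegral.integral_comp_add_right (fun s => EF F h ⌊Real.exp s⌋) (Real.log p)]
      have e1 : Real.log M + Real.log p = Real.log ((p * M : ℕ) : ℝ) := by
        push_cast
        rw [Real.log_mul hp0.ne' hM0.ne']; ring
      have e2 : Real.log (2 * (M : ℝ)) + Real.log p = Real.log ((p * (2 * M) : ℕ) : ℝ) := by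
        push_cast
        rw [Real.log_mul hp0.ne' (by positivity)]; ring
      rw [e1, e2]
      have hpM : 1 ≤ p * M := Nat.one_le_iff_ne_zero.2 (Nat.mul_ne_zero (by omega) (by omega))
      have := ph_upper (G := fun m : ℤ => EF F h m) (fun m => EF_le hF hh _) (fun m => EF_nonneg _ _ _) hpM
        (show p * M ≤ p * (2 * M) from Nat.mul_le_mul_left _ (by omega))
      refine le_trans this ?_
      have hpM0 : (0 : ℝ) < ((p * M : ℕ) : ℝ) := by exact_mod_cast hpM
      rw [div_le_iff₀ hpM0]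
      exact h2 p hp
    linarith
  have h9 := mul_le_mul_of_nonneg_left hlast (show 0 ≤ 4 * μ by positivity)
  nlinarith

/-- the modulus of continuity in the mean -/
theorem omega {F : ℤ → ℂ} (hF : ∀ n, ‖F n‖ ≤ 1) {h : ℕ} (hh : 1 ≤ h) {a b ρ : ℝ} (hab : a ≤ b)
    {a' b' : ℕ} (ha' : 1 ≤ a') (hab' : a' ≤ b') (h1 : Real.log a' ≤ a - ρ) (h2 : b + ρ ≤ Real.log b') {B : ℝ}
    (hB : ∑ n ∈ Ico a' b', EF F h (n : ℤ) ≤ B * a') {u : ℝ} (hu : |u| ≤ ρ)
    (hfl : ∀ s ∈ Set.Icc a b, |⌊Real.exp s⌋ - ⌊Real.exp (s - u)⌋| ≤ (h : ℤ)) :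
    ∫ s in a..b, ‖psi (ph F) a b s - psi (ph F) a b (s - u)‖ ≤ 2 * ρ + 2 * B := by
  have hρ0 : 0 ≤ ρ := (abs_nonneg u).trans hu
  have ha'0 : (0 : ℝ) < a' := by exact_mod_cast ha'
  have hFm := ph_meas F
  have hsub : ∀ x : ℝ, Measurable fun s : ℝ => s - x := fun x => measurable_id.sub_const x
  set N : Set ℝ := Set.Icc a (a + |u|) ∪ Set.Icc (b - |u|) b with hN
  have hNm : MeasurableSet N := measurableSet_Icc.union measurableSet_Icc
  have hea : ∀ (a b : ℝ), IntervalIntegrable (fun s => EF F h ⌊Real.exp s⌋) volume a b := by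
    intro a b
    exact ii_bdd (ph_meas fun m : ℤ => EF F h m) (fun s => EF_le hF hh _) a b
  have heb : ∀ (x : ℝ) (a b : ℝ), IntervalIntegrable (fun s => EF F h ⌊Real.exp (s - x)⌋) volume a b := by
    intro x a b
    exact ii_bdd ((ph_meas fun m : ℤ => EF F h m).comp (hsub x)) (fun s => EF_le hF hh _) a b
  have hiN : IntervalIntegrable (N.indicator (fun _ => (1 : ℝ))) volume a b := by
    apply ii_bdd (C := 1) (measurable_const.indicator hNm)
    intro s
    by_cases hs : s ∈ N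
    · rw [Set.indicator_of_mem hs]; simp
    · rw [Set.indicator_of_notMem hs]; simp
  have hpt : ∀ s ∈ Set.Icc a b, ‖psi (ph F) a b s - psi (ph F) a b (s - u)‖
      ≤ (EF F h ⌊Real.exp s⌋ + EF F h ⌊Real.exp (s - u)⌋) + N.indicator (fun _ => (1 : ℝ)) s := by
    intro s hs
    have hE1 := EF_nonneg F h ⌊Real.exp s⌋
    have hE2 := EF_nonneg F h ⌊Real.exp (s - u)⌋
    have hI0 : 0 ≤ N.indicator (fun _ => (1 : ℝ)) s := Set.indicator_nonneg (fun _ _ => zero_le_one) s
    unfold psi
    by_cases c1 : s ∈ Set.Ioo a b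
    · by_cases c2 : s - u ∈ Set.Ioo a b
      · rw [Set.indicator_of_mem c1, Set.indicator_of_mem c2]
        have := EF_pair (F := F) hh (hfl s hs)
        unfold ph
        linarith
      · rw [Set.indicator_of_mem c1, Set.indicator_of_notMem c2, sub_zero]
        have hmem : s ∈ N := by
          rw [hN]
          simp only [Set.mem_Ioo, not_and_or, not_lt] at c2
          rcases c2 with c2 | c2
          · left
            exact ⟨hs.1, by have := le_abs_self u; linarith⟩
          · right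
            exact ⟨by have := neg_abs_le u; linarith, hs.2⟩
        rw [Set.indicator_of_mem hmem]
        have : ‖ph F s‖ ≤ 1 := hF _
        linarith
    · rw [Set.indicator_of_notMem c1, zero_sub, norm_neg]
      by_cases c2 : s - u ∈ Set.Ioo a b
      · rw [Set.indicator_of_mem c2]
        have hmem : s ∈ N := by
          rw [hN]
          simp only [Set.mem_Ioo, not_and_or, not_lt] at c1
          rcases c1 with c1 | c1
          · left
            exact ⟨hs.1, by have := abs_nonneg u; linarith⟩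
          · right
            exact ⟨by have := abs_nonneg u; linarith, hs.2⟩
        rw [Set.indicator_of_mem hmem]
        have : ‖ph F (s - u)‖ ≤ 1 := hF _
        linarith
      · rw [Set.indicator_of_notMem c2, norm_zero]
        linarith
  have hpm := psi_meas hFm a b
  have hint : ∫ s in a..b, ‖psi (ph F) a b s - psi (ph F) a b (s - u)‖
      ≤ ∫ s in a..b, ((EF F h ⌊Real.exp s⌋ + EF F h ⌊Real.exp (s - u)⌋) + N.indicator (fun _ => (1 : ℝ)) s) := by
    apply intervalIntegral.integral_mono_on hab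
    · apply ii_bdd (C := 2) ((hpm.sub (hpm.comp (hsub u))).norm)
      intro s
      rw [norm_norm]
      refine (norm_sub_le _ _).trans ?_
      have b1 := psi_le (φ := ph F) (fun s => hF _) a b s
      have b2 : ‖(psi (ph F) a b ∘ fun s => s - u) s‖ ≤ 1 := psi_le (φ := ph F) (fun s => hF _) a b (s - u)
      linarith
    · exact ((hea a b).add (heb u a b)).add hiN
    · exact hpt
  refine hint.trans ?_
  rw [intervalIntegral.integral_add ((hea a b).add (heb u a b)) hiN, intervalIntegral.integral_add (hea a b) (heb u a b)]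
  -- the window of the oscillation
  have hpos : ∀ s : ℝ, 0 ≤ EF F h ⌊Real.exp s⌋ := fun s => EF_nonneg _ _ _
  have hwin : ∫ s in (Real.log a')..(Real.log b'), EF F h ⌊Real.exp s⌋ ≤ B := by
    have := ph_upper (G := fun m : ℤ => EF F h m) (fun m => EF_le hF hh _) (fun m => EF_nonneg _ _ _) ha' hab'
    refine le_trans this ?_
    rw [div_le_iff₀ ha'0]
    exact hB
  have hw1 : ∫ s in a..b, EF F h ⌊Real.exp s⌋ ≤ B := by
    refine le_trans ?_ hwin
    apply intervalIntegral.integral_mono_interval (by linarith) hab (by linarith)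
    · exact ae_of_all _ fun s => hpos s
    · exact hea _ _
  have hw2 : ∫ s in a..b, EF F h ⌊Real.exp (s - u)⌋ ≤ B := by
    rw [intervalIntegral.integral_comp_sub_right (fun s => EF F h ⌊Real.exp s⌋) u]
    refine le_trans ?_ hwin
    apply intervalIntegral.integral_mono_interval
    · have := le_abs_self u; linarith
    · linarith
    · have := neg_abs_le u; linarith
    · exact ae_of_all _ fun s => hpos s
    · exact hea _ _
  have hw3 : ∫ s in a..b, N.indicator (fun _ => (1 : ℝ)) s ≤ 2 * ρ := by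
    rw [intervalIntegral.integral_of_le hab, integral_indicator hNm]
    have e1 : ∫ x in N, (1 : ℝ) ∂(volume.restrict (Set.Ioc a b)) = (volume.restrict (Set.Ioc a b)).real N := by
      simp [Measure.real]
    rw [e1]
    have e2 : (volume.restrict (Set.Ioc a b)).real N ≤ (volume.restrict (Set.Ioc a b)).real (Set.Icc a (a + |u|))
        + (volume.restrict (Set.Ioc a b)).real (Set.Icc (b - |u|) b) := measureReal_union_le _ _
    have e3 : ∀ x y : ℝ, x ≤ y → (volume.restrict (Set.Ioc a b)).real (Set.Icc x y) ≤ y - x := by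
      intro x y hxy
      rw [measureReal_restrict_apply measurableSet_Icc]
      refine (measureReal_mono Set.inter_subset_left (by simp)).trans ?_
      rw [Real.volume_real_Icc_of_le hxy]
    have e4 := e3 a (a + |u|) (by have := abs_nonneg u; linarith)
    have e5 := e3 (b - |u|) b (by have := abs_nonneg u; linarith)
    linarith
  linarith

end Pool.Agent.W41.MU
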