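import Pool.Agent.W41.MU11
import Pool.Agent.H376R2.MR.Phas

/-! Fourier coefficients on the logarithmic scale; oscillation of twisted functions. -/

set_option autoImplicit false

namespace Pool.Agent.W41.MU

open Finset MeasureTheory Pool.Agent.H376R2.MR Pool.Agent.W41.FU

theorem ch_lip (k : ℤ) (x y : ℝ) : ‖ch k x - ch k y‖ ≤ |(k : ℝ)| * |x - y| := by
  unfold ch
  have h := exp_sub_le (-(k * x)) (-(k * y))
  have e1 : ((-(k * x) : ℝ) : ℂ) = -((k * x : ℝ) : ℂ) := by push_cast; ring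
  have e2 : ((-(k * y) : ℝ) : ℂ) = -((k * y : ℝ) : ℂ) := by push_cast; ring
  rw [e1, e2] at h
  refine h.trans (le_of_eq ?_)
  rw [← abs_mul, ← abs_neg]
  congr 1
  ring

/-- one cell, complex -/
theorem phc_cell {F : ℤ → ℂ} (hF : ∀ n, ‖F n‖ ≤ 1) {n : ℕ} (hn : 1 ≤ n) (k : ℤ) :
    ‖(∫ s in (Real.log n)..(Real.log ((n + 1 : ℕ) : ℝ)), ph F s * ch k s)
      - F n * ch k (Real.log n) * ((Real.log ((n + 1 : ℕ) : ℝ) - Real.log n : ℝ) : ℂ)‖ ≤ |(k : ℝ)| * (1 / n ^ 2) := by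
  have hn0 : (0 : ℝ) < n := by exact_mod_cast hn
  have hlt : Real.log n < Real.log ((n + 1 : ℕ) : ℝ) := Real.log_lt_log hn0 (by push_cast; linarith)
  set lam := Real.log ((n + 1 : ℕ) : ℝ) - Real.log n with hlam
  have hlam0 : 0 < lam := by rw [hlam]; linarith
  have hlam1 : lam ≤ 1 / n := log_step_le hn
  have h1 : ∫ s in (Real.log n)..(Real.log ((n + 1 : ℕ) : ℝ)), ph F s * ch k s
      = ∫ s in (Real.log n)..(Real.log ((n + 1 : ℕ) : ℝ)), F n * ch k s := by
    rw [intervalIntegral.integral_of_le hlt.le, intervalIntegral.integral_of_le hlt.le,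
      integral_Ioc_eq_integral_Ioo, integral_Ioc_eq_integral_Ioo]
    apply setIntegral_congr_fun measurableSet_Ioo
    intro s hs
    simp only
    unfold ph
    congr 2
    rw [Int.floor_eq_iff]
    constructor
    · rw [Int.cast_natCast, ← Real.exp_log hn0]
      exact Real.exp_le_exp.2 hs.1.le
    · have h2 : (0 : ℝ) < ((n + 1 : ℕ) : ℝ) := by positivity
      have h3 : ((n : ℤ) : ℝ) + 1 = Real.exp (Real.log ((n + 1 : ℕ) : ℝ)) := by
        rw [Real.exp_log h2]; push_cast; ring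
      rw [h3]
      exact Real.exp_lt_exp.2 hs.2
  have h2 : F n * ch k (Real.log n) * ((lam : ℝ) : ℂ)
      = ∫ s in (Real.log n)..(Real.log ((n + 1 : ℕ) : ℝ)), F n * ch k (Real.log n) := by
    rw [intervalIntegral.integral_const]
    rw [← hlam, Complex.real_smul]
    ring
  rw [h1, h2, ← intervalIntegral.integral_sub]
  · have h3 : ‖∫ s in (Real.log n)..(Real.log ((n + 1 : ℕ) : ℝ)), (F n * ch k s - F n * ch k (Real.log n))‖
        ≤ (|(k : ℝ)| * lam) * |Real.log ((n + 1 : ℕ) : ℝ) - Real.log n| := by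
      apply intervalIntegral.norm_integral_le_of_norm_le_const
      intro s hs
      rw [Set.uIoc_of_le hlt.le] at hs
      rw [← mul_sub, norm_mul]
      have a1 := ch_lip k s (Real.log n)
      have a2 : |s - Real.log n| ≤ lam := by
        rw [abs_of_nonneg (by linarith [hs.1])]
        rw [hlam]; linarith [hs.2]
      calc ‖F n‖ * ‖ch k s - ch k (Real.log n)‖ ≤ 1 * (|(k : ℝ)| * |s - Real.log n|) :=
            mul_le_mul (hF _) a1 (norm_nonneg _) (by norm_num)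
        _ ≤ |(k : ℝ)| * lam := by
            rw [one_mul]
            exact mul_le_mul_of_nonneg_left a2 (abs_nonneg _)
    refine h3.trans ?_
    rw [← hlam, abs_of_pos hlam0, mul_assoc]
    apply mul_le_mul_of_nonneg_left _ (abs_nonneg _)
    calc lam * lam ≤ (1 / n) * (1 / n) := mul_le_mul hlam1 hlam1 hlam0.le (by positivity)
      _ = 1 / (n : ℝ) ^ 2 := by field_simp
  · exact (continuous_const.mul (ls_ch_cont k)).intervalIntegrable _ _
  · exact continuous_const.intervalIntegrable _ _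

theorem phc_int {F : ℤ → ℂ} (hF : ∀ n, ‖F n‖ ≤ 1) (k : ℤ) (a b : ℝ) :
    IntervalIntegrable (fun s => ph F s * ch k s) volume a b := by
  apply iic_bdd (C := 1) ((ph_meas F).mul (ls_ch_cont k).measurable)
  intro s
  rw [Pi.mul_apply, norm_mul, ls_norm_ch, mul_one]
  exact hF _

theorem phc_sum {F : ℤ → ℂ} (hF : ∀ n, ‖F n‖ ≤ 1) (k : ℤ) {a : ℕ} (ha : 1 ≤ a) : ∀ b : ℕ, a ≤ b →
    ‖(∫ s in (Real.log a)..(Real.log b), ph F s * ch k s) - ∑ n ∈ Ico a b, F n * ch k (Real.log n)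
      * ((Real.log ((n + 1 : ℕ) : ℝ) - Real.log n : ℝ) : ℂ)‖ ≤ |(k : ℝ)| * (((b : ℝ) - a) / a ^ 2) := by
  intro b hb
  induction b, hb using Nat.le_induction with
  | base => simp
  | succ b hb ih =>
    rw [sum_Ico_succ_top hb]
    rw [← intervalIntegral.integral_add_adjacent_intervals (phc_int hF k (Real.log a) (Real.log b))
      (phc_int hF k (Real.log b) (Real.log ((b + 1 : ℕ) : ℝ)))]
    have h1 := phc_cell hF (ha.trans hb) k
    have ha0 : (0 : ℝ) < a := by exact_mod_cast ha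
    have h2 : 1 / (b : ℝ) ^ 2 ≤ 1 / (a : ℝ) ^ 2 := by
      apply one_div_le_one_div_of_le (by positivity)
      exact pow_le_pow_left₀ ha0.le (by exact_mod_cast hb) 2
    have h3 := mul_le_mul_of_nonneg_left h2 (abs_nonneg (k : ℝ))
    have e : (∫ s in (Real.log a)..(Real.log b), ph F s * ch k s)
        + (∫ s in (Real.log b)..(Real.log ((b + 1 : ℕ) : ℝ)), ph F s * ch k s)
        - (∑ n ∈ Ico a b, F n * ch k (Real.log n) * ((Real.log ((n + 1 : ℕ) : ℝ) - Real.log n : ℝ) : ℂ)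
          + F b * ch k (Real.log b) * ((Real.log ((b + 1 : ℕ) : ℝ) - Real.log b : ℝ) : ℂ))
        = ((∫ s in (Real.log a)..(Real.log b), ph F s * ch k s)
          - ∑ n ∈ Ico a b, F n * ch k (Real.log n) * ((Real.log ((n + 1 : ℕ) : ℝ) - Real.log n : ℝ) : ℂ))
          + ((∫ s in (Real.log b)..(Real.log ((b + 1 : ℕ) : ℝ)), ph F s * ch k s)
          - F b * ch k (Real.log b) * ((Real.log ((b + 1 : ℕ) : ℝ) - Real.log b : ℝ) : ℂ)) := by ring
    rw [e]
    refine (norm_add_le _ _).trans ?_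
    have e2 : |(k : ℝ)| * ((((b + 1 : ℕ) : ℝ) - a) / a ^ 2) = |(k : ℝ)| * (((b : ℝ) - a) / a ^ 2)
        + |(k : ℝ)| * (1 / (a : ℝ) ^ 2) := by push_cast; ring
    rw [e2]
    linarith

/-- the Fourier coefficients in terms of the sums over integers -/
theorem hat_bound {F : ℤ → ℂ} (hF : ∀ n, ‖F n‖ ≤ 1) {a b e1 C : ℝ} {A B : ℕ} (hA : 1 ≤ A) (hAB : A ≤ B)
    (ha : a ≤ Real.log A) (ha2 : Real.log A ≤ a + e1) (hb : Real.log B ≤ b) (hb2 : b ≤ Real.log B + e1) (k : ℤ)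
    (hC : ∀ N : ℕ, A ≤ N → N ≤ B → ‖∑ n ∈ Ico A N, F n * ch (-k) (Real.log n)‖ ≤ C) :
    ‖hat (ph F) a b k‖ ≤ 2 * e1 + C / A + |(k : ℝ)| * (((B : ℝ) - A) / A ^ 2) := by
  have hA0 : (0 : ℝ) < A := by exact_mod_cast hA
  have hlog : Real.log A ≤ Real.log B := Real.log_le_log hA0 (by exact_mod_cast hAB)
  have hab : a ≤ b := ha.trans (hlog.trans hb)
  have h0 : hat (ph F) a b k = ∫ s in a..b, ph F s * ch (-k) s := by
    unfold hat
    rw [intervalIntegral.integral_of_le hab, intervalIntegral.integral_of_le hab,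
      integral_Ioc_eq_integral_Ioo, integral_Ioc_eq_integral_Ioo]
    apply setIntegral_congr_fun measurableSet_Ioo
    intro s hs
    simp only
    unfold psi
    rw [Set.indicator_of_mem hs]
  have hn : ∀ s, ‖ph F s * ch (-k) s‖ ≤ 1 := by
    intro s
    rw [norm_mul, ls_norm_ch, mul_one]
    exact hF _
  rw [h0, ← intervalIntegral.integral_add_adjacent_intervals (phc_int hF (-k) a (Real.log A))
    (phc_int hF (-k) (Real.log A) b), ← intervalIntegral.integral_add_adjacent_intervals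
    (phc_int hF (-k) (Real.log A) (Real.log B)) (phc_int hF (-k) (Real.log B) b)]
  have h1 : ‖∫ s in a..(Real.log A), ph F s * ch (-k) s‖ ≤ e1 := by
    have := intervalIntegral.norm_integral_le_of_norm_le_const (a := a) (b := Real.log A) (C := 1)
      (f := fun s => ph F s * ch (-k) s) (fun s _ => hn s)
    rw [one_mul, abs_of_nonneg (by linarith)] at this
    linarith
  have h3 : ‖∫ s in (Real.log B)..b, ph F s * ch (-k) s‖ ≤ e1 := by
    have := intervalIntegral.norm_integral_le_of_norm_le_const (a := Real.log B) (b := b) (C := 1)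
      (f := fun s => ph F s * ch (-k) s) (fun s _ => hn s)
    rw [one_mul, abs_of_nonneg (by linarith)] at this
    linarith
  have h2 := phc_sum hF (-k) hA B hAB
  have hk : |((-k : ℤ) : ℝ)| = |(k : ℝ)| := by push_cast; rw [abs_neg]
  rw [hk] at h2
  -- Abel summation
  have h4 : ‖∑ n ∈ Ico A B, F n * ch (-k) (Real.log n) * ((Real.log ((n + 1 : ℕ) : ℝ) - Real.log n : ℝ) : ℂ)‖ ≤ C / A := by
    rw [sum_Ico_eq_sum_range]
    have h5 := phas_abel (fun n => Real.log ((A + n + 1 : ℕ) : ℝ) - Real.log ((A + n : ℕ) : ℝ))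
      (fun n => F ((A + n : ℕ) : ℤ) * ch (-k) (Real.log ((A + n : ℕ) : ℝ))) C (B - A) ?_ ?_ ?_
    · have e : ∑ n ∈ range (B - A), F ((A + n : ℕ) : ℤ) * ch (-k) (Real.log ((A + n : ℕ) : ℝ))
          * ((Real.log ((A + n + 1 : ℕ) : ℝ) - Real.log ((A + n : ℕ) : ℝ) : ℝ) : ℂ)
          = ∑ n ∈ range (B - A), ((Real.log ((A + n + 1 : ℕ) : ℝ) - Real.log ((A + n : ℕ) : ℝ) : ℝ) : ℂ)
            * (F ((A + n : ℕ) : ℤ) * ch (-k) (Real.log ((A + n : ℕ) : ℝ))) := by
        apply sum_congr rfl; intro n _; ring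
      rw [e]
      refine h5.trans ?_
      have h6 := log_step_le hA
      have hC0 : 0 ≤ C := (norm_nonneg _).trans (hC A le_rfl hAB)
      simp only [add_zero]
      calc (Real.log ((A + 1 : ℕ) : ℝ) - Real.log (A : ℝ)) * C ≤ 1 / A * C := mul_le_mul_of_nonneg_right h6 hC0
        _ = _ := by ring
    · intro n
      have : Real.log ((A + n : ℕ) : ℝ) ≤ Real.log ((A + n + 1 : ℕ) : ℝ) := by
        apply Real.log_le_log
        · exact_mod_cast (by omega : 0 < A + n)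
        · exact_mod_cast (by omega : A + n ≤ A + n + 1)
      linarith
    · intro n
      have hx : (0 : ℝ) < ((A + n : ℕ) : ℝ) := by exact_mod_cast (by omega : 0 < A + n)
      have e1 : ((A + n + 1 : ℕ) : ℝ) = ((A + n : ℕ) : ℝ) + 1 := by push_cast; ring
      have e2 : ((A + (n + 1) + 1 : ℕ) : ℝ) = ((A + n : ℕ) : ℝ) + 2 := by push_cast; ring
      have e3 : ((A + (n + 1) : ℕ) : ℝ) = ((A + n : ℕ) : ℝ) + 1 := by push_cast; ring
      rw [e1, e2, e3]
      generalize ((A + n : ℕ) : ℝ) = x at hx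
      rw [← Real.log_div (by positivity) (by positivity), ← Real.log_div (by positivity) (by positivity)]
      apply Real.log_le_log (by positivity)
      rw [div_le_div_iff₀ (by positivity) (by positivity)]
      nlinarith
    · intro K hK
      have := hC (A + K) (by omega) (by omega)
      rw [sum_Ico_eq_sum_range, Nat.add_sub_cancel_left] at this
      exact this
  have h7 : ‖∫ s in (Real.log A)..(Real.log B), ph F s * ch (-k) s‖ ≤ C / A + |(k : ℝ)| * (((B : ℝ) - A) / A ^ 2) := by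
    have e : ∫ s in (Real.log A)..(Real.log B), ph F s * ch (-k) s
        = (∑ n ∈ Ico A B, F n * ch (-k) (Real.log n) * ((Real.log ((n + 1 : ℕ) : ℝ) - Real.log n : ℝ) : ℂ))
        + ((∫ s in (Real.log A)..(Real.log B), ph F s * ch (-k) s)
          - ∑ n ∈ Ico A B, F n * ch (-k) (Real.log n) * ((Real.log ((n + 1 : ℕ) : ℝ) - Real.log n : ℝ) : ℂ)) := by ring
    rw [e]
    exact (norm_add_le _ _).trans (add_le_add h4 h2)
  refine (norm_add_le _ _).trans ?_
  have h8 := norm_add_le (∫ s in (Real.log A)..(Real.log B), ph F s * ch (-k) s) (∫ s in (Real.log B)..b, ph F s * ch (-k) s)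
  linarith

/-- the twisted function -/
noncomputable def tw (f : ℤ → ℝ) (γ : ℝ) (n : ℤ) : ℂ := (f n : ℂ) * Complex.exp (((γ * n : ℝ) : ℂ) * Complex.I)

theorem tw_norm {f : ℤ → ℝ} (hf : ∀ n, |f n| ≤ 1) (γ : ℝ) (n : ℤ) : ‖tw f γ n‖ ≤ 1 := by
  unfold tw
  rw [norm_mul, Complex.norm_exp_ofReal_mul_I, mul_one, Complex.norm_real, Real.norm_eq_abs]
  exact hf n

theorem tw_diff {f : ℤ → ℝ} (hf : ∀ n, |f n| ≤ 1) (γ : ℝ) (n j : ℤ) :
    ‖tw f γ (n + j) - tw f γ n‖ ≤ |f (n + j) - f n| + |γ| * |(j : ℝ)| := by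
  unfold tw
  have e : (f (n + j) : ℂ) * Complex.exp (((γ * (n + j : ℤ) : ℝ) : ℂ) * Complex.I)
      - (f n : ℂ) * Complex.exp (((γ * n : ℝ) : ℂ) * Complex.I)
      = ((f (n + j) - f n : ℝ) : ℂ) * Complex.exp (((γ * (n + j : ℤ) : ℝ) : ℂ) * Complex.I)
        + (f n : ℂ) * (Complex.exp (((γ * (n + j : ℤ) : ℝ) : ℂ) * Complex.I)
          - Complex.exp (((γ * n : ℝ) : ℂ) * Complex.I)) := by
    push_cast; ring
  rw [e]
  refine (norm_add_le _ _).trans ?_
  rw [norm_mul, norm_mul, Complex.norm_exp_ofReal_mul_I, mul_one, Complex.norm_real, Complex.norm_real,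
    Real.norm_eq_abs, Real.norm_eq_abs]
  have h1 := exp_sub_le (γ * (n + j : ℤ)) (γ * n)
  have h2 : |γ * ((n + j : ℤ) : ℝ) - γ * n| = |γ| * |(j : ℝ)| := by
    rw [← abs_mul]; congr 1; push_cast; ring
  rw [h2] at h1
  have h3 : |f n| * ‖Complex.exp (((γ * (n + j : ℤ) : ℝ) : ℂ) * Complex.I)
          - Complex.exp (((γ * n : ℝ) : ℂ) * Complex.I)‖ ≤ 1 * (|γ| * |(j : ℝ)|) :=
    mul_le_mul (hf n) h1 (norm_nonneg _) (by norm_num)
  linarith

/-- the oscillation of twisted functions along progressions -/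
theorem lcF {d : ℤ} (hd : Odd d) (hdd : d * d = 1) {ε : ℝ} (hε : 0 < ε) (hε1 : ε ≤ 1) :
    ∃ θ : ℝ, 0 < θ ∧ θ ≤ 1 / 2 ∧ ∃ M0 : ℕ, 1 ≤ M0 ∧ ∀ M : ℕ, M0 ≤ M → ∀ f ∈ SameT d, ∀ c : ℤ, c % 2 = 1 →
      ∀ (h : ℕ) (γ : ℝ), 1 ≤ h → (h : ℝ) ≤ (M : ℝ) ^ θ → |γ| * h ≤ ε →
      ∑ m ∈ Icc 1 M, EF (tw f γ) h (c * (m : ℕ)) ≤ 6 * ε * M := by
  obtain ⟨θ, h1, h2, M0, h3, h4⟩ := lc hd hdd hε hε1
  refine ⟨θ, h1, h2, M0, h3, fun M hM f hf c hc h γ hh hhM hγ => ?_⟩
  have key := EF_sum (F := tw f γ) (h := h) hh (T := Icc 1 M) (y := fun m : ℕ => c * (m : ℕ)) (B := 2 * ε * M)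
    (by positivity) (fun j hj => by
      have hj' : |(j : ℝ)| ≤ h := by exact_mod_cast hj
      have a1 := h4 M hM f hf c hc 0 j (hj'.trans hhM)
      have a2 : ∀ m ∈ Icc 1 M, ‖tw f γ (c * (m : ℕ) + j) - tw f γ (c * (m : ℕ))‖
          ≤ |f (0 + c * (m : ℕ) + j) - f (0 + c * (m : ℕ))| + ε := by
        intro m _
        refine (tw_diff hf.1 γ _ j).trans ?_
        rw [zero_add]
        have : |γ| * |(j : ℝ)| ≤ |γ| * h := mul_le_mul_of_nonneg_left hj' (abs_nonneg _)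
        linarith
      refine (sum_le_sum a2).trans ?_
      rw [sum_add_distrib, sum_const, Nat.card_Icc, Nat.add_sub_cancel, nsmul_eq_mul]
      linarith)
  refine key.trans (le_of_eq ?_)
  ring

end Pool.Agent.W41.MU
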