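import Pool.Agent.W41.MU12

/-! The mean square over a cell: major frequencies, part 1. -/

set_option autoImplicit false

namespace Pool.Agent.W41.MU

open Finset MeasureTheory Pool.Agent.H376R2.MR Pool.Agent.W41.FU

theorem cell_lt {H v p : ℕ} (hp : p ∈ cell H v) :
    p.Prime ∧ (v : ℝ) / H ≤ Real.log p ∧ Real.log p < ((v : ℝ) + 1) / H := by
  unfold cell at hp
  rw [mem_filter] at hp
  exact hp.2

theorem exp_02 : Real.exp (1 / 5) ≤ 5 / 4 := by
  have h := Real.exp_bound_div_one_sub_of_interval (x := 1 / 5) (by norm_num) (by norm_num)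
  norm_num at h ⊢
  linarith

theorem exp_045 : Real.exp (9 / 20) ≤ 2 := by
  have h := Real.exp_bound_div_one_sub_of_interval (x := 9 / 20) (by norm_num) (by norm_num)
  norm_num at h ⊢
  linarith

/-- the mean square over a cell, with explicit parameters -/
theorem major_core {F : ℤ → ℂ} (hF : ∀ n, ‖F n‖ ≤ 1) {H v M h K : ℕ} (hH : 10 ≤ H) (hM : 1 ≤ M) (hh : 1 ≤ h)
    (hK : 1 ≤ K) (hph : Real.exp (((v : ℝ) + 1) / H) ≤ h)
    {w : ℕ → ℂ} (hw : ∀ p ∈ cell H v, ‖w p‖ ≤ 1 / p) {B ρ Q : ℝ} (hQ : Q = M * Real.exp ((v : ℝ) / H))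
    (hQ2 : 2 ≤ Q) (hB : 0 ≤ B) (hρ : 0 < ρ) (hρ1 : ρ ≤ 1 / 4) (hρh : 5 * ρ * Q + 1 ≤ h)
    (h1 : ∀ p ∈ cell H v, ∑ m ∈ Ico M (2 * M), EF F h (((p * m : ℕ) : ℤ)) ≤ B * M)
    (h2 : ∀ p ∈ cell H v, ∑ n ∈ Ico (p * M) (p * (2 * M)), EF F h (n : ℤ) ≤ B * (p * M : ℕ))
    (h3 : ∑ n ∈ Ico ⌊Q / 2⌋₊ ⌈4 * Q⌉₊, EF F h (n : ℤ) ≤ B * (⌊Q / 2⌋₊ : ℕ))
    {ε2 ε3 : ℝ} (hε3 : 0 ≤ ε3) {R : ℕ}
    (hLV : ∀ U : Finset ℤ, U ⊆ FK K → (∀ k ∈ U, ε3 * mm H v < ‖∑ p ∈ cell H v, w p * ch k (Real.log p)‖) → U.card ≤ R)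
    (hhat : ∀ k ∈ FK K, ‖hat (ph F) (Real.log M + ((v : ℝ) - 1) / H)
      (Real.log ((2 * M : ℕ) : ℝ) + ((v : ℝ) + 2) / H) k‖ ≤ ε2) :
    ∑ m ∈ Ico M (2 * M), ‖∑ p ∈ cell H v, w p * F (((p * m : ℕ) : ℤ))‖ ^ 2
      ≤ M * mm H v ^ 2 * (32 * ρ + 48 * B + 32 * Real.pi / (K * ρ) + 8 * ε3 ^ 2 + 8 * R * ε2 ^ 2) := by
  set a := Real.log M + ((v : ℝ) - 1) / H with ha
  set b := Real.log ((2 * M : ℕ) : ℝ) + ((v : ℝ) + 2) / H with hb
  have hH0 : (0 : ℝ) < H := by exact_mod_cast (by omega : 0 < H)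
  have hHi : 1 / (H : ℝ) ≤ 1 / 10 := one_div_le_one_div_of_le (by norm_num) (by exact_mod_cast hH)
  have hHi0 : 0 < 1 / (H : ℝ) := by positivity
  have hM0 : (0 : ℝ) < M := by exact_mod_cast hM
  have hl2 : Real.log ((2 * M : ℕ) : ℝ) = Real.log 2 + Real.log M := by
    push_cast
    rw [Real.log_mul (by norm_num) hM0.ne']
  have hlog2 : Real.log 2 ≤ 0.6931471808 := Real.log_two_lt_d9.le
  have hlog2' : 0.6931471803 ≤ Real.log 2 := Real.log_two_gt_d9.le
  have e1 : ((v : ℝ) - 1) / H = (v : ℝ) / H - 1 / H := by ring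
  have e2 : ((v : ℝ) + 2) / H = (v : ℝ) / H + 2 * (1 / H) := by ring
  have e3 : ((v : ℝ) + 1) / H = (v : ℝ) / H + 1 / H := by ring
  have hQ0 : 0 < Q := by linarith
  have hlQ : Real.log Q = Real.log M + (v : ℝ) / H := by
    rw [hQ, Real.log_mul hM0.ne' (Real.exp_pos _).ne', Real.log_exp]
  have hab : a ≤ b := by rw [ha, hb, hl2, e1, e2]; linarith
  have hab1 : b - a ≤ 1 := by rw [ha, hb, hl2, e1, e2]; linarith
  have hmm0 : 0 ≤ mm H v := sum_nonneg fun p _ => by positivity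
  have haQ : a = Real.log Q - 1 / H := by rw [ha, hlQ, e1]; ring
  have hbQ : b = Real.log 2 + Real.log Q + 2 * (1 / H) := by rw [hb, hlQ, e2, hl2]; ring
  -- the modulus of continuity
  have hΩ : ∀ u, |u| ≤ ρ → ∫ s in a..b, ‖psi (ph F) a b s - psi (ph F) a b (s - u)‖ ≤ 2 * ρ + 2 * B := by
    intro u hu
    have hQ1 : 1 ≤ ⌊Q / 2⌋₊ := Nat.le_floor (by push_cast; linarith)
    apply omega hF hh hab hQ1 (b' := ⌈4 * Q⌉₊) _ _ _ h3 hu _
    · apply Nat.cast_le (α := ℝ).1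
      calc ((⌊Q / 2⌋₊ : ℕ) : ℝ) ≤ Q / 2 := Nat.floor_le (by linarith)
        _ ≤ 4 * Q := by linarith
        _ ≤ _ := Nat.le_ceil _
    · rw [haQ]
      calc Real.log (⌊Q / 2⌋₊ : ℕ) ≤ Real.log (Q / 2) := by
            apply Real.log_le_log (by exact_mod_cast hQ1)
            exact Nat.floor_le (by linarith)
        _ = Real.log Q - Real.log 2 := Real.log_div hQ0.ne' (by norm_num)
        _ ≤ _ := by linarith
    · rw [hbQ]
      have h4 : Real.log 4 = 2 * Real.log 2 := by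
        rw [show (4 : ℝ) = 2 ^ 2 by norm_num, Real.log_pow]; push_cast; ring
      calc Real.log 2 + Real.log Q + 2 * (1 / H) + ρ ≤ Real.log 4 + Real.log Q := by rw [h4]; linarith
        _ = Real.log (4 * Q) := (Real.log_mul (by norm_num) hQ0.ne').symm
        _ ≤ _ := Real.log_le_log (by positivity) (Nat.le_ceil _)
    · intro s hs
      have hsb : Real.exp s ≤ 5 / 2 * Q := by
        calc Real.exp s ≤ Real.exp (Real.log 2 + Real.log Q + 1 / 5) := by
              apply Real.exp_le_exp.2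
              have := hs.2
              rw [hbQ] at this
              linarith
          _ = 2 * Q * Real.exp (1 / 5) := by
              rw [Real.exp_add, Real.exp_add, Real.exp_log (by norm_num), Real.exp_log hQ0]
          _ ≤ 2 * Q * (5 / 4) := mul_le_mul_of_nonneg_left exp_02 (by positivity)
          _ = _ := by ring
      have hd : |Real.exp s - Real.exp (s - u)| ≤ 5 * ρ * Q := by
        have e : Real.exp s - Real.exp (s - u) = Real.exp s * (-(Real.exp (-u) - 1)) := by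
          rw [sub_eq_add_neg s u, Real.exp_add]; ring
        rw [e, abs_mul, abs_neg, abs_of_pos (Real.exp_pos s)]
        have h5 : |Real.exp (-u) - 1| ≤ 2 * |(-u)| := Real.abs_exp_sub_one_le (by rw [abs_neg]; linarith)
        rw [abs_neg] at h5
        calc Real.exp s * |Real.exp (-u) - 1| ≤ (5 / 2 * Q) * (2 * ρ) :=
              mul_le_mul hsb (h5.trans (by linarith)) (abs_nonneg _) (by positivity)
          _ = _ := by ring
      have h6 : ((|⌊Real.exp s⌋ - ⌊Real.exp (s - u)⌋| : ℤ) : ℝ) < (h : ℝ) + 1 := by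
        push_cast
        have f1 := Int.floor_le (Real.exp s)
        have f2 := Int.lt_floor_add_one (Real.exp s)
        have f3 := Int.floor_le (Real.exp (s - u))
        have f4 := Int.lt_floor_add_one (Real.exp (s - u))
        rw [abs_le] at hd
        rw [abs_lt]
        constructor <;> linarith [hd.1, hd.2]
      have h7 : |⌊Real.exp s⌋ - ⌊Real.exp (s - u)⌋| < (h : ℤ) + 1 := by exact_mod_cast h6
      omega
  have happ := approx (ph_meas F) (fun s => hF _) hab hab1 hK hρ (by linarith) (by positivity) hΩ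
  -- the set of the large values
  classical
  set U := (FK K).filter (fun k => ε3 * mm H v < ‖∑ p ∈ cell H v, w p * ch k (Real.log p)‖) with hU
  have hUc : U.card ≤ R := hLV U (filter_subset _ _) fun k hk => (mem_filter.1 hk).2
  have hl := l2 (ph_meas F) (fun s => hF _) hab hab1 hK hw (c := Real.log M) (c' := Real.log ((2 * M : ℕ) : ℝ))
    (by rw [hl2]; linarith) (by rw [hl2]; linarith [Real.pi_gt_three])
    (fun p hp => by
      have := cell_lt hp
      rw [ha, hb, e1, e2]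
      rw [e3] at this
      constructor <;> linarith [this.2.1, this.2.2]) hε3 hUc rfl
    (fun k hk hkU => by
      by_contra hcon
      exact hkU (mem_filter.2 ⟨hk, lt_of_not_ge hcon⟩)) hhat happ
  have hT : ∀ p ∈ cell H v, 1 ≤ p ∧ p ≤ h := by
    intro p hp
    have := cell_lt hp
    refine ⟨this.1.one_le, ?_⟩
    have hp0 : (0 : ℝ) < p := by exact_mod_cast this.1.pos
    have h8 : (p : ℝ) ≤ h := by
      rw [← Real.exp_log hp0]
      exact (Real.exp_le_exp.2 this.2.2.le).trans hph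
    exact_mod_cast h8
  have key := ms_reduce hF hM hh hT hw rfl h1 h2 hl
  refine key.trans (le_of_eq ?_)
  have e4 : ∑ p ∈ cell H v, 1 / (p : ℝ) = mm H v := rfl
  rw [e4]
  ring

end Pool.Agent.W41.MU
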