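import Pool.Agent.W41.MU13

/-! The mean square over a cell: major frequencies, part 2. -/

set_option autoImplicit false

namespace Pool.Agent.W41.MU

open Finset MeasureTheory Pool.Agent.H376R2.MR Pool.Agent.W41.FU

theorem tw_ch (f : ℤ → ℝ) (γ : ℝ) (k : ℤ) (n : ℕ) :
    tw f γ (n : ℤ) * ch (-k) (Real.log n) = (f (n : ℕ) : ℂ) * en γ k (n : ℕ) := by
  unfold tw ch en
  rw [mul_assoc, ← Complex.exp_add]
  congr 2
  push_cast
  ring

theorem tw_sum (f : ℤ → ℝ) (γ : ℝ) (k : ℤ) {A N : ℕ} (hA : 1 ≤ A) (hAN : A ≤ N) :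
    ∑ n ∈ Ico A N, tw f γ (n : ℤ) * ch (-k) (Real.log n) = EL f (N - 1) γ k - EL f (A - 1) γ k := by
  have h1 : ∀ L : ℕ, 1 ≤ L → EL f (L - 1) γ k = ∑ n ∈ Ico 1 L, tw f γ (n : ℤ) * ch (-k) (Real.log n) := by
    intro L hL
    unfold EL
    have : Icc 1 (L - 1) = Ico 1 L := by
      ext n; simp only [mem_Icc, mem_Ico]; omega
    rw [this]
    exact sum_congr rfl fun n _ => (tw_ch f γ k n).symm
  rw [h1 N (hA.trans hAN), h1 A hA, ← sum_Ico_consecutive _ hA hAN]
  ring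

theorem hat_small {f : ℤ → ℝ} (hf : ∀ n, |f n| ≤ 1) {H v M K : ℕ} (hH : 10 ≤ H) (hM : 1 ≤ M) {γ ε' Q : ℝ}
    (hQ : Q = M * Real.exp ((v : ℝ) / H)) (hQ2 : 16 ≤ Q) (hε' : 0 ≤ ε')
    (hEL : ∀ N : ℕ, Q / 4 ≤ N → (N : ℝ) ≤ 3 * Q → ∀ k ∈ FK K, ‖EL f N γ k‖ ≤ ε' * N) :
    ∀ k ∈ FK K, ‖hat (ph (tw f γ)) (Real.log M + ((v : ℝ) - 1) / H)
      (Real.log ((2 * M : ℕ) : ℝ) + ((v : ℝ) + 2) / H) k‖ ≤ 4 / Q + 10 * ε' + 10 * K / Q := by
  intro k hk
  have hH0 : (0 : ℝ) < H := by exact_mod_cast (by omega : 0 < H)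
  have hHi : 1 / (H : ℝ) ≤ 1 / 10 := one_div_le_one_div_of_le (by norm_num) (by exact_mod_cast hH)
  have hHi0 : 0 < 1 / (H : ℝ) := by positivity
  have hM0 : (0 : ℝ) < M := by exact_mod_cast hM
  have hl2 : Real.log ((2 * M : ℕ) : ℝ) = Real.log 2 + Real.log M := by
    push_cast
    rw [Real.log_mul (by norm_num) hM0.ne']
  have hlog2' : 0.6931471803 ≤ Real.log 2 := Real.log_two_gt_d9.le
  have e1 : ((v : ℝ) - 1) / H = (v : ℝ) / H - 1 / H := by ring
  have e2 : ((v : ℝ) + 2) / H = (v : ℝ) / H + 2 * (1 / H) := by ring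
  have hQ0 : 0 < Q := by linarith
  have hlQ : Real.log Q = Real.log M + (v : ℝ) / H := by
    rw [hQ, Real.log_mul hM0.ne' (Real.exp_pos _).ne', Real.log_exp]
  set a := Real.log M + ((v : ℝ) - 1) / H with ha
  set b := Real.log ((2 * M : ℕ) : ℝ) + ((v : ℝ) + 2) / H with hb
  have haQ : a = Real.log Q - 1 / H := by rw [ha, hlQ, e1]; ring
  have hbQ : b = Real.log 2 + Real.log Q + 2 * (1 / H) := by rw [hb, hlQ, e2, hl2]; ring
  have hea : Q / 2 ≤ Real.exp a := by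
    rw [← Real.exp_log (by positivity : 0 < Q / 2), Real.log_div hQ0.ne' (by norm_num)]
    apply Real.exp_le_exp.2
    rw [haQ]; linarith
  have hea2 : Real.exp a ≤ Q := by
    calc Real.exp a ≤ Real.exp (Real.log Q) := Real.exp_le_exp.2 (by rw [haQ]; linarith)
      _ = Q := Real.exp_log hQ0
  have heb : 2 * Q ≤ Real.exp b := by
    rw [← Real.exp_log (by positivity : 0 < 2 * Q), Real.log_mul (by norm_num) hQ0.ne']
    apply Real.exp_le_exp.2
    rw [hbQ]; linarith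
  have heb2 : Real.exp b ≤ 5 / 2 * Q := by
    calc Real.exp b ≤ Real.exp (Real.log 2 + Real.log Q + 1 / 5) := by
          apply Real.exp_le_exp.2
          rw [hbQ]
          linarith
      _ = 2 * Q * Real.exp (1 / 5) := by
          rw [Real.exp_add, Real.exp_add, Real.exp_log (by norm_num), Real.exp_log hQ0]
      _ ≤ 2 * Q * (5 / 4) := mul_le_mul_of_nonneg_left exp_02 (by positivity)
      _ = _ := by ring
  set A := ⌈Real.exp a⌉₊ with hA
  set B := ⌊Real.exp b⌋₊ with hB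
  have hA1 : Real.exp a ≤ A := Nat.le_ceil _
  have hA2 : (A : ℝ) < Real.exp a + 1 := Nat.ceil_lt_add_one (Real.exp_pos _).le
  have hB1 : (B : ℝ) ≤ Real.exp b := Nat.floor_le (Real.exp_pos _).le
  have hB2 : Real.exp b < (B : ℝ) + 1 := Nat.lt_floor_add_one _
  have hA0 : (0 : ℝ) < A := by linarith
  have hB0 : (0 : ℝ) < B := by linarith
  have hAn : 1 ≤ A := by exact_mod_cast (by linarith : (1 : ℝ) ≤ A)
  have hAB : A ≤ B := by exact_mod_cast (by linarith : (A : ℝ) ≤ B)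
  have hs1 : a ≤ Real.log A := by
    rw [← Real.log_exp a]; exact Real.log_le_log (Real.exp_pos _) hA1
  have hs2 : Real.log A ≤ a + 2 / Q := by
    have h1 : Real.log A ≤ Real.log (Real.exp a * (1 + 2 / Q)) := by
      apply Real.log_le_log hA0
      refine hA2.le.trans ?_
      have : 1 ≤ Real.exp a * (2 / Q) := by
        rw [← mul_div_assoc, le_div_iff₀ hQ0]; linarith
      linarith
    rw [Real.log_mul (Real.exp_pos _).ne' (by positivity), Real.log_exp] at h1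
    have h2 := Real.log_le_sub_one_of_pos (by positivity : 0 < 1 + 2 / Q)
    linarith
  have hs3 : Real.log B ≤ b := by
    rw [← Real.log_exp b]; exact Real.log_le_log hB0 hB1
  have hs4 : b ≤ Real.log B + 2 / Q := by
    have h1 : Real.log (Real.exp b) ≤ Real.log (B * (1 + 2 / Q)) := by
      apply Real.log_le_log (Real.exp_pos _)
      refine hB2.le.trans ?_
      have : 1 ≤ (B : ℝ) * (2 / Q) := by
        rw [← mul_div_assoc, le_div_iff₀ hQ0]; linarith
      linarith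
    rw [Real.log_mul hB0.ne' (by positivity), Real.log_exp] at h1
    have h2 := Real.log_le_sub_one_of_pos (by positivity : 0 < 1 + 2 / Q)
    linarith
  have hC : ∀ N : ℕ, A ≤ N → N ≤ B → ‖∑ n ∈ Ico A N, tw f γ (n : ℤ) * ch (-k) (Real.log n)‖ ≤ 5 * ε' * Q := by
    intro N h1 h2
    rw [tw_sum f γ k hAn h1]
    have h1r : (A : ℝ) ≤ N := by exact_mod_cast h1
    have h2r : (N : ℝ) ≤ B := by exact_mod_cast h2
    have cN : (((N - 1 : ℕ)) : ℝ) = N - 1 := by
      rw [Nat.cast_sub (hAn.trans h1)]; simp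
    have cA : (((A - 1 : ℕ)) : ℝ) = A - 1 := by
      rw [Nat.cast_sub hAn]; simp
    have b1 := hEL (N - 1) (by rw [cN]; linarith) (by rw [cN]; linarith) k hk
    have b2 := hEL (A - 1) (by rw [cA]; linarith) (by rw [cA]; linarith) k hk
    rw [cN] at b1
    rw [cA] at b2
    refine (norm_sub_le _ _).trans ?_
    have c1 : ε' * ((N : ℝ) - 1) ≤ ε' * (5 / 2 * Q) := mul_le_mul_of_nonneg_left (by linarith) hε'
    have c2 : ε' * ((A : ℝ) - 1) ≤ ε' * (5 / 2 * Q) := mul_le_mul_of_nonneg_left (by linarith) hε'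
    linarith
  have key := hat_bound (tw_norm hf γ) hAn hAB hs1 hs2 hs3 hs4 k hC
  refine key.trans ?_
  have hA3 : Q / 2 ≤ A := by linarith
  have k1 : 5 * ε' * Q / A ≤ 10 * ε' := by
    rw [div_le_iff₀ hA0]
    nlinarith
  have hkK : |(k : ℝ)| ≤ K := by
    unfold FK at hk
    rw [mem_Ioo] at hk
    rw [abs_le]
    constructor
    · have : -(K : ℤ) ≤ k := hk.1.le
      exact_mod_cast this
    · have : k ≤ (K : ℤ) := hk.2.le
      exact_mod_cast this
  have k2 : ((B : ℝ) - A) / (A : ℝ) ^ 2 ≤ 10 / Q := by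
    rw [div_le_div_iff₀ (by positivity) hQ0]
    nlinarith
  have k3 : |(k : ℝ)| * (((B : ℝ) - A) / (A : ℝ) ^ 2) ≤ K * (10 / Q) := by
    have : 0 ≤ ((B : ℝ) - A) / (A : ℝ) ^ 2 := by
      apply div_nonneg _ (by positivity)
      have : (A : ℝ) ≤ B := by exact_mod_cast hAB
      linarith
    exact mul_le_mul hkK k2 this (by positivity)
  have e5 : 2 * (2 / Q) = 4 / Q := by ring
  have e6 : 10 * (K : ℝ) / Q = K * (10 / Q) := by ring
  rw [e5, e6]
  linarith

end Pool.Agent.W41.MU
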