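import Pool.Agent.W41.MU14

/-! The mean square over a cell: major frequencies, part 3. -/

set_option autoImplicit false

namespace Pool.Agent.W41.MU

open Pool.Agent.H320R2.PD Pool.Agent.H499R2.ND Pool.Agent.H499R2.CO Finset MeasureTheory Pool.Agent.H376R2.MR Pool.Agent.W41.FU Pool.Agent.W41

/-- the sums of the oscillation needed for a cell -/
theorem ef_sums {f : ℤ → ℝ} {γ εc θ : ℝ} {M0 h v M H : ℕ} (hεc : 0 ≤ εc)
    (hθ : 0 ≤ θ)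
    (key : ∀ M : ℕ, M0 ≤ M → ∀ c : ℤ, c % 2 = 1 → (h : ℝ) ≤ (M : ℝ) ^ θ →
      ∑ m ∈ Icc 1 M, EF (tw f γ) h (c * (m : ℕ)) ≤ 6 * εc * M)
    (hH : 1 ≤ H) (hv : H ≤ v) (hM : 1 ≤ M) (hMM : M0 ≤ 2 * M) (hhM : (h : ℝ) ≤ ((2 * M : ℕ) : ℝ) ^ θ)
    {Q : ℝ} (hQ : Q = M * Real.exp ((v : ℝ) / H)) (hQ2 : 4 ≤ Q) :
    (∀ p ∈ cell H v, ∑ m ∈ Ico M (2 * M), EF (tw f γ) h (((p * m : ℕ) : ℤ)) ≤ (120 * εc) * M) ∧
    (∀ p ∈ cell H v, ∑ n ∈ Ico (p * M) (p * (2 * M)), EF (tw f γ) h (n : ℤ) ≤ (120 * εc) * (p * M : ℕ)) ∧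
    (∑ n ∈ Ico ⌊Q / 2⌋₊ ⌈4 * Q⌉₊, EF (tw f γ) h (n : ℤ) ≤ (120 * εc) * (⌊Q / 2⌋₊ : ℕ)) := by
  have hH0 : (0 : ℝ) < H := by exact_mod_cast hH
  have hM0 : (0 : ℝ) < M := by exact_mod_cast hM
  have hv1 : (1 : ℝ) ≤ (v : ℝ) / H := by
    rw [le_div_iff₀ hH0, one_mul]; exact_mod_cast hv
  have hodd : ∀ p ∈ cell H v, p % 2 = 1 := by
    intro p hp
    have h1 := cell_lt hp
    rcases h1.1.eq_two_or_odd with h2 | h2
    · exfalso
      have h3 := h1.2.1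
      rw [h2] at h3
      have := Real.log_two_lt_d9
      push_cast at h3
      linarith
    · exact h2
  have hMQ : ((2 * M : ℕ) : ℝ) ≤ 2 * Q := by
    rw [hQ]
    push_cast
    have : (1 : ℝ) ≤ Real.exp ((v : ℝ) / H) := Real.one_le_exp (by positivity)
    nlinarith
  refine ⟨fun p hp => ?_, fun p hp => ?_, ?_⟩
  · have hp1 : ((p : ℤ)) % 2 = 1 := by have := hodd p hp; omega
    have k1 := key (2 * M) hMM (p : ℤ) hp1 hhM
    have e : ∑ m ∈ Ico M (2 * M), EF (tw f γ) h (((p * m : ℕ) : ℤ))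
        ≤ ∑ m ∈ Icc 1 (2 * M), EF (tw f γ) h ((p : ℤ) * (m : ℕ)) := by
      have e1 : ∑ m ∈ Ico M (2 * M), EF (tw f γ) h (((p * m : ℕ) : ℤ))
          = ∑ m ∈ Ico M (2 * M), EF (tw f γ) h ((p : ℤ) * (m : ℕ)) := by
        apply sum_congr rfl; intro m _; push_cast; rfl
      rw [e1]
      apply sum_le_sum_of_subset_of_nonneg
      · intro m hm
        rw [mem_Ico] at hm
        rw [mem_Icc]
        omega
      · intro m _ _; exact EF_nonneg _ _ _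
    refine e.trans (k1.trans ?_)
    push_cast
    nlinarith [mul_nonneg hεc hM0.le]
  · have hpp := (cell_lt hp).1
    have hp0 : (0 : ℝ) < p := by exact_mod_cast hpp.pos
    have hple : 2 * M ≤ p * (2 * M) := Nat.le_mul_of_pos_left _ hpp.pos
    have k1 := key (p * (2 * M)) (hMM.trans hple) 1 (by norm_num) (hhM.trans
      (Real.rpow_le_rpow (by positivity) (by exact_mod_cast hple) hθ))
    have e : ∑ n ∈ Ico (p * M) (p * (2 * M)), EF (tw f γ) h (n : ℤ)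
        ≤ ∑ m ∈ Icc 1 (p * (2 * M)), EF (tw f γ) h (1 * (m : ℕ)) := by
      have e1 : ∑ n ∈ Ico (p * M) (p * (2 * M)), EF (tw f γ) h (n : ℤ)
          = ∑ m ∈ Ico (p * M) (p * (2 * M)), EF (tw f γ) h (1 * (m : ℕ)) := by
        apply sum_congr rfl; intro m _; rw [one_mul]
      rw [e1]
      apply sum_le_sum_of_subset_of_nonneg
      · intro m hm
        rw [mem_Ico] at hm
        rw [mem_Icc]
        have : 1 ≤ p * M := Nat.mul_pos hpp.pos hM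
        omega
      · intro m _ _; exact EF_nonneg _ _ _
    refine e.trans (k1.trans ?_)
    push_cast
    nlinarith [mul_nonneg hεc (mul_pos hp0 hM0).le]
  · have hc1 : 4 * Q ≤ (⌈4 * Q⌉₊ : ℕ) := Nat.le_ceil _
    have hc2 : ((⌈4 * Q⌉₊ : ℕ) : ℝ) < 4 * Q + 1 := Nat.ceil_lt_add_one (by linarith)
    have hf1 : Q / 2 < (⌊Q / 2⌋₊ : ℕ) + 1 := Nat.lt_floor_add_one _
    have h2 : 2 * M ≤ ⌈4 * Q⌉₊ := by
      have : ((2 * M : ℕ) : ℝ) ≤ (⌈4 * Q⌉₊ : ℕ) := by linarith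
      exact_mod_cast this
    have k1 := key ⌈4 * Q⌉₊ (hMM.trans h2) 1 (by norm_num) (hhM.trans
      (Real.rpow_le_rpow (by positivity) (by exact_mod_cast h2) hθ))
    have e : ∑ n ∈ Ico ⌊Q / 2⌋₊ ⌈4 * Q⌉₊, EF (tw f γ) h (n : ℤ)
        ≤ ∑ m ∈ Icc 1 ⌈4 * Q⌉₊, EF (tw f γ) h (1 * (m : ℕ)) := by
      have e1 : ∑ n ∈ Ico ⌊Q / 2⌋₊ ⌈4 * Q⌉₊, EF (tw f γ) h (n : ℤ)
          = ∑ m ∈ Ico ⌊Q / 2⌋₊ ⌈4 * Q⌉₊, EF (tw f γ) h (1 * (m : ℕ)) := by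
        apply sum_congr rfl; intro m _; rw [one_mul]
      rw [e1]
      apply sum_le_sum_of_subset_of_nonneg
      · intro m hm
        rw [mem_Ico] at hm
        rw [mem_Icc]
        have : 1 ≤ ⌊Q / 2⌋₊ := Nat.le_floor (by push_cast; linarith)
        omega
      · intro m _ _; exact EF_nonneg _ _ _
    refine e.trans (k1.trans ?_)
    have h3 : 6 * ((⌈4 * Q⌉₊ : ℕ) : ℝ) ≤ 120 * (⌊Q / 2⌋₊ : ℕ) := by linarith
    calc 6 * εc * ((⌈4 * Q⌉₊ : ℕ) : ℝ) = εc * (6 * ((⌈4 * Q⌉₊ : ℕ) : ℝ)) := by ring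
      _ ≤ εc * (120 * (⌊Q / 2⌋₊ : ℕ)) := mul_le_mul_of_nonneg_left h3 hεc
      _ = _ := by ring

/-- numerical facts: the length -/
theorem num_h {y : ℝ} (hy4 : 4 ≤ y) : ((⌊y ^ 2⌋₊ : ℕ) : ℝ) ≤ y ^ 2 ∧ y ^ 2 / 2 ≤ (⌊y ^ 2⌋₊ : ℕ) ∧ (8 : ℝ) ≤ (⌊y ^ 2⌋₊ : ℕ)
    ∧ y ≤ (⌊y ^ 2⌋₊ : ℕ) := by
  have hh1 : ((⌊y ^ 2⌋₊ : ℕ) : ℝ) ≤ y ^ 2 := Nat.floor_le (by positivity)
  have hh2 : y ^ 2 < ((⌊y ^ 2⌋₊ : ℕ) : ℝ) + 1 := Nat.lt_floor_add_one _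
  have hh3 : y ^ 2 / 2 ≤ (⌊y ^ 2⌋₊ : ℕ) := by nlinarith
  refine ⟨hh1, hh3, by nlinarith, by nlinarith⟩

theorem num_rho {X y h : ℝ} (hy4 : 4 ≤ y) (hX0 : 0 < X) (hyX8 : y ^ 8 ≤ X) (hh1 : h ≤ y ^ 2) :
    h / (40 * X) ≤ 1 / (40 * y ^ 2) := by
  rw [div_le_div_iff₀ (by positivity) (by positivity)]
  have h1 : h * y ^ 2 ≤ y ^ 2 * y ^ 2 := mul_le_mul_of_nonneg_right hh1 (by positivity)
  have h2 : y ^ 2 * y ^ 2 ≤ X := by
    calc y ^ 2 * y ^ 2 = y ^ 4 := by ring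
      _ ≤ y ^ 8 := pow_le_pow_right₀ (by linarith) (by norm_num)
      _ ≤ X := hyX8
  nlinarith

theorem num_K {ε ε2 X y h ρ : ℝ} (hε : 0 < ε) (hε1 : ε ≤ 1) (hε20 : 0 < ε2) (hε21 : ε2 ≤ 1) (hy4 : 4 ≤ y) (hX0 : 0 < X)
    (hyX8 : y ^ 8 ≤ X) (hh0 : 0 < h) (hh3 : y ^ 2 / 2 ≤ h) (hρ : ρ = h / (40 * X)) (hyε : 2 ^ 30 ≤ y * (ε * ε2)) {K : ℝ}
    (hK0 : 0 ≤ K) (hK2 : K < 1024 / (ε * ρ) + 1) : K * y ≤ X / 2 ^ 13 * ε2 ∧ K ≤ X ∧ K * y ≤ X / 2 ^ 13 := by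
  have hy0 : 0 < y := by linarith
  have hK3 : K ≤ 2 ^ 17 * X / (ε * y ^ 2) := by
    have h1 : 1024 / (ε * ρ) = 40960 * X / (ε * h) := by rw [hρ]; field_simp; norm_num
    have h2 : 40960 * X / (ε * h) ≤ 81920 * X / (ε * y ^ 2) := by
      rw [div_le_div_iff₀ (by positivity) (by positivity)]
      have : ε * y ^ 2 ≤ 2 * (ε * h) := by nlinarith
      nlinarith
    have h3 : 1 ≤ 40960 * X / (ε * y ^ 2) := by
      rw [le_div_iff₀ (by positivity), one_mul]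
      have h4 : y ^ 2 ≤ X := le_trans (pow_le_pow_right₀ (by linarith) (by norm_num)) hyX8
      have h5 : ε * y ^ 2 ≤ 1 * y ^ 2 := mul_le_mul_of_nonneg_right hε1 (by positivity)
      linarith
    have h6 : 81920 * X / (ε * y ^ 2) + 40960 * X / (ε * y ^ 2) ≤ 2 ^ 17 * X / (ε * y ^ 2) := by
      rw [← add_div]
      apply div_le_div_of_nonneg_right _ (by positivity)
      linarith
    linarith
  have hK4 : K * (ε * y ^ 2) ≤ 2 ^ 17 * X := by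
    rwa [le_div_iff₀ (by positivity)] at hK3
  have hKy2 : K * y ≤ X / 2 ^ 13 * ε2 := by
    have h1 : K * y * 2 ^ 30 ≤ K * y * (y * (ε * ε2)) := mul_le_mul_of_nonneg_left hyε (by positivity)
    have h2 : K * y * (y * (ε * ε2)) = K * (ε * y ^ 2) * ε2 := by ring
    have h3 : K * (ε * y ^ 2) * ε2 ≤ 2 ^ 17 * X * ε2 := mul_le_mul_of_nonneg_right hK4 hε20.le
    linarith
  have hKy : K * y ≤ X / 2 ^ 13 := by
    refine hKy2.trans ?_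
    have : X / 2 ^ 13 * ε2 ≤ X / 2 ^ 13 * 1 := mul_le_mul_of_nonneg_left hε21 (by positivity)
    linarith
  refine ⟨hKy2, ?_, hKy⟩
  nlinarith

theorem num_N {ϑ X y N : ℝ} (hϑ : 0 < ϑ) (hϑ1 : ϑ ≤ 1 / 4) (hX0 : 0 < X) (hy : y = X ^ (ϑ / 8)) (hN0 : 0 < N)
    (hN : N ≤ 12 * X) : N / (12 * y) ≤ N ^ (1 - ϑ / 8) := by
  have hNη : N ^ (1 - ϑ / 8) = N / N ^ (ϑ / 8) := by
    rw [Real.rpow_sub hN0, Real.rpow_one]
  have hy0 : 0 < y := by rw [hy]; positivity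
  have h1 : N ^ (ϑ / 8) ≤ 12 * y := by
    calc N ^ (ϑ / 8) ≤ (12 * X) ^ (ϑ / 8) :=
          Real.rpow_le_rpow hN0.le hN (by positivity)
      _ = 12 ^ (ϑ / 8) * y := by rw [Real.mul_rpow (by norm_num) hX0.le, hy]
      _ ≤ 12 ^ (1 : ℝ) * y := by
          apply mul_le_mul_of_nonneg_right _ hy0.le
          apply Real.rpow_le_rpow_of_exponent_le (by norm_num)
          linarith
      _ = _ := by rw [Real.rpow_one]
  rw [hNη]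
  exact div_le_div_of_nonneg_left hN0.le (Real.rpow_pos_of_pos hN0 _) h1

theorem num_fin {ε ε2 y ρ K R εc π : ℝ} (hε : 0 < ε) (hε1 : ε ≤ 1) (hR0 : 0 ≤ R) (hε2 : ε2 = ε / (64 * (R + 1)))
    (hε20 : 0 < ε2) (hε21 : ε2 ≤ ε / 64) (hy4 : 4 ≤ y) (hyε : 2 ^ 30 ≤ y * (ε * ε2))
    (hεc : εc = ε / 2 ^ 16) (hρ0 : 0 < ρ) (hρy : ρ ≤ 1 / (40 * y ^ 2)) (hK0 : 0 < K) (hK : 1024 / (ε * ρ) ≤ K) (hπ : π ≤ 4) :
    32 * ρ + 48 * (120 * εc) + 32 * π / (K * ρ) + 8 * (ε / 8) ^ 2 + 8 * R * ε2 ^ 2 ≤ ε := by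
  have hy0 : 0 < y := by linarith
  have hyε' : 2 ^ 30 ≤ y * ε := by
    have : y * (ε * ε2) ≤ y * (ε * 1) := by
      apply mul_le_mul_of_nonneg_left _ hy0.le
      apply mul_le_mul_of_nonneg_left _ hε.le
      linarith
    linarith
  have q1 : 32 * ρ ≤ ε / 8 := by
    have h1 : 32 * ρ ≤ 1 / y ^ 2 := by
      calc 32 * ρ ≤ 32 * (1 / (40 * y ^ 2)) := mul_le_mul_of_nonneg_left hρy (by norm_num)
        _ ≤ 1 / y ^ 2 := by
            rw [mul_one_div, div_le_div_iff₀ (by positivity) (by positivity)]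
            nlinarith
    refine h1.trans ?_
    rw [div_le_iff₀ (by positivity)]
    nlinarith
  have q2 : 48 * (120 * εc) ≤ ε / 8 := by rw [hεc]; linarith
  have q3 : 32 * π / (K * ρ) ≤ ε / 8 := by
    rw [div_le_iff₀ (by positivity)]
    have h1 : 1024 ≤ K * (ε * ρ) := by rwa [div_le_iff₀ (by positivity)] at hK
    nlinarith
  have q4 : 8 * (ε / 8) ^ 2 ≤ ε / 8 := by nlinarith
  have q5 : 8 * R * ε2 ^ 2 ≤ ε / 8 := by
    have h1 : R * ε2 ≤ ε / 64 := by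
      rw [hε2, ← mul_div_assoc, div_le_div_iff₀ (by positivity) (by norm_num)]
      nlinarith
    have h2 : 8 * R * ε2 ^ 2 = 8 * (R * ε2) * ε2 := by ring
    rw [h2]
    have h3 : ε2 ≤ 1 := by linarith
    nlinarith
  linarith

theorem FK_abs {K : ℕ} {k : ℤ} (hk : k ∈ FK K) : |(k : ℝ)| ≤ K := by
  unfold FK at hk
  rw [mem_Ioo] at hk
  rw [abs_le]
  constructor
  · have : -(K : ℤ) ≤ k := hk.1.le
    exact_mod_cast this
  · have : k ≤ (K : ℤ) := hk.2.le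
    exact_mod_cast this

/-- the sizes of the parameters -/
theorem num_X {ϑ X y : ℝ} (hϑ : 0 < ϑ) (hϑ1 : ϑ ≤ 1 / 4) (hX : 64 ≤ X) (hy : y = X ^ (ϑ / 8)) (hy4 : 4 ≤ y) :
    y ^ 4 ≤ X ^ (1 / 2 : ℝ) ∧ y ^ 8 ≤ X ∧ X ^ (-(ϑ / 2)) * y ^ 4 = 1 ∧ (∀ n : ℕ, y ^ n = X ^ (ϑ / 8 * n)) := by
  have hX0 : 0 < X := by linarith
  have hX1' : 1 ≤ X := by linarith
  have hypow : ∀ n : ℕ, y ^ n = X ^ (ϑ / 8 * n) := by
    intro n
    rw [hy, ← Real.rpow_natCast, ← Real.rpow_mul hX0.le]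
  refine ⟨?_, ?_, ?_, hypow⟩
  · rw [hypow 4]
    apply Real.rpow_le_rpow_of_exponent_le hX1'
    push_cast; linarith
  · calc y ^ 8 = X ^ (ϑ / 8 * (8 : ℕ)) := hypow 8
      _ ≤ X ^ (1 : ℝ) := by
          apply Real.rpow_le_rpow_of_exponent_le hX1'
          push_cast; linarith
      _ = X := Real.rpow_one X
  · rw [hypow 4, ← Real.rpow_add hX0]
    have : -(ϑ / 2) + ϑ / 8 * (4 : ℕ) = 0 := by push_cast; ring
    rw [this, Real.rpow_zero]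

theorem num_M {X y M : ℝ} (hX : 64 ≤ X) (hy4 : 4 ≤ y) (hyX : y ^ 4 ≤ X ^ (1 / 2 : ℝ)) (hMy : X / 4 ≤ M * y) :
    X ^ (1 / 2 : ℝ) ≤ 2 * M := by
  have hX0 : 0 < X := by linarith
  have hsq : X ^ (1 / 2 : ℝ) * X ^ (1 / 2 : ℝ) = X := by
    rw [← Real.rpow_add hX0]; norm_num
  have hXh0 : 0 < X ^ (1 / 2 : ℝ) := Real.rpow_pos_of_pos hX0 _
  have h1 : 2 * y ≤ X ^ (1 / 2 : ℝ) := by
    refine le_trans ?_ hyX
    nlinarith [pow_le_pow_left₀ (by norm_num : (0:ℝ) ≤ 4) hy4 3]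
  have h2 : X ^ (1 / 2 : ℝ) * (2 * y) ≤ 2 * M * (2 * y) := by
    calc X ^ (1 / 2 : ℝ) * (2 * y) ≤ X ^ (1 / 2 : ℝ) * X ^ (1 / 2 : ℝ) := mul_le_mul_of_nonneg_left h1 hXh0.le
      _ = X := hsq
      _ ≤ _ := by linarith
  exact le_of_mul_le_mul_right h2 (by positivity)

theorem num_gam {ε ε2 γ y h : ℝ} (hε : 0 < ε) (hε20 : 0 < ε2) (hε21 : ε2 ≤ 1)
    (hy4 : 4 ≤ y) (hyε : 2 ^ 30 ≤ y * (ε * ε2)) (hγ0 : 0 ≤ γ) (hγy : γ * y ^ 4 ≤ 1) (hh1 : h ≤ y ^ 2) :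
    γ * h ≤ ε / 2 ^ 16 ∧ γ * y ≤ 1 / 64 := by
  have hy0 : 0 < y := by linarith
  have hyε' : 2 ^ 30 ≤ y * ε := by
    have : y * (ε * ε2) ≤ y * (ε * 1) := by
      apply mul_le_mul_of_nonneg_left _ hy0.le
      apply mul_le_mul_of_nonneg_left hε21 hε.le
    linarith
  constructor
  · have h1 : γ * h ≤ γ * y ^ 2 := mul_le_mul_of_nonneg_left hh1 hγ0
    have h2 : γ * y ^ 2 * y ^ 2 ≤ 1 := by
      calc γ * y ^ 2 * y ^ 2 = γ * y ^ 4 := by ring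
        _ ≤ 1 := hγy
    have h3 : 1 ≤ ε / 2 ^ 16 * y ^ 2 := by
      have : 2 ^ 30 * y ≤ y * ε * y := mul_le_mul_of_nonneg_right hyε' hy0.le
      nlinarith
    have h4 : γ * y ^ 2 * y ^ 2 ≤ ε / 2 ^ 16 * y ^ 2 := h2.trans h3
    exact h1.trans (le_of_mul_le_mul_right h4 (by positivity))
  · have : γ * y * 64 ≤ γ * y * y ^ 3 := by
      apply mul_le_mul_of_nonneg_left _ (by positivity)
      nlinarith [pow_le_pow_left₀ (by norm_num : (0:ℝ) ≤ 4) hy4 3]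
    have e : γ * y * y ^ 3 = γ * y ^ 4 := by ring
    rw [e] at this
    linarith

/-- MAJOR FREQUENCIES. -/
theorem major {s : ℤ} (hs : s = 1 ∨ s = -1) {ε : ℝ} (hε : 0 < ε) (hε1 : ε ≤ 1) {H : ℕ} (hH : 10 ≤ H) :
    ∃ ϑ0 : ℝ, 0 < ϑ0 ∧ ϑ0 ≤ 1 / 4 ∧ ∀ ϑ : ℝ, 0 < ϑ → ϑ ≤ ϑ0 → ∀ θ1 : ℝ, 0 < θ1 → ∃ X0 : ℝ, 1 ≤ X0 ∧
    ∀ X : ℝ, X0 ≤ X → ∀ S : Set ℤ, Inv 1 S → ∀ δ : ℝ, HD s S δ → ∀ γ : ℝ, |γ| ≤ X ^ (-(ϑ / 2)) →
    ∀ v M : ℕ, θ1 * Real.log X ≤ (v : ℝ) / H → ((v : ℝ) + 1) / H ≤ ϑ / 8 * Real.log X →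
    X ≤ 4 * (M * Real.exp ((v : ℝ) / H)) → M * Real.exp ((v : ℝ) / H) ≤ 4 * X →
    ∀ w : ℕ → ℂ, (∀ p ∈ cell H v, ‖w p‖ ≤ 1 / p) →
    ∑ m ∈ Ico M (2 * M), ‖∑ p ∈ cell H v, w p * tw (bal s S δ) γ (((p * m : ℕ) : ℤ))‖ ^ 2
      ≤ ε * (M * mm H v ^ 2) := by
  have hsd : Odd s := by rcases hs with h | h <;> rw [h] <;> decide
  have hss : s * s = 1 := by rcases hs with h | h <;> rw [h] <;> norm_num
  have hεc0 : 0 < ε / 2 ^ 16 := by positivity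
  have hεc1 : ε / 2 ^ 16 ≤ 1 := by linarith
  obtain ⟨θL, hθL0, hθL1, ML, hML1, hLC⟩ := lcF hsd hss hεc0 hεc1
  obtain ⟨R, hR⟩ := lv H (by omega) (ε3 := ε / 8) (by positivity)
  obtain ⟨ε2, hε2⟩ : ∃ ε2 : ℝ, ε2 = ε / (64 * ((R : ℝ) + 1)) := ⟨_, rfl⟩
  have hR0 : (0 : ℝ) ≤ R := Nat.cast_nonneg R
  have hε20 : 0 < ε2 := by rw [hε2]; positivity
  have hε21 : ε2 ≤ ε / 64 := by
    rw [hε2]
    apply div_le_div_of_nonneg_left hε.le (by norm_num)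
    linarith
  have hε22 : ε2 ≤ 1 := by linarith
  obtain ⟨η1, hη10, hη11, hmel⟩ := mellin hs (ε := ε2 / 64) (by positivity) (by linarith)
  refine ⟨min (1 / 4) (min (8 * η1) (2 * θL)), by positivity, min_le_left _ _, fun ϑ hϑ hϑ0 θ1 hθ1 => ?_⟩
  have hϑ1 : ϑ ≤ 1 / 4 := hϑ0.trans (min_le_left _ _)
  have hϑ2 : ϑ ≤ 8 * η1 := hϑ0.trans ((min_le_right _ _).trans (min_le_left _ _))
  have hϑ3 : ϑ ≤ 2 * θL := hϑ0.trans ((min_le_right _ _).trans (min_le_right _ _))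
  obtain ⟨NM, hNM1, hMel⟩ := hmel (ϑ / 8) (by positivity) (by linarith)
  obtain ⟨Mc, hMc⟩ : ∃ Mc : ℕ, Mc = ⌈1 / θ1⌉₊ := ⟨_, rfl⟩
  obtain ⟨vL, hvL⟩ := hR Mc
  obtain ⟨Yc, hYc⟩ : ∃ Yc : ℝ, Yc = 2 ^ 30 / (ε * ε2) + ML + 4 := ⟨_, rfl⟩
  have hML0 : (0 : ℝ) ≤ ML := Nat.cast_nonneg _
  have hq0 : 0 < 2 ^ 30 / (ε * ε2) := by positivity
  have hYc4 : 4 ≤ Yc := by rw [hYc]; linarith only [hq0, hML0]
  obtain ⟨X1, hX1⟩ := Filter.eventually_atTop.1 ((tendsto_rpow_atTop (by positivity : 0 < ϑ / 8)).eventually_ge_atTop Yc)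
  have hNM0 : (0 : ℝ) ≤ NM := Nat.cast_nonneg _
  refine ⟨max (max X1 (Real.exp (1 / θ1))) (max (Real.exp ((vL : ℝ) / (H * θ1))) (16 * NM + 64)), ?_, ?_⟩
  · refine le_trans ?_ (le_max_right _ _)
    refine le_trans ?_ (le_max_right _ _)
    linarith only [hNM0]
  intro X hX S hS δ hδ γ hγ v M hv1 hv2 hQ1 hQ2 w hw
  have hXa : X1 ≤ X := ((le_max_left _ _).trans (le_max_left _ _)).trans hX
  have hXb : Real.exp (1 / θ1) ≤ X := ((le_max_right _ _).trans (le_max_left _ _)).trans hX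
  have hXc : Real.exp ((vL : ℝ) / (H * θ1)) ≤ X := ((le_max_left _ _).trans (le_max_right _ _)).trans hX
  have hXd : 16 * NM + 64 ≤ X := ((le_max_right _ _).trans (le_max_right _ _)).trans hX
  clear hX
  have hX64 : 64 ≤ X := by linarith only [hNM0, hXd]
  have hX0 : 0 < X := by linarith only [hX64]
  have hX1' : 1 ≤ X := by linarith only [hX64]
  have hXl0 : 0 < Real.log X := Real.log_pos (by linarith only [hX64])
  obtain ⟨y, hy⟩ : ∃ y : ℝ, y = X ^ (ϑ / 8) := ⟨_, rfl⟩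
  have hyY : Yc ≤ y := by rw [hy]; exact hX1 X hXa
  have hy4 : 4 ≤ y := hYc4.trans hyY
  have hy0 : 0 < y := by linarith only [hy4]
  have hH0 : (0 : ℝ) < H := by exact_mod_cast (by omega : 0 < H)
  have hyM : (ML : ℝ) ≤ y := by rw [hYc] at hyY; linarith only [hyY, hq0]
  have hyε : 2 ^ 30 ≤ y * (ε * ε2) := by
    have h1 : 2 ^ 30 / (ε * ε2) ≤ y := by rw [hYc] at hyY; linarith only [hyY, hML0]
    rwa [div_le_iff₀ (by positivity)] at h1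
  obtain ⟨hyX, hyX8, hXγ, hypow⟩ := num_X hϑ hϑ1 hX64 hy hy4
  have hγy : |γ| * y ^ 4 ≤ 1 := by
    calc |γ| * y ^ 4 ≤ X ^ (-(ϑ / 2)) * y ^ 4 := mul_le_mul_of_nonneg_right hγ (by positivity)
      _ = 1 := hXγ
  have hev : Real.exp (((v : ℝ) + 1) / H) ≤ y := by
    calc Real.exp (((v : ℝ) + 1) / H) ≤ Real.exp (ϑ / 8 * Real.log X) := Real.exp_le_exp.2 hv2
      _ = y := by rw [hy, Real.rpow_def_of_pos hX0]; ring_nf
  have hev' : Real.exp ((v : ℝ) / H) ≤ y := by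
    refine le_trans (Real.exp_le_exp.2 ?_) hev
    apply div_le_div_of_nonneg_right _ hH0.le
    linarith only
  obtain ⟨Q, hQ⟩ : ∃ Q : ℝ, Q = M * Real.exp ((v : ℝ) / H) := ⟨_, rfl⟩
  rw [← hQ] at hQ1 hQ2
  have hXQ : X / 4 ≤ Q := by linarith only [hQ1]
  have hQ16 : 16 ≤ Q := by linarith only [hXQ, hX64]
  have hQ0 : 0 < Q := by linarith only [hQ16]
  have hM1 : 1 ≤ M := by
    rcases Nat.eq_zero_or_pos M with h | h
    · rw [h] at hQ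
      simp only [Nat.cast_zero, zero_mul] at hQ
      linarith only [hQ, hQ0]
    · exact h
  have hM0 : (0 : ℝ) < M := by exact_mod_cast hM1
  -- the length
  obtain ⟨h, hh⟩ : ∃ h : ℕ, h = ⌊y ^ 2⌋₊ := ⟨_, rfl⟩
  obtain ⟨hh1, hh3, hh4, hh5⟩ := num_h hy4
  rw [← hh] at hh1 hh3 hh4 hh5
  have hhn : 1 ≤ h := by exact_mod_cast (by linarith only [hh4] : (1 : ℝ) ≤ h)
  have hh0 : (0 : ℝ) < h := by linarith only [hh4]
  have hph : Real.exp (((v : ℝ) + 1) / H) ≤ h := hev.trans hh5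
  have hMy : X / 4 ≤ M * y := by
    refine hXQ.trans ?_
    rw [hQ]
    exact mul_le_mul_of_nonneg_left hev' hM0.le
  have hMX : X ^ (1 / 2 : ℝ) ≤ ((2 * M : ℕ) : ℝ) := by
    push_cast
    exact num_M hX64 hy4 hyX hMy
  have hhM : (h : ℝ) ≤ ((2 * M : ℕ) : ℝ) ^ θL := by
    calc (h : ℝ) ≤ y ^ 2 := hh1
      _ = X ^ (ϑ / 8 * (2 : ℕ)) := hypow 2
      _ ≤ X ^ (1 / 2 * θL) := by
          apply Real.rpow_le_rpow_of_exponent_le hX1'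
          push_cast; linarith only [hϑ3]
      _ = (X ^ (1 / 2 : ℝ)) ^ θL := Real.rpow_mul hX0.le _ _
      _ ≤ _ := Real.rpow_le_rpow (by positivity) hMX hθL0.le
  have hMM : ML ≤ 2 * M := by
    have h1 : (ML : ℝ) ≤ ((2 * M : ℕ) : ℝ) := by
      refine hyM.trans (le_trans ?_ (hyX.trans hMX))
      nlinarith only [pow_le_pow_left₀ (by norm_num : (0:ℝ) ≤ 4) hy4 3, hy4]
    exact_mod_cast h1
  have hvX : 1 ≤ (v : ℝ) / H := by
    refine le_trans ?_ hv1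
    have : 1 / θ1 ≤ Real.log X := by
      rw [← Real.log_exp (1 / θ1)]
      exact Real.log_le_log (Real.exp_pos _) hXb
    calc (1 : ℝ) = θ1 * (1 / θ1) := by field_simp
      _ ≤ _ := mul_le_mul_of_nonneg_left this hθ1.le
  have hvH : H ≤ v := by
    rw [le_div_iff₀ hH0, one_mul] at hvX
    exact_mod_cast hvX
  obtain ⟨hd0, hd1⟩ := HD_mem hs hδ
  have hf : bal s S δ ∈ SameT s := bal_same hs hS hd0 hd1
  obtain ⟨hγh, hγ64⟩ := num_gam hε hε20 hε22 hy4 hyε (abs_nonneg γ) hγy hh1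
  obtain ⟨g1, g2, g3⟩ := ef_sums (f := bal s S δ) (γ := γ) (h := h) (M0 := ML) hεc0.le hθL0.le
    (fun M hM c hc hhM => hLC M hM _ hf c hc h γ hhn hhM hγh) (by omega) hvH hM1 hMM hhM hQ (by linarith only [hQ16])
  -- the parameters `ρ` and `K`
  obtain ⟨ρ, hρ⟩ : ∃ ρ : ℝ, ρ = h / (40 * X) := ⟨_, rfl⟩
  have hρ0 : 0 < ρ := by rw [hρ]; positivity
  have hρy : ρ ≤ 1 / (40 * y ^ 2) := by rw [hρ]; exact num_rho hy4 hX0 hyX8 hh1
  have hρ1 : ρ ≤ 1 / 4 := by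
    refine hρy.trans ?_
    apply one_div_le_one_div_of_le (by norm_num)
    nlinarith only [hy4]
  have hρh : 5 * ρ * Q + 1 ≤ h := by
    have h1 : 5 * ρ * Q ≤ h / 2 := by
      rw [hρ]
      calc 5 * (h / (40 * X)) * Q ≤ 5 * (h / (40 * X)) * (4 * X) := mul_le_mul_of_nonneg_left hQ2 (by positivity)
        _ = h / 2 := by field_simp; norm_num
    linarith only [h1, hh4]
  obtain ⟨K, hK⟩ : ∃ K : ℕ, K = ⌈1024 / (ε * ρ)⌉₊ := ⟨_, rfl⟩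
  have hK1 : 1024 / (ε * ρ) ≤ K := by rw [hK]; exact Nat.le_ceil _
  have hK2 : (K : ℝ) < 1024 / (ε * ρ) + 1 := by rw [hK]; exact Nat.ceil_lt_add_one (by positivity)
  have hKpos : (0 : ℝ) < K := lt_of_lt_of_le (by positivity) hK1
  have hKn : 1 ≤ K := by
    have : 0 < K := by exact_mod_cast hKpos
    omega
  obtain ⟨hKy2, hKX, hKy⟩ := num_K hε hε1 hε20 hε22 hy4 hX0 hyX8 hh0 hh3 hρ hyε hKpos.le hK2
  -- the large values
  have hlv : ∀ U : Finset ℤ, U ⊆ FK K →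
      (∀ k ∈ U, ε / 8 * mm H v < ‖∑ p ∈ cell H v, w p * ch k (Real.log p)‖) → U.card ≤ R := by
    intro U hU hUl
    apply hvL v _ w hw U _ hUl
    · have h1 : (vL : ℝ) / (H * θ1) ≤ Real.log X := by
        rw [← Real.log_exp ((vL : ℝ) / (H * θ1))]
        exact Real.log_le_log (Real.exp_pos _) hXc
      rw [div_le_iff₀ (by positivity)] at h1
      rw [le_div_iff₀ hH0] at hv1
      have : (vL : ℝ) ≤ v := by linarith only [h1, hv1]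
      exact_mod_cast this
    · intro k hk
      refine (FK_abs (hU hk)).trans (hKX.trans ?_)
      rw [← Real.exp_log hX0]
      apply Real.exp_le_exp.2
      have h1 : 1 / θ1 ≤ Mc := by rw [hMc]; exact Nat.le_ceil _
      calc Real.log X = 1 / θ1 * (θ1 * Real.log X) := by field_simp
        _ ≤ Mc * ((v : ℝ) / H) := mul_le_mul h1 hv1 (by positivity) (by positivity)
        _ = _ := by ring
  -- the Fourier coefficients
  have hEL : ∀ N : ℕ, Q / 4 ≤ N → (N : ℝ) ≤ 3 * Q → ∀ k ∈ FK K, ‖EL (bal s S δ) N γ k‖ ≤ ε2 / 64 * N := by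
    intro N hN1 hN2 k hk
    have hN0 : (0 : ℝ) < N := by linarith only [hN1, hQ0]
    have hkK : |(k : ℝ)| ≤ K := FK_abs hk
    apply hMel S hS δ hδ N
    · have : (NM : ℝ) ≤ N := by linarith only [hN1, hXQ, hXd]
      exact_mod_cast this
    · refine le_trans ?_ (num_N hϑ hϑ1 hX0 hy hN0 (by linarith only [hN2, hQ2]))
      rw [le_div_iff₀ (by positivity)]
      have h3 : |γ| * N * (12 * y) ≤ N / 4 := by
        calc |γ| * N * (12 * y) = 12 * N * (|γ| * y) := by ring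
          _ ≤ 12 * N * (1 / 64) := mul_le_mul_of_nonneg_left hγ64 (by positivity)
          _ ≤ N / 4 := by linarith only [hN0]
      have h5 : |(k : ℝ)| * (12 * y) ≤ N / 4 := by
        calc |(k : ℝ)| * (12 * y) ≤ K * (12 * y) := mul_le_mul_of_nonneg_right hkK (by positivity)
          _ = 12 * (K * y) := by ring
          _ ≤ 12 * (X / 2 ^ 13) := by linarith only [hKy]
          _ ≤ N / 4 := by linarith only [hN1, hXQ, hX0]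
      calc (|γ| * N + |(k : ℝ)|) * (12 * y) = |γ| * N * (12 * y) + |(k : ℝ)| * (12 * y) := by ring
        _ ≤ N / 4 + N / 4 := add_le_add h3 h5
        _ ≤ N := by linarith only [hN0]
  have hhat := hat_small (fun n => bal_abs hd0 hd1 n) hH hM1 hQ hQ16 (by positivity) hEL
  have hhat2 : ∀ k ∈ FK K, ‖hat (ph (tw (bal s S δ) γ)) (Real.log M + ((v : ℝ) - 1) / H)
      (Real.log ((2 * M : ℕ) : ℝ) + ((v : ℝ) + 2) / H) k‖ ≤ ε2 := by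
    intro k hk
    refine (hhat k hk).trans ?_
    have hKK : (1 : ℝ) ≤ K := by exact_mod_cast hKn
    have h1 : 4 / Q ≤ ε2 / 4 := by
      rw [div_le_iff₀ hQ0]
      have h3 : 4 ≤ (K : ℝ) * y := by nlinarith only [hKK, hy4]
      have h4 : X * ε2 ≤ 4 * Q * ε2 := by
        apply mul_le_mul_of_nonneg_right _ hε20.le
        linarith only [hXQ]
      linarith only [h3, h4, hKy2]
    have h4 : 10 * (K : ℝ) / Q ≤ ε2 / 4 := by
      rw [div_le_iff₀ hQ0]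
      have h3 : (K : ℝ) ≤ K * y := by nlinarith only [hKK, hy4]
      have h4 : X * ε2 ≤ 4 * Q * ε2 := by
        apply mul_le_mul_of_nonneg_right _ hε20.le
        linarith only [hXQ]
      have h5 : 0 < Q * ε2 := by positivity
      linarith only [h3, h4, hKy2, h5]
    linarith only [h1, h4, hε20]
  have key := major_core (tw_norm (fun n => bal_abs hd0 hd1 n) γ) hH hM1 hhn hKn hph hw hQ (by linarith only [hQ16])
    (by positivity : (0 : ℝ) ≤ 120 * (ε / 2 ^ 16)) hρ0 hρ1 hρh g1 g2 g3 (by positivity : (0 : ℝ) ≤ ε / 8) hlv hhat2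
  refine key.trans ?_
  have hmm : 0 ≤ (M : ℝ) * mm H v ^ 2 := by positivity
  have hfin := num_fin hε hε1 hR0 hε2 hε20 hε21 hy4 hyε rfl hρ0 hρy hKpos hK1 Real.pi_le_four
  calc M * mm H v ^ 2 * (32 * ρ + 48 * (120 * (ε / 2 ^ 16)) + 32 * Real.pi / (K * ρ) + 8 * (ε / 8) ^ 2 + 8 * R * ε2 ^ 2)
      ≤ M * mm H v ^ 2 * ε := mul_le_mul_of_nonneg_left hfin hmm
    _ = _ := by ring

end Pool.Agent.W41.MU
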