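import Pool.Agent.W41.MU15
import Pool.Agent.H692R2.USS.T1
import Pool.Agent.H730R2.AA.Euler

/-! Minor frequencies, part 1: primes of a cell in residue classes; pairs of primes. -/

set_option autoImplicit false

namespace Pool.Agent.W41.MU

open Pool.Agent.H320R2.PD Pool.Agent.H499R2.ND Pool.Agent.H499R2.CO Finset MeasureTheory Pool.Agent.H376R2.MR Pool.Agent.W41.FU Pool.Agent.W41

/-- Brun-Titchmarsh for a cell -/
theorem cell_bt {H v r c : ℕ} (hH : 1 ≤ H) (hr : 1 ≤ r) {N : ℕ} (hN : 3 * Real.exp ((v : ℝ) / H) ≤ r * (N : ℝ)) (hN2 : 2 ≤ N) :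
    (((cell H v).filter (fun q => q % r = c % r)).card : ℝ) ≤ N ∧
    (((cell H v).filter (fun q => q % r = c % r)).card : ℝ) ≤ 22 * ((r : ℝ) / Nat.totient r) * N / Real.log N := by
  classical
  set S := (cell H v).filter (fun q => q % r = c % r) with hS
  have hH0 : (0 : ℝ) < H := by exact_mod_cast hH
  rcases S.eq_empty_or_nonempty with h0 | hne
  · rw [h0, card_empty, Nat.cast_zero]
    have h1 : 0 ≤ Real.log (N : ℝ) := Real.log_natCast_nonneg _
    exact ⟨by positivity, by positivity⟩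
  · obtain ⟨p₀, hp₀, hmin⟩ : ∃ p₀ ∈ S, ∀ p ∈ S, p₀ ≤ p := ⟨S.min' hne, S.min'_mem hne, fun p hp => S.min'_le p hp⟩
    have hc : S.card ≤ ((range N).filter (fun k => (p₀ + k * r).Prime)).card := by
      have hrep : ∀ p ∈ S, p₀ + (p - p₀) / r * r = p := by
        intro p hp
        have h1 := hmin p hp
        have h2 : p % r = p₀ % r := by rw [(mem_filter.1 hp).2, (mem_filter.1 hp₀).2]
        have h3 : (p - p₀) % r = 0 := Nat.sub_mod_eq_zero_of_mod_eq h2
        have h4 := Nat.div_add_mod (p - p₀) r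
        rw [h3, add_zero, mul_comm] at h4
        omega
      apply card_le_card_of_injOn (fun p => (p - p₀) / r)
      · intro p hp
        have hp' := hp
        rw [Finset.mem_coe] at hp
        rw [Finset.mem_coe, mem_filter, mem_range]
        refine ⟨?_, ?_⟩
        · rw [Nat.div_lt_iff_lt_mul (by omega)]
          have h5 := cell_lt (mem_filter.1 hp).1
          have hp0 : (0 : ℝ) < p := by exact_mod_cast h5.1.pos
          have h6 : (p : ℝ) < 3 * Real.exp ((v : ℝ) / H) := by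
            rw [← Real.exp_log hp0]
            calc Real.exp (Real.log p) < Real.exp (((v : ℝ) + 1) / H) := Real.exp_lt_exp.2 h5.2.2
              _ = Real.exp (1 / H) * Real.exp ((v : ℝ) / H) := by rw [← Real.exp_add]; congr 1; ring
              _ ≤ 3 * Real.exp ((v : ℝ) / H) := by
                  apply mul_le_mul_of_nonneg_right _ (Real.exp_pos _).le
                  have h7 : 1 / (H : ℝ) ≤ 1 := by
                    rw [div_le_one hH0]; exact_mod_cast hH
                  calc Real.exp (1 / H) ≤ Real.exp 1 := Real.exp_le_exp.2 h7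
                    _ ≤ 3 := by linarith [Real.exp_one_lt_d9]
          have h8 : (p : ℝ) < r * (N : ℝ) := lt_of_lt_of_le h6 hN
          have h9 : p < r * N := by exact_mod_cast h8
          rw [mul_comm N r]
          omega
        · rw [hrep p hp]
          exact (cell_lt (mem_filter.1 hp).1).1
      · intro p hp q hq hpq
        rw [Finset.mem_coe] at hp hq
        simp only at hpq
        rw [← hrep p hp, ← hrep q hq, hpq]
    constructor
    · have : S.card ≤ N := hc.trans ((card_filter_le _ _).trans (by rw [card_range]))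
      exact_mod_cast this
    · exact le_trans (by exact_mod_cast hc) (Pool.Agent.H692R2.USS.t1_brun_titchmarsh p₀ r N hN2 hr)

/-- few primes of a cell in a residue class to a large modulus -/
theorem cell_class {H : ℕ} (hH : 1 ≤ H) {ε : ℝ} (hε : 0 < ε) : ∃ R0 : ℕ, 1 ≤ R0 ∧ ∃ v0 : ℕ, 1 ≤ v0 ∧ ∀ v : ℕ, v0 ≤ v →
    ∀ r : ℕ, R0 ≤ r → ∀ c : ℕ,
    (((cell H v).filter (fun q => q % r = c % r)).card : ℝ) ≤ ε * Real.exp ((v : ℝ) / H) / v := by
  have hH0 : (0 : ℝ) < H := by exact_mod_cast hH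
  -- growth
  have hg : ∃ v0 : ℕ, ∀ v : ℕ, v0 ≤ v → (8 * (v : ℝ) ≤ ε * Real.exp ((v : ℝ) / (2 * H))) ∧ 4 ≤ Real.exp ((v : ℝ) / (2 * H)) := by
    have h1 : Filter.Tendsto (fun v : ℕ => (v : ℝ) / (2 * H)) Filter.atTop Filter.atTop :=
      Filter.Tendsto.atTop_div_const (by positivity) tendsto_natCast_atTop_atTop
    have h2 := (Real.tendsto_exp_div_pow_atTop 1).comp h1
    have h3 := h2.eventually_ge_atTop (8 * (2 * H) / ε)
    have h4 := (Real.tendsto_exp_atTop.comp h1).eventually_ge_atTop 4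
    obtain ⟨v0, hv0⟩ := Filter.eventually_atTop.1 ((h3.and h4).and (Filter.eventually_ge_atTop 1))
    refine ⟨v0, fun v hv => ?_⟩
    obtain ⟨⟨a1, a2⟩, a3⟩ := hv0 v hv
    refine ⟨?_, a2⟩
    simp only [Function.comp, pow_one] at a1
    have hv' : (0 : ℝ) < v := by exact_mod_cast a3
    rw [le_div_iff₀ (by positivity), div_mul_eq_mul_div, div_le_iff₀ hε] at a1
    have e : 8 * (2 * (H : ℝ)) * ((v : ℝ) / (2 * H)) = 8 * v := by field_simp
    rw [e] at a1
    linarith
  obtain ⟨v0, hv0⟩ := hg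
  set R0 := ⌈(600 * H / ε) ^ 2⌉₊ + 1 with hR0
  refine ⟨R0, by omega, v0 + 1, by omega, fun v hv r hr c => ?_⟩
  obtain ⟨hg1, hg2⟩ := hv0 v (by omega)
  have hvn : 1 ≤ v := by omega
  have hv0' : (0 : ℝ) < v := by exact_mod_cast hvn
  have hr1 : 1 ≤ r := by omega
  have hr0 : (0 : ℝ) < r := by exact_mod_cast hr1
  set s := Real.exp ((v : ℝ) / (2 * H)) with hs
  have hs0 : 0 < s := Real.exp_pos _
  have hss : Real.exp ((v : ℝ) / H) = s * s := by
    rw [hs, ← Real.exp_add]; congr 1; field_simp; ring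
  set N := ⌈3 * (s * s) / r⌉₊ + 2 with hN
  have hN1 : 3 * (s * s) / r ≤ (⌈3 * (s * s) / r⌉₊ : ℕ) := Nat.le_ceil _
  have hN2 : ((⌈3 * (s * s) / r⌉₊ : ℕ) : ℝ) < 3 * (s * s) / r + 1 := Nat.ceil_lt_add_one (by positivity)
  have hNc : (N : ℝ) = (⌈3 * (s * s) / r⌉₊ : ℕ) + 2 := by rw [hN]; push_cast; ring
  have hN3 : 3 * (s * s) / r ≤ (N : ℝ) := by rw [hNc]; linarith
  have hN4 : (N : ℝ) ≤ 3 * (s * s) / r + 3 := by rw [hNc]; linarith
  have hN5 : 3 * Real.exp ((v : ℝ) / H) ≤ r * (N : ℝ) := by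
    rw [hss]
    rw [div_le_iff₀ hr0] at hN3
    linarith
  obtain ⟨b1, b2⟩ := cell_bt (c := c) hH hr1 hN5 (by omega)
  rw [hss]
  rcases le_or_gt (r : ℝ) s with hrs | hrs
  · -- small moduli
    refine b2.trans ?_
    have hNs : s ≤ (N : ℝ) := by
      refine le_trans ?_ hN3
      rw [le_div_iff₀ hr0]
      nlinarith
    have hlogN : (v : ℝ) / (2 * H) ≤ Real.log N := by
      rw [← Real.log_exp ((v : ℝ) / (2 * H))]
      exact Real.log_le_log hs0 hNs
    have hNr : (r : ℝ) * N ≤ 6 * (s * s) := by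
      have : (r : ℝ) * N ≤ r * (3 * (s * s) / r + 3) := mul_le_mul_of_nonneg_left hN4 hr0.le
      have e : (r : ℝ) * (3 * (s * s) / r + 3) = 3 * (s * s) + 3 * r := by field_simp
      rw [e] at this
      nlinarith
    have hφ := Pool.Agent.H730R2.AA.Euler.sqrt_le_totient r hr1
    have hφ0 : (0 : ℝ) < Nat.totient r := by exact_mod_cast Nat.totient_pos.mpr hr1
    have hφ2 : 600 * H / ε ≤ 2 * Nat.totient r := by
      refine le_trans ?_ hφ
      apply Real.le_sqrt_of_sq_le
      have h1 : (600 * H / ε) ^ 2 ≤ (⌈(600 * H / ε) ^ 2⌉₊ : ℕ) := Nat.le_ceil _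
      have h2 : ((⌈(600 * (H : ℝ) / ε) ^ 2⌉₊ : ℕ) : ℝ) ≤ r := by
        have : ⌈(600 * (H : ℝ) / ε) ^ 2⌉₊ ≤ r := by omega
        exact_mod_cast this
      linarith
    have hlog0 : 0 < Real.log N := lt_of_lt_of_le (by positivity) hlogN
    have hφ3 : 600 * H ≤ 2 * Nat.totient r * ε := by rwa [div_le_iff₀ hε] at hφ2
    calc 22 * ((r : ℝ) / Nat.totient r) * N / Real.log N = 22 * (r * N) / (Nat.totient r * Real.log N) := by
          field_simp
      _ ≤ 22 * (6 * (s * s)) / (Nat.totient r * ((v : ℝ) / (2 * H))) := by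
          apply div_le_div₀ (by positivity) (by linarith) (by positivity)
          exact mul_le_mul_of_nonneg_left hlogN hφ0.le
      _ = 264 * H * (s * s) / (Nat.totient r * v) := by field_simp; ring
      _ ≤ ε * (s * s) / v := by
          rw [div_le_div_iff₀ (by positivity) hv0']
          have h6 : 264 * (H : ℝ) ≤ ε * Nat.totient r := by linarith
          calc 264 * (H : ℝ) * (s * s) * v = 264 * (H : ℝ) * ((s * s) * v) := by ring
            _ ≤ ε * Nat.totient r * ((s * s) * v) := mul_le_mul_of_nonneg_right h6 (by positivity)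
            _ = _ := by ring
  · -- large moduli
    refine b1.trans (hN4.trans ?_)
    have h1 : 3 * (s * s) / r ≤ 3 * s := by
      rw [div_le_iff₀ hr0]
      nlinarith
    rw [le_div_iff₀ hv0']
    have h2 : 3 * s + 3 ≤ 8 * s := by linarith
    calc (3 * (s * s) / r + 3) * v ≤ (8 * s) * v := mul_le_mul_of_nonneg_right (by linarith) hv0'.le
      _ = s * (8 * v) := by ring
      _ ≤ s * (ε * s) := mul_le_mul_of_nonneg_left hg1 hs0.le
      _ = _ := by ring

end Pool.Agent.W41.MU
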