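import Pool.Agent.W41.MU16

/-! Minor frequencies, part 2: correlations. -/

set_option autoImplicit false

namespace Pool.Agent.W41.MU

open Pool.Agent.H320R2.PD Pool.Agent.H499R2.ND Pool.Agent.H499R2.CO Finset MeasureTheory Pool.Agent.H376R2.MR Pool.Agent.W41.FU Pool.Agent.W41

/-- a shift moving the phase away from `1` -/
theorem exists_shift {β κ : ℝ} (hκ : 0 < κ) (hβ : ∀ k : ℤ, κ ≤ |β - 2 * Real.pi * k|) :
    ∃ h : ℕ, (h : ℝ) ≤ 2 / κ + 1 ∧ 1 ≤ ‖1 - Complex.exp (((β * h : ℝ) : ℂ) * Complex.I)‖ := by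
  have hπ := Real.pi_pos
  set k := round (β / (2 * Real.pi)) with hk
  set t := β - 2 * Real.pi * k with ht
  have ht1 : κ ≤ |t| := hβ k
  have ht2 : |t| ≤ Real.pi := by
    have h1 := abs_sub_round (β / (2 * Real.pi))
    rw [← hk] at h1
    have e : t = 2 * Real.pi * (β / (2 * Real.pi) - k) := by rw [ht]; field_simp
    rw [e, abs_mul, abs_of_pos (by positivity : 0 < 2 * Real.pi)]
    nlinarith
  have ht0 : 0 < |t| := by linarith
  refine ⟨⌈Real.pi / (2 * |t|)⌉₊, ?_, ?_⟩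
  · have h1 : ((⌈Real.pi / (2 * |t|)⌉₊ : ℕ) : ℝ) < Real.pi / (2 * |t|) + 1 := Nat.ceil_lt_add_one (by positivity)
    have h2 : Real.pi / (2 * |t|) ≤ 2 / κ := by
      rw [div_le_div_iff₀ (by positivity) hκ]
      nlinarith [Real.pi_le_four]
    linarith
  · set h := ⌈Real.pi / (2 * |t|)⌉₊ with hh
    have h1 : ((h : ℕ) : ℝ) < Real.pi / (2 * |t|) + 1 := Nat.ceil_lt_add_one (by positivity)
    have h2 : Real.pi / (2 * |t|) ≤ (h : ℕ) := Nat.le_ceil _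
    have e1 : Complex.exp (((β * h : ℝ) : ℂ) * Complex.I) = Complex.exp (((t * h : ℝ) : ℂ) * Complex.I) := by
      have e2 : ((β * h : ℝ) : ℂ) * Complex.I = ((t * h : ℝ) : ℂ) * Complex.I + ((k * h : ℤ) : ℂ) * (2 * Real.pi * Complex.I) := by
        rw [ht]; push_cast; ring
      rw [e2, Complex.exp_add, Complex.exp_int_mul_two_pi_mul_I, mul_one]
    rw [e1]
    have h3 : Real.pi / 2 ≤ |t| * h := by
      have := mul_le_mul_of_nonneg_left h2 ht0.le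
      have e : |t| * (Real.pi / (2 * |t|)) = Real.pi / 2 := by field_simp
      linarith
    have h4 : |t| * h ≤ Real.pi + Real.pi / 2 := by
      have := mul_le_mul_of_nonneg_left h1.le ht0.le
      have e : |t| * (Real.pi / (2 * |t|) + 1) = Real.pi / 2 + |t| := by field_simp
      linarith
    have h5 : Real.cos (t * h) ≤ 0 := by
      rw [← Real.cos_abs, abs_mul, Nat.abs_cast]
      exact Real.cos_nonpos_of_pi_div_two_le_of_le h3 h4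
    have h6 : (1 - Complex.exp (((t * h : ℝ) : ℂ) * Complex.I)).re = 1 - Real.cos (t * h) := by
      rw [Complex.sub_re, Complex.one_re, Complex.exp_ofReal_mul_I_re]
    have h7 := Complex.abs_re_le_norm (1 - Complex.exp (((t * h : ℝ) : ℂ) * Complex.I))
    rw [h6] at h7
    refine le_trans ?_ h7
    rw [abs_of_nonneg (by linarith)]
    linarith

/-- the shift argument -/
theorem shift_bound {G : ℕ → ℂ} (hG : ∀ m, ‖G m‖ ≤ 1) {β E : ℝ} {h A B : ℕ} (hAB : A ≤ B)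
    (hh : 1 ≤ ‖1 - Complex.exp (((β * h : ℝ) : ℂ) * Complex.I)‖)
    (hE : ∑ m ∈ Ico A B, ‖G (m + h) - G m‖ ≤ E) :
    ‖∑ m ∈ Ico A B, G m * Complex.exp (((β * m : ℝ) : ℂ) * Complex.I)‖ ≤ 2 * h + E := by
  set g : ℕ → ℂ := fun m => G m * Complex.exp (((β * m : ℝ) : ℂ) * Complex.I) with hg
  have hgn : ∀ m, ‖g m‖ ≤ 1 := by
    intro m
    rw [hg]
    simp only
    rw [norm_mul, Complex.norm_exp_ofReal_mul_I, mul_one]
    exact hG m
  set z := Complex.exp (((β * h : ℝ) : ℂ) * Complex.I) with hz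
  have hz1 : ‖z‖ = 1 := Complex.norm_exp_ofReal_mul_I _
  have h1 : ‖∑ m ∈ Ico A B, g (m + h) - z * ∑ m ∈ Ico A B, g m‖ ≤ E := by
    rw [mul_sum, ← sum_sub_distrib]
    refine (norm_sum_le _ _).trans (le_trans (sum_le_sum fun m _ => ?_) hE)
    have e : g (m + h) - z * g m = (G (m + h) - G m) * Complex.exp (((β * (m + h : ℕ) : ℝ) : ℂ) * Complex.I) := by
      rw [hg, hz]
      simp only
      have e1 : Complex.exp (((β * (m + h : ℕ) : ℝ) : ℂ) * Complex.I)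
          = Complex.exp (((β * h : ℝ) : ℂ) * Complex.I) * Complex.exp (((β * m : ℝ) : ℂ) * Complex.I) := by
        rw [← Complex.exp_add]; congr 1; push_cast; ring
      rw [e1]; ring
    rw [e, norm_mul, Complex.norm_exp_ofReal_mul_I, mul_one]
  have h2 : ‖∑ m ∈ Ico A B, g (m + h) - ∑ m ∈ Ico A B, g m‖ ≤ 2 * h := by
    rw [sum_Ico_add' g A B h]
    have e1 : ∑ m ∈ Ico A B, g m + ∑ m ∈ Ico B (B + h), g m = ∑ m ∈ Ico A (B + h), g m :=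
      sum_Ico_consecutive g hAB (Nat.le_add_right _ _)
    have e2 : ∑ m ∈ Ico A (A + h), g m + ∑ m ∈ Ico (A + h) (B + h), g m = ∑ m ∈ Ico A (B + h), g m :=
      sum_Ico_consecutive g (Nat.le_add_right _ _) (by omega)
    have e3 : ∑ m ∈ Ico (A + h) (B + h), g m - ∑ m ∈ Ico A B, g m
        = ∑ m ∈ Ico B (B + h), g m - ∑ m ∈ Ico A (A + h), g m := by
      rw [← e1] at e2
      linear_combination e2
    rw [e3]
    have b1 : ∀ C : ℕ, ‖∑ m ∈ Ico C (C + h), g m‖ ≤ h := by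
      intro C
      refine (norm_sum_le _ _).trans ?_
      calc ∑ m ∈ Ico C (C + h), ‖g m‖ ≤ ∑ m ∈ Ico C (C + h), (1 : ℝ) := sum_le_sum fun m _ => hgn m
        _ = h := by rw [sum_const, Nat.card_Ico, Nat.add_sub_cancel_left, nsmul_eq_mul, mul_one]
    refine (norm_sub_le _ _).trans ?_
    linarith [b1 B, b1 A]
  have h3 : (1 - z) * ∑ m ∈ Ico A B, g m
      = (∑ m ∈ Ico A B, g (m + h) - z * ∑ m ∈ Ico A B, g m) - (∑ m ∈ Ico A B, g (m + h) - ∑ m ∈ Ico A B, g m) := by ring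
  have h4 : ‖(1 - z) * ∑ m ∈ Ico A B, g m‖ ≤ E + 2 * h := by
    rw [h3]
    exact (norm_sub_le _ _).trans (add_le_add h1 h2)
  rw [norm_mul] at h4
  have h5 : 1 * ‖∑ m ∈ Ico A B, g m‖ ≤ ‖1 - z‖ * ‖∑ m ∈ Ico A B, g m‖ :=
    mul_le_mul_of_nonneg_right hh (norm_nonneg _)
  linarith

/-- expanding the square -/
theorem sq_expand (T I : Finset ℕ) (w : ℕ → ℂ) (z : ℕ → ℕ → ℂ) :
    ∑ m ∈ I, ‖∑ p ∈ T, w p * z p m‖ ^ 2
      ≤ ∑ p ∈ T, ∑ q ∈ T, ‖w p‖ * ‖w q‖ * ‖∑ m ∈ I, z p m * (starRingEnd ℂ) (z q m)‖ := by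
  have h1 : ∀ m, ((‖∑ p ∈ T, w p * z p m‖ ^ 2 : ℝ) : ℂ)
      = ∑ p ∈ T, ∑ q ∈ T, w p * (starRingEnd ℂ) (w q) * (z p m * (starRingEnd ℂ) (z q m)) := by
    intro m
    rw [← Complex.normSq_eq_norm_sq, ← Complex.mul_conj, map_sum, sum_mul_sum]
    apply sum_congr rfl; intro p _
    apply sum_congr rfl; intro q _
    rw [map_mul]; ring
  have h2 : ((∑ m ∈ I, ‖∑ p ∈ T, w p * z p m‖ ^ 2 : ℝ) : ℂ)
      = ∑ p ∈ T, ∑ q ∈ T, w p * (starRingEnd ℂ) (w q) * ∑ m ∈ I, z p m * (starRingEnd ℂ) (z q m) := by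
    rw [Complex.ofReal_sum]
    calc ∑ m ∈ I, ((‖∑ p ∈ T, w p * z p m‖ ^ 2 : ℝ) : ℂ)
        = ∑ m ∈ I, ∑ p ∈ T, ∑ q ∈ T, w p * (starRingEnd ℂ) (w q) * (z p m * (starRingEnd ℂ) (z q m)) :=
          sum_congr rfl fun m _ => h1 m
      _ = ∑ p ∈ T, ∑ m ∈ I, ∑ q ∈ T, w p * (starRingEnd ℂ) (w q) * (z p m * (starRingEnd ℂ) (z q m)) := sum_comm
      _ = _ := by
          apply sum_congr rfl; intro p _
          rw [sum_comm]
          apply sum_congr rfl; intro q _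
          rw [mul_sum]
  have h3 : ∑ m ∈ I, ‖∑ p ∈ T, w p * z p m‖ ^ 2 = ‖((∑ m ∈ I, ‖∑ p ∈ T, w p * z p m‖ ^ 2 : ℝ) : ℂ)‖ := by
    rw [Complex.norm_real, Real.norm_eq_abs, abs_of_nonneg (sum_nonneg fun m _ => by positivity)]
  rw [h3, h2]
  refine (norm_sum_le _ _).trans (sum_le_sum fun p _ => ?_)
  refine (norm_sum_le _ _).trans (sum_le_sum fun q _ => ?_)
  rw [norm_mul, norm_mul, RCLike.norm_conj]

/-- one pair of primes -/
theorem pair_bound {f : ℤ → ℝ} (hf : ∀ n, |f n| ≤ 1) {εc θ γ : ℝ} {M : ℕ} {p q : ℕ} (hp : p % 2 = 1) (hq : q % 2 = 1)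
    (key : ∀ c : ℤ, c % 2 = 1 → ∀ x0 h : ℤ, |(h : ℝ)| ≤ ((2 * M : ℕ) : ℝ) ^ θ →
      ∑ m ∈ Icc 1 (2 * M), |f (x0 + c * (m : ℕ) + h) - f (x0 + c * (m : ℕ))| ≤ εc * ((2 * M : ℕ) : ℝ))
    (hM : 1 ≤ M) {κ : ℝ} (hκ : 0 < κ) (hβ : ∀ k : ℤ, κ ≤ |γ * ((p : ℝ) - q) - 2 * Real.pi * k|)
    (hph : p * (2 / κ + 1) ≤ ((2 * M : ℕ) : ℝ) ^ θ) (hqh : q * (2 / κ + 1) ≤ ((2 * M : ℕ) : ℝ) ^ θ) :
    ‖∑ m ∈ Ico M (2 * M), tw f γ (((p * m : ℕ) : ℤ)) * (starRingEnd ℂ) (tw f γ (((q * m : ℕ) : ℤ)))‖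
      ≤ 2 * (2 / κ + 1) + 4 * εc * M := by
  obtain ⟨h, hh1, hh2⟩ := exists_shift hκ hβ
  set G : ℕ → ℂ := fun m => ((f (((p * m : ℕ) : ℤ)) * f (((q * m : ℕ) : ℤ)) : ℝ) : ℂ) with hG
  have hG1 : ∀ m, ‖G m‖ ≤ 1 := by
    intro m
    rw [hG]
    simp only
    rw [Complex.norm_real, Real.norm_eq_abs, abs_mul]
    exact mul_le_one₀ (hf _) (abs_nonneg _) (hf _)
  have hsh : ∀ c : ℕ, c % 2 = 1 → c * (2 / κ + 1) ≤ ((2 * M : ℕ) : ℝ) ^ θ →
      ∑ m ∈ Ico M (2 * M), |f (((c * (m + h) : ℕ) : ℤ)) - f (((c * m : ℕ) : ℤ))| ≤ 2 * εc * M := by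
    intro c hc hch
    have hc1 : ((c : ℤ)) % 2 = 1 := by omega
    have k1 := key (c : ℤ) hc1 0 ((c * h : ℕ) : ℤ) (by
      rw [Int.cast_natCast, Nat.abs_cast]
      push_cast
      refine le_trans ?_ (by push_cast at hch; exact hch)
      exact mul_le_mul_of_nonneg_left hh1 (Nat.cast_nonneg _))
    have e1 : ∑ m ∈ Ico M (2 * M), |f (((c * (m + h) : ℕ) : ℤ)) - f (((c * m : ℕ) : ℤ))|
        = ∑ m ∈ Ico M (2 * M), |f (0 + (c : ℤ) * (m : ℕ) + ((c * h : ℕ) : ℤ)) - f (0 + (c : ℤ) * (m : ℕ))| := by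
      apply sum_congr rfl; intro m _
      congr 3
      · congr 1; push_cast; ring
      · push_cast; ring
    rw [e1]
    have e2 : ∑ m ∈ Ico M (2 * M), |f (0 + (c : ℤ) * (m : ℕ) + ((c * h : ℕ) : ℤ)) - f (0 + (c : ℤ) * (m : ℕ))|
        ≤ ∑ m ∈ Icc 1 (2 * M), |f (0 + (c : ℤ) * (m : ℕ) + ((c * h : ℕ) : ℤ)) - f (0 + (c : ℤ) * (m : ℕ))| := by
      apply sum_le_sum_of_subset_of_nonneg
      · intro m hm
        rw [mem_Ico] at hm
        rw [mem_Icc]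
        omega
      · intro m _ _; exact abs_nonneg _
    refine e2.trans (k1.trans (le_of_eq ?_))
    push_cast; ring
  have hE : ∑ m ∈ Ico M (2 * M), ‖G (m + h) - G m‖ ≤ 4 * εc * M := by
    have a1 := hsh p hp hph
    have a2 := hsh q hq hqh
    have a3 : ∀ m ∈ Ico M (2 * M), ‖G (m + h) - G m‖
        ≤ |f (((p * (m + h) : ℕ) : ℤ)) - f (((p * m : ℕ) : ℤ))| + |f (((q * (m + h) : ℕ) : ℤ)) - f (((q * m : ℕ) : ℤ))| := by
      intro m _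
      rw [hG]
      simp only
      rw [← Complex.ofReal_sub, Complex.norm_real, Real.norm_eq_abs]
      have e : f (((p * (m + h) : ℕ) : ℤ)) * f (((q * (m + h) : ℕ) : ℤ)) - f (((p * m : ℕ) : ℤ)) * f (((q * m : ℕ) : ℤ))
          = (f (((p * (m + h) : ℕ) : ℤ)) - f (((p * m : ℕ) : ℤ))) * f (((q * (m + h) : ℕ) : ℤ))
            + f (((p * m : ℕ) : ℤ)) * (f (((q * (m + h) : ℕ) : ℤ)) - f (((q * m : ℕ) : ℤ))) := by ring
      rw [e]
      refine (abs_add_le _ _).trans ?_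
      rw [abs_mul, abs_mul]
      have b1 := mul_le_mul_of_nonneg_left (hf (((q * (m + h) : ℕ) : ℤ))) (abs_nonneg (f (((p * (m + h) : ℕ) : ℤ)) - f (((p * m : ℕ) : ℤ))))
      have b2 := mul_le_mul_of_nonneg_right (hf (((p * m : ℕ) : ℤ))) (abs_nonneg (f (((q * (m + h) : ℕ) : ℤ)) - f (((q * m : ℕ) : ℤ))))
      linarith
    refine (sum_le_sum a3).trans ?_
    rw [sum_add_distrib]
    linarith
  have key2 := shift_bound hG1 (by omega : M ≤ 2 * M) hh2 hE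
  have e3 : ∑ m ∈ Ico M (2 * M), tw f γ (((p * m : ℕ) : ℤ)) * (starRingEnd ℂ) (tw f γ (((q * m : ℕ) : ℤ)))
      = ∑ m ∈ Ico M (2 * M), G m * Complex.exp (((γ * ((p : ℝ) - q) * m : ℝ) : ℂ) * Complex.I) := by
    apply sum_congr rfl; intro m _
    unfold tw
    rw [hG]
    simp only
    rw [map_mul, Complex.conj_ofReal, ← Complex.exp_conj]
    have e4 : (starRingEnd ℂ) (((γ * (((q * m : ℕ) : ℤ) : ℝ) : ℝ) : ℂ) * Complex.I)
        = -(((γ * (((q * m : ℕ) : ℤ) : ℝ) : ℝ) : ℂ) * Complex.I) := by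
      rw [map_mul, Complex.conj_ofReal, Complex.conj_I]; ring
    rw [e4, Complex.ofReal_mul (f (((p * m : ℕ) : ℤ))) (f (((q * m : ℕ) : ℤ)))]
    have e5 : Complex.exp (((γ * ((p : ℝ) - q) * m : ℝ) : ℂ) * Complex.I)
        = Complex.exp (((γ * (((p * m : ℕ) : ℤ) : ℝ) : ℝ) : ℂ) * Complex.I)
          * Complex.exp (-(((γ * (((q * m : ℕ) : ℤ) : ℝ) : ℝ) : ℂ) * Complex.I)) := by
      rw [← Complex.exp_add]; congr 1; push_cast; ring
    rw [e5]; ring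
  rw [e3]
  refine key2.trans ?_
  linarith

end Pool.Agent.W41.MU
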