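import Pool.Agent.W41.MU17

/-! Minor frequencies, part 3. -/

set_option autoImplicit false

namespace Pool.Agent.W41.MU

open Pool.Agent.H320R2.PD Pool.Agent.H499R2.ND Pool.Agent.H499R2.CO Finset MeasureTheory Pool.Agent.H376R2.MR Pool.Agent.W41.FU Pool.Agent.W41

/-- arithmetic of the bad pairs -/
theorem bad_arith {γ κ P : ℝ} {Z r : ℕ} {a d k : ℤ} (hr : 1 ≤ r) (hκ : 0 < κ) (hP : 0 < P)
    (hZ : 8 * P ≤ (Z : ℝ) + 1) (hrZ : r ≤ Z) (hZκ : (Z : ℝ) * κ ≤ 1) (hco : IsCoprime a (r : ℤ))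
    (hD : |γ / (2 * Real.pi) - (a : ℝ) / r| ≤ 1 / (((Z : ℝ) + 1) * r)) (hd : |(d : ℝ)| ≤ 2 * P)
    (hb : |γ * d - 2 * Real.pi * k| < κ) : (r : ℤ) ∣ d ∧ γ * d - 2 * Real.pi * k = d * (γ - 2 * Real.pi * a / r) := by
  have hπ := Real.pi_pos
  have hπ3 := Real.pi_gt_three
  have hr0 : (0 : ℝ) < r := by exact_mod_cast hr
  have hZ0 : (0 : ℝ) < (Z : ℝ) + 1 := by positivity
  have hrZ' : (r : ℝ) ≤ Z := by exact_mod_cast hrZ
  have h1 : |γ / (2 * Real.pi) * d - k| < κ / 6 := by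
    have e : γ / (2 * Real.pi) * d - k = (γ * d - 2 * Real.pi * k) / (2 * Real.pi) := by field_simp
    rw [e, abs_div, abs_of_pos (by positivity : 0 < 2 * Real.pi), div_lt_div_iff₀ (by positivity) (by norm_num)]
    nlinarith
  have h2 : |(a : ℝ) * d - k * r| < 1 := by
    have e : (a : ℝ) * d - k * r = r * ((γ / (2 * Real.pi) * d - k) - (γ / (2 * Real.pi) - (a : ℝ) / r) * d) := by
      field_simp; ring
    rw [e, abs_mul, abs_of_pos hr0]
    have h3 : |(γ / (2 * Real.pi) - (a : ℝ) / r) * d| ≤ 1 / (((Z : ℝ) + 1) * r) * (2 * P) := by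
      rw [abs_mul]
      exact mul_le_mul hD hd (abs_nonneg _) (by positivity)
    have h4 : 1 / (((Z : ℝ) + 1) * r) * (2 * P) ≤ 1 / (4 * r) := by
      rw [one_div_mul_eq_div, div_le_div_iff₀ (by positivity) (by positivity)]
      nlinarith
    have h5 : |(γ / (2 * Real.pi) * d - k) - (γ / (2 * Real.pi) - (a : ℝ) / r) * d| < κ / 6 + 1 / (4 * r) :=
      lt_of_le_of_lt (abs_sub _ _) (by linarith)
    calc r * |(γ / (2 * Real.pi) * d - k) - (γ / (2 * Real.pi) - (a : ℝ) / r) * d|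
        < r * (κ / 6 + 1 / (4 * r)) := mul_lt_mul_of_pos_left h5 hr0
      _ = r * κ / 6 + 1 / 4 := by field_simp
      _ ≤ Z * κ / 6 + 1 / 4 := by
          have := mul_le_mul_of_nonneg_right hrZ' hκ.le
          linarith
      _ < 1 := by linarith
  have h6 : a * d - k * r = 0 := by
    have h7 : |((a * d - k * r : ℤ) : ℝ)| < 1 := by push_cast; exact h2
    have h8 : |a * d - k * (r : ℤ)| < 1 := by exact_mod_cast h7
    exact Int.abs_lt_one_iff.1 h8
  have h9 : a * d = k * r := by linarith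
  refine ⟨?_, ?_⟩
  · have : (r : ℤ) ∣ a * d := ⟨k, by rw [h9]; ring⟩
    exact hco.symm.dvd_of_dvd_mul_left this
  · have h10 : (k : ℝ) = a * d / r := by
      rw [eq_div_iff hr0.ne']
      exact_mod_cast h9.symm
    rw [h10]; ring

/-- the number of bad partners of a prime -/
theorem bad_count {γ κ P C : ℝ} {H v R0 : ℕ} (hH : 10 ≤ H) (hR0 : 1 ≤ R0) (hP : P = Real.exp ((v : ℝ) / H)) (hκ : 0 < κ)
    (hPκ : 16 * P * κ ≤ 1) (hC1 : 1 ≤ C)
    (hcl : ∀ r : ℕ, R0 ≤ r → ∀ c : ℕ, (((cell H v).filter (fun q => q % r = c % r)).card : ℝ) ≤ C)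
    (hγ : ∀ r : ℕ, 1 ≤ r → r < R0 → ∀ a : ℤ, κ < |γ - 2 * Real.pi * a / r|) {p : ℕ} (hp : p ∈ cell H v)
    {U : Finset ℕ} (hU : U ⊆ cell H v) (hbad : ∀ q ∈ U, ∃ k : ℤ, |γ * ((p : ℝ) - q) - 2 * Real.pi * k| < κ) :
    (U.card : ℝ) ≤ C := by
  have hH0 : (0 : ℝ) < H := by exact_mod_cast (by omega : 0 < H)
  have hP1 : 1 ≤ P := by rw [hP]; exact Real.one_le_exp (by positivity)
  have hP0 : 0 < P := by linarith
  set Z := ⌈8 * P⌉₊ with hZ
  have hZ1 : 8 * P ≤ Z := Nat.le_ceil _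
  have hZ2 : (Z : ℝ) < 8 * P + 1 := Nat.ceil_lt_add_one (by positivity)
  have hZn : 0 < Z := by
    have : (0 : ℝ) < Z := by linarith
    exact_mod_cast this
  obtain ⟨ρ, hρ1, hρ2⟩ := Real.exists_rat_abs_sub_le_and_den_le (γ / (2 * Real.pi)) hZn
  have hcast : (ρ : ℝ) = (ρ.num : ℝ) / ρ.den := Rat.cast_def ρ
  rw [hcast] at hρ1
  have hden : 1 ≤ ρ.den := ρ.pos
  have hco : IsCoprime ρ.num (ρ.den : ℤ) := by
    rw [Int.isCoprime_iff_gcd_eq_one]
    have := ρ.reduced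
    unfold Nat.Coprime at this
    simpa [Int.gcd] using this
  have hup : ∀ q ∈ cell H v, P ≤ (q : ℝ) ∧ (q : ℝ) ≤ 2 * P := by
    intro q hq
    have h1 := cell_lt hq
    have hq0 : (0 : ℝ) < q := by exact_mod_cast h1.1.pos
    constructor
    · rw [hP, ← Real.exp_log hq0]
      exact Real.exp_le_exp.2 h1.2.1
    · rw [← Real.exp_log hq0]
      calc Real.exp (Real.log q) ≤ Real.exp (((v : ℝ) + 1) / H) := Real.exp_le_exp.2 h1.2.2.le
        _ = Real.exp (1 / H) * P := by rw [hP, ← Real.exp_add]; congr 1; ring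
        _ ≤ Real.exp (9 / 20) * P := by
            apply mul_le_mul_of_nonneg_right _ hP0.le
            apply Real.exp_le_exp.2
            have : 1 / (H : ℝ) ≤ 1 / 10 := one_div_le_one_div_of_le (by norm_num) (by exact_mod_cast hH)
            linarith
        _ ≤ 2 * P := mul_le_mul_of_nonneg_right exp_045 hP0.le
  have key : ∀ q ∈ U, ((ρ.den : ℤ) ∣ (p : ℤ) - q) ∧ (ρ.den < R0 → q = p) := by
    intro q hq
    obtain ⟨k, hk⟩ := hbad q hq
    obtain ⟨a1, a2⟩ := hup q (hU hq)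
    obtain ⟨b1, b2⟩ := hup p hp
    have hd : |(((p : ℤ) - q : ℤ) : ℝ)| ≤ 2 * P := by
      push_cast
      rw [abs_le]
      constructor <;> linarith
    have hb : |γ * (((p : ℤ) - q : ℤ) : ℝ) - 2 * Real.pi * k| < κ := by push_cast; exact hk
    have hZκ : (Z : ℝ) * κ ≤ 1 := by
      have : (Z : ℝ) * κ ≤ (16 * P) * κ := mul_le_mul_of_nonneg_right (by linarith) hκ.le
      linarith
    obtain ⟨c1, c2⟩ := bad_arith hden hκ hP0 (by linarith) hρ2 hZκ hco hρ1 hd hb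
    refine ⟨c1, fun hR => ?_⟩
    by_contra hne
    have hne' : ((p : ℤ) - q : ℤ) ≠ 0 := by
      intro h0
      apply hne
      have : (p : ℤ) = q := by linarith
      exact_mod_cast this.symm
    have h1 := hγ ρ.den hden hR ρ.num
    rw [c2, abs_mul] at hb
    have h2 : (1 : ℝ) ≤ |(((p : ℤ) - q : ℤ) : ℝ)| := by
      have := Int.one_le_abs hne'
      exact_mod_cast this
    have h3 : κ ≤ |(((p : ℤ) - q : ℤ) : ℝ)| * |γ - 2 * Real.pi * (ρ.num : ℝ) / (ρ.den : ℝ)| := by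
      calc κ = 1 * κ := by ring
        _ ≤ _ := mul_le_mul h2 h1.le hκ.le (by positivity)
    linarith
  rcases lt_or_ge ρ.den R0 with hR | hR
  · have h1 : U ⊆ {p} := by
      intro q hq
      rw [mem_singleton]
      exact (key q hq).2 hR
    have h2 : U.card ≤ 1 := (card_le_card h1).trans (by simp)
    have h3 : (U.card : ℝ) ≤ 1 := by exact_mod_cast h2
    linarith
  · have h1 : U ⊆ (cell H v).filter (fun q => q % ρ.den = p % ρ.den) := by
      intro q hq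
      rw [mem_filter]
      refine ⟨hU hq, ?_⟩
      have h2 := (key q hq).1
      have h3 : (q : ℤ) ≡ p [ZMOD ρ.den] := (Int.modEq_iff_dvd).2 h2
      exact (Int.natCast_modEq_iff.1 h3)
    have h2 : (U.card : ℝ) ≤ (((cell H v).filter (fun q => q % ρ.den = p % ρ.den)).card : ℝ) := by
      exact_mod_cast card_le_card h1
    exact h2.trans (hcl _ hR p)

/-- the mean square through the pairs -/
theorem minor_core {f : ℤ → ℝ} (hf : ∀ n, |f n| ≤ 1) {εc θ γ κ P C : ℝ} {M H v : ℕ} (hεc : 0 ≤ εc)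
    (hodd : ∀ p ∈ cell H v, p % 2 = 1) (hM : 1 ≤ M)
    (key : ∀ c : ℤ, c % 2 = 1 → ∀ x0 h : ℤ, |(h : ℝ)| ≤ ((2 * M : ℕ) : ℝ) ^ θ →
      ∑ m ∈ Icc 1 (2 * M), |f (x0 + c * (m : ℕ) + h) - f (x0 + c * (m : ℕ))| ≤ εc * ((2 * M : ℕ) : ℝ))
    (hκ : 0 < κ) (hP : P = Real.exp ((v : ℝ) / H)) (hC : 0 ≤ C)
    (hph : ∀ p ∈ cell H v, p * (2 / κ + 1) ≤ ((2 * M : ℕ) : ℝ) ^ θ)
    (hbad : ∀ p ∈ cell H v, ∀ U : Finset ℕ, U ⊆ cell H v →
      (∀ q ∈ U, ∃ k : ℤ, |γ * ((p : ℝ) - q) - 2 * Real.pi * k| < κ) → (U.card : ℝ) ≤ C)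
    {w : ℕ → ℂ} (hw : ∀ p ∈ cell H v, ‖w p‖ ≤ 1 / p) :
    ∑ m ∈ Ico M (2 * M), ‖∑ p ∈ cell H v, w p * tw f γ (((p * m : ℕ) : ℤ))‖ ^ 2
      ≤ mm H v * (C / P) * M + mm H v ^ 2 * (2 * (2 / κ + 1) + 4 * εc * M) := by
  classical
  refine (sq_expand (cell H v) (Ico M (2 * M)) w (fun p m => tw f γ (((p * m : ℕ) : ℤ)))).trans ?_
  have hP0 : 0 < P := by rw [hP]; exact Real.exp_pos _
  have hMr : (0 : ℝ) ≤ M := Nat.cast_nonneg _
  set B : ℝ := 2 * (2 / κ + 1) + 4 * εc * M with hB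
  have hB0 : 0 ≤ B := by positivity
  have hmm0 : 0 ≤ mm H v := sum_nonneg fun p _ => by positivity
  have hmm : ∑ p ∈ cell H v, 1 / (p : ℝ) = mm H v := rfl
  have h1 : ∀ p ∈ cell H v, ∑ q ∈ cell H v, ‖w p‖ * ‖w q‖
        * ‖∑ m ∈ Ico M (2 * M), tw f γ (((p * m : ℕ) : ℤ)) * (starRingEnd ℂ) (tw f γ (((q * m : ℕ) : ℤ)))‖
      ≤ 1 / p * (C / P * M + mm H v * B) := by
    intro p hp
    set U : Finset ℕ := (cell H v).filter (fun q : ℕ => ∃ k : ℤ, |γ * ((p : ℝ) - q) - 2 * Real.pi * k| < κ) with hU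
    have hUc := hbad p hp U (filter_subset _ _) fun q hq => (mem_filter.1 hq).2
    have hp0 : (0 : ℝ) < p := by exact_mod_cast (cell_lt hp).1.pos
    have h2 : ∀ q ∈ cell H v, ‖w p‖ * ‖w q‖
        * ‖∑ m ∈ Ico M (2 * M), tw f γ (((p * m : ℕ) : ℤ)) * (starRingEnd ℂ) (tw f γ (((q * m : ℕ) : ℤ)))‖
        ≤ 1 / p * ((if q ∈ U then 1 / P * M else 0) + 1 / q * B) := by
      intro q hq
      have hq0 : (0 : ℝ) < q := by exact_mod_cast (cell_lt hq).1.pos
      have hPq : P ≤ q := by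
        rw [hP, ← Real.exp_log hq0]
        exact Real.exp_le_exp.2 (cell_lt hq).2.1
      have h3 : ‖w p‖ * ‖w q‖ ≤ 1 / p * (1 / q) := mul_le_mul (hw p hp) (hw q hq) (norm_nonneg _) (by positivity)
      by_cases hqU : q ∈ U
      · rw [if_pos hqU]
        have h4 : ‖∑ m ∈ Ico M (2 * M), tw f γ (((p * m : ℕ) : ℤ)) * (starRingEnd ℂ) (tw f γ (((q * m : ℕ) : ℤ)))‖ ≤ M := by
          refine (norm_sum_le _ _).trans ?_
          calc ∑ m ∈ Ico M (2 * M), ‖tw f γ (((p * m : ℕ) : ℤ)) * (starRingEnd ℂ) (tw f γ (((q * m : ℕ) : ℤ)))‖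
              ≤ ∑ m ∈ Ico M (2 * M), (1 : ℝ) := by
                apply sum_le_sum; intro m _
                rw [norm_mul, RCLike.norm_conj]
                exact mul_le_one₀ (tw_norm hf _ _) (norm_nonneg _) (tw_norm hf _ _)
            _ = M := by
                rw [sum_const, Nat.card_Ico, nsmul_eq_mul, mul_one]
                congr 1; omega
        have h5 : 1 / (q : ℝ) ≤ 1 / P := one_div_le_one_div_of_le hP0 hPq
        calc ‖w p‖ * ‖w q‖
            * ‖∑ m ∈ Ico M (2 * M), tw f γ (((p * m : ℕ) : ℤ)) * (starRingEnd ℂ) (tw f γ (((q * m : ℕ) : ℤ)))‖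
            ≤ 1 / p * (1 / q) * M := mul_le_mul h3 h4 (norm_nonneg _) (by positivity)
          _ ≤ 1 / p * (1 / P) * M := by
              apply mul_le_mul_of_nonneg_right _ hMr
              exact mul_le_mul_of_nonneg_left h5 (by positivity)
          _ = 1 / p * (1 / P * M) := by ring
          _ ≤ _ := by
              apply mul_le_mul_of_nonneg_left _ (by positivity)
              have : 0 ≤ 1 / (q : ℝ) * B := by positivity
              linarith
      · rw [if_neg hqU, zero_add]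
        have hβ : ∀ k : ℤ, κ ≤ |γ * ((p : ℝ) - q) - 2 * Real.pi * k| := by
          intro k
          by_contra hcon
          exact hqU (mem_filter.2 ⟨hq, k, lt_of_not_ge hcon⟩)
        have h4 := pair_bound hf (hodd p hp) (hodd q hq) key hM hκ hβ (hph p hp) (hph q hq)
        calc ‖w p‖ * ‖w q‖
            * ‖∑ m ∈ Ico M (2 * M), tw f γ (((p * m : ℕ) : ℤ)) * (starRingEnd ℂ) (tw f γ (((q * m : ℕ) : ℤ)))‖
            ≤ 1 / p * (1 / q) * B := mul_le_mul h3 h4 (norm_nonneg _) (by positivity)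
          _ = _ := by ring
    refine (sum_le_sum h2).trans ?_
    rw [← mul_sum, sum_add_distrib, ← sum_mul, hmm]
    apply mul_le_mul_of_nonneg_left _ (by positivity)
    have h6 : ∑ q ∈ cell H v, (if q ∈ U then 1 / P * (M : ℝ) else 0) = U.card * (1 / P * M) := by
      rw [← sum_filter, filter_mem_eq_inter, inter_eq_right.2 (filter_subset _ _), sum_const, nsmul_eq_mul]
    rw [h6]
    have h7 : (U.card : ℝ) * (1 / P * M) ≤ C * (1 / P * M) := mul_le_mul_of_nonneg_right hUc (by positivity)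
    have e : C * (1 / P * M) = C / P * M := by ring
    linarith
  refine (sum_le_sum h1).trans ?_
  rw [← sum_mul, hmm]
  apply le_of_eq
  ring

end Pool.Agent.W41.MU
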