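import Pool.Agent.W41.MU18
import Pool.Agent.H376R2.MR.Pntc

/-! Minor frequencies, part 4: the theorem. -/

set_option autoImplicit false

namespace Pool.Agent.W41.MU

open Pool.Agent.H320R2.PD Pool.Agent.H499R2.ND Pool.Agent.H499R2.CO Finset MeasureTheory Pool.Agent.H376R2.MR Pool.Agent.W41.FU Pool.Agent.W41

theorem mm_lower {H : ℕ} (hH : 1 ≤ H) : ∃ v0 : ℕ, 1 ≤ v0 ∧ ∀ v : ℕ, v0 ≤ v → 1 / 2 ≤ v * mm H v ∧ v * mm H v ≤ 2 := by
  have h := cell_pnt H hH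
  have h1 := (h.eventually (lt_mem_nhds (by norm_num : (1 / 2 : ℝ) < 1))).and
    (h.eventually (gt_mem_nhds (by norm_num : (1 : ℝ) < 2)))
  obtain ⟨v0, hv0⟩ := Filter.eventually_atTop.1 h1
  exact ⟨v0 + 1, by omega, fun v hv => ⟨(hv0 v (by omega)).1.le, (hv0 v (by omega)).2.le⟩⟩

theorem cell_odd {H v : ℕ} (hH : 1 ≤ H) (hv : H ≤ v) : ∀ p ∈ cell H v, p % 2 = 1 := by
  intro p hp
  have hH0 : (0 : ℝ) < H := by exact_mod_cast hH
  have h1 := cell_lt hp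
  have hv1 : (1 : ℝ) ≤ (v : ℝ) / H := by
    rw [le_div_iff₀ hH0, one_mul]; exact_mod_cast hv
  rcases h1.1.eq_two_or_odd with h2 | h2
  · exfalso
    have h3 := h1.2.1
    rw [h2] at h3
    have := Real.log_two_lt_d9
    push_cast at h3
    linarith
  · exact h2

/-- MINOR FREQUENCIES. -/
theorem minor {s : ℤ} (hs : s = 1 ∨ s = -1) {ε : ℝ} (hε : 0 < ε) (hε1 : ε ≤ 1) {H : ℕ} (hH : 10 ≤ H) :
    ∃ R0 : ℕ, 1 ≤ R0 ∧
    ∃ ϑ0 : ℝ, 0 < ϑ0 ∧ ϑ0 ≤ 1 / 4 ∧ ∀ ϑ : ℝ, 0 < ϑ → ϑ ≤ ϑ0 → ∀ θ1 : ℝ, 0 < θ1 → ∃ X0 : ℝ, 1 ≤ X0 ∧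
    ∀ X : ℝ, X0 ≤ X → ∀ S : Set ℤ, Inv 1 S → ∀ δ : ℝ, HD s S δ → ∀ γ : ℝ,
    (∀ r : ℕ, 1 ≤ r → r < R0 → ∀ a : ℤ, X ^ (-(ϑ / 2)) < |γ - 2 * Real.pi * a / r|) →
    ∀ v M : ℕ, θ1 * Real.log X ≤ (v : ℝ) / H → ((v : ℝ) + 1) / H ≤ ϑ / 8 * Real.log X →
    X ≤ 4 * (M * Real.exp ((v : ℝ) / H)) → M * Real.exp ((v : ℝ) / H) ≤ 4 * X →
    ∀ w : ℕ → ℂ, (∀ p ∈ cell H v, ‖w p‖ ≤ 1 / p) →
    ∑ m ∈ Ico M (2 * M), ‖∑ p ∈ cell H v, w p * tw (bal s S δ) γ (((p * m : ℕ) : ℤ))‖ ^ 2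
      ≤ ε * (M * mm H v ^ 2) := by
  have hsd : Odd s := by rcases hs with h | h <;> rw [h] <;> decide
  have hss : s * s = 1 := by rcases hs with h | h <;> rw [h] <;> norm_num
  have hεc0 : 0 < ε / 16 := by positivity
  obtain ⟨θL, hθL0, hθL1, ML, hML1, hLC⟩ := lc hsd hss hεc0 (by linarith)
  have hεb0 : 0 < ε / 8 := by positivity
  obtain ⟨R0, hR01, vc, hvc1, hcl⟩ := cell_class (by omega : 1 ≤ H) hεb0
  obtain ⟨vm, hvm1, hmm⟩ := mm_lower (by omega : 1 ≤ H)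
  -- growth in `v`
  have hH0 : (0 : ℝ) < H := by exact_mod_cast (by omega : 0 < H)
  have hg : ∃ vg : ℕ, ∀ v : ℕ, vg ≤ v → 1 ≤ ε / 8 * Real.exp ((v : ℝ) / H) / v := by
    have h1 : Filter.Tendsto (fun v : ℕ => (v : ℝ) / H) Filter.atTop Filter.atTop :=
      Filter.Tendsto.atTop_div_const hH0 tendsto_natCast_atTop_atTop
    have h2 := (Real.tendsto_exp_div_pow_atTop 1).comp h1
    have h3 := h2.eventually_ge_atTop (8 * H / ε)
    obtain ⟨v0, hv0⟩ := Filter.eventually_atTop.1 (h3.and (Filter.eventually_ge_atTop 1))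
    refine ⟨v0, fun v hv => ?_⟩
    obtain ⟨a1, a3⟩ := hv0 v hv
    simp only [Function.comp, pow_one] at a1
    have hv' : (0 : ℝ) < v := by exact_mod_cast a3
    rw [le_div_iff₀ (by positivity), div_mul_eq_mul_div, div_le_iff₀ hε] at a1
    have e : 8 * (H : ℝ) * ((v : ℝ) / H) = 8 * v := by field_simp
    rw [e] at a1
    rw [le_div_iff₀ hv']
    linarith
  obtain ⟨vg, hvg⟩ := hg
  refine ⟨R0, hR01, min (1 / 4) (θL / 2), by positivity, min_le_left _ _, fun ϑ hϑ hϑ0 θ1 hθ1 => ?_⟩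
  have hϑ1 : ϑ ≤ 1 / 4 := hϑ0.trans (min_le_left _ _)
  have hϑ3 : ϑ ≤ θL / 2 := hϑ0.trans (min_le_right _ _)
  obtain ⟨vL, hvL⟩ : ∃ vL : ℕ, vL = vc + vm + vg + H := ⟨_, rfl⟩
  obtain ⟨Yc, hYc⟩ : ∃ Yc : ℝ, Yc = 96 / ε + ML + 16 := ⟨_, rfl⟩
  have hML0 : (0 : ℝ) ≤ ML := Nat.cast_nonneg _
  have hq0 : 0 < 96 / ε := by positivity
  have hYc4 : 16 ≤ Yc := by rw [hYc]; linarith only [hq0, hML0]
  obtain ⟨X1, hX1⟩ := Filter.eventually_atTop.1 ((tendsto_rpow_atTop (by positivity : 0 < ϑ / 8)).eventually_ge_atTop Yc)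
  refine ⟨max X1 (max (Real.exp ((vL : ℝ) / (H * θ1))) 64), ?_, ?_⟩
  · refine le_trans ?_ (le_max_right _ _)
    refine le_trans ?_ (le_max_right _ _)
    norm_num
  intro X hX S hS δ hδ γ hγ v M hv1 hv2 hQ1 hQ2 w hw
  have hXa : X1 ≤ X := (le_max_left _ _).trans hX
  have hXc : Real.exp ((vL : ℝ) / (H * θ1)) ≤ X := ((le_max_left _ _).trans (le_max_right _ _)).trans hX
  have hX64 : 64 ≤ X := ((le_max_right _ _).trans (le_max_right _ _)).trans hX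
  clear hX
  have hX0 : 0 < X := by linarith only [hX64]
  have hX1' : 1 ≤ X := by linarith only [hX64]
  obtain ⟨y, hy⟩ : ∃ y : ℝ, y = X ^ (ϑ / 8) := ⟨_, rfl⟩
  have hyY : Yc ≤ y := by rw [hy]; exact hX1 X hXa
  have hy16 : 16 ≤ y := hYc4.trans hyY
  have hy4 : 4 ≤ y := by linarith only [hy16]
  have hy0 : 0 < y := by linarith only [hy4]
  have hyM : (ML : ℝ) ≤ y := by rw [hYc] at hyY; linarith only [hyY, hq0]
  have hyε : 96 ≤ y * ε := by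
    have h1 : 96 / ε ≤ y := by rw [hYc] at hyY; linarith only [hyY, hML0]
    rwa [div_le_iff₀ hε] at h1
  obtain ⟨hyX, hyX8, hXγ, hypow⟩ := num_X hϑ hϑ1 hX64 hy hy4
  obtain ⟨κ, hκ⟩ : ∃ κ : ℝ, κ = X ^ (-(ϑ / 2)) := ⟨_, rfl⟩
  have hκ0 : 0 < κ := by rw [hκ]; positivity
  have hκy : κ * y ^ 4 = 1 := by rw [hκ]; exact hXγ
  rw [← hκ] at hγ
  have hev : Real.exp (((v : ℝ) + 1) / H) ≤ y := by
    calc Real.exp (((v : ℝ) + 1) / H) ≤ Real.exp (ϑ / 8 * Real.log X) := Real.exp_le_exp.2 hv2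
      _ = y := by rw [hy, Real.rpow_def_of_pos hX0]; ring_nf
  obtain ⟨P, hP⟩ : ∃ P : ℝ, P = Real.exp ((v : ℝ) / H) := ⟨_, rfl⟩
  have hPy : P ≤ y := by
    rw [hP]
    refine le_trans (Real.exp_le_exp.2 ?_) hev
    apply div_le_div_of_nonneg_right _ hH0.le
    linarith only
  have hP0 : 0 < P := by rw [hP]; exact Real.exp_pos _
  obtain ⟨Q, hQ⟩ : ∃ Q : ℝ, Q = M * P := ⟨_, rfl⟩
  rw [← hP, ← hQ] at hQ1 hQ2
  have hXQ : X / 4 ≤ Q := by linarith only [hQ1]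
  have hQ0 : 0 < Q := by linarith only [hXQ, hX0]
  have hM1 : 1 ≤ M := by
    rcases Nat.eq_zero_or_pos M with h | h
    · rw [h] at hQ
      simp only [Nat.cast_zero, zero_mul] at hQ
      linarith only [hQ, hQ0]
    · exact h
  have hM0 : (0 : ℝ) < M := by exact_mod_cast hM1
  have hMy : X / 4 ≤ M * y := by
    refine hXQ.trans ?_
    rw [hQ]
    exact mul_le_mul_of_nonneg_left hPy hM0.le
  have hMX : X ^ (1 / 2 : ℝ) ≤ ((2 * M : ℕ) : ℝ) := by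
    push_cast
    exact num_M hX64 hy4 hyX hMy
  have hMM : ML ≤ 2 * M := by
    have h1 : (ML : ℝ) ≤ ((2 * M : ℕ) : ℝ) := by
      refine hyM.trans (le_trans ?_ (hyX.trans hMX))
      nlinarith only [pow_le_pow_left₀ (by norm_num : (0:ℝ) ≤ 4) hy4 3, hy4]
    exact_mod_cast h1
  have hvv : vL ≤ v := by
    have h1 : (vL : ℝ) / (H * θ1) ≤ Real.log X := by
      rw [← Real.log_exp ((vL : ℝ) / (H * θ1))]
      exact Real.log_le_log (Real.exp_pos _) hXc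
    rw [div_le_iff₀ (by positivity)] at h1
    rw [le_div_iff₀ hH0] at hv1
    have : (vL : ℝ) ≤ v := by linarith only [h1, hv1]
    exact_mod_cast this
  have hvH : H ≤ v := by omega
  obtain ⟨hd0, hd1⟩ := HD_mem hs hδ
  have hf : bal s S δ ∈ SameT s := bal_same hs hS hd0 hd1
  -- the shifts
  have hph : ∀ p ∈ cell H v, p * (2 / κ + 1) ≤ ((2 * M : ℕ) : ℝ) ^ θL := by
    intro p hp
    have h1 := cell_lt hp
    have hp0 : (0 : ℝ) < p := by exact_mod_cast h1.1.pos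
    have hpy : (p : ℝ) ≤ y := by
      rw [← Real.exp_log hp0]
      exact (Real.exp_le_exp.2 h1.2.2.le).trans hev
    have h2 : 2 / κ = 2 * y ^ 4 := by
      rw [div_eq_iff hκ0.ne']; linear_combination -2 * hκy
    have h3 : p * (2 / κ + 1) ≤ y ^ 6 := by
      rw [h2]
      calc (p : ℝ) * (2 * y ^ 4 + 1) ≤ y * (2 * y ^ 4 + 1) := mul_le_mul_of_nonneg_right hpy (by positivity)
        _ ≤ y * y ^ 5 := by
            apply mul_le_mul_of_nonneg_left _ hy0.le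
            have h5 : 1 ≤ y ^ 4 := one_le_pow₀ (by linarith only [hy4])
            have h6 : 3 * y ^ 4 ≤ y * y ^ 4 := mul_le_mul_of_nonneg_right (by linarith only [hy4]) (by positivity)
            have e : y * y ^ 4 = y ^ 5 := by ring
            linarith only [h5, h6, e]
        _ = y ^ 6 := by ring
    calc (p : ℝ) * (2 / κ + 1) ≤ y ^ 6 := h3
      _ = X ^ (ϑ / 8 * (6 : ℕ)) := hypow 6
      _ ≤ X ^ (1 / 2 * θL) := by
          apply Real.rpow_le_rpow_of_exponent_le hX1'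
          push_cast; linarith only [hϑ3, hθL0]
      _ = (X ^ (1 / 2 : ℝ)) ^ θL := Real.rpow_mul hX0.le _ _
      _ ≤ _ := Real.rpow_le_rpow (by positivity) hMX hθL0.le
  -- the bad pairs
  obtain ⟨C, hC⟩ : ∃ C : ℝ, C = ε / 8 * P / v := ⟨_, rfl⟩
  have hv0 : (0 : ℝ) < v := by exact_mod_cast (by omega : 0 < v)
  have hC1 : 1 ≤ C := by rw [hC, hP]; exact hvg v (by omega)
  have hPκ : 16 * P * κ ≤ 1 := by
    have h1 : 16 * P ≤ y ^ 4 := by
      have h2 : 16 * P ≤ y * y := mul_le_mul hy16 hPy hP0.le hy0.le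
      have h3 : y ^ 2 ≤ y ^ 4 := pow_le_pow_right₀ (by linarith only [hy4]) (by norm_num)
      have e : y * y = y ^ 2 := by ring
      linarith only [h2, h3, e]
    calc 16 * P * κ ≤ y ^ 4 * κ := mul_le_mul_of_nonneg_right h1 hκ0.le
      _ = 1 := by rw [mul_comm]; exact hκy
  have hbad : ∀ p ∈ cell H v, ∀ U : Finset ℕ, U ⊆ cell H v →
      (∀ q ∈ U, ∃ k : ℤ, |γ * ((p : ℝ) - q) - 2 * Real.pi * k| < κ) → (U.card : ℝ) ≤ C := by
    intro p hp U hU hUb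
    refine bad_count hH hR01 hP hκ0 hPκ hC1 ?_ hγ hp hU hUb
    intro r hr c
    rw [hC, hP]
    exact hcl v (by omega) r hr c
  have key := minor_core (fun n => bal_abs hd0 hd1 n) hεc0.le (cell_odd (by omega) hvH) hM1
    (fun c hc x0 h hh => hLC (2 * M) hMM _ hf c hc x0 h hh) hκ0 hP (by linarith only [hC1]) hph hbad hw
  refine key.trans ?_
  obtain ⟨hm1, _⟩ := hmm v (by omega)
  have hmm0 : 0 ≤ mm H v := sum_nonneg fun p _ => by positivity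
  have q1 : mm H v * (C / P) * M ≤ ε / 4 * (M * mm H v ^ 2) := by
    have h1 : C / P = ε / 8 / v := by rw [hC]; field_simp
    rw [h1]
    have h2 : 1 / (v : ℝ) ≤ 2 * mm H v := by
      rw [div_le_iff₀ hv0]; linarith only [hm1]
    calc mm H v * (ε / 8 / v) * M = (ε / 8 * mm H v * M) * (1 / v) := by ring
      _ ≤ (ε / 8 * mm H v * M) * (2 * mm H v) := mul_le_mul_of_nonneg_left h2 (by positivity)
      _ = _ := by ring
  have q2 : mm H v ^ 2 * (2 * (2 / κ + 1) + 4 * (ε / 16) * M) ≤ ε / 2 * (M * mm H v ^ 2) := by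
    have h2 : 2 / κ = 2 * y ^ 4 := by
      rw [div_eq_iff hκ0.ne']; linear_combination -2 * hκy
    have h3 : 2 * (2 / κ + 1) ≤ ε / 4 * M := by
      rw [h2]
      have h4 : y ^ 7 ≤ 4 * M := by
        have h5 : y ^ 7 * y ≤ 4 * M * y := by
          have e : y ^ 7 * y = y ^ 8 := by ring
          linarith only [e, hyX8, hMy]
        exact le_of_mul_le_mul_right h5 hy0
      have h6 : 1 ≤ y ^ 4 := one_le_pow₀ (by linarith only [hy4])
      have h7 : 96 * y ^ 4 ≤ y * ε * y ^ 4 := mul_le_mul_of_nonneg_right hyε (by positivity)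
      have h8 : y * ε * y ^ 4 ≤ ε * y ^ 7 := by
        have h9 : y ^ 5 ≤ y ^ 7 := pow_le_pow_right₀ (by linarith only [hy4]) (by norm_num)
        calc y * ε * y ^ 4 = ε * y ^ 5 := by ring
          _ ≤ ε * y ^ 7 := mul_le_mul_of_nonneg_left h9 hε.le
      have h10 : ε * y ^ 7 ≤ ε * (4 * M) := mul_le_mul_of_nonneg_left h4 hε.le
      linarith only [h6, h7, h8, h10]
    calc mm H v ^ 2 * (2 * (2 / κ + 1) + 4 * (ε / 16) * M)
        ≤ mm H v ^ 2 * (ε / 4 * M + 4 * (ε / 16) * M) := by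
          apply mul_le_mul_of_nonneg_left _ (by positivity)
          linarith only [h3]
      _ = _ := by ring
  have h0 : 0 ≤ (M : ℝ) * mm H v ^ 2 := by positivity
  calc mm H v * (C / P) * M + mm H v ^ 2 * (2 * (2 / κ + 1) + 4 * (ε / 16) * M)
      ≤ ε / 4 * (M * mm H v ^ 2) + ε / 2 * (M * mm H v ^ 2) := add_le_add q1 q2
    _ ≤ _ := by nlinarith only [h0, hε]

end Pool.Agent.W41.MU
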