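import Pool.Agent.W41.MU1

/-! Correlations with the functions `cos (γ n + τ log n + φ)`: the scales just above the frequency. -/

set_option autoImplicit false

namespace Pool.Agent.W41.MU

open Pool.Agent.H320R2.PD Pool.Agent.H499R2.ND Finset Pool.Agent.H499R2.CO Pool.Agent.W41.FU Pool.Agent.W41

/-- few blocks with a small derivative of the phase -/
theorem few_bad {b τ κ : ℝ} {J : ℕ} (hJ : 1 ≤ J) (hκ : 0 < κ) (hκ1 : κ ≤ 1 / 4) (hβ : 0 < |b| + |τ|)
    {S : Finset ℕ} (hS : ∀ j ∈ S, j < J ∧ |b + τ / (1 + j / J)| < κ * (|b| + |τ|)) :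
    (S.card : ℝ) ≤ 32 * κ * J + 1 := by
  have hJ0 : (0 : ℝ) < J := by exact_mod_cast hJ
  set β := |b| + |τ| with hβd
  have hu : ∀ j : ℕ, j < J → (1 : ℝ) ≤ 1 + j / J ∧ (1 + j / J : ℝ) ≤ 2 := by
    intro j hj
    have h1 : (0 : ℝ) ≤ (j : ℝ) / J := by positivity
    have h2 : (j : ℝ) / J ≤ 1 := by
      rw [div_le_one hJ0]; exact_mod_cast hj.le
    constructor <;> linarith
  rcases lt_or_ge |τ| (β / 4) with hτ | hτ
  · have : S = ∅ := by
      by_contra hne
      obtain ⟨j, hj⟩ := nonempty_iff_ne_empty.2 hne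
      obtain ⟨h1, h2⟩ := hS j hj
      obtain ⟨h3, h4⟩ := hu j h1
      have h5 : |τ / (1 + j / J)| ≤ |τ| := by
        rw [abs_div, abs_of_pos (by linarith : (0 : ℝ) < 1 + j / J)]
        exact div_le_self (abs_nonneg _) h3
      have h6 : |b| ≤ |b + τ / (1 + j / J)| + |τ / (1 + j / J)| := by
        have := abs_sub (b + τ / (1 + j / J)) (τ / (1 + j / J))
        simpa using this
      have h7 : κ * β ≤ 1 / 4 * β := mul_le_mul_of_nonneg_right hκ1 hβ.le
      have h8 : |b| = β - |τ| := by rw [hβd]; ring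
      linarith
    rw [this]
    simp only [card_empty, Nat.cast_zero]
    positivity
  · apply card_of_diff (by positivity)
    intro i hi j hj
    obtain ⟨h1, h2⟩ := hS i hi
    obtain ⟨h1', h2'⟩ := hS j hj
    obtain ⟨h3, h4⟩ := hu i h1
    obtain ⟨h3', h4'⟩ := hu j h1'
    rcases le_or_gt (j : ℝ) i with hji | hji
    · have : (0 : ℝ) ≤ 32 * κ * J := by positivity
      linarith
    set x := (1 + i / J : ℝ) with hx
    set y := (1 + j / J : ℝ) with hy
    have hxy : y - x = (j - i) / J := by rw [hx, hy]; ring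
    have e1 : τ / x - τ / y = τ * (y - x) / (x * y) := by
      field_simp
    have h5 : |τ / x - τ / y| ≤ 2 * (κ * β) := by
      have e2 : τ / x - τ / y = (b + τ / x) - (b + τ / y) := by ring
      rw [e2]
      refine (abs_sub _ _).trans ?_
      linarith
    rw [e1, abs_div, abs_mul, abs_of_pos (by positivity : 0 < x * y), hxy,
      abs_of_pos (div_pos (by linarith) hJ0 : 0 < ((j : ℝ) - i) / J), div_le_iff₀ (by positivity)] at h5
    have h6 : x * y ≤ 4 := by nlinarith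
    have h7 : β / 4 * ((j - i) / J) ≤ 2 * (κ * β) * 4 := by
      calc β / 4 * (((j : ℝ) - i) / J) ≤ |τ| * ((j - i) / J) :=
            mul_le_mul_of_nonneg_right hτ (div_pos (by linarith) hJ0).le
        _ ≤ 2 * (κ * β) * (x * y) := h5
        _ ≤ _ := mul_le_mul_of_nonneg_left h6 (by positivity)
    have h8 : β * (((j : ℝ) - i) / J) ≤ β * (32 * κ) := by nlinarith
    have h9 := le_of_mul_le_mul_left h8 hβ
    rw [div_le_iff₀ hJ0] at h9
    exact h9

/-- the sign change of the test function under the shift -/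
theorem anti_block {b τ φ A κ β ε w : ℝ} {J m : ℕ} (hA : 0 < A) (hκβ : 0 < κ * β) (hβ0 : 0 < β)
    (hκ : 0 < κ)
    (hbτ : |b| + |τ| = β) (hJ0 : (0 : ℝ) < J) (hw1 : 1 ≤ w) (hw2 : w + 1 / J ≤ 2)
    (hgood : κ * β ≤ |b + τ / w|) (hy2 : Real.pi / (κ * β) ≤ 1)
    (hyβ : Real.pi ^ 2 / (κ ^ 2 * β) ≤ ε / 64) (hyJ : Real.pi / (κ * J) ≤ ε / 64)
    (hphase : 2 * 3 ^ m * β / A ≤ ε / 64) {h' : ℕ}
    (hh1 : (h' : ℝ) ≤ Real.pi * A / (2 * 3 ^ m * |b + τ / w|))
    (hh2 : Real.pi * A / (2 * 3 ^ m * |b + τ / w|) - 1 ≤ h') {x : ℤ} (hx1 : A * w ≤ x)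
    (hx2 : (x : ℝ) ≤ A * (w + 1 / J)) :
    |GLo b τ φ (((x + 2 * 3 ^ m * h' : ℤ) : ℝ) / A) + GLo b τ φ ((x : ℝ) / A)| ≤ 3 * ε / 64 := by
  have hπ0 := Real.pi_pos
  set ω := b + τ / w with hω
  have hω0 : 0 < |ω| := lt_of_lt_of_le hκβ hgood
  have hωβ : |ω| ≤ β := by
    rw [hω, ← hbτ]
    refine (abs_add_le _ _).trans ?_
    have : |τ / w| ≤ |τ| := by
      rw [abs_div, abs_of_pos (by linarith only [hw1] : 0 < w)]
      exact div_le_self (abs_nonneg _) hw1
    linarith only [this]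
  have hτβ : |τ| ≤ β := by rw [← hbτ]; linarith only [abs_nonneg b]
  have hinv : Real.pi / |ω| ≤ Real.pi / (κ * β) := div_le_div_of_nonneg_left hπ0.le hκβ hgood
  set y0 := Real.pi * A / (2 * 3 ^ m * |ω|) with hy0
  set y := 2 * 3 ^ m * (h' : ℝ) / A with hy
  have hyy0 : 0 ≤ y := by positivity
  have hyle : y ≤ Real.pi / (κ * β) := by
    refine le_trans ?_ hinv
    have : 2 * 3 ^ m * (h' : ℝ) / A ≤ 2 * 3 ^ m * y0 / A :=
      div_le_div_of_nonneg_right (mul_le_mul_of_nonneg_left hh1 (by positivity)) hA.le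
    refine this.trans (le_of_eq ?_)
    rw [hy0]; field_simp
  have hy1' : y ≤ 1 := hyle.trans hy2
  set z := (x : ℝ) / A with hz
  have hz1 : w ≤ z := by rw [hz, le_div_iff₀ hA]; linarith only [hx1]
  have hz2 : z ≤ w + 1 / J := by rw [hz, div_le_iff₀ hA]; linarith only [hx2]
  have hz0 : 1 ≤ z := hw1.trans hz1
  have hz3 : z ≤ 2 := hz2.trans hw2
  have hsh : (((x + 2 * 3 ^ m * h' : ℤ) : ℝ)) / A = z + y := by
    rw [hz, hy]; push_cast; ring
  rw [hsh]
  unfold GLo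
  rw [cl_eq (by linarith only [hz0, hyy0]) (by linarith only [hz3, hy1']), cl_eq hz0 (by linarith only [hz3])]
  obtain ⟨σ, hσ, hσω⟩ : ∃ σ : ℝ, (σ = 1 ∨ σ = -1) ∧ ω = σ * |ω| := by
    rcases le_total 0 ω with h | h
    · exact ⟨1, Or.inl rfl, by rw [abs_of_nonneg h, one_mul]⟩
    · exact ⟨-1, Or.inr rfl, by rw [abs_of_nonpos h]; ring⟩
  have hσ1 : |σ| = 1 := by rcases hσ with rfl | rfl <;> simp
  apply cos_anti hσ
  have hps := phase_shift (b := b) (τ := τ) (u := z) (y := y) (w := w) (δ := 1 / J) hz0 hw1 hyy0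
    (by rw [abs_of_nonneg (by linarith only [hz1])]; linarith only [hz2])
  have e6 : b * (z + y) + τ * Real.log (z + y) + φ - (b * z + τ * Real.log z + φ) - σ * Real.pi
      = ((b * (z + y) + τ * Real.log (z + y)) - (b * z + τ * Real.log z) - y * (b + τ / w))
        + (y * ω - σ * Real.pi) := by rw [hω]; ring
  rw [e6]
  refine (abs_add_le _ _).trans ?_
  have h7 : |y * ω - σ * Real.pi| ≤ ε / 64 := by
    have e7 : y * ω - σ * Real.pi = σ * (y * |ω| - Real.pi) := by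
      conv_lhs => rw [hσω]
      ring
    rw [e7, abs_mul, hσ1, one_mul]
    have e8 : y * |ω| - Real.pi = 2 * 3 ^ m * |ω| / A * (h' - y0) := by
      rw [hy, hy0]; field_simp
    rw [e8, abs_mul, abs_of_nonneg (by positivity)]
    have h8 : |(h' : ℝ) - y0| ≤ 1 := by
      rw [abs_le]; constructor
      · linarith only [hh2]
      · linarith only [hh1]
    calc 2 * 3 ^ m * |ω| / A * |(h' : ℝ) - y0| ≤ 2 * 3 ^ m * β / A * 1 := by
          apply mul_le_mul _ h8 (abs_nonneg _) (by positivity)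
          apply div_le_div_of_nonneg_right _ hA.le
          exact mul_le_mul_of_nonneg_left hωβ (by positivity)
      _ ≤ ε / 64 := by rw [mul_one]; exact hphase
  have h9 : |τ| * (y * (1 / J) + y ^ 2) ≤ ε / 64 + ε / 64 := by
    have a1 : y * (1 / J) + y ^ 2 ≤ Real.pi / (κ * β) * (1 / J) + (Real.pi / (κ * β)) ^ 2 :=
      add_le_add (mul_le_mul_of_nonneg_right hyle (by positivity)) (pow_le_pow_left₀ hyy0 hyle 2)
    calc |τ| * (y * (1 / J) + y ^ 2)
        ≤ β * (Real.pi / (κ * β) * (1 / J) + (Real.pi / (κ * β)) ^ 2) :=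
          mul_le_mul hτβ a1 (by positivity) hβ0.le
      _ = Real.pi / (κ * J) + Real.pi ^ 2 / (κ ^ 2 * β) := by field_simp
      _ ≤ _ := add_le_add hyJ hyβ
  linarith only [hps, h7, h9]

/-- one block -/
theorem block_bound {d : ℤ} (hdm : d % 2 = 1) (hdd : d * d = 1) {f : ℤ → ℝ} (hf : f ∈ SameT d)
    {b τ φ A κ β ε Y : ℝ} {J m k : ℕ} (hA : 0 < A) (hε : 0 < ε) (hε1 : ε ≤ 1) (hκβ : 0 < κ * β) (hβ0 : 0 < β)
    (hκ : 0 < κ) (hbτ : |b| + |τ| = β) (hY : Y = A / (2 * 3 ^ m)) (hJ0 : (0 : ℝ) < J)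
    (hy1 : Real.pi / (κ * β) * J ≤ ε / 16) (hy2 : Real.pi / (κ * β) ≤ 1)
    (hyβ : Real.pi ^ 2 / (κ ^ 2 * β) ≤ ε / 64) (hyJ : Real.pi / (κ * J) ≤ ε / 64)
    (hphase : 2 * 3 ^ m * β / A ≤ ε / 64) (hJY : (J : ℝ) ≤ ε / 32 * Y) (h2k : (J : ℝ) * 2 ^ k ≤ 2 * Y)
    (hq : ∀ h' : ℕ, 2 * 3 ^ m * (h' : ℝ) ≤ Real.pi / κ * (A / β) →
      q step (0, 0) k (0, -(d * (2 * 3 ^ m * h'))) ≤ ε / 64)
    {u : ℤ} (hu : IsCoprime u 3) (v : ℤ) {j : ℕ} (hj : j < J) :
    |WS (fun x => f x * GLo b τ φ ((x : ℝ) / A)) (A * (1 + j / J))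
      (A * (1 + (j + 1) / J)) m u v| ≤ Y / J * (ε / 4)
        + (if |b + τ / (1 + j / J)| < κ * β then 2 * (Y / J) else 0) := by
  have hπ0 := Real.pi_pos
  have hY0 : 0 < Y := by rw [hY]; positivity
  have hG : ∀ x : ℤ, |GLo b τ φ ((x : ℝ) / A)| ≤ 1 := fun x => GLo_abs _ _ _ _
  have hfG : ∀ x : ℤ, |f x * GLo b τ φ ((x : ℝ) / A)| ≤ 1 := by
    intro x
    rw [abs_mul]
    exact mul_le_one₀ (hf.1 x) (abs_nonneg _) (hG x)
  have hj0 : (0 : ℝ) ≤ (j : ℝ) / J := by positivity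
  have hj1 : ((j : ℝ) + 1) / J ≤ 1 := by
    rw [div_le_one hJ0]; exact_mod_cast hj
  set w := (1 + j / J : ℝ) with hw
  have hw1 : 1 ≤ w := by linarith only [hj0, hw]
  have hwJ : w + 1 / J = 1 + ((j : ℝ) + 1) / J := by rw [hw]; ring
  have hlen : A * (1 + ((j : ℝ) + 1) / J) - A * w = A / J := by rw [hw]; ring
  have hAJ : 0 ≤ A / J := by positivity
  have hab : A * w ≤ A * (1 + ((j : ℝ) + 1) / J) := by linarith only [hlen, hAJ]
  have e4 : (A * (1 + ((j : ℝ) + 1) / J) - A * w) / 3 ^ m = 2 * (Y / J) := by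
    rw [hlen, hY]; field_simp
  have e5 : (A * (1 + ((j : ℝ) + 1) / J) - A * w) / (2 * 3 ^ m) = Y / J := by
    rw [hlen, hY]; field_simp
  have hYJ0 : 0 < Y / J := by positivity
  have hYJ1 : 1 ≤ ε / 32 * (Y / J) := by
    have : (J : ℝ) / J ≤ ε / 32 * Y / J := div_le_div_of_nonneg_right hJY hJ0.le
    rw [div_self hJ0.ne'] at this
    calc (1 : ℝ) ≤ ε / 32 * Y / J := this
      _ = _ := by ring
  have hYJ2 : 1 ≤ Y / J := by
    have : ε / 32 * (Y / J) ≤ 1 * (Y / J) :=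
      mul_le_mul_of_nonneg_right (by linarith only [hε1]) hYJ0.le
    linarith only [this, hYJ1]
  split_ifs with hbad
  · refine (WS_abs hfG _ _ _ _ _).trans ?_
    refine (cls_card_le Set.univ hab m hu v).trans ?_
    rw [e5]
    have : 0 ≤ Y / J * (ε / 4) := by positivity
    linarith only [this, hYJ2]
  · push Not at hbad
    rw [add_zero]
    have hω0 : 0 < |b + τ / w| := lt_of_lt_of_le hκβ hbad
    set y0 := Real.pi * A / (2 * 3 ^ m * |b + τ / w|) with hy0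
    have hy00 : 0 < y0 := by positivity
    set h' := ⌊y0⌋₊ with hh'
    have hh1 : (h' : ℝ) ≤ y0 := Nat.floor_le hy00.le
    have hh2 : y0 - 1 ≤ h' := by linarith only [Nat.lt_floor_add_one y0]
    have hinv : Real.pi / |b + τ / w| ≤ Real.pi / (κ * β) := div_le_div_of_nonneg_left hπ0.le hκβ hbad
    have hh3 : (h' : ℝ) ≤ ε / 16 * (Y / J) := by
      refine hh1.trans ?_
      have e : y0 = Real.pi / |b + τ / w| * Y := by rw [hy0, hY]; field_simp
      rw [e]
      have h1 : Real.pi / |b + τ / w| * J ≤ ε / 16 :=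
        (mul_le_mul_of_nonneg_right hinv hJ0.le).trans hy1
      calc Real.pi / |b + τ / w| * Y = (Real.pi / |b + τ / w| * J) * (Y / J) := by field_simp
        _ ≤ _ := mul_le_mul_of_nonneg_right h1 hYJ0.le
    have key := cancel hdm hdd hf (g := fun x => GLo b τ φ ((x : ℝ) / A)) hG hab m hu v k h'
      (ε1 := 3 * ε / 64) (fun x hx1 hx2 => anti_block hA hκβ hβ0 hκ hbτ hJ0 hw1
        (by rw [hwJ]; linarith only [hj1]) hbad hy2 hyβ hyJ hphase hh1 hh2 hx1
        (by rw [hwJ]; exact hx2.le)) (by positivity)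
    refine key.trans ?_
    have hqq : q step (0, 0) k (0, -(d * (2 * 3 ^ m * h'))) ≤ ε / 64 := by
      apply hq
      calc 2 * 3 ^ m * (h' : ℝ) ≤ 2 * 3 ^ m * y0 := mul_le_mul_of_nonneg_left hh1 (by positivity)
        _ = Real.pi / |b + τ / w| * A := by rw [hy0]; field_simp
        _ ≤ Real.pi / (κ * β) * A := mul_le_mul_of_nonneg_right hinv hA.le
        _ = Real.pi / κ * (A / β) := by field_simp
    rw [e4, e5]
    have h2k' : (2 : ℝ) ^ k ≤ 2 * (Y / J) := by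
      have e : 2 * (Y / J) = 2 * Y / J := by ring
      rw [e, le_div_iff₀ hJ0]; linarith only [h2k]
    have h9 : q step (0, 0) k (0, -(d * (2 * 3 ^ m * h'))) * (2 * (Y / J) + 2 ^ k) ≤ ε / 64 * (4 * (Y / J)) :=
      mul_le_mul hqq (by linarith only [h2k']) (by positivity) (by positivity)
    have h10 : 3 * ε / 64 * (Y / J + 1) ≤ 3 * ε / 64 * (2 * (Y / J)) := by
      apply mul_le_mul_of_nonneg_left _ (by positivity)
      linarith only [hYJ2]
    linarith only [h9, h10, hh3, hYJ1]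

/-- the numerics of the bottom scale -/
theorem bottom_num {t η ε β A : ℝ} {J m : ℕ} (htA : Real.log A = t) (hA : 0 < A) (hη : 0 < η)
    (hε : 0 < ε) (hε1 : ε ≤ 1) (t1 : 1000 ≤ t) (t5 : (5 / η) ^ 2 ≤ t)
    (t6 : 512 / (η * ε) ≤ t) (t7 : 64 * J / ε ≤ t) (hm : (m : ℝ) ^ 2 ≤ t) (hβ0 : 0 < β)
    (hA2 : Real.log β ≤ (1 - η / 2) * t) {k : ℕ} (hk : (k : ℝ) * Real.log 2 ≤ t / 2) :
    (J : ℝ) * 2 ^ k ≤ 2 * (A / (2 * 3 ^ m)) ∧ (J : ℝ) ≤ ε / 32 * (A / (2 * 3 ^ m)) ∧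
      2 * 3 ^ m * β / A ≤ ε / 64 := by
  have htpos : 0 < t := by linarith only [t1]
  have hexpA : Real.exp t = A := by rw [← htA]; exact Real.exp_log hA
  have hexpβ : Real.exp (Real.log β) = β := Real.exp_log hβ0
  have h3m1 : (3 : ℝ) ^ m ≤ Real.exp (0.05 * t) := pow_m_le t1 hm
  have h3m2 : (3 : ℝ) ^ m ≤ Real.exp (η * t / 4) := by
    have h2 : (3 : ℝ) ^ m = Real.exp (Real.log 3 * m) := by
      rw [mul_comm (Real.log 3), Real.exp_nat_mul, Real.exp_log (by norm_num)]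
    rw [h2]
    apply Real.exp_le_exp.2
    have h3 := log3_le
    have hl1 := Real.log_two_lt_d9
    have hl2 := Real.log_two_gt_d9
    have h5 : Real.log 3 ≤ 1.2 := by linarith only [h3, hl1]
    set r := Real.sqrt t with hr
    have hrsq : r ^ 2 = t := Real.sq_sqrt htpos.le
    have hmr : (m : ℝ) ≤ r := Real.le_sqrt_of_sq_le hm
    have hr5 : 5 / η ≤ r := Real.le_sqrt_of_sq_le t5
    rw [div_le_iff₀ hη] at hr5
    have h7 : 0 ≤ (m : ℝ) := Nat.cast_nonneg m
    have hr0 : 0 ≤ r := Real.sqrt_nonneg _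
    have hl3 : 0 ≤ Real.log 3 := Real.log_nonneg (by norm_num)
    have h8 : Real.log 3 * m ≤ 1.2 * r := mul_le_mul h5 hmr h7 (by norm_num)
    have h9 : η * t / 4 = (r * η) * r / 4 := by rw [← hrsq]; ring
    rw [h9]
    nlinarith only [h8, hr5, hr0]
  have hYbig : Real.exp (0.95 * t) ≤ 2 * (A / (2 * 3 ^ m)) := by
    have e : 2 * (A / (2 * 3 ^ m)) = A / 3 ^ m := by field_simp
    rw [e, le_div_iff₀ (by positivity), ← hexpA]
    calc Real.exp (0.95 * t) * 3 ^ m ≤ Real.exp (0.95 * t) * Real.exp (0.05 * t) :=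
          mul_le_mul_of_nonneg_left h3m1 (Real.exp_pos _).le
      _ = Real.exp t := by rw [← Real.exp_add]; congr 1; ring
  have hJt : (J : ℝ) ≤ t / 64 := by
    have h0 : (0 : ℝ) ≤ 64 * J := by positivity
    have h1 : 64 * (J : ℝ) ≤ 64 * J / ε := le_div_self h0 hε hε1
    linarith only [h1, t7]
  refine ⟨?_, ?_, ?_⟩
  · have h2 : (2 : ℝ) ^ k = Real.exp (k * Real.log 2) := by
      rw [Real.exp_nat_mul, Real.exp_log (by norm_num)]
    have h3 : (J : ℝ) ≤ Real.exp (0.45 * t) := by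
      have := Real.add_one_le_exp (0.45 * t)
      linarith only [this, hJt, htpos]
    calc (J : ℝ) * 2 ^ k ≤ Real.exp (0.45 * t) * Real.exp (t / 2) := by
          apply mul_le_mul h3 _ (by positivity) (Real.exp_pos _).le
          rw [h2]; exact Real.exp_le_exp.2 hk
      _ = Real.exp (0.95 * t) := by rw [← Real.exp_add]; congr 1; ring
      _ ≤ _ := hYbig
  · have h2 : t ≤ Real.exp (0.95 * t) := by
      have h3 := Real.quadratic_le_exp_of_nonneg (x := 0.95 * t) (by positivity)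
      nlinarith only [h3, t1]
    have h3 : 64 * J / ε ≤ 2 * (A / (2 * 3 ^ m)) := t7.trans (h2.trans hYbig)
    rw [div_le_iff₀ hε] at h3
    linarith only [h3]
  · have h1 : β * 3 ^ m / A ≤ Real.exp (-(η * t / 4)) := by
      have h2 : β ≤ Real.exp ((1 - η / 2) * t) := by
        rw [← hexpβ]; exact Real.exp_le_exp.2 hA2
      have h3 : β * 3 ^ m / A ≤ Real.exp ((1 - η / 2) * t) * Real.exp (η * t / 4) / Real.exp t := by
        rw [← hexpA]
        apply div_le_div_of_nonneg_right _ (Real.exp_pos _).le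
        exact mul_le_mul h2 h3m2 (by positivity) (Real.exp_pos _).le
      refine h3.trans (le_of_eq ?_)
      rw [← Real.exp_add, ← Real.exp_sub]
      congr 1
      ring
    have h4 := exp_neg_le_inv (x := η * t / 4) (by positivity)
    have h5 : 1 / (η * t / 4) ≤ ε / 128 := by
      rw [div_le_div_iff₀ (by positivity) (by norm_num)]
      rw [div_le_iff₀ (by positivity)] at t6
      linarith only [t6]
    have h6 : 2 * 3 ^ m * β / A = 2 * (β * 3 ^ m / A) := by ring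
    rw [h6]; linarith only [h1, h4, h5]

/-- the scales just above the frequency -/
theorem bottom_log {d : ℤ} (hd : Odd d) (hdd : d * d = 1) {ε : ℝ} (hε : 0 < ε) (hε1 : ε ≤ 1) :
    ∃ η1 : ℝ, 0 < η1 ∧ η1 ≤ 1 / 2 ∧ ∀ η : ℝ, 0 < η → η ≤ η1 → ∃ T2 : ℝ, 1000 ≤ T2 ∧
      ∀ b τ φ : ℝ, 0 < |b| + |τ| → T2 ≤ Real.log (|b| + |τ|) → ∀ A : ℝ, 0 < A →
      (1 - η) * Real.log A ≤ Real.log (|b| + |τ|) →
      Real.log (|b| + |τ|) ≤ (1 - η / 2) * Real.log A → ∀ m : ℕ, (m : ℝ) ^ 2 ≤ Real.log A →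
      PF (SameT d) (GLo b τ φ) A m ε := by
  classical
  have hdm : d % 2 = 1 := by obtain ⟨t, ht⟩ := hd; omega
  obtain ⟨θ, hθ, k0, hq⟩ := q_quant (show 0 < ε / 64 by positivity) (by linarith)
  refine ⟨min (1 / 2) (θ / 4), by positivity, min_le_left _ _, ?_⟩
  intro η hη hη1
  have hη2 : η ≤ 1 / 2 := hη1.trans (min_le_left _ _)
  have hηθ : η ≤ θ / 4 := hη1.trans (min_le_right _ _)
  set κ : ℝ := ε / 1024 with hκ
  have hκ0 : 0 < κ := by positivity
  have hκ4 : κ ≤ 1 / 4 := by rw [hκ]; linarith only [hε1]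
  set J : ℕ := ⌈2 ^ 18 / ε ^ 2⌉₊ with hJ
  have hJ1 : 2 ^ 18 / ε ^ 2 ≤ (J : ℝ) := Nat.le_ceil _
  have hε2 : ε ^ 2 ≤ ε := by nlinarith only [hε, hε1]
  have hJ2 : 2 ^ 18 / ε ≤ (J : ℝ) := by
    refine le_trans ?_ hJ1
    exact div_le_div_of_nonneg_left (by norm_num) (by positivity) hε2
  have hJ3 : (1 : ℝ) ≤ J := by
    refine le_trans ?_ hJ2
    rw [le_div_iff₀ hε]; linarith only [hε1]
  have hJN : 1 ≤ J := by exact_mod_cast hJ3
  have hJ0 : (0 : ℝ) < J := by linarith only [hJ3]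
  have p1 : 0 ≤ 2 * ((k0 : ℝ) + 1) := by positivity
  have p2 : 0 ≤ 16 / (κ * θ) + 4 := by positivity
  have p3 : 0 ≤ 64 * J / (κ * ε) := by positivity
  have p4 : 0 ≤ 1024 / (κ ^ 2 * ε) := by positivity
  have p5 : 0 ≤ (5 / η) ^ 2 := by positivity
  have p6 : 0 ≤ 512 / (η * ε) := by positivity
  have p7 : 0 ≤ 64 * J / ε := by positivity
  refine ⟨1000 + 2 * ((k0 : ℝ) + 1) + (16 / (κ * θ) + 4) + 64 * J / (κ * ε) + 1024 / (κ ^ 2 * ε)
    + (5 / η) ^ 2 + 512 / (η * ε) + 64 * J / ε, by linarith only [p1, p2, p3, p4, p5, p6, p7], ?_⟩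
  intro b τ φ hβ0 hT2 A hA hA1 hA2 m hm f hf u v hu
  obtain ⟨β, hβ⟩ : ∃ β, |b| + |τ| = β := ⟨_, rfl⟩
  rw [hβ] at hβ0 hT2 hA1 hA2
  obtain ⟨t, ht⟩ : ∃ t, Real.log A = t := ⟨_, rfl⟩
  rw [ht] at hA1 hA2 hm
  have hexpA : Real.exp t = A := by rw [← ht]; exact Real.exp_log hA
  have hexpβ : Real.exp (Real.log β) = β := Real.exp_log hβ0
  have hlβ : 0 < Real.log β := by linarith only [hT2, p1, p2, p3, p4, p5, p6, p7]
  have htβ : Real.log β ≤ t := by
    have : 0 < t := by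
      by_contra hcon
      push Not at hcon
      nlinarith only [hcon, hlβ, hA2, hη2]
    nlinarith only [this, hA2, hη]
  have t1 : 1000 ≤ t := by linarith only [htβ, hT2, p1, p2, p3, p4, p5, p6, p7]
  have t2 : 2 * ((k0 : ℝ) + 1) ≤ t := by linarith only [htβ, hT2, p1, p2, p3, p4, p5, p6, p7]
  have t3 : 16 / (κ * θ) + 4 ≤ t := by linarith only [htβ, hT2, p1, p2, p3, p4, p5, p6, p7]
  have t4 : 64 * J / (κ * ε) ≤ Real.log β := by linarith only [htβ, hT2, p1, p2, p3, p4, p5, p6, p7]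
  have t4' : 1024 / (κ ^ 2 * ε) ≤ Real.log β := by linarith only [htβ, hT2, p1, p2, p3, p4, p5, p6, p7]
  have t5 : (5 / η) ^ 2 ≤ t := by linarith only [htβ, hT2, p1, p2, p3, p4, p5, p6, p7]
  have t6 : 512 / (η * ε) ≤ t := by linarith only [htβ, hT2, p1, p2, p3, p4, p5, p6, p7]
  have t7 : 64 * J / ε ≤ t := by linarith only [htβ, hT2, p1, p2, p3, p4, p5, p6, p7]
  have htpos : 0 < t := by linarith only [t1]
  have hl1 := Real.log_two_lt_d9
  have hl2 := Real.log_two_gt_d9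
  have hl0 : 0 < Real.log 2 := by linarith only [hl2]
  have hββ : Real.log β ≤ β := by
    have := Real.add_one_le_exp (Real.log β)
    rw [hexpβ] at this
    linarith only [this]
  -- the number of steps
  obtain ⟨k, hk⟩ : ∃ k, ⌊t / (2 * Real.log 2)⌋₊ = k := ⟨_, rfl⟩
  have hk1' : (k : ℝ) * Real.log 2 ≤ t / 2 := by
    have hk1 : (k : ℝ) ≤ t / (2 * Real.log 2) := by rw [← hk]; exact Nat.floor_le (by positivity)
    rw [le_div_iff₀ (by positivity)] at hk1; linarith only [hk1]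
  have hk2' : t / 2 - Real.log 2 ≤ k * Real.log 2 := by
    have hk2 : t / (2 * Real.log 2) - 1 ≤ k := by
      rw [← hk]; linarith only [Nat.lt_floor_add_one (t / (2 * Real.log 2))]
    have e : t / (2 * Real.log 2) * Real.log 2 = t / 2 := by field_simp
    have := mul_le_mul_of_nonneg_right hk2 hl0.le
    linarith only [this, e]
  have hkk0 : k0 ≤ k := by
    have h1 : (k0 : ℝ) ≤ t / (2 * Real.log 2) := by
      rw [le_div_iff₀ (by positivity)]
      have h0 := (Nat.cast_nonneg k0 : (0 : ℝ) ≤ k0)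
      nlinarith only [h0, t2, hl1]
    rw [← hk]
    exact Nat.le_floor h1
  obtain ⟨h2k, hJY, hphase⟩ := bottom_num (J := J) (m := m) (k := k) ht hA hη hε hε1 t1 t5 t6 t7 hm hβ0 hA2 hk1'
  obtain ⟨Y, hY⟩ : ∃ Y, Y = A / (2 * 3 ^ m) := ⟨_, rfl⟩
  rw [← hY] at h2k hJY
  have hY0 : 0 < Y := by rw [hY]; positivity
  have hπ4 := Real.pi_lt_four
  have hπ0 := Real.pi_pos
  have hκβ : 0 < κ * β := by positivity
  have hy1 : Real.pi / (κ * β) * J ≤ ε / 16 := by
    rw [div_mul_eq_mul_div, div_le_iff₀ hκβ]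
    have h1 : 64 * J / (κ * ε) ≤ β := t4.trans hββ
    rw [div_le_iff₀ (by positivity)] at h1
    nlinarith only [h1, hπ4, hJ0]
  have hy2 : Real.pi / (κ * β) ≤ 1 := by
    have : Real.pi / (κ * β) * 1 ≤ Real.pi / (κ * β) * J := mul_le_mul_of_nonneg_left hJ3 (by positivity)
    linarith only [this, hy1, hε1]
  have hyβ : Real.pi ^ 2 / (κ ^ 2 * β) ≤ ε / 64 := by
    rw [div_le_iff₀ (by positivity)]
    have h1 : 1024 / (κ ^ 2 * ε) ≤ β := t4'.trans hββ
    rw [div_le_iff₀ (by positivity)] at h1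
    nlinarith only [h1, hπ4, hπ0]
  have hyJ : Real.pi / (κ * J) ≤ ε / 64 := by
    rw [div_le_iff₀ (by positivity)]
    have h3 : κ * (2 ^ 18 / ε ^ 2) ≤ κ * J := mul_le_mul_of_nonneg_left hJ1 hκ0.le
    have h4 : κ * (2 ^ 18 / ε ^ 2) = 256 / ε := by rw [hκ]; field_simp; norm_num
    rw [h4, div_le_iff₀ hε] at h3
    linarith only [h3, hπ4]
  have hqs : ∀ h' : ℕ, 2 * 3 ^ m * (h' : ℝ) ≤ Real.pi / κ * (A / β) →
      q step (0, 0) k (0, -(d * (2 * 3 ^ m * h'))) ≤ ε / 64 := by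
    intro h' hh'
    apply hq k hkk0
    have hd1 : |(d : ℝ)| = 1 := by
      have : (d : ℝ) * d = 1 := by exact_mod_cast hdd
      have h2 : |(d : ℝ)| * |(d : ℝ)| = 1 := by rw [← abs_mul, this, abs_one]
      nlinarith only [h2, abs_nonneg (d : ℝ)]
    push_cast
    rw [abs_neg, abs_mul, hd1, one_mul, abs_of_nonneg (by positivity)]
    have hAβ : A / β ≤ Real.exp (η * t) := by
      rw [← hexpA, ← hexpβ, ← Real.exp_sub]
      apply Real.exp_le_exp.2
      linarith only [hA1]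
    have h1 : 2 * 3 ^ m * (h' : ℝ) ≤ Real.pi / κ * Real.exp (η * t) :=
      hh'.trans (mul_le_mul_of_nonneg_left hAβ (by positivity))
    refine h1.trans ?_
    have h2 : (2 : ℝ) ^ (θ * k) = Real.exp (θ * (k * Real.log 2)) := by
      rw [Real.rpow_def_of_pos (by norm_num)]
      congr 1; ring
    rw [h2]
    have h3 : Real.pi / κ ≤ Real.exp (θ * (t / 4 - 1)) := by
      have h4 := Real.add_one_le_exp (θ * (t / 4 - 1))
      have h5 : 4 / κ ≤ θ * (t / 4 - 1) := by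
        have h6 : 16 / (κ * θ) ≤ t - 4 := by linarith only [t3]
        rw [div_le_iff₀ (by positivity)] at h6
        rw [div_le_iff₀ hκ0]
        linarith only [h6]
      have h7 : Real.pi / κ ≤ 4 / κ := div_le_div_of_nonneg_right hπ4.le hκ0.le
      linarith only [h4, h5, h7]
    calc Real.pi / κ * Real.exp (η * t) ≤ Real.exp (θ * (t / 4 - 1)) * Real.exp (η * t) :=
          mul_le_mul_of_nonneg_right h3 (Real.exp_pos _).le
      _ = Real.exp (θ * (t / 4 - 1) + η * t) := by rw [← Real.exp_add]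
      _ ≤ Real.exp (θ * (k * Real.log 2)) := by
          apply Real.exp_le_exp.2
          have h6 : θ * (t / 2 - Real.log 2) ≤ θ * (k * Real.log 2) := mul_le_mul_of_nonneg_left hk2' hθ.le
          have h8 : η * t ≤ θ / 4 * t := mul_le_mul_of_nonneg_right hηθ htpos.le
          have h9 : θ * Real.log 2 ≤ θ * 1 := mul_le_mul_of_nonneg_left (by linarith only [hl1]) hθ.le
          linarith only [h6, h8, h9]
  -- one block
  have hblock : ∀ j ∈ range J, |WS (fun x => f x * GLo b τ φ ((x : ℝ) / A)) (A * (1 + j / J))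
      (A * (1 + (j + 1) / J)) m u v| ≤ Y / J * (ε / 4)
        + (if |b + τ / (1 + j / J)| < κ * β then 2 * (Y / J) else 0) := fun j hj =>
    block_bound hdm hdd hf hA hε hε1 hκβ hβ0 hκ0 hβ hY hJ0 hy1 hy2 hyβ hyJ hphase hJY h2k hqs hu v
      (mem_range.1 hj)
  -- sum over the blocks
  have hsum : WS (fun x => f x * GLo b τ φ ((x : ℝ) / A)) A (2 * A) m u v
      = ∑ j ∈ range J, WS (fun x => f x * GLo b τ φ ((x : ℝ) / A)) (A * (1 + j / J))
        (A * (1 + (j + 1) / J)) m u v := by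
    rw [← WS_blocks _ hA hJN, div_self hJ0.ne']
    congr 1; ring
  rw [hsum, ← hY]
  refine (abs_sum_le_sum_abs _ _).trans ((sum_le_sum hblock).trans ?_)
  rw [sum_add_distrib, sum_const, card_range, nsmul_eq_mul, ← sum_filter, sum_const, nsmul_eq_mul]
  have hfb := few_bad (S := (range J).filter fun j : ℕ => |b + τ / (1 + (j : ℝ) / J)| < κ * β) hJN hκ0 hκ4
    (by rw [hβ]; exact hβ0)
    (by
      intro j hj
      rw [mem_filter, mem_range] at hj
      rw [hβ]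
      exact hj)
  have h1 : (J : ℝ) * (Y / J * (ε / 4)) = Y * (ε / 4) := by field_simp
  have h2 : (32 * κ * J + 1) * (2 * (Y / J)) = 64 * κ * Y + 2 * Y / J := by field_simp; ring
  have h3 : (((range J).filter fun j : ℕ => |b + τ / (1 + (j : ℝ) / J)| < κ * β).card : ℝ) * (2 * (Y / J))
      ≤ (32 * κ * J + 1) * (2 * (Y / J)) := mul_le_mul_of_nonneg_right hfb (by positivity)
  have h4 : 64 * κ * Y = ε / 16 * Y := by rw [hκ]; ring
  have h5 : 2 * Y / J ≤ ε / 8 * Y := by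
    rw [div_le_iff₀ hJ0]
    have h6 : 2 ≤ ε / 8 * J := by
      rw [div_le_iff₀ hε] at hJ2
      linarith only [hJ2]
    have h7 := mul_le_mul_of_nonneg_left h6 hY0.le
    linarith only [h7]
  rw [h1]
  rw [h2, h4] at h3
  have h8 : 0 < ε * Y := by positivity
  linarith only [h3, h5, h8]

end Pool.Agent.W41.MU
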