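import Pool.Agent.W41.MU19

/-! All frequencies: the mean square over a cell. -/

set_option autoImplicit false

namespace Pool.Agent.W41.MU

open Pool.Agent.H320R2.PD Pool.Agent.H499R2.ND Pool.Agent.H499R2.CO Finset MeasureTheory Pool.Agent.H376R2.MR Pool.Agent.W41.FU Pool.Agent.W41

/-- removing a rational phase -/
theorem tw_rat (f : ℤ → ℝ) (γ : ℝ) (a : ℤ) {r : ℕ} (hr : 1 ≤ r) (p m : ℕ) :
    tw f γ (((p * m : ℕ) : ℤ)) = Complex.exp (((2 * Real.pi * a * ((p % r : ℕ) : ℝ) * m / r : ℝ) : ℂ) * Complex.I)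
      * tw f (γ - 2 * Real.pi * a / r) (((p * m : ℕ) : ℤ)) := by
  unfold tw
  have hr0 : (r : ℂ) ≠ 0 := by exact_mod_cast (by omega : r ≠ 0)
  obtain ⟨t, ht⟩ : ∃ t : ℕ, t = p / r := ⟨_, rfl⟩
  obtain ⟨u, hu⟩ : ∃ u : ℕ, u = p % r := ⟨_, rfl⟩
  have hp : (p : ℂ) = (u : ℂ) + (r : ℂ) * (t : ℂ) := by
    have := Nat.mod_add_div p r
    rw [← ht, ← hu] at this
    exact_mod_cast this.symm
  rw [← hu]
  have e1 : ((γ * (((p * m : ℕ) : ℤ) : ℝ) : ℝ) : ℂ) * Complex.I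
      = ((2 * Real.pi * a * (u : ℝ) * m / r : ℝ) : ℂ) * Complex.I
        + (((γ - 2 * Real.pi * a / r) * (((p * m : ℕ) : ℤ) : ℝ) : ℝ) : ℂ) * Complex.I
        + ((a * t * m : ℤ) : ℂ) * (2 * Real.pi * Complex.I) := by
    push_cast
    rw [hp]
    field_simp
    ring
  rw [e1, Complex.exp_add, Complex.exp_add, Complex.exp_int_mul_two_pi_mul_I, mul_one]
  ring

/-- splitting into residue classes -/
theorem split_class (T : Finset ℕ) (w z : ℕ → ℂ) (c : ℕ → ℂ) {r : ℕ} (hr : 1 ≤ r) (hc : ∀ b, ‖c b‖ ≤ 1) :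
    ‖∑ p ∈ T, w p * (c (p % r) * z p)‖ ^ 2
      ≤ r * ∑ b ∈ range r, ‖∑ p ∈ T, (if p % r = b then w p else 0) * z p‖ ^ 2 := by
  have h1 : ∑ p ∈ T, w p * (c (p % r) * z p)
      = ∑ b ∈ range r, c b * ∑ p ∈ T, (if p % r = b then w p else 0) * z p := by
    simp_rw [mul_sum]
    rw [sum_comm]
    apply sum_congr rfl; intro p _
    rw [sum_eq_single (p % r)]
    · rw [if_pos rfl]; ring
    · intro b _ hb
      rw [if_neg (Ne.symm hb)]; ring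
    · intro h
      exact absurd (mem_range.2 (Nat.mod_lt _ (by omega))) h
  rw [h1]
  have h2 : ‖∑ b ∈ range r, c b * ∑ p ∈ T, (if p % r = b then w p else 0) * z p‖
      ≤ ∑ b ∈ range r, ‖∑ p ∈ T, (if p % r = b then w p else 0) * z p‖ := by
    refine (norm_sum_le _ _).trans (sum_le_sum fun b _ => ?_)
    rw [norm_mul]
    have := mul_le_mul_of_nonneg_right (hc b) (norm_nonneg (∑ p ∈ T, (if p % r = b then w p else 0) * z p))
    linarith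
  calc ‖∑ b ∈ range r, c b * ∑ p ∈ T, (if p % r = b then w p else 0) * z p‖ ^ 2
      ≤ (∑ b ∈ range r, ‖∑ p ∈ T, (if p % r = b then w p else 0) * z p‖) ^ 2 :=
        pow_le_pow_left₀ (norm_nonneg _) h2 2
    _ ≤ (range r).card * ∑ b ∈ range r, ‖∑ p ∈ T, (if p % r = b then w p else 0) * z p‖ ^ 2 :=
        sq_sum_le_card_mul_sum_sq
    _ = _ := by rw [card_range]

/-- ALL FREQUENCIES. -/
theorem cellmain {s : ℤ} (hs : s = 1 ∨ s = -1) {ε : ℝ} (hε : 0 < ε) (hε1 : ε ≤ 1) {H : ℕ} (hH : 10 ≤ H) :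
    ∃ ϑ : ℝ, 0 < ϑ ∧ ϑ ≤ 1 / 4 ∧ ∀ θ1 : ℝ, 0 < θ1 → ∃ X0 : ℝ, 1 ≤ X0 ∧
    ∀ X : ℝ, X0 ≤ X → ∀ S : Set ℤ, Inv 1 S → ∀ δ : ℝ, HD s S δ → ∀ γ : ℝ,
    ∀ v M : ℕ, θ1 * Real.log X ≤ (v : ℝ) / H → ((v : ℝ) + 1) / H ≤ ϑ / 8 * Real.log X →
    X ≤ 4 * (M * Real.exp ((v : ℝ) / H)) → M * Real.exp ((v : ℝ) / H) ≤ 4 * X →
    ∀ w : ℕ → ℂ, (∀ p ∈ cell H v, ‖w p‖ ≤ 1 / p) →
    ∑ m ∈ Ico M (2 * M), ‖∑ p ∈ cell H v, w p * tw (bal s S δ) γ (((p * m : ℕ) : ℤ))‖ ^ 2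
      ≤ ε * (M * mm H v ^ 2) := by
  obtain ⟨R0, hR0, ϑa, hϑa0, hϑa1, hmin⟩ := minor hs hε hε1 hH
  have hR0' : (1 : ℝ) ≤ R0 := by exact_mod_cast hR0
  have hε'0 : 0 < ε / R0 ^ 2 := by positivity
  have hε'1 : ε / R0 ^ 2 ≤ 1 := by
    rw [div_le_one (by positivity)]
    have : (1 : ℝ) ≤ (R0 : ℝ) ^ 2 := one_le_pow₀ hR0'
    linarith
  obtain ⟨ϑb, hϑb0, hϑb1, hmaj⟩ := major hs hε'0 hε'1 hH
  refine ⟨min ϑa ϑb, by positivity, (min_le_left _ _).trans hϑa1, fun θ1 hθ1 => ?_⟩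
  obtain ⟨Xa, hXa1, hA⟩ := hmin (min ϑa ϑb) (by positivity) (min_le_left _ _) θ1 hθ1
  obtain ⟨Xb, hXb1, hB⟩ := hmaj (min ϑa ϑb) (by positivity) (min_le_right _ _) θ1 hθ1
  refine ⟨max Xa Xb, hXa1.trans (le_max_left _ _), fun X hX S hS δ hδ γ v M hv1 hv2 hQ1 hQ2 w hw => ?_⟩
  have hXa : Xa ≤ X := (le_max_left _ _).trans hX
  have hXb : Xb ≤ X := (le_max_right _ _).trans hX
  by_cases hcase : ∀ r : ℕ, 1 ≤ r → r < R0 → ∀ a : ℤ, X ^ (-(min ϑa ϑb / 2)) < |γ - 2 * Real.pi * a / r|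
  · exact hA X hXa S hS δ hδ γ hcase v M hv1 hv2 hQ1 hQ2 w hw
  · push Not at hcase
    obtain ⟨r, hr1, hrR, a, hγ⟩ := hcase
    have hr0 : (0 : ℝ) < r := by exact_mod_cast hr1
    have h1 : ∀ m : ℕ, ‖∑ p ∈ cell H v, w p * tw (bal s S δ) γ (((p * m : ℕ) : ℤ))‖ ^ 2
        ≤ r * ∑ b ∈ range r, ‖∑ p ∈ cell H v, (if p % r = b then w p else 0)
          * tw (bal s S δ) (γ - 2 * Real.pi * a / r) (((p * m : ℕ) : ℤ))‖ ^ 2 := by
      intro m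
      have e : ∑ p ∈ cell H v, w p * tw (bal s S δ) γ (((p * m : ℕ) : ℤ))
          = ∑ p ∈ cell H v, w p * ((fun b : ℕ => Complex.exp (((2 * Real.pi * a * (b : ℝ) * m / r : ℝ) : ℂ) * Complex.I)) (p % r)
            * tw (bal s S δ) (γ - 2 * Real.pi * a / r) (((p * m : ℕ) : ℤ))) := by
        apply sum_congr rfl; intro p _
        rw [tw_rat (bal s S δ) γ a hr1 p m]
      rw [e]
      apply split_class (cell H v) w (fun p => tw (bal s S δ) (γ - 2 * Real.pi * a / r) (((p * m : ℕ) : ℤ)))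
        (fun b : ℕ => Complex.exp (((2 * Real.pi * a * (b : ℝ) * m / r : ℝ) : ℂ) * Complex.I)) hr1
      intro b
      rw [Complex.norm_exp_ofReal_mul_I]
    have h2 : ∀ b ∈ range r, ∑ m ∈ Ico M (2 * M), ‖∑ p ∈ cell H v, (if p % r = b then w p else 0)
          * tw (bal s S δ) (γ - 2 * Real.pi * a / r) (((p * m : ℕ) : ℤ))‖ ^ 2 ≤ ε / R0 ^ 2 * (M * mm H v ^ 2) := by
      intro b _
      apply hB X hXb S hS δ hδ _ hγ v M hv1 hv2 hQ1 hQ2 (fun p => if p % r = b then w p else 0)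
      intro p hp
      split_ifs
      · exact hw p hp
      · rw [norm_zero]; positivity
    have hmm0 : 0 ≤ (M : ℝ) * mm H v ^ 2 := by positivity
    calc ∑ m ∈ Ico M (2 * M), ‖∑ p ∈ cell H v, w p * tw (bal s S δ) γ (((p * m : ℕ) : ℤ))‖ ^ 2
        ≤ ∑ m ∈ Ico M (2 * M), r * ∑ b ∈ range r, ‖∑ p ∈ cell H v, (if p % r = b then w p else 0)
          * tw (bal s S δ) (γ - 2 * Real.pi * a / r) (((p * m : ℕ) : ℤ))‖ ^ 2 := sum_le_sum fun m _ => h1 m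
      _ = r * ∑ b ∈ range r, ∑ m ∈ Ico M (2 * M), ‖∑ p ∈ cell H v, (if p % r = b then w p else 0)
          * tw (bal s S δ) (γ - 2 * Real.pi * a / r) (((p * m : ℕ) : ℤ))‖ ^ 2 := by
          rw [← mul_sum, sum_comm]
      _ ≤ r * ∑ b ∈ range r, ε / R0 ^ 2 * (M * mm H v ^ 2) :=
          mul_le_mul_of_nonneg_left (sum_le_sum h2) hr0.le
      _ = (r : ℝ) ^ 2 / (R0 : ℝ) ^ 2 * (ε * (M * mm H v ^ 2)) := by
          rw [sum_const, card_range, nsmul_eq_mul]; ring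
      _ ≤ 1 * (ε * (M * mm H v ^ 2)) := by
          apply mul_le_mul_of_nonneg_right _ (by positivity)
          rw [div_le_one (by positivity)]
          exact pow_le_pow_left₀ hr0.le (by exact_mod_cast hrR.le) 2
      _ = _ := one_mul _

end Pool.Agent.W41.MU
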