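import Pool.Agent.W41.MU20

/-! The sum over the multiples of the primes of a cell. -/

set_option autoImplicit false

namespace Pool.Agent.W41.MU

open Pool.Agent.H320R2.PD Pool.Agent.H499R2.ND Pool.Agent.H499R2.CO Finset MeasureTheory Pool.Agent.H376R2.MR Pool.Agent.W41.FU Pool.Agent.W41

/-- multiplicative functions with values in the unit disc -/
def MulB (g : ℕ → ℂ) : Prop := (∀ n, ‖g n‖ ≤ 1) ∧ ∀ m n : ℕ, Nat.Coprime m n → g (m * n) = g m * g n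

/-- the multiples of `p` in a window -/
theorem mult_sum (F : ℕ → ℂ) {X p : ℕ} (hp : 1 ≤ p) :
    ∑ n ∈ (Ico X (2 * X)).filter (fun n => p ∣ n), F n
      = ∑ m ∈ Ico ⌈(X : ℝ) / p⌉₊ ⌈(2 * X : ℝ) / p⌉₊, F (p * m) := by
  have hp0 : (0 : ℝ) < p := by exact_mod_cast hp
  symm
  apply sum_bij (fun m _ => p * m)
  · intro m hm
    rw [mem_Ico, Nat.ceil_le, Nat.lt_ceil, div_le_iff₀ hp0, lt_div_iff₀ hp0] at hm
    rw [mem_filter, mem_Ico]
    refine ⟨⟨?_, ?_⟩, dvd_mul_right _ _⟩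
    · have : (X : ℝ) ≤ ((p * m : ℕ) : ℝ) := by push_cast; linarith [hm.1]
      exact_mod_cast this
    · have : ((p * m : ℕ) : ℝ) < ((2 * X : ℕ) : ℝ) := by push_cast; linarith [hm.2]
      exact_mod_cast this
  · intro a _ b _ h
    exact Nat.eq_of_mul_eq_mul_left hp h
  · intro n hn
    rw [mem_filter, mem_Ico] at hn
    obtain ⟨m, rfl⟩ := hn.2
    refine ⟨m, ?_, rfl⟩
    rw [mem_Ico, Nat.ceil_le, Nat.lt_ceil, div_le_iff₀ hp0, lt_div_iff₀ hp0]
    constructor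
    · have : (X : ℝ) ≤ ((p * m : ℕ) : ℝ) := by exact_mod_cast hn.1.1
      push_cast at this; linarith
    · have : ((p * m : ℕ) : ℝ) < ((2 * X : ℕ) : ℝ) := by exact_mod_cast hn.1.2
      push_cast at this; linarith
  · intro m _; rfl

theorem ico_change {G : ℕ → ℂ} (hG : ∀ m, ‖G m‖ ≤ 1) {a b M : ℕ} (ha : a ≤ M) (hb : b ≤ 2 * M) (hab : a ≤ b) :
    ‖∑ m ∈ Ico a b, G m - ∑ m ∈ Ico M (2 * M), G m‖ ≤ ((M : ℝ) - a) + ((2 * M : ℕ) - (b : ℝ)) := by
  have e0 : ∀ c d : ℕ, c ≤ d → ∑ m ∈ Ico 0 c, G m + ∑ m ∈ Ico c d, G m = ∑ m ∈ Ico 0 d, G m :=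
    fun c d h => sum_Ico_consecutive G (Nat.zero_le _) h
  have e : ∑ m ∈ Ico a b, G m - ∑ m ∈ Ico M (2 * M), G m = ∑ m ∈ Ico a M, G m - ∑ m ∈ Ico b (2 * M), G m := by
    have h1 := e0 a b hab
    have h2 := e0 M (2 * M) (by omega)
    have h3 := e0 a M ha
    have h4 := e0 b (2 * M) hb
    linear_combination h1 - h2 - h3 + h4
  have hn : ∀ c d : ℕ, c ≤ d → ‖∑ m ∈ Ico c d, G m‖ ≤ (d : ℝ) - c := by
    intro c d hcd
    refine (norm_sum_le _ _).trans ?_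
    calc ∑ m ∈ Ico c d, ‖G m‖ ≤ ∑ m ∈ Ico c d, (1 : ℝ) := sum_le_sum fun m _ => hG m
      _ = (d : ℝ) - c := by rw [sum_const, Nat.card_Ico, nsmul_eq_mul, mul_one, Nat.cast_sub hcd]
  rw [e]
  exact (norm_sub_le _ _).trans (add_le_add (hn _ _ ha) (hn _ _ hb))

/-- replacing `g (p m)` by `g p g m` -/
theorem mul_change {g : ℕ → ℂ} (hg : MulB g) {t : ℕ → ℂ} (ht : ∀ m, ‖t m‖ ≤ 1) {p M : ℕ} (hp : p.Prime) :
    ‖∑ m ∈ Ico M (2 * M), t m * g (p * m) - g p * ∑ m ∈ Ico M (2 * M), g m * t m‖ ≤ 2 * ((M : ℝ) / p + 1) := by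
  classical
  rw [mul_sum, ← sum_sub_distrib]
  have h1 : ∀ m ∈ Ico M (2 * M), ‖t m * g (p * m) - g p * (g m * t m)‖ ≤ if p ∣ m then 2 else 0 := by
    intro m _
    split_ifs with h
    · refine (norm_sub_le _ _).trans ?_
      rw [norm_mul, norm_mul, norm_mul]
      have a1 : ‖t m‖ * ‖g (p * m)‖ ≤ 1 := mul_le_one₀ (ht _) (norm_nonneg _) (hg.1 _)
      have a2 : ‖g m‖ * ‖t m‖ ≤ 1 := mul_le_one₀ (hg.1 _) (norm_nonneg _) (ht _)
      have a3 : ‖g p‖ * (‖g m‖ * ‖t m‖) ≤ 1 := mul_le_one₀ (hg.1 _) (by positivity) a2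
      linarith
    · have hco : Nat.Coprime p m := (Nat.Prime.coprime_iff_not_dvd hp).2 h
      rw [hg.2 p m hco]
      have : t m * (g p * g m) - g p * (g m * t m) = 0 := by ring
      rw [this, norm_zero]
  refine (norm_sum_le _ _).trans ((sum_le_sum h1).trans ?_)
  rw [← sum_filter, sum_const, nsmul_eq_mul]
  have hp0 : (0 : ℝ) < p := by exact_mod_cast hp.pos
  have h2 : (((Ico M (2 * M)).filter (fun m => p ∣ m)).card : ℝ) ≤ M / p + 1 := by
    have h3 : ((Ico M (2 * M)).filter (fun m => p ∣ m)).card ≤ (Ico ⌈(M : ℝ) / p⌉₊ ⌈((2 * M : ℕ) : ℝ) / p⌉₊).card := by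
      apply card_le_card_of_injOn (fun m => m / p)
      · intro m hm
        rw [mem_coe, mem_filter, mem_Ico] at hm
        obtain ⟨k, rfl⟩ := hm.2
        rw [mem_coe, mem_Ico]
        simp only
        rw [Nat.mul_div_cancel_left _ hp.pos, Nat.ceil_le, Nat.lt_ceil, div_le_iff₀ hp0, lt_div_iff₀ hp0]
        constructor
        · have : (M : ℝ) ≤ ((p * k : ℕ) : ℝ) := by exact_mod_cast hm.1.1
          push_cast at this; linarith
        · have : ((p * k : ℕ) : ℝ) < ((2 * M : ℕ) : ℝ) := by exact_mod_cast hm.1.2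
          push_cast at this ⊢; linarith
      · intro a ha b hb hab
        rw [mem_coe, mem_filter] at ha hb
        obtain ⟨k, rfl⟩ := ha.2
        obtain ⟨l, rfl⟩ := hb.2
        simp only at hab
        rw [Nat.mul_div_cancel_left _ hp.pos, Nat.mul_div_cancel_left _ hp.pos] at hab
        rw [hab]
    rw [Nat.card_Ico] at h3
    have h4 : (((⌈((2 * M : ℕ) : ℝ) / p⌉₊ - ⌈(M : ℝ) / p⌉₊ : ℕ)) : ℝ) ≤ M / p + 1 := by
      have h5 : ⌈(M : ℝ) / p⌉₊ ≤ ⌈((2 * M : ℕ) : ℝ) / p⌉₊ := by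
        apply Nat.ceil_le_ceil
        apply div_le_div_of_nonneg_right _ hp0.le
        push_cast
        have : (0 : ℝ) ≤ M := Nat.cast_nonneg _
        linarith
      rw [Nat.cast_sub h5]
      have h6 : (M : ℝ) / p ≤ ⌈(M : ℝ) / p⌉₊ := Nat.le_ceil _
      have h7 : ((⌈((2 * M : ℕ) : ℝ) / p⌉₊ : ℕ) : ℝ) < ((2 * M : ℕ) : ℝ) / p + 1 := Nat.ceil_lt_add_one (by positivity)
      have e : ((2 * M : ℕ) : ℝ) / p = M / p + M / p := by push_cast; ring
      linarith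
    exact le_trans (by exact_mod_cast h3) h4
  linarith

/-- THE SUM OVER A CELL. -/
theorem cell_sum {f : ℤ → ℝ} (hf : ∀ n, |f n| ≤ 1) {γ ε1 P : ℝ} {H v X M : ℕ} (hH : 10 ≤ H)
    (hP : P = Real.exp ((v : ℝ) / H)) (hX : 1 ≤ X) (hM : M = ⌈(X : ℝ) / P⌉₊) (hPX : 14 * P / X + 4 / P ≤ 1 / H)
    (hε1 : 0 ≤ ε1) {g : ℕ → ℂ} (hg : MulB g)
    (hmain : ∀ w : ℕ → ℂ, (∀ p ∈ cell H v, ‖w p‖ ≤ 1 / p) →
      ∑ m ∈ Ico M (2 * M), ‖∑ p ∈ cell H v, w p * tw f γ (((p * m : ℕ) : ℤ))‖ ^ 2 ≤ ε1 ^ 2 * (M * mm H v ^ 2)) :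
    ‖∑ p ∈ cell H v, ∑ n ∈ (Ico X (2 * X)).filter (fun n => p ∣ n), tw f γ (n : ℤ) * g n‖
      ≤ mm H v * X * (4 * ε1 + 7 / H) := by
  have hH0 : (0 : ℝ) < H := by exact_mod_cast (by omega : 0 < H)
  have hX0 : (0 : ℝ) < X := by exact_mod_cast hX
  have hP1 : 1 ≤ P := by rw [hP]; exact Real.one_le_exp (by positivity)
  have hP0 : 0 < P := by linarith
  have hHi : 1 / (H : ℝ) ≤ 1 / 10 := one_div_le_one_div_of_le (by norm_num) (by exact_mod_cast hH)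
  have hPX2 : P ≤ X := by
    have h1 : 0 < 4 / P := by positivity
    have h2 : 14 * P / X ≤ 1 := by linarith
    rw [div_le_one hX0] at h2
    linarith
  have hM1 : (X : ℝ) / P ≤ M := by rw [hM]; exact Nat.le_ceil _
  have hM2 : (M : ℝ) ≤ X / P + 1 := by rw [hM]; exact (Nat.ceil_lt_add_one (by positivity)).le
  have hmm0 : 0 ≤ mm H v := sum_nonneg fun p _ => by positivity
  have hup : ∀ q ∈ cell H v, P ≤ (q : ℝ) ∧ (q : ℝ) ≤ 2 * P ∧ (q : ℝ) * (1 - 1 / H) ≤ P := by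
    intro q hq
    have h1 := cell_lt hq
    have hq0 : (0 : ℝ) < q := by exact_mod_cast h1.1.pos
    refine ⟨?_, ?_, ?_⟩
    · rw [hP, ← Real.exp_log hq0]
      exact Real.exp_le_exp.2 h1.2.1
    · rw [← Real.exp_log hq0]
      calc Real.exp (Real.log q) ≤ Real.exp (((v : ℝ) + 1) / H) := Real.exp_le_exp.2 h1.2.2.le
        _ = Real.exp (1 / H) * P := by rw [hP, ← Real.exp_add]; congr 1; ring
        _ ≤ Real.exp (9 / 20) * P := by
            apply mul_le_mul_of_nonneg_right _ hP0.le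
            apply Real.exp_le_exp.2
            linarith
        _ ≤ 2 * P := mul_le_mul_of_nonneg_right exp_045 hP0.le
    · have h2 : (q : ℝ) ≤ Real.exp (1 / H) * P := by
        rw [← Real.exp_log hq0]
        calc Real.exp (Real.log q) ≤ Real.exp (((v : ℝ) + 1) / H) := Real.exp_le_exp.2 h1.2.2.le
          _ = Real.exp (1 / H) * P := by rw [hP, ← Real.exp_add]; congr 1; ring
      have h3 : 1 - 1 / (H : ℝ) ≤ Real.exp (-(1 / H)) := by
        have := Real.add_one_le_exp (-(1 / (H : ℝ)))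
        linarith
      calc (q : ℝ) * (1 - 1 / H) ≤ q * Real.exp (-(1 / H)) := mul_le_mul_of_nonneg_left h3 hq0.le
        _ ≤ (Real.exp (1 / H) * P) * Real.exp (-(1 / H)) := mul_le_mul_of_nonneg_right h2 (Real.exp_pos _).le
        _ = P * (Real.exp (1 / H) * Real.exp (-(1 / H))) := by ring
        _ = P := by rw [← Real.exp_add, add_neg_cancel, Real.exp_zero, mul_one]
  -- one prime
  have hone : ∀ p ∈ cell H v, ‖∑ n ∈ (Ico X (2 * X)).filter (fun n => p ∣ n), tw f γ (n : ℤ) * g n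
      - g p * ∑ m ∈ Ico M (2 * M), g m * tw f γ (((p * m : ℕ) : ℤ))‖ ≤ 3 * X / (P * H) + 2 * X / P ^ 2 + 7 := by
    intro p hp
    have hpp := (cell_lt hp).1
    have hp0 : (0 : ℝ) < p := by exact_mod_cast hpp.pos
    obtain ⟨u1, u2, u3⟩ := hup p hp
    rw [mult_sum (fun n : ℕ => tw f γ (n : ℤ) * g n) hpp.one_le]
    have hG : ∀ m, ‖tw f γ (((p * m : ℕ) : ℤ)) * g (p * m)‖ ≤ 1 := fun m => by
      rw [norm_mul]
      exact mul_le_one₀ (tw_norm hf _ _) (norm_nonneg _) (hg.1 _)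
    have ha : ⌈(X : ℝ) / p⌉₊ ≤ M := by
      rw [hM]
      exact Nat.ceil_le_ceil (div_le_div_of_nonneg_left hX0.le hP0 u1)
    have hb : ⌈(2 * X : ℝ) / p⌉₊ ≤ 2 * M := by
      rw [Nat.ceil_le]
      push_cast
      calc (2 * X : ℝ) / p ≤ 2 * X / P := div_le_div_of_nonneg_left (by positivity) hP0 u1
        _ = 2 * (X / P) := by ring
        _ ≤ 2 * M := by linarith
    have hab : ⌈(X : ℝ) / p⌉₊ ≤ ⌈(2 * X : ℝ) / p⌉₊ := by
      apply Nat.ceil_le_ceil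
      apply div_le_div_of_nonneg_right _ hp0.le
      linarith
    have c1 := ico_change hG ha hb hab
    have c2 := mul_change hg (t := fun m => tw f γ (((p * m : ℕ) : ℤ))) (fun m => tw_norm hf _ _) (M := M) hpp
    have c3 : (X : ℝ) / p ≤ ⌈(X : ℝ) / p⌉₊ := Nat.le_ceil _
    have c4 : (2 * X : ℝ) / p ≤ ⌈(2 * X : ℝ) / p⌉₊ := Nat.le_ceil _
    have c5 : (X : ℝ) / P - X / p ≤ X / (P * H) := by
      rw [div_sub_div _ _ hP0.ne' hp0.ne', div_le_div_iff₀ (by positivity) (by positivity)]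
      have : (p : ℝ) * H - p ≤ P * H := by
        have := mul_le_mul_of_nonneg_right u3 hH0.le
        have e : (p : ℝ) * (1 - 1 / H) * H = p * H - p := by field_simp
        linarith
      have h1 : (X : ℝ) * p - P * X = X * (p - P) := by ring
      rw [h1]
      have h2 : ((p : ℝ) - P) * H ≤ p := by linarith
      calc (X : ℝ) * (p - P) * (P * H) = X * P * ((p - P) * H) := by ring
        _ ≤ X * P * p := mul_le_mul_of_nonneg_left h2 (by positivity)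
        _ = X * (P * p) := by ring
    have c6 : 2 * ((M : ℝ) / p + 1) ≤ 2 * X / P ^ 2 + 4 := by
      have h1 : (M : ℝ) / p ≤ (X / P + 1) / P := div_le_div₀ (by positivity) hM2 hP0 u1
      have h2 : ((X : ℝ) / P + 1) / P = X / P ^ 2 + 1 / P := by field_simp
      have h3 : 1 / P ≤ 1 := by rw [div_le_one hP0]; exact hP1
      have e : 2 * (X : ℝ) / P ^ 2 = 2 * (X / P ^ 2) := by ring
      rw [e]; linarith
    have c7 : ((M : ℝ) - (⌈(X : ℝ) / p⌉₊ : ℕ)) + ((2 * M : ℕ) - ((⌈(2 * X : ℝ) / p⌉₊ : ℕ) : ℝ)) ≤ 3 * X / (P * H) + 3 := by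
      push_cast
      have e1 : (2 * X : ℝ) / p = 2 * (X / p) := by ring
      have e2 : 3 * (X : ℝ) / (P * H) = 3 * (X / (P * H)) := by ring
      have c4' : 2 * ((X : ℝ) / p) ≤ (⌈(2 * X : ℝ) / p⌉₊ : ℕ) := by rw [← e1]; exact c4
      rw [e2]
      linarith only [c3, c4', c5, hM2]
    have e : ∑ m ∈ Ico ⌈(X : ℝ) / p⌉₊ ⌈(2 * X : ℝ) / p⌉₊, tw f γ (((p * m : ℕ) : ℤ)) * g (p * m)
        - g p * ∑ m ∈ Ico M (2 * M), g m * tw f γ (((p * m : ℕ) : ℤ))
        = (∑ m ∈ Ico ⌈(X : ℝ) / p⌉₊ ⌈(2 * X : ℝ) / p⌉₊, tw f γ (((p * m : ℕ) : ℤ)) * g (p * m)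
          - ∑ m ∈ Ico M (2 * M), tw f γ (((p * m : ℕ) : ℤ)) * g (p * m))
          + (∑ m ∈ Ico M (2 * M), tw f γ (((p * m : ℕ) : ℤ)) * g (p * m)
          - g p * ∑ m ∈ Ico M (2 * M), g m * tw f γ (((p * m : ℕ) : ℤ))) := by ring
    rw [e]
    refine (norm_add_le _ _).trans ?_
    linarith
  -- the main term
  have hmainb : ‖∑ p ∈ cell H v, g p * ∑ m ∈ Ico M (2 * M), g m * tw f γ (((p * m : ℕ) : ℤ))‖ ≤ 4 * ε1 * X * mm H v := by
    have e : ∑ p ∈ cell H v, g p * ∑ m ∈ Ico M (2 * M), g m * tw f γ (((p * m : ℕ) : ℤ))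
        = ((2 * P : ℝ) : ℂ) * ∑ m ∈ Ico M (2 * M), g m * ∑ p ∈ cell H v, (g p / ((2 * P : ℝ) : ℂ)) * tw f γ (((p * m : ℕ) : ℤ)) := by
      have h2P : ((2 * P : ℝ) : ℂ) ≠ 0 := by
        rw [Complex.ofReal_ne_zero]; positivity
      simp_rw [mul_sum]
      rw [sum_comm]
      apply sum_congr rfl; intro m _
      apply sum_congr rfl; intro p _
      field_simp
    rw [e, norm_mul, Complex.norm_real, Real.norm_eq_abs, abs_of_pos (by positivity : 0 < 2 * P)]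
    have hw : ∀ p ∈ cell H v, ‖g p / ((2 * P : ℝ) : ℂ)‖ ≤ 1 / p := by
      intro p hp
      have hp0 : (0 : ℝ) < p := by exact_mod_cast (cell_lt hp).1.pos
      rw [norm_div, Complex.norm_real, Real.norm_eq_abs, abs_of_pos (by positivity : 0 < 2 * P)]
      exact div_le_div₀ (by norm_num) (hg.1 p) hp0 (hup p hp).2.1
    have h1 := hmain (fun p => g p / ((2 * P : ℝ) : ℂ)) hw
    have h2 : ‖∑ m ∈ Ico M (2 * M), g m * ∑ p ∈ cell H v, (g p / ((2 * P : ℝ) : ℂ)) * tw f γ (((p * m : ℕ) : ℤ))‖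
        ≤ ∑ m ∈ Ico M (2 * M), ‖∑ p ∈ cell H v, (g p / ((2 * P : ℝ) : ℂ)) * tw f γ (((p * m : ℕ) : ℤ))‖ := by
      refine (norm_sum_le _ _).trans (sum_le_sum fun m _ => ?_)
      rw [norm_mul]
      have := mul_le_mul_of_nonneg_right (hg.1 m) (norm_nonneg (∑ p ∈ cell H v, (g p / ((2 * P : ℝ) : ℂ)) * tw f γ (((p * m : ℕ) : ℤ))))
      linarith
    have h3 : (∑ m ∈ Ico M (2 * M), ‖∑ p ∈ cell H v, (g p / ((2 * P : ℝ) : ℂ)) * tw f γ (((p * m : ℕ) : ℤ))‖) ^ 2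
        ≤ (M * ε1 * mm H v) ^ 2 := by
      refine sq_sum_le_card_mul_sum_sq.trans ?_
      rw [Nat.card_Ico, show 2 * M - M = M by omega]
      calc (M : ℝ) * ∑ m ∈ Ico M (2 * M), ‖∑ p ∈ cell H v, (g p / ((2 * P : ℝ) : ℂ)) * tw f γ (((p * m : ℕ) : ℤ))‖ ^ 2
          ≤ M * (ε1 ^ 2 * (M * mm H v ^ 2)) := mul_le_mul_of_nonneg_left h1 (Nat.cast_nonneg _)
        _ = _ := by ring
    have h4 := abs_le_of_sq_le_sq' h3 (by positivity)
    have h5 : 2 * P * M ≤ 4 * X := by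
      have h6 : P * M ≤ P * (X / P + 1) := mul_le_mul_of_nonneg_left hM2 hP0.le
      have h7 : P * ((X : ℝ) / P + 1) = X + P := by field_simp
      rw [h7] at h6
      linarith
    calc 2 * P * ‖∑ m ∈ Ico M (2 * M), g m * ∑ p ∈ cell H v, (g p / ((2 * P : ℝ) : ℂ)) * tw f γ (((p * m : ℕ) : ℤ))‖
        ≤ 2 * P * (M * ε1 * mm H v) := mul_le_mul_of_nonneg_left (h2.trans h4.2) (by positivity)
      _ = (2 * P * M) * (ε1 * mm H v) := by ring
      _ ≤ (4 * X) * (ε1 * mm H v) := mul_le_mul_of_nonneg_right h5 (by positivity)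
      _ = _ := by ring
  -- the number of primes
  have hcard : ((cell H v).card : ℝ) ≤ 2 * P * mm H v := by
    have h1 : (cell H v).card * (1 / (2 * P)) ≤ mm H v := by
      have h2 : ∑ p ∈ cell H v, 1 / (2 * P) ≤ ∑ p ∈ cell H v, 1 / (p : ℝ) := by
        apply sum_le_sum
        intro p hp
        have hp0 : (0 : ℝ) < p := by exact_mod_cast (cell_lt hp).1.pos
        exact one_div_le_one_div_of_le hp0 (hup p hp).2.1
      rw [sum_const, nsmul_eq_mul] at h2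
      exact h2
    rw [mul_one_div, div_le_iff₀ (by positivity)] at h1
    linarith
  have herr : ‖∑ p ∈ cell H v, ∑ n ∈ (Ico X (2 * X)).filter (fun n => p ∣ n), tw f γ (n : ℤ) * g n
      - ∑ p ∈ cell H v, g p * ∑ m ∈ Ico M (2 * M), g m * tw f γ (((p * m : ℕ) : ℤ))‖ ≤ mm H v * X * (7 / H) := by
    rw [← sum_sub_distrib]
    refine (norm_sum_le _ _).trans ((sum_le_sum hone).trans ?_)
    rw [sum_const, nsmul_eq_mul]
    have h1 : (0 : ℝ) ≤ 3 * X / (P * H) + 2 * X / P ^ 2 + 7 := by positivity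
    calc ((cell H v).card : ℝ) * (3 * X / (P * H) + 2 * X / P ^ 2 + 7)
        ≤ 2 * P * mm H v * (3 * X / (P * H) + 2 * X / P ^ 2 + 7) := mul_le_mul_of_nonneg_right hcard h1
      _ = mm H v * X * (6 / H + (14 * P / X + 4 / P)) := by field_simp; ring
      _ ≤ mm H v * X * (6 / H + 1 / H) := by
          apply mul_le_mul_of_nonneg_left _ (by positivity)
          linarith
      _ = _ := by ring
  have e : ∑ p ∈ cell H v, ∑ n ∈ (Ico X (2 * X)).filter (fun n => p ∣ n), tw f γ (n : ℤ) * g n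
      = (∑ p ∈ cell H v, ∑ n ∈ (Ico X (2 * X)).filter (fun n => p ∣ n), tw f γ (n : ℤ) * g n
      - ∑ p ∈ cell H v, g p * ∑ m ∈ Ico M (2 * M), g m * tw f γ (((p * m : ℕ) : ℤ)))
      + ∑ p ∈ cell H v, g p * ∑ m ∈ Ico M (2 * M), g m * tw f γ (((p * m : ℕ) : ℤ)) := by ring
  rw [e]
  refine (norm_add_le _ _).trans ?_
  linarith

end Pool.Agent.W41.MU
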