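import Pool.Agent.W41.MU21
import Pool.Agent.H376R2.MR.Tk
import Pool.Agent.H376R2.MR.Mert
import Pool.Agent.H376R2.MR.Dec

/-! Dyadic blocks, and the theorem. -/

set_option autoImplicit false

namespace Pool.Agent.W41.MU

open Pool.Agent.H320R2.PD Pool.Agent.H499R2.ND Pool.Agent.H499R2.CO Finset MeasureTheory Pool.Agent.H376R2.MR Pool.Agent.W41.FU Pool.Agent.W41

/-- passing from a sum to the sum over the multiples of the primes -/
theorem tk_pass {C : ℝ} (hC0 : 0 < C) (hC : ∀ (S : Finset ℕ) (Q Y : ℝ), (∀ p ∈ S, p.Prime ∧ (p : ℝ) ≤ Q) →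
    1 ≤ ∑ p ∈ S, 1 / (p : ℝ) → Q ^ 4 ≤ Y →
    ∑ n ∈ Icc ⌈Y / Real.exp 2⌉₊ ⌊Real.exp 2 * Y⌋₊,
      (((S.filter (fun p => p ∣ n)).card : ℝ) - ∑ p ∈ S, 1 / (p : ℝ)) ^ 2 / n ≤ C * ∑ p ∈ S, 1 / (p : ℝ))
    {S : Finset ℕ} {X : ℕ} (hX : 1 ≤ X) (hS : ∀ p ∈ S, p.Prime ∧ (p : ℝ) ^ 4 ≤ X) {W : ℝ}
    (hW : ∑ p ∈ S, 1 / (p : ℝ) = W) (hW1 : 1 ≤ W) {F : ℕ → ℂ} (hF : ∀ n, ‖F n‖ ≤ 1) :
    W * ‖∑ n ∈ Ico X (2 * X), F n‖ ≤ ‖∑ p ∈ S, ∑ n ∈ (Ico X (2 * X)).filter (fun n => p ∣ n), F n‖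
      + X * Real.sqrt (2 * C * W) := by
  classical
  have hX0 : (0 : ℝ) < X := by exact_mod_cast hX
  set om : ℕ → ℝ := fun n => ((S.filter (fun p => p ∣ n)).card : ℝ) with hom
  have h1 : ∑ p ∈ S, ∑ n ∈ (Ico X (2 * X)).filter (fun n => p ∣ n), F n = ∑ n ∈ Ico X (2 * X), (om n : ℂ) * F n := by
    simp_rw [sum_filter]
    rw [sum_comm]
    apply sum_congr rfl; intro n _
    rw [← sum_filter, sum_const, nsmul_eq_mul, hom]
    push_cast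
    rfl
  have h2 : (W : ℂ) * ∑ n ∈ Ico X (2 * X), F n = ∑ n ∈ Ico X (2 * X), (om n : ℂ) * F n
      - ∑ n ∈ Ico X (2 * X), ((om n - W : ℝ) : ℂ) * F n := by
    rw [mul_sum, ← sum_sub_distrib]
    apply sum_congr rfl; intro n _
    push_cast; ring
  have h3 : ∑ n ∈ Ico X (2 * X), (om n - W) ^ 2 ≤ 2 * X * (C * W) := by
    set Q : ℝ := (X : ℝ) ^ (1 / 4 : ℝ) with hQ
    have hQ4 : Q ^ 4 = X := by
      rw [hQ, ← Real.rpow_natCast, ← Real.rpow_mul hX0.le]; norm_num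
    have hQ0 : 0 ≤ Q := by positivity
    have hE2 : (1 : ℝ) ≤ Real.exp 2 := Real.one_le_exp (by norm_num)
    have hk := hC S Q (Real.exp 2 * X) (fun p hp => ⟨(hS p hp).1, by
      have h4 := (hS p hp).2
      rw [← hQ4] at h4
      exact le_of_pow_le_pow_left₀ (by norm_num) hQ0 h4⟩) (by rw [hW]; exact hW1) (by rw [hQ4]; nlinarith)
    rw [hW] at hk
    have e1 : Real.exp 2 * X / Real.exp 2 = X := by field_simp
    rw [e1, Nat.ceil_natCast] at hk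
    have h5 : ∑ n ∈ Ico X (2 * X), (om n - W) ^ 2 / n ≤ C * W := by
      refine le_trans ?_ hk
      apply sum_le_sum_of_subset_of_nonneg
      · intro n hn
        rw [mem_Ico] at hn
        rw [mem_Icc]
        refine ⟨hn.1, Nat.le_floor ?_⟩
        have h6 : (n : ℝ) < 2 * X := by exact_mod_cast hn.2
        have h7 : (2 : ℝ) ≤ Real.exp 2 := by
          have := Real.add_one_le_exp (2 : ℝ)
          linarith
        have h8 : (X : ℝ) ≤ Real.exp 2 * X := by nlinarith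
        nlinarith
      · intro n _ _; positivity
    have h9 : ∑ n ∈ Ico X (2 * X), (om n - W) ^ 2 ≤ 2 * X * ∑ n ∈ Ico X (2 * X), (om n - W) ^ 2 / n := by
      rw [mul_sum]
      apply sum_le_sum
      intro n hn
      rw [mem_Ico] at hn
      have h6 : (n : ℝ) ≤ 2 * X := by exact_mod_cast hn.2.le
      have hn0 : (0 : ℝ) < n := lt_of_lt_of_le hX0 (by exact_mod_cast hn.1)
      rw [mul_div_assoc', le_div_iff₀ hn0]
      nlinarith [sq_nonneg (om n - W)]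
    refine h9.trans ?_
    exact mul_le_mul_of_nonneg_left h5 (by positivity)
  have h4 : ‖∑ n ∈ Ico X (2 * X), ((om n - W : ℝ) : ℂ) * F n‖ ≤ X * Real.sqrt (2 * C * W) := by
    have h5 : ‖∑ n ∈ Ico X (2 * X), ((om n - W : ℝ) : ℂ) * F n‖ ≤ ∑ n ∈ Ico X (2 * X), |om n - W| := by
      refine (norm_sum_le _ _).trans (sum_le_sum fun n _ => ?_)
      rw [norm_mul, Complex.norm_real, Real.norm_eq_abs]
      have := mul_le_mul_of_nonneg_left (hF n) (abs_nonneg (om n - W))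
      linarith
    have h6 : (∑ n ∈ Ico X (2 * X), |om n - W|) ^ 2 ≤ (X * Real.sqrt (2 * C * W)) ^ 2 := by
      refine sq_sum_le_card_mul_sum_sq.trans ?_
      rw [Nat.card_Ico, show 2 * X - X = X by omega]
      simp_rw [sq_abs]
      rw [mul_pow, Real.sq_sqrt (by positivity)]
      calc (X : ℝ) * ∑ n ∈ Ico X (2 * X), (om n - W) ^ 2 ≤ X * (2 * X * (C * W)) :=
            mul_le_mul_of_nonneg_left h3 hX0.le
        _ = _ := by ring
    exact h5.trans (abs_le_of_sq_le_sq' h6 (by positivity)).2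
  have h5 : W * ‖∑ n ∈ Ico X (2 * X), F n‖ = ‖(W : ℂ) * ∑ n ∈ Ico X (2 * X), F n‖ := by
    rw [norm_mul, Complex.norm_real, Real.norm_eq_abs, abs_of_pos (by linarith)]
  rw [h5, h2, h1]
  exact (norm_sub_le _ _).trans (by linarith)

/-- the primes of the cells `v₀ ≤ v < v₁` -/
noncomputable def PR (H v₀ v₁ : ℕ) : Finset ℕ := (Ico v₀ v₁).biUnion (cell H)

theorem PR_sum {E : Type*} [AddCommMonoid E] {H : ℕ} (hH : 1 ≤ H) (v₀ v₁ : ℕ) (u : ℕ → E) :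
    ∑ p ∈ PR H v₀ v₁, u p = ∑ v ∈ Ico v₀ v₁, ∑ p ∈ cell H v, u p := by
  unfold PR
  rw [sum_biUnion]
  intro v _ v' _ hne
  rw [Function.onFun, disjoint_left]
  intro p hp hp'
  exact hne (dec_disj hH hp hp')

/-- DYADIC BLOCKS. -/
theorem block {s : ℤ} (hs : s = 1 ∨ s = -1) {ε : ℝ} (hε : 0 < ε) (hε1 : ε ≤ 1) :
    ∃ X0 : ℕ, 1 ≤ X0 ∧ ∀ X : ℕ, X0 ≤ X → ∀ S : Set ℤ, Inv 1 S → ∀ δ : ℝ, HD s S δ → ∀ γ : ℝ,
    ∀ g : ℕ → ℂ, MulB g → ‖∑ n ∈ Ico X (2 * X), tw (bal s S δ) γ (n : ℤ) * g n‖ ≤ ε * X := by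
  obtain ⟨C, hC0, hC⟩ := Pool.Agent.H376R2.MR.tk
  obtain ⟨CW, hCW0, hCW⟩ := WW_bound
  obtain ⟨H, hH⟩ : ∃ H : ℕ, H = ⌈28 / ε⌉₊ + 10 := ⟨_, rfl⟩
  have hH10 : 10 ≤ H := by omega
  have hH1 : 1 ≤ H := by omega
  have hH0 : (0 : ℝ) < H := by exact_mod_cast (by omega : 0 < H)
  have hHε : 7 / (H : ℝ) ≤ ε / 4 := by
    have h1 : 28 / ε ≤ H := by
      have h2 : 28 / ε ≤ (⌈28 / ε⌉₊ : ℕ) := Nat.le_ceil _
      have h3 : ((⌈28 / ε⌉₊ : ℕ) : ℝ) ≤ H := by exact_mod_cast (by omega : ⌈28 / ε⌉₊ ≤ H)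
      linarith
    rw [div_le_iff₀ hε] at h1
    rw [div_le_div_iff₀ hH0 (by norm_num)]
    linarith
  obtain ⟨ϑ, hϑ0, hϑ1, hcm⟩ := cellmain hs (ε := (ε / 16) ^ 2) (by positivity) (by nlinarith) hH10
  obtain ⟨L, hL⟩ : ∃ L : ℝ, L = CW + 32 * C / ε ^ 2 + 1 := ⟨_, rfl⟩
  have hq0 : 0 < 32 * C / ε ^ 2 := by positivity
  obtain ⟨θ1, hθ1⟩ : ∃ θ1 : ℝ, θ1 = ϑ * Real.exp (-L) / 32 := ⟨_, rfl⟩
  have hθ10 : 0 < θ1 := by rw [hθ1]; positivity
  obtain ⟨X0, hX01, hmain⟩ := hcm θ1 hθ10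
  -- the size of `log X`
  obtain ⟨ℓ0, hℓ0⟩ : ∃ ℓ0 : ℝ, ℓ0 = 1 / θ1 + 16 / (ϑ * H) + Real.log (8 * H) / θ1 + Real.log (28 * H) * 2 := ⟨_, rfl⟩
  have hlog8 : 0 ≤ Real.log (8 * H) := Real.log_nonneg (by
    have : (1 : ℝ) ≤ H := by exact_mod_cast hH1
    linarith)
  have hlog28 : 0 ≤ Real.log (28 * H) := Real.log_nonneg (by
    have : (1 : ℝ) ≤ H := by exact_mod_cast hH1
    linarith)
  refine ⟨⌈X0⌉₊ + ⌈Real.exp ℓ0⌉₊ + 1, by omega, fun X hX S hS δ hδ γ g hg => ?_⟩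
  have hX1 : 1 ≤ X := by omega
  have hXr : (0 : ℝ) < X := by exact_mod_cast hX1
  have hXX0 : X0 ≤ X := (Nat.le_ceil _).trans (by exact_mod_cast (by omega : ⌈X0⌉₊ ≤ X))
  have hXe : Real.exp ℓ0 ≤ X := (Nat.le_ceil _).trans (by exact_mod_cast (by omega : ⌈Real.exp ℓ0⌉₊ ≤ X))
  obtain ⟨ℓ, hℓ⟩ : ∃ ℓ : ℝ, ℓ = Real.log X := ⟨_, rfl⟩
  have hℓX : Real.exp ℓ = X := by rw [hℓ, Real.exp_log hXr]
  have hℓℓ0 : ℓ0 ≤ ℓ := by
    rw [hℓ, ← Real.log_exp ℓ0]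
    exact Real.log_le_log (Real.exp_pos _) hXe
  have t1 : 0 < 1 / θ1 := by positivity
  have t2 : 0 < 16 / (ϑ * H) := by positivity
  have t3 : 0 ≤ Real.log (8 * H) / θ1 := by positivity
  have hℓ1 : 1 ≤ θ1 * ℓ := by
    have : 1 / θ1 ≤ ℓ := by linarith only [hℓℓ0, hℓ0, t1, t2, t3, hlog28]
    rw [div_le_iff₀ hθ10] at this
    linarith only [this]
  have hℓ2 : 16 ≤ ϑ * H * ℓ := by
    have : 16 / (ϑ * H) ≤ ℓ := by linarith only [hℓℓ0, hℓ0, t1, t2, t3, hlog28]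
    rw [div_le_iff₀ (by positivity)] at this
    linarith only [this]
  have hℓ3 : Real.log (8 * H) ≤ θ1 * ℓ := by
    have : Real.log (8 * H) / θ1 ≤ ℓ := by linarith only [hℓℓ0, hℓ0, t1, t2, t3, hlog28]
    rw [div_le_iff₀ hθ10] at this
    linarith only [this]
  have hℓ4 : Real.log (28 * H) * 2 ≤ ℓ := by linarith only [hℓℓ0, hℓ0, t1, t2, t3, hlog28]
  have hℓ00 : 0 < ℓ := by linarith only [hℓℓ0, hℓ0, t1, t2, t3, hlog28]
  obtain ⟨v₀, hv₀⟩ : ∃ v₀ : ℕ, v₀ = ⌈H * (θ1 * ℓ)⌉₊ := ⟨_, rfl⟩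
  obtain ⟨v₁, hv₁⟩ : ∃ v₁ : ℕ, v₁ = ⌊ϑ / 8 * ℓ * H⌋₊ := ⟨_, rfl⟩
  have a1 : H * (θ1 * ℓ) ≤ v₀ := by rw [hv₀]; exact Nat.le_ceil _
  have a2 : (v₀ : ℝ) < H * (θ1 * ℓ) + 1 := by rw [hv₀]; exact Nat.ceil_lt_add_one (by positivity)
  have a3 : (v₁ : ℝ) ≤ ϑ / 8 * ℓ * H := by rw [hv₁]; exact Nat.floor_le (by positivity)
  have a4 : ϑ / 8 * ℓ * H < (v₁ : ℝ) + 1 := by rw [hv₁]; exact Nat.lt_floor_add_one _
  have hH10' : (10 : ℝ) ≤ H := by exact_mod_cast hH10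
  have a5 : (H : ℝ) ≤ H * (θ1 * ℓ) := by nlinarith only [hℓ1, hH0]
  have hHv₀ : H ≤ v₀ := by
    have : (H : ℝ) ≤ v₀ := a5.trans a1
    exact_mod_cast this
  have hv00 : (0 : ℝ) < v₀ := by
    have : (H : ℝ) ≤ v₀ := a5.trans a1
    linarith only [this, hH0]
  have a6 : (v₀ : ℝ) ≤ 2 * (H * (θ1 * ℓ)) := by linarith only [a2, a5, hH10']
  have a7 : ϑ / 16 * ℓ * H ≤ v₁ := by
    have e : ϑ * H * ℓ = 16 * (ϑ / 16 * ℓ * H) := by ring
    have e2 : ϑ / 8 * ℓ * H = 2 * (ϑ / 16 * ℓ * H) := by ring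
    rw [e] at hℓ2
    rw [e2] at a4
    linarith only [hℓ2, a4]
  have hL0 : 0 < L := by rw [hL]; linarith only [hq0, hCW0]
  have a8 : Real.exp L ≤ (v₁ : ℝ) / v₀ := by
    rw [le_div_iff₀ hv00]
    refine le_trans ?_ a7
    calc Real.exp L * v₀ ≤ Real.exp L * (2 * (H * (θ1 * ℓ))) := mul_le_mul_of_nonneg_left a6 (Real.exp_pos _).le
      _ = (Real.exp L * Real.exp (-L)) * (ϑ / 16 * ℓ * H) := by rw [hθ1]; ring
      _ = _ := by rw [← Real.exp_add, add_neg_cancel, Real.exp_zero, one_mul]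
  have hv01 : v₀ ≤ v₁ := by
    have h1 : (1 : ℝ) ≤ (v₁ : ℝ) / v₀ := (Real.one_le_exp hL0.le).trans a8
    rw [le_div_iff₀ hv00, one_mul] at h1
    exact_mod_cast h1
  obtain ⟨W, hW⟩ : ∃ W : ℝ, W = WW H v₀ v₁ := ⟨_, rfl⟩
  have hWL : L - CW ≤ W := by
    have h1 := hCW H v₀ v₁ hH1 hHv₀ hv01
    have h2 : L ≤ Real.log ((v₁ : ℝ) / v₀) := by
      rw [← Real.log_exp L]
      exact Real.log_le_log (Real.exp_pos _) a8
    rw [abs_le] at h1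
    rw [hW]
    linarith only [h1.1, h2]
  have hW1 : 1 ≤ W := by rw [hL] at hWL; linarith only [hWL, hq0]
  have hW2 : 32 * C / ε ^ 2 ≤ W := by rw [hL] at hWL; linarith only [hWL]
  have hWsum : ∑ p ∈ PR H v₀ v₁, 1 / (p : ℝ) = W := by
    rw [PR_sum hH1, hW]; rfl
  obtain ⟨hd0, hd1⟩ := HD_mem hs hδ
  have hf : ∀ n, |bal s S δ n| ≤ 1 := fun n => bal_abs hd0 hd1 n
  -- the cells
  have hcell : ∀ v ∈ Ico v₀ v₁, θ1 * ℓ ≤ (v : ℝ) / H ∧ ((v : ℝ) + 1) / H ≤ ϑ / 8 * ℓ := by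
    intro v hv
    rw [mem_Ico] at hv
    have b1 : (v₀ : ℝ) ≤ v := by exact_mod_cast hv.1
    have b2 : (v : ℝ) + 1 ≤ v₁ := by exact_mod_cast hv.2
    constructor
    · rw [le_div_iff₀ hH0]; linarith only [a1, b1]
    · rw [div_le_iff₀ hH0]; linarith only [a3, b2]
  have hprim : ∀ p ∈ PR H v₀ v₁, p.Prime ∧ (p : ℝ) ^ 4 ≤ X := by
    intro p hp
    unfold PR at hp
    rw [mem_biUnion] at hp
    obtain ⟨v, hv, hp⟩ := hp
    have h1 := cell_lt hp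
    refine ⟨h1.1, ?_⟩
    have hp0 : (0 : ℝ) < p := by exact_mod_cast h1.1.pos
    rw [← hℓX, ← Real.exp_log hp0, ← Real.exp_nat_mul]
    apply Real.exp_le_exp.2
    have h2 := (hcell v hv).2
    have h3 : ϑ / 8 * ℓ ≤ 1 / 32 * ℓ := mul_le_mul_of_nonneg_right (by linarith only [hϑ1]) hℓ00.le
    push_cast
    linarith only [h1.2.2, h2, h3, hℓ00]
  have hTn : ∀ n : ℕ, ‖tw (bal s S δ) γ (n : ℤ) * g n‖ ≤ 1 := fun n => by
    rw [norm_mul]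
    exact mul_le_one₀ (tw_norm hf _ _) (norm_nonneg _) (hg.1 _)
  have key := tk_pass hC0 hC hX1 hprim hWsum hW1 hTn
  -- the sum over the cells
  have hsum : ‖∑ p ∈ PR H v₀ v₁, ∑ n ∈ (Ico X (2 * X)).filter (fun n => p ∣ n), tw (bal s S δ) γ (n : ℤ) * g n‖
      ≤ W * (X * (ε / 2)) := by
    rw [PR_sum hH1]
    refine (norm_sum_le _ _).trans ?_
    have h1 : ∀ v ∈ Ico v₀ v₁, ‖∑ p ∈ cell H v, ∑ n ∈ (Ico X (2 * X)).filter (fun n => p ∣ n),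
        tw (bal s S δ) γ (n : ℤ) * g n‖ ≤ mm H v * (X * (ε / 2)) := by
      intro v hv
      obtain ⟨c1, c2⟩ := hcell v hv
      obtain ⟨P, hP⟩ : ∃ P : ℝ, P = Real.exp ((v : ℝ) / H) := ⟨_, rfl⟩
      obtain ⟨M, hM⟩ : ∃ M : ℕ, M = ⌈(X : ℝ) / P⌉₊ := ⟨_, rfl⟩
      have hP8 : 8 * (H : ℝ) ≤ P := by
        rw [hP, ← Real.exp_log (by positivity : (0 : ℝ) < 8 * H)]
        exact Real.exp_le_exp.2 (hℓ3.trans c1)
      have hP0 : 0 < P := by linarith only [hP8, hH0]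
      have hPP : P * P * ((28 * H) * (28 * H)) ≤ X * X := by
        have h3 : (28 * (H : ℝ)) = Real.exp (Real.log (28 * H)) := (Real.exp_log (by positivity)).symm
        rw [h3, hP, ← hℓX, ← Real.exp_add, ← Real.exp_add, ← Real.exp_add, ← Real.exp_add]
        apply Real.exp_le_exp.2
        have h4 : (v : ℝ) / H ≤ ϑ / 8 * ℓ := by
          refine le_trans ?_ c2
          apply div_le_div_of_nonneg_right _ hH0.le
          linarith only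
        have h5 : ϑ / 8 * ℓ ≤ 1 / 32 * ℓ := mul_le_mul_of_nonneg_right (by linarith only [hϑ1]) hℓ00.le
        linarith only [h4, h5, hℓ4, hℓ00]
      have hPX : P * (28 * H) ≤ X := by
        have : (P * (28 * H)) ^ 2 ≤ (X : ℝ) ^ 2 := by nlinarith only [hPP]
        exact (abs_le_of_sq_le_sq' this hXr.le).2
      have hPX2 : 14 * P / X + 4 / P ≤ 1 / H := by
        have h3 : 14 * P / X ≤ 1 / (2 * H) := by
          rw [div_le_div_iff₀ hXr (by positivity)]; linarith only [hPX]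
        have h4 : 4 / P ≤ 1 / (2 * H) := by
          rw [div_le_div_iff₀ hP0 (by positivity)]; linarith only [hP8]
        have e : 1 / (H : ℝ) = 1 / (2 * H) + 1 / (2 * H) := by field_simp; norm_num
        linarith only [h3, h4, e]
      have hPX3 : P ≤ X := by nlinarith only [hPX, hP0, hH10']
      have m1 : (X : ℝ) / P ≤ M := by rw [hM]; exact Nat.le_ceil _
      have m2 : (M : ℝ) < X / P + 1 := by rw [hM]; exact Nat.ceil_lt_add_one (by positivity)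
      have m3 : (X : ℝ) ≤ M * P := by rwa [div_le_iff₀ hP0] at m1
      have m4 : M * P ≤ 2 * (X : ℝ) := by
        have h3 : M * P ≤ (X / P + 1) * P := mul_le_mul_of_nonneg_right m2.le hP0.le
        have e : ((X : ℝ) / P + 1) * P = X + P := by field_simp
        linarith only [h3, e, hPX3]
      have hcs := cell_sum hf (γ := γ) (ε1 := ε / 16) hH10 hP hX1 hM hPX2 (by positivity) hg
        (fun w hw => hmain X hXX0 S hS δ hδ γ v M (by rw [← hℓ]; exact c1) (by rw [← hℓ]; exact c2)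
          (by rw [← hP]; linarith only [m3, hXr]) (by rw [← hP]; linarith only [m4, hXr]) w hw)
      refine hcs.trans ?_
      have hmm0 : 0 ≤ mm H v := sum_nonneg fun p _ => by positivity
      calc mm H v * X * (4 * (ε / 16) + 7 / H) ≤ mm H v * X * (ε / 2) := by
            apply mul_le_mul_of_nonneg_left _ (by positivity)
            linarith only [hHε]
        _ = _ := by ring
    refine (sum_le_sum h1).trans (le_of_eq ?_)
    rw [← sum_mul, hW]; rfl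
  have hsq : Real.sqrt (2 * C * W) ≤ W * (ε / 4) := by
    apply Real.sqrt_le_iff.2
    refine ⟨by positivity, ?_⟩
    rw [div_le_iff₀ (by positivity)] at hW2
    have h1 : 32 * C * W ≤ W * ε ^ 2 * W := mul_le_mul_of_nonneg_right hW2 (by linarith only [hW1])
    nlinarith only [h1]
  have h5 : W * ‖∑ n ∈ Ico X (2 * X), tw (bal s S δ) γ (n : ℤ) * g n‖ ≤ W * (ε * X) := by
    refine key.trans ?_
    have h6 : X * Real.sqrt (2 * C * W) ≤ X * (W * (ε / 4)) := mul_le_mul_of_nonneg_left hsq hXr.le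
    have h7 : 0 ≤ W * (X * ε) := by positivity
    linarith only [hsum, h6, h7]
  exact le_of_mul_le_mul_left h5 (by linarith only [hW1])

end Pool.Agent.W41.MU
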