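import Pool.Agent.W41.MU22

/-! Orthogonality of invariant sets to multiplicative functions twisted by linear phases. -/

set_option autoImplicit false

namespace Pool.Agent.W41.MU

open Pool.Agent.H320R2.PD Pool.Agent.H499R2.ND Pool.Agent.H499R2.CO Finset MeasureTheory Pool.Agent.H376R2.MR Pool.Agent.W41.FU Pool.Agent.W41

/-- from dyadic blocks to intervals -/
theorem halving {ε : ℝ} (hε : 0 < ε) {X0 : ℕ} {F : ℕ → ℂ} (hF : ∀ n, ‖F n‖ ≤ 1)
    (hB : ∀ X : ℕ, X0 ≤ X → ‖∑ n ∈ Ico X (2 * X), F n‖ ≤ ε / 4 * X) :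
    ∀ N : ℕ, ‖∑ n ∈ Ico 1 N, F n‖ ≤ ε / 2 * N + (2 * (X0 + ⌈4 / ε⌉₊) + 2 : ℕ) := by
  intro N
  induction N using Nat.strong_induction_on with
  | _ N ih =>
    by_cases hN : N ≤ 2 * (X0 + ⌈4 / ε⌉₊) + 2
    · have h1 : ‖∑ n ∈ Ico 1 N, F n‖ ≤ N := by
        refine (norm_sum_le _ _).trans ?_
        calc ∑ n ∈ Ico 1 N, ‖F n‖ ≤ ∑ n ∈ Ico 1 N, (1 : ℝ) := sum_le_sum fun n _ => hF n
          _ = ((N - 1 : ℕ) : ℝ) := by rw [sum_const, Nat.card_Ico, nsmul_eq_mul, mul_one]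
          _ ≤ N := by exact_mod_cast Nat.sub_le _ _
      have h2 : (N : ℝ) ≤ ((2 * (X0 + ⌈4 / ε⌉₊) + 2 : ℕ) : ℝ) := by exact_mod_cast hN
      have h3 : 0 ≤ ε / 2 * N := by positivity
      linarith
    · push Not at hN
      set X := N / 2 with hX
      have hX0 : X0 ≤ X := by omega
      have hX1 : 1 ≤ X := by omega
      have hXN : X < N := by omega
      have h4 : 4 / ε ≤ X := by
        have h5 : 4 / ε ≤ (⌈4 / ε⌉₊ : ℕ) := Nat.le_ceil _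
        have h6 : ((⌈4 / ε⌉₊ : ℕ) : ℝ) ≤ X := by exact_mod_cast (by omega : ⌈4 / ε⌉₊ ≤ X)
        linarith
      rw [div_le_iff₀ hε] at h4
      have e1 : ∑ n ∈ Ico 1 N, F n = ∑ n ∈ Ico 1 X, F n + ∑ n ∈ Ico X (2 * X), F n + ∑ n ∈ Ico (2 * X) N, F n := by
        rw [sum_Ico_consecutive _ hX1 (by omega), sum_Ico_consecutive _ (by omega) (by omega)]
      have h7 : ‖∑ n ∈ Ico (2 * X) N, F n‖ ≤ 1 := by
        refine (norm_sum_le _ _).trans ?_
        calc ∑ n ∈ Ico (2 * X) N, ‖F n‖ ≤ ∑ n ∈ Ico (2 * X) N, (1 : ℝ) := sum_le_sum fun n _ => hF n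
          _ = ((N - 2 * X : ℕ) : ℝ) := by rw [sum_const, Nat.card_Ico, nsmul_eq_mul, mul_one]
          _ ≤ 1 := by exact_mod_cast (by omega : N - 2 * X ≤ 1)
      have h8 := ih X hXN
      have h9 := hB X hX0
      rw [e1]
      refine (norm_add_le _ _).trans ?_
      have h10 := norm_add_le (∑ n ∈ Ico 1 X, F n) (∑ n ∈ Ico X (2 * X), F n)
      have h11 : (X : ℝ) ≤ N / 2 := by
        rw [le_div_iff₀ (by norm_num)]
        exact_mod_cast (by omega : X * 2 ≤ N)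
      have h12 : ε / 2 * X + ε / 4 * X + 1 ≤ ε / 2 * N := by nlinarith
      linarith

/-- THE JOINT THEOREM. -/
theorem joint {s : ℤ} (hs : s = 1 ∨ s = -1) {ε : ℝ} (hε : 0 < ε) (hε1 : ε ≤ 1) :
    ∃ N0 : ℕ, 1 ≤ N0 ∧ ∀ S : Set ℤ, Inv 1 S → ∀ δ : ℝ, HD s S δ → ∀ N : ℕ, N0 ≤ N → ∀ γ : ℝ,
    ∀ g : ℕ → ℂ, MulB g → ‖∑ n ∈ Icc 1 N, tw (bal s S δ) γ (n : ℤ) * g n‖ ≤ ε * N := by
  obtain ⟨X0, hX0, hB⟩ := block hs (ε := ε / 4) (by positivity) (by linarith)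
  set K : ℕ := 2 * (X0 + ⌈4 / ε⌉₊) + 2 with hK
  refine ⟨⌈2 * (K + 1) / ε⌉₊ + 1, by omega, fun S hS δ hδ N hN γ g hg => ?_⟩
  obtain ⟨hd0, hd1⟩ := HD_mem hs hδ
  have hTn : ∀ n : ℕ, ‖tw (bal s S δ) γ (n : ℤ) * g n‖ ≤ 1 := fun n => by
    rw [norm_mul]
    exact mul_le_one₀ (tw_norm (fun n => bal_abs hd0 hd1 n) _ _) (norm_nonneg _) (hg.1 _)
  have h1 := halving hε hTn (fun X hX => hB X hX S hS δ hδ γ g hg) (N + 1)
  have e : Icc 1 N = Ico 1 (N + 1) := by ext n; simp only [mem_Icc, mem_Ico]; omega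
  rw [e]
  refine h1.trans ?_
  rw [← hK]
  have h2 : 2 * ((K : ℝ) + 1) / ε ≤ N := by
    have h3 : 2 * ((K : ℝ) + 1) / ε ≤ (⌈2 * ((K : ℝ) + 1) / ε⌉₊ : ℕ) := Nat.le_ceil _
    have h4 : ((⌈2 * ((K : ℝ) + 1) / ε⌉₊ : ℕ) : ℝ) ≤ N := by exact_mod_cast (by omega : ⌈2 * ((K : ℝ) + 1) / ε⌉₊ ≤ N)
    linarith
  rw [div_le_iff₀ hε] at h2
  push_cast
  linarith

/-- multiplicative sets -/
def MulSet (D : Set ℕ) : Prop := ∀ m n : ℕ, Nat.Coprime m n → (m * n ∈ D ↔ m ∈ D ∧ n ∈ D)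

/-- additive functions with values in a group -/
def AddFun {G : Type} [AddCommGroup G] (h : ℕ → G) : Prop := ∀ m n : ℕ, Nat.Coprime m n → h (m * n) = h m + h n

open Classical in
/-- the indicator of `n ∈ D`, `h n = a`, `n ≡ b (mod r)` -/
noncomputable def cind {G : Type} [AddCommGroup G] (D : Set ℕ) (h : ℕ → G) (a : G) (r b : ℕ) (x : ℤ) : ℝ :=
  if x.toNat ∈ D ∧ h x.toNat = a ∧ x.toNat % r = b % r then 1 else 0

theorem cind_abs {G : Type} [AddCommGroup G] (D : Set ℕ) (h : ℕ → G) (a : G) (r b : ℕ) (x : ℤ) :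
    |cind D h a r b x| ≤ 1 := by
  unfold cind
  split_ifs <;> simp

open Classical in
/-- the multiplicative function of a character -/
noncomputable def gch {G : Type} [AddCommGroup G] (D : Set ℕ) (h : ℕ → G) (ψ : AddChar G ℂ) (n : ℕ) : ℂ :=
  if n ∈ D then ψ (h n) else 0

theorem gch_mul {G : Type} [AddCommGroup G] [Finite G] {D : Set ℕ} {h : ℕ → G} (hD : MulSet D) (hh : AddFun h)
    (ψ : AddChar G ℂ) : MulB (gch D h ψ) := by
  constructor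
  · intro n
    unfold gch
    split_ifs
    · exact (ψ.norm_apply _).le
    · rw [norm_zero]; norm_num
  · intro m n hmn
    unfold gch
    by_cases h1 : m ∈ D <;> by_cases h2 : n ∈ D
    · rw [if_pos ((hD m n hmn).2 ⟨h1, h2⟩), if_pos h1, if_pos h2, hh m n hmn, AddChar.map_add_eq_mul]
    · rw [if_neg (fun h => h2 ((hD m n hmn).1 h).2), if_neg h2, mul_zero]
    · rw [if_neg (fun h => h1 ((hD m n hmn).1 h).1), if_neg h1, zero_mul]
    · rw [if_neg (fun h => h1 ((hD m n hmn).1 h).1), if_neg h1, zero_mul]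

/-- the indicator as a sum over the characters -/
theorem cind_char {G : Type} [AddCommGroup G] [Fintype G] (D : Set ℕ) (h : ℕ → G) (a : G) {r : ℕ} [NeZero r] (b : ℕ) (n : ℕ) :
    (Fintype.card G : ℂ) * (r : ℂ) * (cind D h a r b (n : ℤ) : ℂ) = ∑ ψ : AddChar G ℂ, ∑ χ : AddChar (ZMod r) ℂ,
      ψ (-a) * χ (-(b : ZMod r)) * (χ (n : ZMod r) * gch D h ψ n) := by
  classical
  have h1 : ∑ ψ : AddChar G ℂ, ∑ χ : AddChar (ZMod r) ℂ, ψ (-a) * χ (-(b : ZMod r)) * (χ (n : ZMod r) * gch D h ψ n)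
      = (∑ ψ : AddChar G ℂ, ψ (-a) * gch D h ψ n) * ∑ χ : AddChar (ZMod r) ℂ, χ ((n : ZMod r) - b) := by
    rw [sum_mul_sum]
    apply sum_congr rfl; intro ψ _
    apply sum_congr rfl; intro χ _
    rw [sub_eq_add_neg, AddChar.map_add_eq_mul]
    ring
  have h2 : ∑ ψ : AddChar G ℂ, ψ (-a) * gch D h ψ n = if n ∈ D then (if h n - a = 0 then (Fintype.card G : ℂ) else 0) else 0 := by
    split_ifs with h3 h4
    · rw [← if_pos (c := h n - a = 0) (t := (Fintype.card G : ℂ)) (e := 0) h4, ← AddChar.sum_apply_eq_ite]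
      apply sum_congr rfl; intro ψ _
      unfold gch
      rw [if_pos h3, sub_eq_add_neg, AddChar.map_add_eq_mul]; ring
    · rw [← if_neg (c := h n - a = 0) (t := (Fintype.card G : ℂ)) (e := 0) h4, ← AddChar.sum_apply_eq_ite]
      apply sum_congr rfl; intro ψ _
      unfold gch
      rw [if_pos h3, sub_eq_add_neg, AddChar.map_add_eq_mul]; ring
    · apply sum_eq_zero; intro ψ _
      unfold gch
      rw [if_neg h3, mul_zero]
  rw [h1, h2, AddChar.sum_apply_eq_ite, ZMod.card]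
  have h5 : ((n : ZMod r) - b = 0) ↔ n % r = b % r := by
    rw [sub_eq_zero, ZMod.natCast_eq_natCast_iff']
  unfold cind
  rw [Int.toNat_natCast]
  by_cases c1 : n ∈ D
  · by_cases c2 : h n = a
    · by_cases c3 : n % r = b % r
      · rw [if_pos ⟨c1, c2, c3⟩, if_pos c1, if_pos (sub_eq_zero.2 c2), if_pos (h5.2 c3)]
        push_cast; ring
      · rw [if_neg (fun h => c3 h.2.2), if_neg (fun h => c3 (h5.1 h))]
        push_cast; ring
    · rw [if_neg (fun h => c2 h.2.1), if_pos c1, if_neg (fun h => c2 (sub_eq_zero.1 h))]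
      push_cast; ring
  · rw [if_neg (fun h => c1 h.1), if_neg c1]
    push_cast; ring

/-- characters of cyclic groups are phases -/
theorem tw_char (f : ℤ → ℝ) (γ : ℝ) {r : ℕ} [NeZero r] (χ : AddChar (ZMod r) ℂ) (n : ℕ) :
    tw f γ (n : ℤ) * χ (n : ZMod r) = tw f (γ + (χ 1).arg) (n : ℤ) := by
  have h1 : χ (n : ZMod r) = (χ 1) ^ n := by
    have : (n : ZMod r) = n • (1 : ZMod r) := by rw [nsmul_eq_mul, mul_one]
    rw [this, AddChar.map_nsmul_eq_pow]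
  have h2 : χ 1 = Complex.exp (((χ 1).arg : ℂ) * Complex.I) := by
    have := Complex.norm_mul_exp_arg_mul_I (χ 1)
    rw [χ.norm_apply, Complex.ofReal_one, one_mul] at this
    exact this.symm
  rw [h1, h2, ← Complex.exp_nat_mul]
  unfold tw
  rw [mul_assoc, ← Complex.exp_add]
  rw [← h2]
  congr 2
  push_cast
  ring

/-- ARITHMETIC CLASSES, uniformly in the frequency. -/
theorem classes {s : ℤ} (hs : s = 1 ∨ s = -1) {ε : ℝ} (hε : 0 < ε) (hε1 : ε ≤ 1) :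
    ∃ N0 : ℕ, 1 ≤ N0 ∧ ∀ S : Set ℤ, Inv 1 S → ∀ δ : ℝ, HD s S δ → ∀ N : ℕ, N0 ≤ N → ∀ γ : ℝ,
    ∀ (G : Type) [AddCommGroup G] [Finite G] (D : Set ℕ) (h : ℕ → G) (a : G) (r b : ℕ), MulSet D → AddFun h → 1 ≤ r →
    ‖∑ n ∈ Icc 1 N, tw (bal s S δ) γ (n : ℤ) * (cind D h a r b (n : ℤ) : ℂ)‖ ≤ ε * N := by
  obtain ⟨N0, hN0, H⟩ := joint hs hε hε1
  refine ⟨N0, hN0, fun S hS δ hδ N hN γ G _ _ D h a r b hD hh hr => ?_⟩
  haveI : NeZero r := ⟨by omega⟩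
  haveI := Fintype.ofFinite G
  have e1 : (Fintype.card G : ℂ) * (r : ℂ) * ∑ n ∈ Icc 1 N, tw (bal s S δ) γ (n : ℤ) * (cind D h a r b (n : ℤ) : ℂ)
      = ∑ ψ : AddChar G ℂ, ∑ χ : AddChar (ZMod r) ℂ, ψ (-a) * χ (-(b : ZMod r))
        * ∑ n ∈ Icc 1 N, tw (bal s S δ) (γ + (χ 1).arg) (n : ℤ) * gch D h ψ n := by
    rw [mul_sum]
    have e2 : ∀ n ∈ Icc 1 N, (Fintype.card G : ℂ) * (r : ℂ) * (tw (bal s S δ) γ (n : ℤ) * (cind D h a r b (n : ℤ) : ℂ))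
        = ∑ ψ : AddChar G ℂ, ∑ χ : AddChar (ZMod r) ℂ, ψ (-a) * χ (-(b : ZMod r))
          * (tw (bal s S δ) (γ + (χ 1).arg) (n : ℤ) * gch D h ψ n) := by
      intro n _
      have e3 : (Fintype.card G : ℂ) * (r : ℂ) * (tw (bal s S δ) γ (n : ℤ) * (cind D h a r b (n : ℤ) : ℂ))
          = tw (bal s S δ) γ (n : ℤ) * ((Fintype.card G : ℂ) * (r : ℂ) * (cind D h a r b (n : ℤ) : ℂ)) := by ring
      rw [e3, cind_char, mul_sum]
      apply sum_congr rfl; intro ψ _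
      rw [mul_sum]
      apply sum_congr rfl; intro χ _
      rw [← tw_char]
      ring
    rw [sum_congr rfl e2, sum_comm]
    apply sum_congr rfl; intro ψ _
    rw [sum_comm]
    apply sum_congr rfl; intro χ _
    rw [mul_sum]
  have h1 : ‖∑ ψ : AddChar G ℂ, ∑ χ : AddChar (ZMod r) ℂ, ψ (-a) * χ (-(b : ZMod r))
        * ∑ n ∈ Icc 1 N, tw (bal s S δ) (γ + (χ 1).arg) (n : ℤ) * gch D h ψ n‖ ≤ Fintype.card G * (r * (ε * N)) := by
    refine (norm_sum_le _ _).trans ?_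
    have h2 : ∀ ψ ∈ (univ : Finset (AddChar G ℂ)), ‖∑ χ : AddChar (ZMod r) ℂ, ψ (-a) * χ (-(b : ZMod r))
        * ∑ n ∈ Icc 1 N, tw (bal s S δ) (γ + (χ 1).arg) (n : ℤ) * gch D h ψ n‖ ≤ r * (ε * N) := by
      intro ψ _
      refine (norm_sum_le _ _).trans ?_
      have h3 : ∀ χ ∈ (univ : Finset (AddChar (ZMod r) ℂ)), ‖ψ (-a) * χ (-(b : ZMod r))
        * ∑ n ∈ Icc 1 N, tw (bal s S δ) (γ + (χ 1).arg) (n : ℤ) * gch D h ψ n‖ ≤ ε * N := by
        intro χ _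
        rw [norm_mul, norm_mul, ψ.norm_apply, χ.norm_apply, one_mul, one_mul]
        exact H S hS δ hδ N hN _ _ (gch_mul hD hh ψ)
      refine (sum_le_sum h3).trans (le_of_eq ?_)
      rw [sum_const, card_univ, AddChar.card_eq, ZMod.card, nsmul_eq_mul]
    refine (sum_le_sum h2).trans (le_of_eq ?_)
    rw [sum_const, card_univ, AddChar.card_eq, nsmul_eq_mul]
  rw [← e1, norm_mul, norm_mul, Complex.norm_natCast, Complex.norm_natCast] at h1
  have hG : (0 : ℝ) < Fintype.card G := by exact_mod_cast Fintype.card_pos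
  have hr0 : (0 : ℝ) < r := by exact_mod_cast hr
  have h4 : (Fintype.card G * r : ℝ) * ‖∑ n ∈ Icc 1 N, tw (bal s S δ) γ (n : ℤ) * (cind D h a r b (n : ℤ) : ℂ)‖
      ≤ (Fintype.card G * r : ℝ) * (ε * N) := by linarith
  exact le_of_mul_le_mul_left h4 (by positivity)

end Pool.Agent.W41.MU
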