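import Pool.Agent.W41.MU23
import Pool.Agent.W41.FU12

/-! Linear equations in invariant sets with arithmetic conditions. -/

set_option autoImplicit false

namespace Pool.Agent.W41.MU

open Pool.Agent.H320R2.PD Pool.Agent.H499R2.ND Pool.Agent.H499R2.CO Finset MeasureTheory Pool.Agent.H376R2.MR Pool.Agent.W41.FU Pool.Agent.W41

/-- arithmetic classes -/
def Arith (E : Set ℕ) : Prop :=
  ∃ (G : Type) (_ : AddCommGroup G) (_ : Finite G) (D : Set ℕ) (h : ℕ → G) (a : G) (r b : ℕ),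
    MulSet D ∧ AddFun h ∧ 1 ≤ r ∧ ∀ n, n ∈ E ↔ n ∈ D ∧ h n = a ∧ n % r = b % r

open Classical in
/-- indicator of a class -/
noncomputable def ie (E : Set ℕ) (x : ℤ) : ℝ := if x.toNat ∈ E then 1 else 0

theorem ie_nonneg (E : Set ℕ) (x : ℤ) : 0 ≤ ie E x := by unfold ie; split_ifs <;> norm_num
theorem ie_abs (E : Set ℕ) (x : ℤ) : |ie E x| ≤ 1 := by unfold ie; split_ifs <;> norm_num

theorem mul_abs {f g : ℤ → ℝ} (hf : ∀ x, |f x| ≤ 1) (hg : ∀ x, |g x| ≤ 1) (x : ℤ) : |f x * g x| ≤ 1 := by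
  rw [abs_mul]
  exact mul_le_one₀ (hf x) (abs_nonneg _) (hg x)

theorem arith_univ : Arith Set.univ := by
  refine ⟨PUnit, inferInstance, inferInstance, Set.univ, fun _ => 0, 0, 1, 0, ?_, ?_, le_rfl, ?_⟩
  · intro m n _; simp
  · intro m n _; simp
  · intro n; simp [Nat.mod_one]

theorem classesE {s : ℤ} (hs : s = 1 ∨ s = -1) {ε : ℝ} (hε : 0 < ε) (hε1 : ε ≤ 1) :
    ∃ N0 : ℕ, 1 ≤ N0 ∧ ∀ S : Set ℤ, Inv 1 S → ∀ δ : ℝ, HD s S δ → ∀ E : Set ℕ, Arith E → ∀ N : ℕ, N0 ≤ N → ∀ α : ℝ,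
    ‖EE (fun x => bal s S δ x * ie E x) N α‖ ≤ ε * N := by
  obtain ⟨N0, hN0, H⟩ := classes hs hε hε1
  refine ⟨N0, hN0, fun S hS δ hδ E hE N hN α => ?_⟩
  obtain ⟨G, i1, i2, D, h, a, r, b, hD, hh, hr, hE⟩ := hE
  have h1 := H S hS δ hδ N hN (2 * Real.pi * α) G D h a r b hD hh hr
  have e : EE (fun x => bal s S δ x * ie E x) N α
      = ∑ n ∈ Icc 1 N, tw (bal s S δ) (2 * Real.pi * α) (n : ℤ) * (cind D h a r b (n : ℤ) : ℂ) := by
    unfold EE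
    apply sum_congr rfl; intro n _
    have e1 : ie E (n : ℕ) = cind D h a r b (n : ℤ) := by
      unfold ie cind
      rw [Int.toNat_natCast]
      by_cases c : n ∈ E
      · rw [if_pos c, if_pos ((hE n).1 c)]
      · rw [if_neg c, if_neg (fun h => c ((hE n).2 h))]
    simp only
    rw [e1]
    unfold tw ee
    push_cast
    ring
  rw [e]
  exact h1

/-- intervals -/
theorem classes_int {s : ℤ} (hs : s = 1 ∨ s = -1) {ε : ℝ} (hε : 0 < ε) (hε1 : ε ≤ 1) : ∃ N0 : ℕ, 1 ≤ N0 ∧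
    ∀ S : Set ℤ, Inv 1 S → ∀ δ : ℝ, HD s S δ → ∀ E : Set ℕ, Arith E → ∀ X : ℕ, N0 ≤ X → ∀ N : ℕ, N ≤ X → ∀ M : ℕ, M ≤ N →
      ∀ α : ℝ, ‖EE (res M N (fun x => bal s S δ x * ie E x)) X α‖ ≤ ε * X := by
  obtain ⟨n0, hn0, h⟩ := classesE hs (show 0 < ε / 2 by positivity) (by linarith)
  obtain ⟨n1, hn1⟩ := exists_nat_ge (2 * n0 / ε)
  refine ⟨n0 + n1, by omega, fun S hS δ hδ E hE X hX N hN M hM α => ?_⟩
  obtain ⟨d0, d1⟩ := HD_mem hs hδ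
  have hb : ∀ n : ℕ, n ≤ X → ‖EE (fun x => bal s S δ x * ie E x) n α‖ ≤ ε / 2 * X := by
    intro n hn
    rcases le_or_gt n0 n with h1 | h1
    · refine (h S hS δ hδ E hE n h1 α).trans ?_
      have : (n : ℝ) ≤ X := by exact_mod_cast hn
      exact mul_le_mul_of_nonneg_left this (by positivity)
    · refine (EE_triv (mul_abs (bal_abs d0 d1) (ie_abs E)) n α).trans ?_
      have h2 : 2 * n0 / ε ≤ X := hn1.trans (by exact_mod_cast (by omega : n1 ≤ X))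
      rw [div_le_iff₀ hε] at h2
      have h3 : (n : ℝ) ≤ n0 := by exact_mod_cast h1.le
      linarith
  rw [EE_res _ hM hN]
  refine (norm_sub_le _ _).trans ?_
  have := hb N hN
  have := hb M (hM.trans hN)
  linarith

theorem res_balE (M N : ℕ) (s : ℤ) (S : Set ℤ) (δ : ℝ) (E : Set ℕ) (x : ℤ) :
    res M N (fun x => ind s S x * ie E x) x - δ * res M N (ie E) x = res M N (fun x => bal s S δ x * ie E x) x := by
  unfold res bal
  split_ifs <;> ring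

theorem constE_abs {δ : ℝ} (h0 : 0 ≤ δ) (h1 : δ ≤ 1) (M N : ℕ) (E : Set ℕ) (x : ℤ) : |δ * res M N (ie E) x| ≤ 1 := by
  rw [abs_mul, abs_of_nonneg h0]
  exact mul_le_one₀ h1 (abs_nonneg _) (res_abs (ie_abs E) _ _ _)

/-- linear equations -/
theorem solutionsE {s t v : ℤ} (hs : s = 1 ∨ s = -1) (ht : t = 1 ∨ t = -1) (hv : v = 1 ∨ v = -1) {ε : ℝ} (hε : 0 < ε)
    (hε1 : ε ≤ 1) : ∃ N0 : ℕ, 1 ≤ N0 ∧ ∀ S T V : Set ℤ, Inv 1 S → Inv 1 T → Inv 1 V → ∀ δ τ ν : ℝ, HD s S δ → HD t T τ → HD v V ν →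
    ∀ E₁ E₂ E₃ : Set ℕ, Arith E₁ → Arith E₂ → Arith E₃ →
    ∀ X : ℕ, N0 ≤ X → ∀ N₁ N₂ N₃ : ℕ, N₁ ≤ X → N₂ ≤ X → N₃ ≤ X → ∀ M₁ M₂ M₃ : ℕ, M₁ ≤ N₁ → M₂ ≤ N₂ → M₃ ≤ N₃ →
    ∀ a b c m : ℤ, a ≠ 0 → b ≠ 0 → c ≠ 0 →
    |TT (res M₁ N₁ (fun x => ind s S x * ie E₁ x)) (res M₂ N₂ (fun x => ind t T x * ie E₂ x))
        (res M₃ N₃ (fun x => ind v V x * ie E₃ x)) X a b c m
      - δ * τ * ν * TT (res M₁ N₁ (ie E₁)) (res M₂ N₂ (ie E₂)) (res M₃ N₃ (ie E₃)) X a b c m|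
      ≤ ε * X ^ 2 := by
  have hε3 : 0 < ε / 3 := by positivity
  obtain ⟨n1, hn1, h1⟩ := classes_int hs hε3 (by linarith)
  obtain ⟨n2, hn2, h2⟩ := classes_int ht hε3 (by linarith)
  obtain ⟨n3, hn3, h3⟩ := classes_int hv hε3 (by linarith)
  refine ⟨n1 + n2 + n3, by omega, ?_⟩
  intro S T V hS hT hV δ τ ν hδ hτ hν E₁ E₂ E₃ hE₁ hE₂ hE₃ X hX N₁ N₂ N₃ hN1 hN2 hN3 M₁ M₂ M₃ hM1 hM2 hM3 a b c m ha hb hc
  obtain ⟨d0, d1⟩ := HD_mem hs hδ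
  obtain ⟨t0, t1⟩ := HD_mem ht hτ
  obtain ⟨v0, v1⟩ := HD_mem hv hν
  rw [← TT_smul]
  set F1 : ℤ → ℝ := res M₁ N₁ (fun x => ind s S x * ie E₁ x) with hF1
  set F2 : ℤ → ℝ := res M₂ N₂ (fun x => ind t T x * ie E₂ x) with hF2
  set F3 : ℤ → ℝ := res M₃ N₃ (fun x => ind v V x * ie E₃ x) with hF3
  have e : TT F1 F2 F3 X a b c m
      - TT (fun x => δ * res M₁ N₁ (ie E₁) x) (fun x => τ * res M₂ N₂ (ie E₂) x)
        (fun x => ν * res M₃ N₃ (ie E₃) x) X a b c m =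
      (TT F1 F2 F3 X a b c m
        - TT (fun x => δ * res M₁ N₁ (ie E₁) x) F2 F3 X a b c m)
      + (TT (fun x => δ * res M₁ N₁ (ie E₁) x) F2 F3 X a b c m
        - TT (fun x => δ * res M₁ N₁ (ie E₁) x) (fun x => τ * res M₂ N₂ (ie E₂) x) F3 X a b c m)
      + (TT (fun x => δ * res M₁ N₁ (ie E₁) x) (fun x => τ * res M₂ N₂ (ie E₂) x) F3 X a b c m
        - TT (fun x => δ * res M₁ N₁ (ie E₁) x) (fun x => τ * res M₂ N₂ (ie E₂) x)
        (fun x => ν * res M₃ N₃ (ie E₃) x) X a b c m) := by ring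
  rw [e, TT_sub1, TT_sub2, TT_sub3]
  have g1 : (fun x => F1 x - δ * res M₁ N₁ (ie E₁) x) = res M₁ N₁ (fun x => bal s S δ x * ie E₁ x) := by
    ext x; rw [hF1]; exact res_balE _ _ _ _ _ _ _
  have g2 : (fun x => F2 x - τ * res M₂ N₂ (ie E₂) x) = res M₂ N₂ (fun x => bal t T τ x * ie E₂ x) := by
    ext x; rw [hF2]; exact res_balE _ _ _ _ _ _ _
  have g3 : (fun x => F3 x - ν * res M₃ N₃ (ie E₃) x) = res M₃ N₃ (fun x => bal v V ν x * ie E₃ x) := by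
    ext x; rw [hF3]; exact res_balE _ _ _ _ _ _ _
  rw [g1, g2, g3]
  have a2 : ∀ x, |F2 x| ≤ 1 := res_abs (mul_abs (ind_abs t T) (ie_abs E₂)) _ _
  have a3 : ∀ x, |F3 x| ≤ 1 := res_abs (mul_abs (ind_abs v V) (ie_abs E₃)) _ _
  have b1 := TT_bound (f := res M₁ N₁ (fun x => bal s S δ x * ie E₁ x)) (g := F2) (h := F3) ha hb hc m
    (res_abs (mul_abs (bal_abs d0 d1) (ie_abs E₁)) _ _) a2 a3
    (Or.inl (h1 S hS δ hδ E₁ hE₁ X (by omega) N₁ hN1 M₁ hM1))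
  have b2 := TT_bound (f := fun x => δ * res M₁ N₁ (ie E₁) x) (g := res M₂ N₂ (fun x => bal t T τ x * ie E₂ x)) (h := F3) ha hb hc m
    (constE_abs d0 d1 _ _ _) (res_abs (mul_abs (bal_abs t0 t1) (ie_abs E₂)) _ _) a3
    (Or.inr (Or.inl (h2 T hT τ hτ E₂ hE₂ X (by omega) N₂ hN2 M₂ hM2)))
  have b3 := TT_bound (f := fun x => δ * res M₁ N₁ (ie E₁) x) (g := fun x => τ * res M₂ N₂ (ie E₂) x)
    (h := res M₃ N₃ (fun x => bal v V ν x * ie E₃ x)) ha hb hc m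
    (constE_abs d0 d1 _ _ _) (constE_abs t0 t1 _ _ _) (res_abs (mul_abs (bal_abs v0 v1) (ie_abs E₃)) _ _)
    (Or.inr (Or.inr (h3 V hV ν hν E₃ hE₃ X (by omega) N₃ hN3 M₃ hM3)))
  refine (abs_add_three _ _ _).trans ?_
  have : ε * (X : ℝ) ^ 2 = ε / 3 * X * X + ε / 3 * X * X + ε / 3 * X * X := by ring
  rw [this]
  linarith

/-- correlations at almost all shifts -/
theorem shiftsE {s : ℤ} (hs : s = 1 ∨ s = -1) {ε : ℝ} (hε : 0 < ε) (hε1 : ε ≤ 1) :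
    ∃ N0 : ℕ, 1 ≤ N0 ∧ ∀ S T : Set ℤ, Inv 1 S → Inv 1 T → ∀ δ τ : ℝ, HD s S δ → HD s T τ →
    ∀ E₁ E₂ : Set ℕ, Arith E₁ → Arith E₂ → ∀ N : ℕ, N0 ≤ N →
    (((Icc 1 N).filter (fun h : ℕ => ε * N < |Cor (fun x => ind s S x * ie E₁ x) (fun x => ind s T x * ie E₂ x) N h
      - δ * τ * Cor (ie E₁) (ie E₂) N h|)).card : ℝ) ≤ ε * N := by
  classical
  have hε2 : 0 < ε ^ 2 / 8 := by positivity
  have hε3 : ε ^ 2 / 8 ≤ 1 := by nlinarith
  obtain ⟨n1, hn1, h1⟩ := classes_int hs hε2 hε3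
  refine ⟨n1, by omega, ?_⟩
  intro S T hS hT δ τ hδ hτ E₁ E₂ hE₁ hE₂ N hN
  obtain ⟨d0, d1⟩ := HD_mem hs hδ
  obtain ⟨t0, t1⟩ := HD_mem hs hτ
  have hN0 : (0 : ℝ) < N := by exact_mod_cast (by omega : 0 < N)
  obtain ⟨R, hR⟩ : ∃ R : ℕ → ℝ, R = fun h => Cor (fun x => ind s S x * ie E₁ x) (fun x => ind s T x * ie E₂ x) N h
      - δ * τ * Cor (ie E₁) (ie E₂) N h := ⟨_, rfl⟩
  obtain ⟨B, hB⟩ : ∃ B : Finset ℕ, B = (Icc 1 N).filter (fun n => ε * N < |R n|) := ⟨_, rfl⟩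
  have eB : (Icc 1 N).filter (fun h : ℕ => ε * N < |Cor (fun x => ind s S x * ie E₁ x) (fun x => ind s T x * ie E₂ x) N h
      - δ * τ * Cor (ie E₁) (ie E₂) N h|) = B := by
    rw [hB, hR]
  rw [eB]
  have hsg : ∀ x : ℝ, |(if 0 ≤ x then (1 : ℝ) else -1)| ≤ 1 ∧ (if 0 ≤ x then (1 : ℝ) else -1) * x = |x| := by
    intro x
    by_cases h : 0 ≤ x
    · rw [if_pos h, abs_of_nonneg h]
      norm_num
    · rw [if_neg h, abs_of_neg (not_le.1 h)]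
      norm_num
  obtain ⟨w, hw⟩ : ∃ w : ℤ → ℝ, w = (fun x => if x.toNat ∈ B then (if 0 ≤ R x.toNat then (1 : ℝ) else -1) else 0) :=
    ⟨_, rfl⟩
  have hw1 : ∀ x, |w x| ≤ 1 := by
    intro x
    rw [hw]
    simp only
    split_ifs
    · norm_num
    · norm_num
    · norm_num
  have hX : n1 ≤ 2 * N := by omega
  have b1 := TT_bound (f := res 0 N (fun x => bal s S δ x * ie E₁ x)) (g := res 0 (2 * N) (fun x => ind s T x * ie E₂ x))
    (h := res 0 N w) (N := 2 * N) (one_ne_zero) (by norm_num : (-1 : ℤ) ≠ 0) (one_ne_zero) 0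
    (res_abs (mul_abs (bal_abs d0 d1) (ie_abs E₁)) _ _) (res_abs (mul_abs (ind_abs s T) (ie_abs E₂)) _ _) (res_abs hw1 _ _)
    (Or.inl (h1 S hS δ hδ E₁ hE₁ (2 * N) hX N (by omega) 0 (by omega)))
  have b2 := TT_bound (f := res 0 N (fun x => δ * ie E₁ x)) (g := res 0 (2 * N) (fun x => bal s T τ x * ie E₂ x))
    (h := res 0 N w) (N := 2 * N) (one_ne_zero) (by norm_num : (-1 : ℤ) ≠ 0) (one_ne_zero) 0
    (res_abs (mul_abs (f := fun _ => δ) (fun _ => by rw [abs_of_nonneg d0]; exact d1) (ie_abs E₁)) _ _)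
    (res_abs (mul_abs (bal_abs t0 t1) (ie_abs E₂)) _ _) (res_abs hw1 _ _)
    (Or.inr (Or.inl (h1 T hT τ hτ E₂ hE₂ (2 * N) hX (2 * N) le_rfl 0 (by omega))))
  rw [TT_cor] at b1 b2
  have e2 : ∑ h ∈ Icc 1 N, w (h : ℕ) * Cor (fun x => bal s S δ x * ie E₁ x) (fun x => ind s T x * ie E₂ x) N h
      + ∑ h ∈ Icc 1 N, w (h : ℕ) * Cor (fun x => δ * ie E₁ x) (fun x => bal s T τ x * ie E₂ x) N h
      = ∑ h ∈ B, |R h| := by
    rw [← sum_add_distrib]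
    have hsub : B ⊆ Icc 1 N := by rw [hB]; exact filter_subset _ _
    rw [← sum_subset hsub]
    · apply sum_congr rfl
      intro h hh
      rw [← mul_add]
      have e3 : Cor (fun x => bal s S δ x * ie E₁ x) (fun x => ind s T x * ie E₂ x) N h
          + Cor (fun x => δ * ie E₁ x) (fun x => bal s T τ x * ie E₂ x) N h = R h := by
        rw [hR]
        unfold Cor
        simp only
        rw [← sum_add_distrib, mul_sum, ← sum_sub_distrib]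
        apply sum_congr rfl
        intro x _
        unfold bal
        ring
      rw [e3, hw]
      simp only [Int.toNat_natCast]
      rw [if_pos hh, ← (hsg _).2]
    · intro n _ hn
      rw [hw]
      simp only [Int.toNat_natCast]
      rw [if_neg hn, zero_mul, zero_mul, add_zero]
  have h2 : ∑ h ∈ B, |R h| ≤ ε ^ 2 * N ^ 2 := by
    rw [← e2]
    have c1 := le_of_abs_le b1
    have c2 := le_of_abs_le b2
    push_cast at c1 c2
    nlinarith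
  have h3 : (B.card : ℝ) * (ε * N) ≤ ∑ h ∈ B, |R h| := by
    rw [← nsmul_eq_mul, ← sum_const]
    apply sum_le_sum
    intro n hn
    rw [hB, mem_filter] at hn
    exact hn.2.le
  have h4 : (B.card : ℝ) * (ε * N) ≤ (ε * N) * (ε * N) := by nlinarith
  exact le_of_mul_le_mul_right h4 (by positivity)

end Pool.Agent.W41.MU
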