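import Pool.Agent.W41.MU2

/-! Correlations with `n ↦ exp (i (γ n + τ log n))`. -/

set_option autoImplicit false

namespace Pool.Agent.W41.MU

open Pool.Agent.H320R2.PD Pool.Agent.H499R2.ND Finset Pool.Agent.H499R2.CO Pool.Agent.W41.FU Pool.Agent.W41

/-- odd windows -/
theorem odd_log {d : ℤ} (hd : Odd d) (hd3 : IsCoprime d 3) (hdd : d * d = 1) {ε : ℝ} (hε : 0 < ε) (hε1 : ε ≤ 1) :
    ∃ η1 : ℝ, 0 < η1 ∧ η1 ≤ 1 / 2 ∧ ∀ η : ℝ, 0 < η → η ≤ η1 → ∃ B0 : ℝ, 1 ≤ B0 ∧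
      ∀ b τ φ : ℝ, B0 ≤ |b| + |τ| → ∀ A : ℝ, 0 < A → Real.log (|b| + |τ|) ≤ (1 - η / 2) * Real.log A →
      ∀ f ∈ SameT d, |WS (fun x => f x * GLo b τ φ ((x : ℝ) / A)) A (2 * A) 0 1 0| ≤ ε * (A / 2) := by
  obtain ⟨η1, hη1, hη12, hbot⟩ := bottom_log hd hdd (show 0 < ε / 2 by positivity) (by linarith)
  refine ⟨η1, hη1, hη12, fun η hη hηη => ?_⟩
  obtain ⟨T2, hT2, hb⟩ := hbot η hη hηη
  obtain ⟨K, L0, hK, hL0, htr⟩ := transfer hd hd3 hη (hηη.trans hη12)
  refine ⟨Real.exp (max T2 (max L0 (2 * K / ε))), Real.one_le_exp ?_, ?_⟩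
  · exact le_trans (by linarith) (le_max_left _ _)
  intro b τ φ hB A hA hbA f hf
  obtain ⟨β, hβ⟩ : ∃ β, |b| + |τ| = β := ⟨_, rfl⟩
  rw [hβ] at hB hbA
  have hβ0 : 0 < β := lt_of_lt_of_le (Real.exp_pos _) hB
  have hlb : max T2 (max L0 (2 * K / ε)) ≤ Real.log β := by
    calc _ = Real.log (Real.exp (max T2 (max L0 (2 * K / ε)))) := (Real.log_exp _).symm
      _ ≤ _ := Real.log_le_log (Real.exp_pos _) hB
  have hl1 : T2 ≤ Real.log β := (le_max_left _ _).trans hlb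
  have hl2 : L0 ≤ Real.log β := (le_max_left _ _).trans ((le_max_right _ _).trans hlb)
  have hl3 : 2 * K / ε ≤ Real.log β := (le_max_right _ _).trans ((le_max_right _ _).trans hlb)
  have hβ1 : 1 ≤ β := by
    refine le_trans (Real.one_le_exp ?_) hB
    exact le_trans (by linarith) (le_max_left _ _)
  have hlpos : 0 < Real.log β := by linarith
  have hA0 : 0 < Real.log A := by
    by_contra hcon
    push Not at hcon
    have : η / 2 ≤ 1 / 4 := by linarith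
    nlinarith
  have h := htr β hl2 hβ1 (SameT d) (sameT_closed hd)
    (GLo b τ φ) (fun u => GLo_abs _ _ _ _)
    (fun u v => by rw [← hβ]; exact GLo_lip _ _ _ _ _)
    (ε / 2) (by positivity) (fun A hA h1 h2 m hm => hb b τ φ (by rw [hβ]; exact hβ0) (by rw [hβ]; exact hl1) A hA
      (by rw [hβ]; exact h1) (by rw [hβ]; exact h2) m hm) A hA hbA 0
    (by push_cast; rw [zero_pow (by norm_num)]; exact hA0.le) f hf 1 0 isCoprime_one_left
  refine h.trans ?_
  rw [pow_zero, mul_one]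
  apply mul_le_mul_of_nonneg_right _ (by positivity)
  have : K / Real.log β ≤ ε / 2 := by
    rw [div_le_iff₀ hlpos]
    rw [div_le_iff₀ hε] at hl3
    linarith
  linarith

/-- all integers up to `N` -/
theorem mid_log {d : ℤ} (hd : Odd d) (hd3 : IsCoprime d 3) (hdd : d * d = 1) {ε : ℝ} (hε : 0 < ε) (hε1 : ε ≤ 1) :
    ∃ η1 : ℝ, 0 < η1 ∧ η1 ≤ 1 / 2 ∧ ∀ η : ℝ, 0 < η → η ≤ η1 → ∃ C : ℝ, 1 ≤ C ∧ ∃ N0 : ℕ, 1 ≤ N0 ∧
      ∀ N : ℕ, N0 ≤ N → ∀ γ τ φ : ℝ, C ≤ |γ| * N + |τ| → |γ| * N + |τ| ≤ (N : ℝ) ^ (1 - η) → ∀ f ∈ SameT d,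
      |∑ n ∈ Icc 1 N, f (n : ℕ) * Real.cos (γ * (n : ℕ) + τ * Real.log (n : ℕ) + φ)| ≤ ε * N := by
  obtain ⟨η1, hη1, hη12, hodd⟩ := odd_log hd hd3 hdd (show 0 < ε / 8 by positivity) (by linarith)
  refine ⟨η1, hη1, hη12, fun η hη hηη => ?_⟩
  obtain ⟨B0, hB0, hb⟩ := hodd η hη hηη
  obtain ⟨J, hJ⟩ := exists_pow_lt_of_lt_one (show 0 < ε / 16 by positivity) (show (1 / 2 : ℝ) < 1 by norm_num)
  -- N large
  set c0 : ℝ := 2 * (Real.log 2 + 2 * J * Real.log 2) / η with hc0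
  refine ⟨B0 * 2 ^ J, ?_, ⌈Real.exp c0⌉₊ + ⌈8 * (J : ℝ) / ε⌉₊ + 1, by omega, ?_⟩
  · exact one_le_mul_of_one_le_of_one_le hB0 (one_le_pow₀ (by norm_num))
  intro N hN γ τ φ hα1 hα2 f hf
  have hN1 : 1 ≤ N := by omega
  have hNR : (1 : ℝ) ≤ N := by exact_mod_cast hN1
  have hN0 : (0 : ℝ) < N := by linarith
  have hNe : Real.exp c0 ≤ N := by
    have h1 : ⌈Real.exp c0⌉₊ ≤ N := by omega
    exact (Nat.le_ceil _).trans (by exact_mod_cast h1)
  have hNJ : 8 * (J : ℝ) / ε ≤ N := by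
    have h1 : ⌈8 * (J : ℝ) / ε⌉₊ ≤ N := by omega
    exact (Nat.le_ceil _).trans (by exact_mod_cast h1)
  have hlogN : c0 ≤ Real.log N := by
    rw [← Real.log_exp c0]
    exact Real.log_le_log (Real.exp_pos _) hNe
  set M : ℝ := (N : ℝ) + 1 with hM
  have hM0 : 0 < M := by positivity
  set g : ℤ → ℝ := fun x => f x * Real.cos (γ * x + τ * Real.log x + φ) with hg
  have hg1 : ∀ x, |g x| ≤ 1 := by
    intro x
    rw [hg]
    simp only
    rw [abs_mul]
    exact mul_le_one₀ (hf.1 x) (abs_nonneg _) (Real.abs_cos_le_one _)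
  have hTS : ∑ n ∈ Icc 1 N, f (n : ℕ) * Real.cos (γ * (n : ℕ) + τ * Real.log (n : ℕ) + φ) = TS g M := by
    unfold TS
    have hceil : ⌈M⌉ = (N : ℤ) + 1 := by
      rw [hM]
      have : ((N : ℝ) + 1) = (((N : ℤ) + 1 : ℤ) : ℝ) := by push_cast; ring
      rw [this, Int.ceil_intCast]
    rw [hceil]
    refine sum_bij' (fun (n : ℕ) _ => (n : ℤ)) (fun (x : ℤ) _ => x.toNat) ?_ ?_ ?_ ?_ ?_
    · intro n hn
      rw [mem_Icc] at hn
      rw [mem_Ico]
      omega
    · intro x hx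
      rw [mem_Ico] at hx
      rw [mem_Icc]
      omega
    · intro n _; simp
    · intro x hx
      rw [mem_Ico] at hx
      exact Int.toNat_of_nonneg (by omega)
    · intro n _
      rw [hg]
      simp
  rw [hTS]
  have h2J : (0 : ℝ) < 2 ^ J := by positivity
  have key := TS_bound hg1 hM0.le (show 0 ≤ ε / 8 by positivity) J (by
    intro e j he hj
    set A := M / 2 ^ (e + j + 1) with hA
    have hA0 : 0 < A := by positivity
    set b := γ * M / 2 ^ (j + 1) with hbdef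
    set φ' := φ + τ * (e * Real.log 2 + Real.log A) with hφ'
    have hfun : WS (fun x : ℤ => g (2 ^ e * x)) A (2 * A) 0 1 0
        = WS (fun x => (fun x => f (2 ^ e * x)) x * GLo b τ φ' ((x : ℝ) / A)) A (2 * A) 0 1 0 := by
      unfold WS
      apply sum_congr rfl
      intro x hx
      rw [mem_cls] at hx
      have hx1 : A ≤ x := hx.1.1
      have hx2 : (x : ℝ) < 2 * A := hx.1.2
      have hx0 : (0 : ℝ) < x := by linarith
      have hz1 : 1 ≤ (x : ℝ) / A := by rw [le_div_iff₀ hA0]; linarith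
      have hz2 : (x : ℝ) / A ≤ 4 := by rw [div_le_iff₀ hA0]; linarith
      rw [hg]
      simp only
      unfold GLo
      rw [cl_eq hz1 hz2]
      congr 2
      have e1 : Real.log (((2 ^ e * x : ℤ)) : ℝ) = e * Real.log 2 + Real.log x := by
        push_cast
        rw [Real.log_mul (by positivity) (by positivity), Real.log_pow]
      rw [e1, Real.log_div (by positivity) (by positivity), hφ']
      have e2 : γ * (((2 ^ e * x : ℤ)) : ℝ) = b * ((x : ℝ) / A) := by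
        rw [hbdef, hA]
        push_cast
        rw [show e + j + 1 = e + (j + 1) by ring, pow_add 2 e (j + 1)]
        field_simp
      rw [e2]
      ring
    rw [hfun]
    have hbabs : |b| = |γ| * M / 2 ^ (j + 1) := by
      rw [hbdef, abs_div, abs_mul, abs_of_pos hM0, abs_of_pos (by positivity : (0 : ℝ) < 2 ^ (j + 1))]
    have hγ0 := abs_nonneg γ
    have hτ0 := abs_nonneg τ
    apply hb b τ φ' _ A hA0 _ _ (sameT_two hf e)
    · -- B0 ≤ |b| + |τ|
      have h1 : (|γ| * N + |τ|) / 2 ^ J ≤ |b| + |τ| := by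
        rw [add_div, hbabs]
        apply add_le_add
        · apply div_le_div₀ (by positivity) (mul_le_mul_of_nonneg_left (by linarith) hγ0) (by positivity)
          exact pow_le_pow_right₀ (by norm_num) (by omega)
        · exact div_le_self hτ0 (one_le_pow₀ (by norm_num))
      refine le_trans ?_ h1
      rw [le_div_iff₀ h2J]
      exact hα1
    · -- size
      have hM2 : M ≤ 2 * N := by rw [hM]; linarith
      have h1 : |b| + |τ| ≤ 2 * (N : ℝ) ^ (1 - η) := by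
        have e1 : |b| ≤ |γ| * M := by
          rw [hbabs]
          apply div_le_self (by positivity)
          exact one_le_pow₀ (by norm_num)
        have e2 : |γ| * M ≤ |γ| * (2 * N) := mul_le_mul_of_nonneg_left hM2 hγ0
        linarith
      have hpos : 0 < |b| + |τ| := by
        have h3 : 0 < B0 * 2 ^ J := by positivity
        rcases eq_or_lt_of_le hτ0 with h0 | h0
        · rw [← h0] at hα1 ⊢
          have : 0 < |γ| := by
            rcases eq_or_lt_of_le hγ0 with h4 | h4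
            · rw [← h4] at hα1; linarith
            · exact h4
          rw [hbabs]; positivity
        · have := abs_nonneg b; linarith
      have h2 : Real.log (|b| + |τ|) ≤ Real.log 2 + (1 - η) * Real.log N := by
        rw [← Real.log_rpow hN0, ← Real.log_mul (by positivity) (by positivity)]
        exact Real.log_le_log hpos h1
      have h3 : Real.log N - 2 * J * Real.log 2 ≤ Real.log A := by
        have e1 : (N : ℝ) / 2 ^ (2 * J) ≤ A := by
          rw [hA]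
          apply div_le_div₀ hM0.le (by linarith) (by positivity)
          exact pow_le_pow_right₀ (by norm_num) (by omega)
        have e2 : Real.log N - 2 * J * Real.log 2 = Real.log ((N : ℝ) / 2 ^ (2 * J)) := by
          rw [Real.log_div (by positivity) (by positivity), Real.log_pow]
          push_cast; ring
        rw [e2]
        exact Real.log_le_log (by positivity) e1
      have h4 : η * c0 = 2 * (Real.log 2 + 2 * J * Real.log 2) := by
        rw [hc0]; field_simp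
      have h5 : η * c0 ≤ η * Real.log N := mul_le_mul_of_nonneg_left hlogN hη.le
      have h6 : 0 ≤ (J : ℝ) * Real.log 2 := mul_nonneg (Nat.cast_nonneg _) (Real.log_nonneg (by norm_num))
      have h7 : η ≤ 1 / 2 := hηη.trans hη12
      have h8 : (1 - η / 2) * (Real.log N - 2 * J * Real.log 2) ≤ (1 - η / 2) * Real.log A :=
        mul_le_mul_of_nonneg_left h3 (by linarith)
      have h9 : 0 ≤ η / 2 * (2 * J * Real.log 2) := by positivity
      linarith)
  refine key.trans ?_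
  have h1 : 2 * M / 2 ^ J ≤ ε / 4 * N := by
    have e1 : (1 / 2 : ℝ) ^ J = 1 / 2 ^ J := by rw [one_div, inv_pow, one_div]
    rw [e1] at hJ
    have e2 : 2 * M / 2 ^ J = 2 * M * (1 / 2 ^ J) := by ring
    rw [e2]
    have e3 : M ≤ 2 * N := by rw [hM]; linarith
    calc 2 * M * (1 / 2 ^ J) ≤ 2 * (2 * N) * (ε / 16) :=
          mul_le_mul (by linarith) hJ.le (by positivity) (by positivity)
      _ = _ := by ring
  have h2 : (J : ℝ) ≤ ε / 8 * N := by
    rw [div_le_iff₀ hε] at hNJ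
    linarith
  have h3 : ε / 8 * M ≤ ε / 4 * N := by
    rw [hM]
    nlinarith
  linarith

/-- the function `x ↦ exp (i (γ x + τ log x))` -/
noncomputable def en (γ τ x : ℝ) : ℂ := Complex.exp (((γ * x + τ * Real.log x : ℝ) : ℂ) * Complex.I)

theorem en_norm (γ τ x : ℝ) : ‖en γ τ x‖ = 1 := Complex.norm_exp_ofReal_mul_I _

theorem en_cos (γ τ x : ℝ) : en γ τ x = (Real.cos (γ * x + τ * Real.log x + 0) : ℂ)
    + (Real.cos (γ * x + τ * Real.log x + (-(Real.pi / 2))) : ℂ) * Complex.I := by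
  unfold en
  rw [Complex.exp_mul_I, add_zero, ← sub_eq_add_neg, Real.cos_sub_pi_div_two, Complex.ofReal_cos,
    Complex.ofReal_sin]

/-- the correlation sum -/
noncomputable def EL (f : ℤ → ℝ) (N : ℕ) (γ τ : ℝ) : ℂ := ∑ n ∈ Icc 1 N, (f (n : ℕ) : ℂ) * en γ τ (n : ℕ)

theorem mid_log' {d : ℤ} (hd : Odd d) (hd3 : IsCoprime d 3) (hdd : d * d = 1) {ε : ℝ} (hε : 0 < ε) (hε1 : ε ≤ 1) :
    ∃ η1 : ℝ, 0 < η1 ∧ η1 ≤ 1 / 2 ∧ ∀ η : ℝ, 0 < η → η ≤ η1 → ∃ C : ℝ, 1 ≤ C ∧ ∃ N0 : ℕ, 1 ≤ N0 ∧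
      ∀ N : ℕ, N0 ≤ N → ∀ γ τ : ℝ, C ≤ |γ| * N + |τ| → |γ| * N + |τ| ≤ (N : ℝ) ^ (1 - η) → ∀ f ∈ SameT d,
      ‖EL f N γ τ‖ ≤ ε * N := by
  obtain ⟨η1, h1, h2, h⟩ := mid_log hd hd3 hdd (show 0 < ε / 2 by positivity) (by linarith)
  refine ⟨η1, h1, h2, fun η h3 h4 => ?_⟩
  obtain ⟨C, hC, N0, hN0, h5⟩ := h η h3 h4
  refine ⟨C, hC, N0, hN0, fun N hN γ τ hα1 hα2 f hf => ?_⟩
  have a1 := h5 N hN γ τ 0 hα1 hα2 f hf
  have a2 := h5 N hN γ τ (-(Real.pi / 2)) hα1 hα2 f hf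
  have e : EL f N γ τ = ((∑ n ∈ Icc 1 N, f (n : ℕ) * Real.cos (γ * (n : ℕ) + τ * Real.log (n : ℕ) + 0) : ℝ) : ℂ)
      + ((∑ n ∈ Icc 1 N, f (n : ℕ) * Real.cos (γ * (n : ℕ) + τ * Real.log (n : ℕ) + (-(Real.pi / 2))) : ℝ) : ℂ)
        * Complex.I := by
    unfold EL
    push_cast
    rw [sum_mul, ← sum_add_distrib]
    apply sum_congr rfl
    intro n _
    rw [en_cos]
    push_cast
    ring
  rw [e]
  refine (norm_add_le _ _).trans ?_
  rw [norm_mul, Complex.norm_I, mul_one, Complex.norm_real, Complex.norm_real, Real.norm_eq_abs, Real.norm_eq_abs]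
  linarith

/-- summation by parts -/
theorem abel_gen (a w : ℕ → ℂ) (N : ℕ) :
    ∑ n ∈ Icc 1 N, a n * w n = (∑ n ∈ Icc 1 N, a n) * w (N + 1)
      - ∑ n ∈ Icc 1 N, (∑ m ∈ Icc 1 n, a m) * (w (n + 1) - w n) := by
  induction N with
  | zero => simp
  | succ N ih =>
    rw [sum_Icc_succ_top (by omega), sum_Icc_succ_top (by omega), sum_Icc_succ_top (by omega), ih,
      sum_Icc_succ_top (by omega)]
    ring

theorem exp_sub_le (a b : ℝ) : ‖Complex.exp ((a : ℂ) * Complex.I) - Complex.exp ((b : ℂ) * Complex.I)‖ ≤ |a - b| := by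
  have e : Complex.exp ((a : ℂ) * Complex.I) - Complex.exp ((b : ℂ) * Complex.I)
      = Complex.exp ((b : ℂ) * Complex.I) * (Complex.exp (Complex.I * ((a - b : ℝ) : ℂ)) - 1) := by
    rw [mul_sub, ← Complex.exp_add, mul_one]
    congr 2
    push_cast; ring
  rw [e, norm_mul, Complex.norm_exp_ofReal_mul_I, one_mul]
  exact Real.norm_exp_I_mul_ofReal_sub_one_le

theorem en_diff (γ τ : ℝ) {n : ℕ} (hn : 1 ≤ n) : ‖en γ τ ((n + 1 : ℕ) : ℝ) - en γ τ (n : ℝ)‖ ≤ |γ| + |τ| / n := by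
  unfold en
  refine (exp_sub_le _ _).trans ?_
  have hn0 : (0 : ℝ) < n := by exact_mod_cast hn
  have e : γ * ((n + 1 : ℕ) : ℝ) + τ * Real.log ((n + 1 : ℕ) : ℝ) - (γ * n + τ * Real.log n)
      = γ + τ * (Real.log ((n + 1 : ℕ) : ℝ) - Real.log n) := by push_cast; ring
  rw [e]
  refine (abs_add_le _ _).trans ?_
  rw [abs_mul]
  have h1 : |Real.log ((n + 1 : ℕ) : ℝ) - Real.log n| ≤ 1 / n := by
    rw [← Real.log_div (by positivity) (by positivity)]
    have e2 : (((n + 1 : ℕ) : ℝ)) / n = 1 + 1 / n := by push_cast; field_simp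
    rw [e2, abs_of_nonneg (Real.log_nonneg (by have : 0 ≤ 1 / (n : ℝ) := by positivity
                                               linarith))]
    have := Real.log_le_sub_one_of_pos (show 0 < 1 + 1 / (n : ℝ) by positivity)
    linarith
  have h2 : |τ| * |Real.log ((n + 1 : ℕ) : ℝ) - Real.log n| ≤ |τ| * (1 / n) :=
    mul_le_mul_of_nonneg_left h1 (abs_nonneg _)
  have e3 : |τ| / n = |τ| * (1 / n) := by ring
  linarith

theorem small_log {s : ℤ} (hs : s = 1 ∨ s = -1) {ε : ℝ} (hε : 0 < ε) {C : ℝ} (hC : 1 ≤ C) : ∃ N0 : ℕ, 1 ≤ N0 ∧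
    ∀ S : Set ℤ, Inv 1 S → ∀ δ : ℝ, HD s S δ → ∀ N : ℕ, N0 ≤ N → ∀ γ τ : ℝ, |γ| * N + |τ| ≤ C →
      ‖EL (bal s S δ) N γ τ‖ ≤ ε * N := by
  obtain ⟨n0, h⟩ := unif hs (show 0 < ε / (4 * C) by positivity)
  obtain ⟨n1, hn1⟩ := exists_nat_ge (2 * C * n0 / ε)
  refine ⟨n0 + n1 + 1, by omega, fun S hS δ hδ N hN γ τ hα => ?_⟩
  obtain ⟨d0, d1⟩ := HD_mem hs hδ
  have hN1 : (0 : ℝ) < N := by exact_mod_cast (by omega : 0 < N)
  have hγ0 := abs_nonneg γ
  have hτ0 := abs_nonneg τ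
  have hsum : ∀ n : ℕ, ‖∑ m ∈ Icc 1 n, ((bal s S δ (m : ℕ) : ℝ) : ℂ)‖ ≤ (if n < n0 then (n : ℝ) else ε / (4 * C) * n) := by
    intro n
    rw [← Complex.ofReal_sum, Complex.norm_real, Real.norm_eq_abs]
    split_ifs with hn
    · refine (abs_sum_le_sum_abs _ _).trans ?_
      calc ∑ m ∈ Icc 1 n, |bal s S δ (m : ℕ)| ≤ ∑ m ∈ Icc 1 n, (1 : ℝ) := sum_le_sum fun m _ => bal_abs d0 d1 _
        _ = n := by simp
    · rw [sum_bal]
      exact h S hS δ hδ n (by omega)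
  unfold EL
  rw [abel_gen (fun n => ((bal s S δ (n : ℕ) : ℝ) : ℂ)) (fun n => en γ τ (n : ℕ))]
  refine (norm_sub_le _ _).trans ?_
  have e1 : ‖(∑ n ∈ Icc 1 N, ((bal s S δ (n : ℕ) : ℝ) : ℂ)) * en γ τ ((N + 1 : ℕ) : ℝ)‖ ≤ ε / (4 * C) * N := by
    rw [norm_mul, en_norm, mul_one]
    refine (hsum N).trans (le_of_eq ?_)
    rw [if_neg (by omega)]
  have e2 : ‖∑ n ∈ Icc 1 N, (∑ m ∈ Icc 1 n, ((bal s S δ (m : ℕ) : ℝ) : ℂ))
      * (en γ τ ((n + 1 : ℕ) : ℝ) - en γ τ ((n : ℕ) : ℝ))‖ ≤ N * (ε / (4 * C) * C) + n0 * C := by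
    refine (norm_sum_le _ _).trans ?_
    have h1 : ∀ n ∈ Icc 1 N, ‖(∑ m ∈ Icc 1 n, ((bal s S δ (m : ℕ) : ℝ) : ℂ))
      * (en γ τ ((n + 1 : ℕ) : ℝ) - en γ τ ((n : ℕ) : ℝ))‖ ≤ ε / (4 * C) * C + (if n < n0 then C else 0) := by
      intro n hn
      rw [mem_Icc] at hn
      have hn0 : (0 : ℝ) < n := by exact_mod_cast hn.1
      have hnN : (n : ℝ) ≤ N := by exact_mod_cast hn.2
      have h3 : (n : ℝ) * (|γ| + |τ| / n) ≤ C := by
        have e : (n : ℝ) * (|γ| + |τ| / n) = |γ| * n + |τ| := by field_simp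
        rw [e]
        have := mul_le_mul_of_nonneg_left hnN hγ0
        linarith
      rw [norm_mul]
      have h4 := en_diff γ τ hn.1
      have h5 := hsum n
      have h6 : 0 ≤ |γ| + |τ| / n := by positivity
      by_cases hnn : n < n0
      · rw [if_pos hnn] at h5 ⊢
        have h7 := mul_le_mul h5 h4 (norm_nonneg _) hn0.le
        have h8 : 0 ≤ ε / (4 * C) * C := by positivity
        linarith
      · rw [if_neg hnn] at h5 ⊢
        have h7 := mul_le_mul h5 h4 (norm_nonneg _) (by positivity)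
        have h8 : ε / (4 * C) * n * (|γ| + |τ| / n) ≤ ε / (4 * C) * C := by
          rw [mul_assoc]
          exact mul_le_mul_of_nonneg_left h3 (by positivity)
        linarith
    refine (sum_le_sum h1).trans ?_
    rw [sum_add_distrib, sum_const, Nat.card_Icc, Nat.add_sub_cancel, nsmul_eq_mul, ← sum_filter, sum_const,
      nsmul_eq_mul]
    have h2 : ((filter (fun n => n < n0) (Icc 1 N)).card : ℝ) ≤ n0 := by
      have : filter (fun n => n < n0) (Icc 1 N) ⊆ range n0 := by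
        intro n hn
        rw [mem_filter] at hn
        exact mem_range.2 hn.2
      have := card_le_card this
      rw [card_range] at this
      exact_mod_cast this
    have h3 := mul_le_mul_of_nonneg_right h2 (by linarith : 0 ≤ C)
    linarith
  have e3 : (n0 : ℝ) * C ≤ ε / 2 * N := by
    have h2 : 2 * C * n0 / ε ≤ N := hn1.trans (by exact_mod_cast (by omega : n1 ≤ N))
    rw [div_le_iff₀ hε] at h2
    linarith
  have e4 : ε / (4 * C) * N ≤ ε / 4 * N := by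
    apply mul_le_mul_of_nonneg_right _ hN1.le
    apply div_le_div_of_nonneg_left hε.le (by norm_num)
    linarith
  have e5 : ε / (4 * C) * C = ε / 4 := by field_simp
  rw [e5] at e2
  linarith

/-- MELLIN-FOURIER UNIFORMITY of invariant sets. -/
theorem mellin {s : ℤ} (hs : s = 1 ∨ s = -1) {ε : ℝ} (hε : 0 < ε) (hε1 : ε ≤ 1) :
    ∃ η1 : ℝ, 0 < η1 ∧ η1 ≤ 1 / 2 ∧ ∀ η : ℝ, 0 < η → η ≤ η1 → ∃ N0 : ℕ, 1 ≤ N0 ∧
    ∀ S : Set ℤ, Inv 1 S → ∀ δ : ℝ, HD s S δ → ∀ N : ℕ, N0 ≤ N → ∀ γ τ : ℝ,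
      |γ| * N + |τ| ≤ (N : ℝ) ^ (1 - η) → ‖EL (bal s S δ) N γ τ‖ ≤ ε * N := by
  have hodd : Odd s := by rcases hs with rfl | rfl <;> decide
  have hco : IsCoprime s 3 := by
    rcases hs with rfl | rfl
    · exact isCoprime_one_left
    · exact (isCoprime_one_left).neg_left
  have hss : s * s = 1 := by rcases hs with rfl | rfl <;> norm_num
  obtain ⟨η1, hη1, hη12, h1⟩ := mid_log' hodd hco hss hε hε1
  refine ⟨η1, hη1, hη12, fun η hη hηη => ?_⟩
  obtain ⟨C, hC, N1, hN1, h1⟩ := h1 η hη hηη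
  obtain ⟨N2, hN2, h2⟩ := small_log hs hε hC
  refine ⟨N1 + N2, by omega, fun S hS δ hδ N hN γ τ hγ => ?_⟩
  obtain ⟨d0, d1⟩ := HD_mem hs hδ
  rcases le_or_gt C (|γ| * N + |τ|) with h | h
  · exact h1 N (by omega) γ τ h hγ _ (bal_same hs hS d0 d1)
  · exact h2 S hS δ hδ N (by omega) γ τ h.le

end Pool.Agent.W41.MU
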