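import Pool.Agent.W41.MU4
import Pool.Agent.H376R2.MR.Fej
import Pool.Agent.H376R2.MR.Ls

/-! Functions on the logarithmic scale. -/

set_option autoImplicit false

namespace Pool.Agent.W41.MU

open Finset MeasureTheory Pool.Agent.H376R2.MR

/-- the function on the logarithmic scale -/
noncomputable def ph {E : Type*} (F : ℤ → E) (s : ℝ) : E := F ⌊Real.exp s⌋

theorem ph_meas {E : Type*} [MeasurableSpace E] (F : ℤ → E) : Measurable (ph F) :=
  (measurable_of_countable F).comp (Int.measurable_floor.comp Real.measurable_exp)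

theorem ii_bdd {f : ℝ → ℝ} (hf : Measurable f) {C : ℝ} (hb : ∀ x, ‖f x‖ ≤ C) (a b : ℝ) :
    IntervalIntegrable f volume a b := by
  rw [intervalIntegrable_iff]
  exact Measure.integrableOn_of_bounded (by simp) hf.aestronglyMeasurable (ae_of_all _ hb)

theorem iic_bdd {f : ℝ → ℂ} (hf : Measurable f) {C : ℝ} (hb : ∀ x, ‖f x‖ ≤ C) (a b : ℝ) :
    IntervalIntegrable f volume a b := by
  rw [intervalIntegrable_iff]
  exact Measure.integrableOn_of_bounded (by simp) hf.aestronglyMeasurable (ae_of_all _ hb)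

/-- one cell -/
theorem ph_cell (G : ℤ → ℝ) {n : ℕ} (hn : 1 ≤ n) :
    ∫ s in (Real.log n)..(Real.log ((n + 1 : ℕ) : ℝ)), ph G s = G n * (Real.log ((n + 1 : ℕ) : ℝ) - Real.log n) := by
  have hn0 : (0 : ℝ) < n := by exact_mod_cast hn
  have hlt : Real.log n < Real.log ((n + 1 : ℕ) : ℝ) := Real.log_lt_log hn0 (by push_cast; linarith)
  have h1 : ∫ s in (Real.log n)..(Real.log ((n + 1 : ℕ) : ℝ)), ph G s
      = ∫ s in (Real.log n)..(Real.log ((n + 1 : ℕ) : ℝ)), G n := by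
    rw [intervalIntegral.integral_of_le hlt.le, intervalIntegral.integral_of_le hlt.le,
      integral_Ioc_eq_integral_Ioo, integral_Ioc_eq_integral_Ioo]
    apply setIntegral_congr_fun measurableSet_Ioo
    intro s hs
    simp only
    unfold ph
    congr 1
    rw [Int.floor_eq_iff]
    constructor
    · rw [Int.cast_natCast, ← Real.exp_log hn0]
      exact Real.exp_le_exp.2 hs.1.le
    · have h2 : (0 : ℝ) < ((n + 1 : ℕ) : ℝ) := by positivity
      have h3 : ((n : ℤ) : ℝ) + 1 = Real.exp (Real.log ((n + 1 : ℕ) : ℝ)) := by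
        rw [Real.exp_log h2]; push_cast; ring
      rw [h3]
      exact Real.exp_lt_exp.2 hs.2
  rw [h1, intervalIntegral.integral_const, smul_eq_mul]
  ring

/-- a window as a sum -/
theorem ph_sum (G : ℤ → ℝ) {C : ℝ} (hG : ∀ n, ‖G n‖ ≤ C) {a : ℕ} (ha : 1 ≤ a) : ∀ b : ℕ, a ≤ b →
    ∫ s in (Real.log a)..(Real.log b), ph G s = ∑ n ∈ Ico a b, G n * (Real.log ((n + 1 : ℕ) : ℝ) - Real.log n) := by
  intro b hb
  induction b, hb using Nat.le_induction with
  | base => simp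
  | succ b hb ih =>
    rw [sum_Ico_succ_top hb, ← ih, ← ph_cell G (ha.trans hb)]
    rw [intervalIntegral.integral_add_adjacent_intervals]
    · exact ii_bdd (ph_meas G) (fun x => hG _) _ _
    · exact ii_bdd (ph_meas G) (fun x => hG _) _ _

theorem log_step_le {n : ℕ} (hn : 1 ≤ n) : Real.log ((n + 1 : ℕ) : ℝ) - Real.log n ≤ 1 / n := by
  have hn0 : (0 : ℝ) < n := by exact_mod_cast hn
  rw [← Real.log_div (by positivity) (by positivity)]
  have e2 : (((n + 1 : ℕ) : ℝ)) / n = 1 + 1 / n := by push_cast; field_simp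
  rw [e2]
  have := Real.log_le_sub_one_of_pos (show 0 < 1 + 1 / (n : ℝ) by positivity)
  linarith

theorem log_step_ge {n : ℕ} (hn : 1 ≤ n) : 1 / (n + 1 : ℝ) ≤ Real.log ((n + 1 : ℕ) : ℝ) - Real.log n := by
  have hn0 : (0 : ℝ) < n := by exact_mod_cast hn
  rw [← Real.log_div (by positivity) (by positivity)]
  have e2 : (((n + 1 : ℕ) : ℝ)) / n = 1 + 1 / n := by push_cast; field_simp
  rw [e2]
  have := Real.one_sub_inv_le_log_of_pos (show 0 < 1 + 1 / (n : ℝ) by positivity)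
  refine le_trans (le_of_eq ?_) this
  field_simp
  ring

theorem ph_upper {G : ℤ → ℝ} {C : ℝ} (hG : ∀ n, ‖G n‖ ≤ C) (hG0 : ∀ n, 0 ≤ G n) {a b : ℕ} (ha : 1 ≤ a) (hab : a ≤ b) :
    ∫ s in (Real.log a)..(Real.log b), ph G s ≤ (∑ n ∈ Ico a b, G n) / a := by
  rw [ph_sum G hG ha b hab, sum_div]
  apply sum_le_sum
  intro n hn
  rw [mem_Ico] at hn
  have hn1 : 1 ≤ n := ha.trans hn.1
  have ha0 : (0 : ℝ) < a := by exact_mod_cast ha
  calc G n * (Real.log ((n + 1 : ℕ) : ℝ) - Real.log n) ≤ G n * (1 / n) :=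
        mul_le_mul_of_nonneg_left (log_step_le hn1) (hG0 _)
    _ ≤ G n * (1 / a) := by
        apply mul_le_mul_of_nonneg_left _ (hG0 _)
        exact one_div_le_one_div_of_le ha0 (by exact_mod_cast hn.1)
    _ = _ := by ring

theorem ph_lower {G : ℤ → ℝ} {C : ℝ} (hG : ∀ n, ‖G n‖ ≤ C) (hG0 : ∀ n, 0 ≤ G n) {a b : ℕ} (ha : 1 ≤ a) (hab : a ≤ b) :
    ∑ n ∈ Ico a b, G n ≤ b * ∫ s in (Real.log a)..(Real.log b), ph G s := by
  rw [ph_sum G hG ha b hab, mul_sum]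
  apply sum_le_sum
  intro n hn
  rw [mem_Ico] at hn
  have hn1 : 1 ≤ n := ha.trans hn.1
  have hb : ((n : ℝ) + 1) ≤ b := by exact_mod_cast hn.2
  have h1 := log_step_ge hn1
  have h2 : 1 ≤ (b : ℝ) * (Real.log ((n + 1 : ℕ) : ℝ) - Real.log n) := by
    have h3 : (1 : ℝ) = (n + 1) * (1 / (n + 1)) := by field_simp
    rw [h3]
    exact mul_le_mul hb h1 (by positivity) (by positivity)
  calc G n = G n * 1 := (mul_one _).symm
    _ ≤ G n * ((b : ℝ) * (Real.log ((n + 1 : ℕ) : ℝ) - Real.log n)) := mul_le_mul_of_nonneg_left h2 (hG0 _)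
    _ = _ := by ring

/-- the mean oscillation at the scale `h` -/
noncomputable def EF (F : ℤ → ℂ) (h : ℕ) (n : ℤ) : ℝ := (∑ j ∈ Icc (-(h : ℤ)) h, ‖F (n + j) - F n‖) / h

theorem EF_nonneg (F : ℤ → ℂ) (h : ℕ) (n : ℤ) : 0 ≤ EF F h n :=
  div_nonneg (sum_nonneg fun _ _ => norm_nonneg _) (Nat.cast_nonneg _)

theorem EF_le {F : ℤ → ℂ} (hF : ∀ n, ‖F n‖ ≤ 1) {h : ℕ} (hh : 1 ≤ h) (n : ℤ) : ‖EF F h n‖ ≤ 6 := by
  rw [Real.norm_eq_abs, abs_of_nonneg (EF_nonneg F h n)]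
  unfold EF
  have hh0 : (0 : ℝ) < h := by exact_mod_cast hh
  rw [div_le_iff₀ hh0]
  have h1 : ∑ j ∈ Icc (-(h : ℤ)) h, ‖F (n + j) - F n‖ ≤ ∑ j ∈ Icc (-(h : ℤ)) h, (2 : ℝ) := by
    apply sum_le_sum
    intro j _
    refine (norm_sub_le _ _).trans ?_
    linarith [hF (n + j), hF n]
  refine h1.trans ?_
  rw [sum_const, Int.card_Icc, nsmul_eq_mul]
  have h2 : ((((h : ℤ) + 1 - -(h : ℤ)).toNat : ℕ) : ℝ) = 2 * h + 1 := by
    have : (((h : ℤ) + 1 - -(h : ℤ)).toNat : ℤ) = 2 * h + 1 := by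
      rw [Int.toNat_of_nonneg (by omega)]; ring
    exact_mod_cast this
  rw [h2]
  have : (1 : ℝ) ≤ h := by exact_mod_cast hh
  linarith

theorem EF_pair' {F : ℤ → ℂ} {h : ℕ} (hh : 1 ≤ h) {n n' : ℤ} (h1 : n ≤ n') (h2 : n' ≤ n + h) :
    ‖F n - F n'‖ ≤ EF F h n + EF F h n' := by
  have hh0 : (0 : ℝ) < h := by exact_mod_cast hh
  unfold EF
  rw [← add_div, le_div_iff₀ hh0]
  have e1 : ‖F n - F n'‖ * h = ∑ j ∈ range h, ‖F n - F n'‖ := by
    rw [sum_const, card_range, nsmul_eq_mul]; ring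
  rw [e1]
  have e2 : ∀ j ∈ range h, ‖F n - F n'‖ ≤ ‖F (n + j) - F n‖ + ‖F (n' + (n + j - n')) - F n'‖ := by
    intro j _
    have e3 : n' + (n + (j : ℤ) - n') = n + j := by ring
    rw [e3]
    have e4 : F n - F n' = (F (n + j) - F n') - (F (n + j) - F n) := by ring
    rw [e4]
    refine (norm_sub_le _ _).trans ?_
    linarith
  refine (sum_le_sum e2).trans ?_
  rw [sum_add_distrib]
  apply add_le_add
  · have : ∑ j ∈ range h, ‖F (n + j) - F n‖ = ∑ j ∈ (range h).image (fun j : ℕ => (j : ℤ)), ‖F (n + j) - F n‖ := by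
      rw [sum_image]; intro a _ b _ hab; simpa using hab
    rw [this]
    apply sum_le_sum_of_subset_of_nonneg
    · intro x hx
      rw [mem_image] at hx
      obtain ⟨j, hj, rfl⟩ := hx
      rw [mem_range] at hj
      rw [mem_Icc]; omega
    · intro _ _ _; exact norm_nonneg _
  · have : ∑ j ∈ range h, ‖F (n' + (n + j - n')) - F n'‖
        = ∑ j ∈ (range h).image (fun j : ℕ => (n + (j : ℤ) - n')), ‖F (n' + j) - F n'‖ := by
      rw [sum_image]
      intro a _ b _ hab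
      simp only at hab
      omega
    rw [this]
    apply sum_le_sum_of_subset_of_nonneg
    · intro x hx
      rw [mem_image] at hx
      obtain ⟨j, hj, rfl⟩ := hx
      rw [mem_range] at hj
      rw [mem_Icc]; omega
    · intro _ _ _; exact norm_nonneg _

theorem EF_pair {F : ℤ → ℂ} {h : ℕ} (hh : 1 ≤ h) {n n' : ℤ} (h1 : |n - n'| ≤ h) :
    ‖F n - F n'‖ ≤ EF F h n + EF F h n' := by
  rw [abs_le] at h1
  rcases le_total n n' with h2 | h2
  · exact EF_pair' hh h2 (by omega)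
  · rw [norm_sub_rev, add_comm]
    exact EF_pair' hh h2 (by omega)

/-- sums of the oscillation along a progression -/
theorem EF_sum {F : ℤ → ℂ} {h : ℕ} (hh : 1 ≤ h) {T : Finset ℕ} {y : ℕ → ℤ} {B : ℝ} (hB : 0 ≤ B)
    (H : ∀ j : ℤ, |j| ≤ h → ∑ m ∈ T, ‖F (y m + j) - F (y m)‖ ≤ B) : ∑ m ∈ T, EF F h (y m) ≤ 3 * B := by
  have hh0 : (0 : ℝ) < h := by exact_mod_cast hh
  unfold EF
  rw [← sum_div, div_le_iff₀ hh0, sum_comm]
  have h1 : ∑ j ∈ Icc (-(h : ℤ)) h, ∑ m ∈ T, ‖F (y m + j) - F (y m)‖ ≤ ∑ j ∈ Icc (-(h : ℤ)) h, B := by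
    apply sum_le_sum
    intro j hj
    rw [mem_Icc] at hj
    exact H j (abs_le.2 hj)
  refine h1.trans ?_
  rw [sum_const, Int.card_Icc, nsmul_eq_mul]
  have h2 : ((((h : ℤ) + 1 - -(h : ℤ)).toNat : ℕ) : ℝ) = 2 * h + 1 := by
    have : (((h : ℤ) + 1 - -(h : ℤ)).toNat : ℤ) = 2 * h + 1 := by
      rw [Int.toNat_of_nonneg (by omega)]; ring
    exact_mod_cast this
  rw [h2]
  have : (1 : ℝ) ≤ h := by exact_mod_cast hh
  nlinarith

end Pool.Agent.W41.MU
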