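import Pool.Agent.W41.MU5

/-! Fejer means of a function on the logarithmic scale. -/

set_option autoImplicit false

namespace Pool.Agent.W41.MU

open Finset MeasureTheory Pool.Agent.H376R2.MR

/-- restriction to a window -/
noncomputable def psi (φ : ℝ → ℂ) (a b : ℝ) : ℝ → ℂ := (Set.Ioo a b).indicator φ

theorem psi_meas {φ : ℝ → ℂ} (hφ : Measurable φ) (a b : ℝ) : Measurable (psi φ a b) :=
  hφ.indicator measurableSet_Ioo

theorem psi_le {φ : ℝ → ℂ} (hφ : ∀ s, ‖φ s‖ ≤ 1) (a b s : ℝ) : ‖psi φ a b s‖ ≤ 1 := by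
  unfold psi
  by_cases h : s ∈ Set.Ioo a b
  · rw [Set.indicator_of_mem h]; exact hφ s
  · rw [Set.indicator_of_notMem h]; simp

/-- Fourier coefficients -/
noncomputable def hat (φ : ℝ → ℂ) (a b : ℝ) (k : ℤ) : ℂ := ∫ t in a..b, psi φ a b t * ch (-k) t

/-- Fejer means -/
noncomputable def psiK (φ : ℝ → ℂ) (a b : ℝ) (K : ℕ) (s : ℝ) : ℂ :=
  (1 / (2 * Real.pi) : ℝ) * ∫ t in a..b, psi φ a b t * (Fj K (s - t) : ℂ)

theorem ch_neg_mul (k : ℤ) (s t : ℝ) : ch (-k) t * ch k s = Complex.exp (-((k * (s - t) : ℝ) : ℂ) * Complex.I) := by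
  unfold ch
  rw [← Complex.exp_add]
  congr 1
  push_cast; ring

theorem ch_add (k : ℤ) (s t : ℝ) : ch k (s + t) = ch k s * ch k t := by
  unfold ch
  rw [← Complex.exp_add]
  congr 1
  push_cast; ring

theorem ch_conj (k : ℤ) (t : ℝ) : (starRingEnd ℂ) (ch (-k) t) = ch k t := by
  unfold ch
  rw [← Complex.exp_conj]
  congr 1
  simp only [map_mul, map_neg, Complex.conj_ofReal, Complex.conj_I]
  push_cast
  ring

theorem psiK_poly {φ : ℝ → ℂ} (hm : Measurable φ) (hφ : ∀ s, ‖φ s‖ ≤ 1) (a b : ℝ) (K : ℕ) (s : ℝ) :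
    psiK φ a b K s = (1 / (2 * Real.pi) : ℝ) * ∑ k ∈ FK K, ((1 - |(k : ℝ)| / K : ℝ) : ℂ) * hat φ a b k * ch k s := by
  unfold psiK hat
  congr 1
  have h1 : ∀ t : ℝ, psi φ a b t * (Fj K (s - t) : ℂ)
      = ∑ k ∈ FK K, ((1 - |(k : ℝ)| / K : ℝ) : ℂ) * (psi φ a b t * ch (-k) t) * ch k s := by
    intro t
    rw [← fej_exp, mul_sum]
    apply sum_congr rfl
    intro k _
    rw [← ch_neg_mul]
    ring
  simp_rw [h1]
  rw [intervalIntegral.integral_finsetSum]
  · apply sum_congr rfl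
    intro k _
    rw [intervalIntegral.integral_mul_const, intervalIntegral.integral_const_mul]
  · intro k _
    apply IntervalIntegrable.mul_const
    apply IntervalIntegrable.const_mul
    apply iic_bdd ((psi_meas hm a b).mul (ls_ch_cont _).measurable) (C := 1)
    intro x
    rw [Pi.mul_apply, norm_mul, ls_norm_ch, mul_one]
    exact psi_le hφ a b x

theorem psiK_cont {φ : ℝ → ℂ} (hm : Measurable φ) (hφ : ∀ s, ‖φ s‖ ≤ 1) (a b : ℝ) (K : ℕ) :
    Continuous (psiK φ a b K) := by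
  have : psiK φ a b K = fun s => (1 / (2 * Real.pi) : ℝ) * ∑ k ∈ FK K,
      ((1 - |(k : ℝ)| / K : ℝ) : ℂ) * hat φ a b k * ch k s := by
    funext s; exact psiK_poly hm hφ a b K s
  rw [this]
  apply Continuous.mul continuous_const
  apply continuous_finsetSum
  intro k _
  exact continuous_const.mul (ls_ch_cont k)

theorem Fj_cont (K : ℕ) : Continuous (Fj K) := by
  unfold Fj
  fun_prop

theorem Fj_int {K : ℕ} (hK : 1 ≤ K) : ∫ u in (-Real.pi)..Real.pi, Fj K u = 2 * Real.pi := by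
  have h1 : ((∫ u in (-Real.pi)..Real.pi, Fj K u : ℝ) : ℂ) = (2 * Real.pi : ℂ) := by
    rw [← intervalIntegral.integral_ofReal]
    have h2 : ∀ u : ℝ, ((Fj K u : ℝ) : ℂ) = ∑ k ∈ FK K, ((1 - |(k : ℝ)| / K : ℝ) : ℂ) * (((1 : ℝ) : ℂ) * ch k u) := by
      intro u
      rw [← fej_exp]
      apply sum_congr rfl
      intro k _
      unfold ch
      rw [Complex.ofReal_one, one_mul]
    simp_rw [h2]
    rw [intervalIntegral.integral_finsetSum]
    · have h3 : ∀ k ∈ FK K, ∫ u in (-Real.pi)..Real.pi, ((1 - |(k : ℝ)| / K : ℝ) : ℂ) * (((1 : ℝ) : ℂ) * ch k u)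
          = if k = 0 then (2 * Real.pi : ℂ) else 0 := by
        intro k _
        rw [intervalIntegral.integral_const_mul, ls_orth]
        split_ifs with hk
        · subst hk; simp
        · simp
      rw [sum_congr rfl h3, sum_ite_eq' (FK K) 0]
      rw [if_pos]
      unfold FK
      rw [mem_Ioo]
      omega
    · intro k _
      apply Continuous.intervalIntegrable
      exact continuous_const.mul (continuous_const.mul (ls_ch_cont k))
  have h4 : (2 * Real.pi : ℂ) = ((2 * Real.pi : ℝ) : ℂ) := by push_cast; ring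
  rw [h4] at h1
  exact_mod_cast h1

theorem psiK_conv {φ : ℝ → ℂ} {a b : ℝ} (K : ℕ) {s : ℝ} (h1 : b - Real.pi ≤ s) (h2 : s ≤ a + Real.pi) :
    psiK φ a b K s = (1 / (2 * Real.pi) : ℝ) * ∫ u in (-Real.pi)..Real.pi, psi φ a b (s - u) * (Fj K u : ℂ) := by
  unfold psiK
  congr 1
  have hsub : Function.support (fun t => psi φ a b t * (Fj K (s - t) : ℂ)) ⊆ Set.Ioo a b := by
    intro t ht
    by_contra hcon
    apply ht
    simp only
    unfold psi
    rw [Set.indicator_of_notMem hcon, zero_mul]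
  rw [intervalIntegral.integral_eq_integral_of_support_subset (hsub.trans Set.Ioo_subset_Ioc_self)]
  have e : ∫ u in (-Real.pi)..Real.pi, psi φ a b (s - u) * (Fj K u : ℂ)
      = ∫ u in (-Real.pi)..Real.pi, (fun t => psi φ a b t * (Fj K (s - t) : ℂ)) (s - u) := by
    apply intervalIntegral.integral_congr
    intro u _
    simp only
    rw [sub_sub_cancel]
  rw [e, intervalIntegral.integral_comp_sub_left (fun t => psi φ a b t * (Fj K (s - t) : ℂ)) s]
  rw [intervalIntegral.integral_eq_integral_of_support_subset]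
  refine hsub.trans ?_
  intro t ht
  constructor
  · have := ht.1; linarith
  · have := ht.2; linarith

theorem psiK_le {φ : ℝ → ℂ} (hφ : ∀ s, ‖φ s‖ ≤ 1) {a b : ℝ} {K : ℕ} (hK : 1 ≤ K) {s : ℝ}
    (h1 : b - Real.pi ≤ s) (h2 : s ≤ a + Real.pi) : ‖psiK φ a b K s‖ ≤ 1 := by
  have hpi := Real.pi_pos
  rw [psiK_conv K h1 h2, norm_mul, Complex.norm_real, Real.norm_eq_abs, abs_of_pos (by positivity)]
  have h3 : ‖∫ u in (-Real.pi)..Real.pi, psi φ a b (s - u) * (Fj K u : ℂ)‖ ≤ ∫ u in (-Real.pi)..Real.pi, Fj K u := by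
    apply intervalIntegral.norm_integral_le_of_norm_le (by linarith)
    · apply ae_of_all
      intro u _
      rw [norm_mul, Complex.norm_real, Real.norm_eq_abs, abs_of_nonneg (Fj_nonneg K u)]
      exact mul_le_of_le_one_left (Fj_nonneg K u) (psi_le hφ a b _)
    · exact (Fj_cont K).intervalIntegrable _ _
  rw [Fj_int hK] at h3
  calc 1 / (2 * Real.pi) * ‖∫ u in (-Real.pi)..Real.pi, psi φ a b (s - u) * (Fj K u : ℂ)‖
      ≤ 1 / (2 * Real.pi) * (2 * Real.pi) := mul_le_mul_of_nonneg_left h3 (by positivity)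
    _ = 1 := by field_simp

theorem coef_nonneg {K : ℕ} {k : ℤ} (hk : k ∈ FK K) : 0 ≤ 1 - |(k : ℝ)| / K ∧ 1 - |(k : ℝ)| / K ≤ 1 := by
  unfold FK at hk
  rw [mem_Ioo] at hk
  have hK : (0 : ℝ) < K := by
    have : (0 : ℤ) < K := by omega
    exact_mod_cast this
  have h1 : |(k : ℝ)| ≤ K := by
    rw [abs_le]
    constructor
    · have := hk.1.le; exact_mod_cast this
    · have := hk.2.le; exact_mod_cast this
  constructor
  · rw [sub_nonneg, div_le_one hK]; exact h1
  · have : 0 ≤ |(k : ℝ)| / K := by positivity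
    linarith

/-- Bessel's inequality -/
theorem bessel {φ : ℝ → ℂ} (hm : Measurable φ) (hφ : ∀ s, ‖φ s‖ ≤ 1) {a b : ℝ} (hab : a ≤ b) (hab1 : b - a ≤ 1)
    {K : ℕ} (hK : 1 ≤ K) : ∑ k ∈ FK K, (1 - |(k : ℝ)| / K) * ‖hat φ a b k‖ ^ 2 ≤ 2 * Real.pi := by
  have hpi := Real.pi_gt_three
  have h1 : ((∑ k ∈ FK K, (1 - |(k : ℝ)| / K) * ‖hat φ a b k‖ ^ 2 : ℝ) : ℂ)
      = (2 * Real.pi : ℝ) * ∫ t in a..b, (starRingEnd ℂ) (psi φ a b t) * psiK φ a b K t := by
    have h2 : ∀ t : ℝ, (starRingEnd ℂ) (psi φ a b t) * psiK φ a b K t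
        = (1 / (2 * Real.pi) : ℝ) * ∑ k ∈ FK K, ((1 - |(k : ℝ)| / K : ℝ) : ℂ) * hat φ a b k
          * (starRingEnd ℂ) (psi φ a b t * ch (-k) t) := by
      intro t
      rw [psiK_poly hm hφ, mul_sum, mul_sum, mul_sum]
      apply sum_congr rfl
      intro k _
      rw [map_mul, ch_conj]
      ring
    simp_rw [h2]
    rw [intervalIntegral.integral_const_mul, intervalIntegral.integral_finsetSum]
    · have h3 : ∀ k ∈ FK K, ∫ t in a..b, ((1 - |(k : ℝ)| / K : ℝ) : ℂ) * hat φ a b k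
          * (starRingEnd ℂ) (psi φ a b t * ch (-k) t) = ((1 - |(k : ℝ)| / K : ℝ) : ℂ) * ((‖hat φ a b k‖ ^ 2 : ℝ) : ℂ) := by
        intro k _
        rw [intervalIntegral.integral_const_mul]
        have h4 : ∫ t in a..b, (starRingEnd ℂ) (psi φ a b t * ch (-k) t) = (starRingEnd ℂ) (hat φ a b k) := by
          unfold hat
          rw [intervalIntegral.integral_of_le hab, intervalIntegral.integral_of_le hab, integral_conj]
        rw [h4, mul_assoc, Complex.mul_conj']
        push_cast; ring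
      rw [sum_congr rfl h3, ← mul_assoc, ← Complex.ofReal_mul,
        show (2 * Real.pi) * (1 / (2 * Real.pi)) = (1 : ℝ) by field_simp, Complex.ofReal_one, one_mul,
        Complex.ofReal_sum]
      apply sum_congr rfl
      intro k _
      rw [Complex.ofReal_mul]
    · intro k _
      apply IntervalIntegrable.const_mul
      apply iic_bdd (C := 1)
      · exact Complex.continuous_conj.measurable.comp ((psi_meas hm a b).mul (ls_ch_cont _).measurable)
      · intro x
        rw [RCLike.norm_conj, norm_mul, ls_norm_ch, mul_one]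
        exact psi_le hφ a b x
  have h6 : ‖∫ t in a..b, (starRingEnd ℂ) (psi φ a b t) * psiK φ a b K t‖ ≤ 1 * |b - a| := by
    apply intervalIntegral.norm_integral_le_of_norm_le_const
    intro t ht
    rw [Set.uIoc_of_le hab] at ht
    rw [norm_mul, RCLike.norm_conj]
    exact mul_le_one₀ (psi_le hφ a b t) (norm_nonneg _)
      (psiK_le hφ hK (by linarith [ht.1]) (by linarith [ht.2]))
  rw [one_mul, abs_of_nonneg (by linarith)] at h6
  have h7 : |∑ k ∈ FK K, (1 - |(k : ℝ)| / K) * ‖hat φ a b k‖ ^ 2| ≤ 2 * Real.pi := by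
    rw [← Real.norm_eq_abs, ← Complex.norm_real, h1, norm_mul, Complex.norm_real, Real.norm_eq_abs,
      abs_of_pos (by positivity)]
    calc 2 * Real.pi * ‖∫ t in a..b, (starRingEnd ℂ) (psi φ a b t) * psiK φ a b K t‖
        ≤ 2 * Real.pi * 1 := mul_le_mul_of_nonneg_left (h6.trans hab1) (by positivity)
      _ = _ := mul_one _
  exact (le_abs_self _).trans h7

end Pool.Agent.W41.MU
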