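import Pool.Agent.W41.MU6

/-! Approximation by the Fejer means. -/

set_option autoImplicit false

namespace Pool.Agent.W41.MU

open Finset MeasureTheory Pool.Agent.H376R2.MR

/-- majorant of the Fejer kernel away from the origin -/
noncomputable def tk (K : ℕ) (ρ u : ℝ) : ℝ := if |u| ≤ ρ then 0 else Real.pi ^ 2 / (K * u ^ 2)

theorem tk_meas (K : ℕ) (ρ : ℝ) : Measurable (tk K ρ) := by
  unfold tk
  apply Measurable.ite
  · exact measurableSet_le (by fun_prop) (by fun_prop)
  · exact measurable_const
  · fun_prop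

theorem tk_nonneg (K : ℕ) (ρ u : ℝ) : 0 ≤ tk K ρ u := by
  unfold tk
  split_ifs
  · exact le_rfl
  · positivity

theorem tk_bdd {K : ℕ} (hK : 1 ≤ K) {ρ : ℝ} (hρ : 0 < ρ) (u : ℝ) : ‖tk K ρ u‖ ≤ Real.pi ^ 2 / (K * ρ ^ 2) := by
  have hK0 : (0 : ℝ) < K := by exact_mod_cast hK
  rw [Real.norm_eq_abs, abs_of_nonneg (tk_nonneg K ρ u)]
  unfold tk
  split_ifs with h
  · positivity
  · push Not at h
    apply div_le_div_of_nonneg_left (by positivity) (by positivity)
    apply mul_le_mul_of_nonneg_left _ hK0.le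
    rw [← sq_abs u]
    exact pow_le_pow_left₀ hρ.le h.le 2

theorem tk_int {K : ℕ} (hK : 1 ≤ K) {ρ : ℝ} (hρ : 0 < ρ) (hρ1 : ρ ≤ 1) :
    ∫ u in (-Real.pi)..Real.pi, tk K ρ u ≤ 2 * Real.pi ^ 2 / (K * ρ) := by
  have hpi := Real.pi_gt_three
  have hK0 : (0 : ℝ) < K := by exact_mod_cast hK
  have hii : ∀ a b : ℝ, IntervalIntegrable (tk K ρ) volume a b := fun a b => ii_bdd (tk_meas K ρ) (tk_bdd hK hρ) a b
  rw [← intervalIntegral.integral_add_adjacent_intervals (hii (-Real.pi) (-ρ)) (hii (-ρ) Real.pi),
    ← intervalIntegral.integral_add_adjacent_intervals (hii (-ρ) ρ) (hii ρ Real.pi)]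
  have h2 : ∫ u in (-ρ)..ρ, tk K ρ u = 0 := by
    apply intervalIntegral.integral_zero_ae
    apply ae_of_all
    intro u hu
    rw [Set.uIoc_of_le (by linarith)] at hu
    unfold tk
    rw [if_pos]
    rw [abs_le]; exact ⟨hu.1.le, hu.2⟩
  have hder : ∀ x : ℝ, x ≠ 0 → HasDerivAt (fun y : ℝ => -(Real.pi ^ 2 / K) * y⁻¹) (Real.pi ^ 2 / (K * x ^ 2)) x := by
    intro x hx
    have h := (hasDerivAt_inv hx).const_mul (-(Real.pi ^ 2 / K))
    have e : Real.pi ^ 2 / (K * x ^ 2) = -(Real.pi ^ 2 / K) * -(x ^ 2)⁻¹ := by field_simp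
    rw [e]
    exact h
  have h3 : ∫ u in ρ..Real.pi, tk K ρ u ≤ Real.pi ^ 2 / (K * ρ) := by
    have e : ∫ u in ρ..Real.pi, tk K ρ u = ∫ u in ρ..Real.pi, Real.pi ^ 2 / (K * u ^ 2) := by
      apply intervalIntegral.integral_congr_ae
      apply ae_of_all
      intro u hu
      rw [Set.uIoc_of_le (by linarith)] at hu
      unfold tk
      rw [if_neg]
      rw [not_le, abs_of_pos (by linarith [hu.1])]
      exact hu.1
    rw [e, intervalIntegral.integral_eq_sub_of_hasDerivAt (f := fun y : ℝ => -(Real.pi ^ 2 / K) * y⁻¹)]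
    · have e1 : -(Real.pi ^ 2 / K) * ρ⁻¹ = -(Real.pi ^ 2 / (K * ρ)) := by field_simp
      rw [e1]
      have : 0 ≤ (Real.pi ^ 2 / K) * (Real.pi)⁻¹ := by positivity
      linarith
    · intro x hx
      rw [Set.uIcc_of_le (by linarith)] at hx
      exact hder x (by linarith [hx.1])
    · apply ContinuousOn.intervalIntegrable
      intro x hx
      rw [Set.uIcc_of_le (by linarith)] at hx
      have hx0 : 0 < x := by linarith [hx.1]
      apply ContinuousAt.continuousWithinAt
      apply ContinuousAt.div continuousAt_const (by fun_prop) (by positivity)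
  have h1 : ∫ u in (-Real.pi)..(-ρ), tk K ρ u ≤ Real.pi ^ 2 / (K * ρ) := by
    have e : ∫ u in (-Real.pi)..(-ρ), tk K ρ u = ∫ u in ρ..Real.pi, tk K ρ u := by
      rw [← intervalIntegral.integral_comp_neg]
      apply intervalIntegral.integral_congr
      intro u _
      simp only
      unfold tk
      rw [abs_neg, neg_sq]
    rw [e]; exact h3
  rw [h2, zero_add]
  have e : 2 * Real.pi ^ 2 / (K * ρ) = Real.pi ^ 2 / (K * ρ) + Real.pi ^ 2 / (K * ρ) := by ring
  rw [e]
  exact add_le_add h1 h3

/-- the Fejer means are close in the mean -/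
theorem approx {φ : ℝ → ℂ} (hm : Measurable φ) (hφ : ∀ s, ‖φ s‖ ≤ 1) {a b : ℝ} (hab : a ≤ b) (hab1 : b - a ≤ 1)
    {K : ℕ} (hK : 1 ≤ K) {ρ : ℝ} (hρ : 0 < ρ) (hρ1 : ρ ≤ 1) {ε : ℝ} (hε : 0 ≤ ε)
    (hΩ : ∀ u, |u| ≤ ρ → ∫ s in a..b, ‖psi φ a b s - psi φ a b (s - u)‖ ≤ ε) :
    ∫ s in a..b, ‖psi φ a b s - psiK φ a b K s‖ ≤ ε + 2 * Real.pi / (K * ρ) := by
  have hpi := Real.pi_gt_three
  have hK0 : (0 : ℝ) < K := by exact_mod_cast hK
  set G : ℝ → ℝ → ℝ := fun s u => ‖psi φ a b s - psi φ a b (s - u)‖ * Fj K u with hG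
  have hpm := psi_meas hm a b
  have hG0 : ∀ s u, 0 ≤ G s u := fun s u => mul_nonneg (norm_nonneg _) (Fj_nonneg K u)
  have hn2 : ∀ s u, ‖psi φ a b s - psi φ a b (s - u)‖ ≤ 2 := by
    intro s u
    refine (norm_sub_le _ _).trans ?_
    linarith [psi_le hφ a b s, psi_le hφ a b (s - u)]
  have hGm : Measurable (fun p : ℝ × ℝ => G p.1 p.2) := by
    apply Measurable.mul
    · apply Measurable.norm
      exact (hpm.comp measurable_fst).sub (hpm.comp (measurable_fst.sub measurable_snd))
    · exact (Fj_cont K).measurable.comp measurable_snd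
  have hint : Integrable (Function.uncurry G) ((volume.restrict (Set.Ioc a b)).prod
      (volume.restrict (Set.Ioc (-Real.pi) Real.pi))) := by
    refine Integrable.of_bound hGm.aestronglyMeasurable (2 * K) (Filter.Eventually.of_forall fun p => ?_)
    simp only [Function.uncurry]
    rw [Real.norm_eq_abs, abs_of_nonneg (hG0 _ _)]
    exact mul_le_mul (hn2 _ _) (Fj_le K _) (Fj_nonneg K _) (by norm_num)
  -- pointwise bound
  have hpt : ∀ s ∈ Set.Ioc a b, ‖psi φ a b s - psiK φ a b K s‖
      ≤ 1 / (2 * Real.pi) * ∫ u in Set.Ioc (-Real.pi) Real.pi, G s u := by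
    intro s hs
    have h1 : psi φ a b s - psiK φ a b K s = (1 / (2 * Real.pi) : ℝ)
        * ∫ u in (-Real.pi)..Real.pi, (psi φ a b s - psi φ a b (s - u)) * (Fj K u : ℂ) := by
      rw [psiK_conv K (by linarith [hs.1]) (by linarith [hs.2])]
      have h2 : ∀ u, (psi φ a b s - psi φ a b (s - u)) * (Fj K u : ℂ)
          = psi φ a b s * (Fj K u : ℂ) - psi φ a b (s - u) * (Fj K u : ℂ) := fun u => by ring
      simp_rw [h2]
      rw [intervalIntegral.integral_sub, mul_sub]
      · congr 1
        rw [intervalIntegral.integral_const_mul, intervalIntegral.integral_ofReal, Fj_int hK]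
        push_cast
        have : (Real.pi : ℂ) ≠ 0 := by exact_mod_cast Real.pi_ne_zero
        field_simp
      · apply Continuous.intervalIntegrable
        exact continuous_const.mul (Complex.continuous_ofReal.comp (Fj_cont K))
      · apply iic_bdd (C := K)
        · exact (hpm.comp (measurable_const.sub measurable_id)).mul
            (Complex.continuous_ofReal.comp (Fj_cont K)).measurable
        · intro u
          show ‖psi φ a b (s - u) * ((Fj K u : ℝ) : ℂ)‖ ≤ K
          rw [norm_mul, Complex.norm_real, Real.norm_eq_abs, abs_of_nonneg (Fj_nonneg K u)]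
          calc _ ≤ 1 * (K : ℝ) := mul_le_mul (psi_le hφ a b _) (Fj_le K u) (Fj_nonneg K u) (by norm_num)
            _ = K := one_mul _
    rw [h1, norm_mul, Complex.norm_real, Real.norm_eq_abs, abs_of_pos (by positivity)]
    apply mul_le_mul_of_nonneg_left _ (by positivity)
    rw [intervalIntegral.integral_of_le (by linarith)]
    refine (norm_integral_le_integral_norm _).trans (le_of_eq ?_)
    apply integral_congr_ae
    apply ae_of_all
    intro u
    simp only [hG]
    rw [norm_mul, Complex.norm_real, Real.norm_eq_abs, abs_of_nonneg (Fj_nonneg K u)]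
  rw [intervalIntegral.integral_of_le hab]
  have hstep1 : ∫ s in Set.Ioc a b, ‖psi φ a b s - psiK φ a b K s‖
      ≤ ∫ s in Set.Ioc a b, 1 / (2 * Real.pi) * ∫ u in Set.Ioc (-Real.pi) Real.pi, G s u := by
    apply setIntegral_mono_on
    · have := ii_bdd (f := fun s => ‖psi φ a b s - psiK φ a b K s‖)
        ((hpm.sub (psiK_cont hm hφ a b K).measurable).norm) (C := 1 + K + 1) ?_ a b
      · rwa [intervalIntegrable_iff_integrableOn_Ioc_of_le hab] at this
      · intro s
        rw [norm_norm]
        refine (norm_sub_le _ _).trans ?_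
        have h1 := psi_le hφ a b s
        have h2 : ‖psiK φ a b K s‖ ≤ K + 1 := by
          unfold psiK
          rw [norm_mul, Complex.norm_real, Real.norm_eq_abs, abs_of_pos (by positivity)]
          have h3 : ‖∫ t in a..b, psi φ a b t * (Fj K (s - t) : ℂ)‖ ≤ K * |b - a| := by
            apply intervalIntegral.norm_integral_le_of_norm_le_const
            intro t _
            rw [norm_mul, Complex.norm_real, Real.norm_eq_abs, abs_of_nonneg (Fj_nonneg K _)]
            calc _ ≤ 1 * (K : ℝ) := mul_le_mul (psi_le hφ a b _) (Fj_le K _) (Fj_nonneg K _) (by norm_num)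
              _ = K := one_mul _
          rw [abs_of_nonneg (by linarith)] at h3
          have h4 : 1 / (2 * Real.pi) ≤ 1 := by
            rw [div_le_one (by positivity)]; linarith
          have h5 : (K : ℝ) * (b - a) ≤ K * 1 := mul_le_mul_of_nonneg_left hab1 hK0.le
          calc 1 / (2 * Real.pi) * ‖∫ t in a..b, psi φ a b t * (Fj K (s - t) : ℂ)‖
              ≤ 1 * (K * 1) := mul_le_mul h4 (h3.trans h5) (norm_nonneg _) (by norm_num)
            _ ≤ K + 1 := by linarith
        linarith
    · exact (hint.integral_prod_left).const_mul _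
    · exact measurableSet_Ioc
    · exact hpt
  refine hstep1.trans ?_
  rw [integral_const_mul, integral_integral_swap hint]
  have hstep2 : ∫ u in Set.Ioc (-Real.pi) Real.pi, ∫ s in Set.Ioc a b, G s u
      ≤ ∫ u in Set.Ioc (-Real.pi) Real.pi, (ε * Fj K u + 2 * tk K ρ u) := by
    apply setIntegral_mono_on
    · exact hint.integral_prod_right
    · have h1 := ((Fj_cont K).intervalIntegrable (μ := volume) (-Real.pi) Real.pi).const_mul ε
      have h2 := (ii_bdd (tk_meas K ρ) (tk_bdd hK hρ) (-Real.pi) Real.pi).const_mul 2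
      have h3 := h1.add h2
      rwa [intervalIntegrable_iff_integrableOn_Ioc_of_le (by linarith)] at h3
    · exact measurableSet_Ioc
    · intro u hu
      have e1 : ∫ s in Set.Ioc a b, G s u = (∫ s in Set.Ioc a b, ‖psi φ a b s - psi φ a b (s - u)‖) * Fj K u := by
        simp only [hG]
        rw [integral_mul_const]
      rw [e1]
      have hF0 := Fj_nonneg K u
      by_cases hu1 : |u| ≤ ρ
      · have h1 := hΩ u hu1
        rw [intervalIntegral.integral_of_le hab] at h1
        have h2 := mul_le_mul_of_nonneg_right h1 hF0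
        have h3 := tk_nonneg K ρ u
        linarith
      · have h1 : ∫ s in Set.Ioc a b, ‖psi φ a b s - psi φ a b (s - u)‖ ≤ 2 := by
          have h2 : ∫ s in Set.Ioc a b, ‖psi φ a b s - psi φ a b (s - u)‖ ≤ ∫ s in Set.Ioc a b, (2 : ℝ) := by
            apply setIntegral_mono_on
            · have := ii_bdd (f := fun s => ‖psi φ a b s - psi φ a b (s - u)‖)
                ((hpm.sub (hpm.comp (measurable_id.sub measurable_const))).norm) (C := 2)
                (fun s => by rw [norm_norm]; exact hn2 s u) a b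
              rwa [intervalIntegrable_iff_integrableOn_Ioc_of_le hab] at this
            · exact (integrable_const _)
            · exact measurableSet_Ioc
            · intro s _; exact hn2 s u
          refine h2.trans ?_
          rw [setIntegral_const, smul_eq_mul, Real.volume_real_Ioc_of_le hab]
          linarith
        have h2 : Fj K u ≤ tk K ρ u := by
          unfold tk
          rw [if_neg hu1]
          push Not at hu1
          have hu0 : u ≠ 0 := by
            intro h0
            rw [h0, abs_zero] at hu1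
            linarith
          exact Fj_le_sq hK hu0 (abs_le.2 ⟨hu.1.le, hu.2⟩)
        have h3 : 0 ≤ ε * Fj K u := mul_nonneg hε hF0
        have h4 := mul_le_mul h1 h2 hF0 (by norm_num)
        linarith
  have hstep3 : ∫ u in Set.Ioc (-Real.pi) Real.pi, (ε * Fj K u + 2 * tk K ρ u)
      ≤ ε * (2 * Real.pi) + 2 * (2 * Real.pi ^ 2 / (K * ρ)) := by
    rw [← intervalIntegral.integral_of_le (by linarith), intervalIntegral.integral_add,
      intervalIntegral.integral_const_mul, intervalIntegral.integral_const_mul, Fj_int hK]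
    · have := tk_int hK hρ hρ1
      linarith
    · exact ((Fj_cont K).intervalIntegrable _ _).const_mul ε
    · exact (ii_bdd (tk_meas K ρ) (tk_bdd hK hρ) (-Real.pi) Real.pi).const_mul 2
  calc 1 / (2 * Real.pi) * ∫ u in Set.Ioc (-Real.pi) Real.pi, ∫ s in Set.Ioc a b, G s u
      ≤ 1 / (2 * Real.pi) * (ε * (2 * Real.pi) + 2 * (2 * Real.pi ^ 2 / (K * ρ))) :=
        mul_le_mul_of_nonneg_left (hstep2.trans hstep3) (by positivity)
    _ = ε + 2 * Real.pi / (K * ρ) := by field_simp

end Pool.Agent.W41.MU
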