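import Pool.Agent.W41.MU7

/-! Mean squares of bilinear sums on the logarithmic scale. -/

set_option autoImplicit false

namespace Pool.Agent.W41.MU

open Finset MeasureTheory Pool.Agent.H376R2.MR

theorem trig (c : ℝ) (K : ℕ) (d : ℤ → ℂ) :
    ∫ s in (c - Real.pi)..(c + Real.pi), ‖∑ k ∈ FK K, d k * ch k s‖ ^ 2 = 2 * Real.pi * ∑ k ∈ FK K, ‖d k‖ ^ 2 := by
  have h1 := intervalIntegral.integral_comp_add_left (a := -Real.pi) (b := Real.pi)
    (fun s => ‖∑ k ∈ FK K, d k * ch k s‖ ^ 2) c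
  rw [← sub_eq_add_neg] at h1
  rw [← h1]
  have h2 : ∀ x : ℝ, ‖∑ k ∈ FK K, d k * ch k (c + x)‖ ^ 2 = ‖∑ k ∈ FK K, (d k * ch k c) * ch k x‖ ^ 2 := by
    intro x
    congr 2
    apply sum_congr rfl
    intro k _
    rw [ch_add]; ring
  simp_rw [h2]
  rw [ls_par (FK K) (fun k => d k * ch k c)]
  congr 1
  apply sum_congr rfl
  intro k _
  rw [norm_mul, ls_norm_ch, mul_one]

/-- MEAN SQUARE of a bilinear sum. -/
theorem l2 {φ : ℝ → ℂ} (hm : Measurable φ) (hφ : ∀ s, ‖φ s‖ ≤ 1) {a b : ℝ} (hab : a ≤ b) (hab1 : b - a ≤ 1)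
    {K : ℕ} (hK : 1 ≤ K) {T : Finset ℕ} {w : ℕ → ℂ} (hw : ∀ p ∈ T, ‖w p‖ ≤ 1 / p)
    {c c' : ℝ} (hcc : c ≤ c') (hc1 : c' ≤ c + Real.pi)
    (hin : ∀ p ∈ T, a < c + Real.log p ∧ c' + Real.log p < b)
    {E ε2 ε3 : ℝ} (hε3 : 0 ≤ ε3) {R : ℕ} {U : Finset ℤ} (hU : U.card ≤ R) {μ : ℝ}
    (hμ : ∑ p ∈ T, 1 / (p : ℝ) = μ)
    (hgood : ∀ k ∈ FK K, k ∉ U → ‖∑ p ∈ T, w p * ch k (Real.log p)‖ ≤ ε3 * μ)
    (hhat : ∀ k ∈ FK K, ‖hat φ a b k‖ ≤ ε2)
    (hE : ∫ s in a..b, ‖psi φ a b s - psiK φ a b K s‖ ≤ E) :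
    ∫ s in c..c', ‖∑ p ∈ T, w p * φ (s + Real.log p)‖ ^ 2 ≤ μ ^ 2 * (4 * E + 2 * (ε3 ^ 2 + R * ε2 ^ 2)) := by
  have hpi := Real.pi_gt_three
  have hpm := psi_meas hm a b
  have hKm := (psiK_cont hm hφ a b K).measurable
  have hμ0 : 0 ≤ μ := by rw [← hμ]; exact sum_nonneg fun p _ => by positivity
  set D : ℝ → ℂ := fun s => ∑ p ∈ T, w p * psi φ a b (s + Real.log p) with hD
  set DK : ℝ → ℂ := fun s => ∑ p ∈ T, w p * psiK φ a b K (s + Real.log p) with hDK
  have hadd : ∀ x : ℝ, Measurable fun s : ℝ => s + x := fun x => measurable_id.add_const x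
  have hDm : Measurable D := by
    apply Finset.measurable_sum
    intro p _
    exact measurable_const.mul (hpm.comp (hadd _))
  have hDKm : Measurable DK := by
    apply Finset.measurable_sum
    intro p _
    exact measurable_const.mul (hKm.comp (hadd _))
  -- the polynomial
  set P : ℤ → ℂ := fun k => ∑ p ∈ T, w p * ch k (Real.log p) with hP
  set d : ℤ → ℂ := fun k => (1 / (2 * Real.pi) : ℝ) * (((1 - |(k : ℝ)| / K : ℝ) : ℂ) * hat φ a b k) * P k with hd
  have hDKp : ∀ s, DK s = ∑ k ∈ FK K, d k * ch k s := by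
    intro s
    simp only [hDK, hd, hP]
    have h1 : ∀ p ∈ T, w p * psiK φ a b K (s + Real.log p)
        = ∑ k ∈ FK K, w p * ((1 / (2 * Real.pi) : ℝ) * (((1 - |(k : ℝ)| / K : ℝ) : ℂ) * hat φ a b k * (ch k s * ch k (Real.log p)))) := by
      intro p _
      rw [psiK_poly hm hφ, mul_sum, mul_sum]
      apply sum_congr rfl
      intro k _
      rw [ch_add]
    rw [sum_congr rfl h1, sum_comm]
    apply sum_congr rfl
    intro k _
    rw [mul_sum, sum_mul]
    apply sum_congr rfl
    intro p _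
    ring
  have hPle : ∀ k, ‖P k‖ ≤ μ := by
    intro k
    simp only [hP]
    refine (norm_sum_le _ _).trans ?_
    rw [← hμ]
    apply sum_le_sum
    intro p hp
    rw [norm_mul, ls_norm_ch, mul_one]
    exact hw p hp
  -- the square of the polynomial
  have hSK : ∫ s in c..c', ‖DK s‖ ^ 2 ≤ μ ^ 2 * (ε3 ^ 2 + R * ε2 ^ 2) := by
    have h1 : ∫ s in c..c', ‖DK s‖ ^ 2 ≤ ∫ s in (c - Real.pi)..(c + Real.pi), ‖DK s‖ ^ 2 := by
      apply intervalIntegral.integral_mono_interval (by linarith) hcc hc1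
      · apply ae_of_all
        intro s; positivity
      · apply Continuous.intervalIntegrable
        have : DK = fun s => ∑ k ∈ FK K, d k * ch k s := by funext s; exact hDKp s
        rw [this]
        exact ((continuous_finsetSum _ fun k _ => continuous_const.mul (ls_ch_cont k)).norm).pow 2
    refine h1.trans ?_
    simp_rw [hDKp]
    rw [trig]
    have h2 : ∀ k ∈ FK K, ‖d k‖ ^ 2 ≤ (1 / (2 * Real.pi)) ^ 2 * (((1 - |(k : ℝ)| / K) * ‖hat φ a b k‖ ^ 2) * (ε3 * μ) ^ 2
        + (if k ∈ U then (ε2 * μ) ^ 2 else 0)) := by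
      intro k hk
      obtain ⟨c0, c1⟩ := coef_nonneg hk
      simp only [hd]
      rw [norm_mul, norm_mul, norm_mul, Complex.norm_real, Complex.norm_real, Real.norm_eq_abs, Real.norm_eq_abs,
        abs_of_pos (by positivity), abs_of_nonneg c0]
      have e : (1 / (2 * Real.pi) * ((1 - |(k : ℝ)| / K) * ‖hat φ a b k‖) * ‖P k‖) ^ 2
          = (1 / (2 * Real.pi)) ^ 2 * ((1 - |(k : ℝ)| / K) ^ 2 * (‖hat φ a b k‖ * ‖P k‖) ^ 2) := by ring
      rw [e]
      apply mul_le_mul_of_nonneg_left _ (by positivity)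
      have hc2 : (1 - |(k : ℝ)| / K) ^ 2 ≤ 1 - |(k : ℝ)| / K := by nlinarith
      split_ifs with hkU
      · have h3 : (‖hat φ a b k‖ * ‖P k‖) ^ 2 ≤ (ε2 * μ) ^ 2 := by
          apply pow_le_pow_left₀ (by positivity)
          exact mul_le_mul (hhat k hk) (hPle k) (norm_nonneg _) ((norm_nonneg _).trans (hhat k hk))
        have h4 : 0 ≤ ((1 - |(k : ℝ)| / K) * ‖hat φ a b k‖ ^ 2) * (ε3 * μ) ^ 2 := by positivity
        have h5 : (1 - |(k : ℝ)| / K) ^ 2 * (‖hat φ a b k‖ * ‖P k‖) ^ 2 ≤ 1 * (ε2 * μ) ^ 2 :=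
          mul_le_mul (hc2.trans c1) h3 (by positivity) (by norm_num)
        linarith
      · have h3 : ‖P k‖ ≤ ε3 * μ := hgood k hk hkU
        have h4 : ‖P k‖ ^ 2 ≤ (ε3 * μ) ^ 2 := pow_le_pow_left₀ (norm_nonneg _) h3 2
        rw [add_zero, mul_pow]
        calc (1 - |(k : ℝ)| / K) ^ 2 * (‖hat φ a b k‖ ^ 2 * ‖P k‖ ^ 2)
            ≤ (1 - |(k : ℝ)| / K) * (‖hat φ a b k‖ ^ 2 * (ε3 * μ) ^ 2) :=
              mul_le_mul hc2 (mul_le_mul_of_nonneg_left h4 (by positivity)) (by positivity) c0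
          _ = _ := by ring
    have h3 := sum_le_sum h2
    rw [← mul_sum, sum_add_distrib, ← sum_mul, ← sum_filter, sum_const, nsmul_eq_mul] at h3
    have h4 := bessel hm hφ hab hab1 hK
    have h5 : (((FK K).filter fun k => k ∈ U).card : ℝ) ≤ R := by
      have : ((FK K).filter fun k => k ∈ U).card ≤ U.card := by
        apply card_le_card
        intro k hk
        rw [mem_filter] at hk
        exact hk.2
      exact_mod_cast this.trans hU
    have h6 : (∑ k ∈ FK K, (1 - |(k : ℝ)| / K) * ‖hat φ a b k‖ ^ 2) * (ε3 * μ) ^ 2 ≤ 2 * Real.pi * (ε3 * μ) ^ 2 :=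
      mul_le_mul_of_nonneg_right h4 (by positivity)
    have h7 : (((FK K).filter fun k => k ∈ U).card : ℝ) * (ε2 * μ) ^ 2 ≤ R * (ε2 * μ) ^ 2 :=
      mul_le_mul_of_nonneg_right h5 (by positivity)
    calc 2 * Real.pi * ∑ k ∈ FK K, ‖d k‖ ^ 2
        ≤ 2 * Real.pi * ((1 / (2 * Real.pi)) ^ 2 * (2 * Real.pi * (ε3 * μ) ^ 2 + R * (ε2 * μ) ^ 2)) := by
          apply mul_le_mul_of_nonneg_left _ (by positivity)
          refine h3.trans ?_
          apply mul_le_mul_of_nonneg_left _ (by positivity)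
          linarith
      _ = (ε3 * μ) ^ 2 + (1 / (2 * Real.pi)) * (R * (ε2 * μ) ^ 2) := by field_simp
      _ ≤ (ε3 * μ) ^ 2 + 1 * (R * (ε2 * μ) ^ 2) := by
          apply add_le_add_right
          apply mul_le_mul_of_nonneg_right _ (by positivity)
          rw [div_le_one (by positivity)]; linarith
      _ = _ := by ring
  -- the difference
  set e : ℝ → ℝ := fun s => ∑ p ∈ T, 1 / (p : ℝ) * ‖psi φ a b (s + Real.log p) - psiK φ a b K (s + Real.log p)‖ with he
  have hem : ∀ x : ℝ, Measurable fun s : ℝ => ‖psi φ a b (s + x) - psiK φ a b K (s + x)‖ := fun x =>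
    ((hpm.comp (hadd _)).sub (hKm.comp (hadd _))).norm
  have hii : ∀ a' b' : ℝ, IntervalIntegrable (fun s => ‖psi φ a b s - psiK φ a b K s‖) volume a' b' := by
    intro a' b'
    apply ii_bdd (C := 1 + K * (b - a)) ((hpm.sub hKm).norm)
    intro s
    rw [norm_norm]
    refine (norm_sub_le _ _).trans ?_
    have h1 := psi_le hφ a b s
    have h2 : ‖psiK φ a b K s‖ ≤ K * (b - a) := by
      unfold psiK
      rw [norm_mul, Complex.norm_real, Real.norm_eq_abs, abs_of_pos (by positivity)]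
      have h3 : ‖∫ t in a..b, psi φ a b t * (Fj K (s - t) : ℂ)‖ ≤ K * |b - a| := by
        apply intervalIntegral.norm_integral_le_of_norm_le_const
        intro t _
        rw [norm_mul, Complex.norm_real, Real.norm_eq_abs, abs_of_nonneg (Fj_nonneg K _)]
        calc _ ≤ 1 * (K : ℝ) := mul_le_mul (psi_le hφ a b _) (Fj_le K _) (Fj_nonneg K _) (by norm_num)
          _ = K := one_mul _
      rw [abs_of_nonneg (by linarith)] at h3
      have h4 : 1 / (2 * Real.pi) ≤ 1 := by
        rw [div_le_one (by positivity)]; linarith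
      calc 1 / (2 * Real.pi) * ‖∫ t in a..b, psi φ a b t * (Fj K (s - t) : ℂ)‖
          ≤ 1 * (K * (b - a)) := mul_le_mul h4 h3 (norm_nonneg _) (by norm_num)
        _ = _ := one_mul _
    linarith
  have hii' : ∀ x : ℝ, IntervalIntegrable (fun s => ‖psi φ a b (s + x) - psiK φ a b K (s + x)‖) volume c c' := by
    intro x
    have := (hii (c + x) (c' + x)).comp_add_right x
    simpa using this
  have heI : ∫ s in c..c', e s ≤ μ * E := by
    simp only [he]
    rw [intervalIntegral.integral_finsetSum]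
    · rw [← hμ, sum_mul]
      apply sum_le_sum
      intro p hp
      rw [intervalIntegral.integral_const_mul]
      apply mul_le_mul_of_nonneg_left _ (by positivity)
      rw [intervalIntegral.integral_comp_add_right (fun s => ‖psi φ a b s - psiK φ a b K s‖) (Real.log p)]
      refine le_trans ?_ hE
      apply intervalIntegral.integral_mono_interval (hin p hp).1.le (by linarith) (hin p hp).2.le
      · apply ae_of_all
        intro s; positivity
      · exact hii a b
    · intro p _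
      exact (hii' _).const_mul _
  have hpt : ∀ s ∈ Set.Icc c c', ‖∑ p ∈ T, w p * φ (s + Real.log p)‖ ^ 2 ≤ 2 * ‖DK s‖ ^ 2 + 4 * μ * e s := by
    intro s hs
    have e1 : ∑ p ∈ T, w p * φ (s + Real.log p) = D s := by
      simp only [hD]
      apply sum_congr rfl
      intro p hp
      have h1 := hin p hp
      unfold psi
      rw [Set.indicator_of_mem]
      exact ⟨by linarith [hs.1], by linarith [hs.2]⟩
    rw [e1]
    have h1 : ‖D s - DK s‖ ≤ e s := by
      simp only [hD, hDK, he]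
      rw [← sum_sub_distrib]
      refine (norm_sum_le _ _).trans (sum_le_sum fun p hp => ?_)
      rw [← mul_sub, norm_mul]
      exact mul_le_mul_of_nonneg_right (hw p hp) (norm_nonneg _)
    have h2 : e s ≤ 2 * μ := by
      simp only [he]
      rw [← hμ, mul_sum]
      apply sum_le_sum
      intro p hp
      have h3 := hin p hp
      rw [mul_comm 2 _]
      apply mul_le_mul_of_nonneg_left _ (by positivity)
      refine (norm_sub_le _ _).trans ?_
      have h4 := psi_le hφ a b (s + Real.log p)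
      have h5 := psiK_le hφ hK (a := a) (b := b) (s := s + Real.log p) (by linarith [hs.1]) (by linarith [hs.2])
      linarith
    have h0 : 0 ≤ e s := (norm_nonneg _).trans h1
    have h3 : ‖D s‖ ≤ ‖DK s‖ + e s := by
      have : D s = DK s + (D s - DK s) := by ring
      calc ‖D s‖ = ‖DK s + (D s - DK s)‖ := by rw [← this]
        _ ≤ ‖DK s‖ + ‖D s - DK s‖ := norm_add_le _ _
        _ ≤ _ := by linarith
    have h4 : ‖D s‖ ^ 2 ≤ (‖DK s‖ + e s) ^ 2 := pow_le_pow_left₀ (norm_nonneg _) h3 2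
    have h5 : e s * e s ≤ 2 * μ * e s := mul_le_mul_of_nonneg_right h2 h0
    nlinarith [sq_nonneg (‖DK s‖ - e s)]
  have hDKi : IntervalIntegrable (fun s => ‖DK s‖ ^ 2) volume c c' := by
    apply Continuous.intervalIntegrable
    have : DK = fun s => ∑ k ∈ FK K, d k * ch k s := by funext s; exact hDKp s
    rw [this]
    exact ((continuous_finsetSum _ fun k _ => continuous_const.mul (ls_ch_cont k)).norm).pow 2
  have hei : IntervalIntegrable e volume c c' := by
    have : IntervalIntegrable (∑ p ∈ T, fun s => 1 / (p : ℝ) * ‖psi φ a b (s + Real.log p) - psiK φ a b K (s + Real.log p)‖)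
        volume c c' := IntervalIntegrable.sum T fun p _ => (hii' _).const_mul _
    refine this.congr ?_
    intro s _
    simp [he]
  have hL : ∫ s in c..c', ‖∑ p ∈ T, w p * φ (s + Real.log p)‖ ^ 2 ≤ ∫ s in c..c', (2 * ‖DK s‖ ^ 2 + 4 * μ * e s) := by
    apply intervalIntegral.integral_mono_on hcc
    · refine ii_bdd (C := μ ^ 2) ?_ ?_ _ _
      · apply Measurable.pow_const
        apply Measurable.norm
        apply Finset.measurable_sum
        intro p _
        exact measurable_const.mul (hm.comp (hadd _))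
      · intro s
        rw [Real.norm_eq_abs, abs_of_nonneg (by positivity)]
        apply pow_le_pow_left₀ (norm_nonneg _)
        refine (norm_sum_le _ _).trans ?_
        rw [← hμ]
        apply sum_le_sum
        intro p hp
        rw [norm_mul]
        calc ‖w p‖ * ‖φ (s + Real.log p)‖ ≤ 1 / p * 1 := mul_le_mul (hw p hp) (hφ _) (norm_nonneg _) (by positivity)
          _ = _ := mul_one _
    · exact (hDKi.const_mul 2).add (hei.const_mul (4 * μ))
    · exact hpt
  refine hL.trans ?_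
  rw [intervalIntegral.integral_add (hDKi.const_mul 2) (hei.const_mul (4 * μ)),
    intervalIntegral.integral_const_mul, intervalIntegral.integral_const_mul]
  have h9 : 4 * μ * ∫ s in c..c', e s ≤ 4 * μ * (μ * E) := mul_le_mul_of_nonneg_left heI (by positivity)
  nlinarith

end Pool.Agent.W41.MU
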