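import Pool.Agent.W41.MU8
import Pool.Agent.H376R2.MR.Sel
import Pool.Agent.H376R2.MR.Pntc

/-! Few large values of Dirichlet polynomials over the primes of a cell. -/

set_option autoImplicit false

namespace Pool.Agent.W41.MU

open Finset Filter Pool.Agent.H376R2.MR

theorem lim_c (H : ℕ) (hH : 1 ≤ H) (c C η' : ℝ) (hη' : 0 < η') :
    Tendsto (fun v : ℕ => (v : ℝ) * (c / ((v : ℝ) / (8 * H) - Real.log 2) +
      (C * Real.exp (-(η' * v))) * (1 + v) ^ 3)) atTop (nhds (8 * H * c)) := by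
  have hHpos : (0 : ℝ) < H := by exact_mod_cast hH
  have h1 := sel_aux_lim H 0 0 hH C η' hη'
  have h2 := sel_aux_lim H 1 0 hH C η' hη'
  have h3 := ((h2.sub h1).const_mul (1 / 2)).add (h1.const_mul (c * H))
  have e : 1 / 2 * ((1 / (H : ℝ) + 4 * (1 : ℕ) / (0 : ℕ)) * (8 * H) + 0 - ((1 / (H : ℝ) + 4 * (0 : ℕ) / (0 : ℕ)) * (8 * H) + 0))
      + c * H * ((1 / (H : ℝ) + 4 * (0 : ℕ) / (0 : ℕ)) * (8 * H) + 0) = 8 * H * c := by
    simp only [Nat.cast_one, Nat.cast_zero, mul_one, div_zero, add_zero, mul_zero]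
    field_simp
    ring
  rw [e] at h3
  refine h3.congr (fun v => ?_)
  simp only [Nat.cast_one, Nat.cast_zero, mul_one, div_zero, add_zero, mul_zero, zero_mul]
  have e2 : c / ((v : ℝ) / (8 * H) - Real.log 2) = c * H * (1 / H / ((v : ℝ) / (8 * H) - Real.log 2)) := by
    rcases eq_or_ne ((v : ℝ) / (8 * H) - Real.log 2) 0 with h0 | h0
    · rw [h0]; simp
    · field_simp
  rw [e2]
  ring

/-- the sieve majorant of the primes of a cell and its twisted sums -/
theorem sel_S (H : ℕ) (hH : 1 ≤ H) {κ : ℝ} (hκ : 0 < κ) : ∃ T₀ : ℕ, 1 ≤ T₀ ∧ ∀ M : ℕ, ∃ v₀ : ℕ,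
    ∀ v : ℕ, v₀ ≤ v → ∃ lam : ℕ → ℝ, (∀ n, 0 ≤ lam n) ∧ (∀ p ∈ cell H v, lam p = 1) ∧
      (∀ k : ℤ, |(k : ℝ)| ≤ Real.exp (M * (v : ℝ) / H) →
        ‖∑ n ∈ nint H v, (lam n : ℂ) * ch k (Real.log n) / (n : ℂ)‖ ≤ 9 / v) ∧
      (∀ k : ℤ, (T₀ : ℝ) ≤ |(k : ℝ)| → |(k : ℝ)| ≤ Real.exp (M * (v : ℝ) / H) →
        ‖∑ n ∈ nint H v, (lam n : ℂ) * ch k (Real.log n) / (n : ℂ)‖ ≤ κ / v) := by
  classical
  have hHpos : (0 : ℝ) < H := by exact_mod_cast hH
  obtain ⟨T₀, hT₀⟩ := exists_nat_gt (16 * H / κ)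
  have hT0pos : (0 : ℝ) < T₀ := lt_trans (by positivity) hT₀
  refine ⟨T₀, by exact_mod_cast hT0pos, fun M => ?_⟩
  obtain ⟨η', C, hη', hC, hprog⟩ := prog_sum M H hH
  have hlimA := lim_c H hH (1 / H) C η' hη'
  have hlimB := lim_c H hH (2 / T₀) C η' hη'
  have hvalA : 8 * (H : ℝ) * (1 / H) < 9 := by
    have : 8 * (H : ℝ) * (1 / H) = 8 := by field_simp
    rw [this]; norm_num
  have hvalB : 8 * (H : ℝ) * (2 / T₀) < κ := by
    rw [div_lt_iff₀ hκ] at hT₀
    have : 8 * (H : ℝ) * (2 / T₀) = 16 * H / T₀ := by ring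
    rw [this, div_lt_iff₀ hT0pos]
    linarith
  have hevA := hlimA.eventually (gt_mem_nhds hvalA)
  have hevB := hlimB.eventually (gt_mem_nhds hvalB)
  have hev3 : ∀ᶠ v : ℕ in atTop, (2 : ℝ) ≤ Real.exp ((v : ℝ) / (8 * H)) := by
    have h1 : Tendsto (fun v : ℕ => Real.exp ((v : ℝ) / (8 * H))) atTop atTop :=
      Real.tendsto_exp_atTop.comp (tendsto_natCast_atTop_atTop.atTop_div_const (by positivity))
    exact h1.eventually_ge_atTop _
  have hev4 : ∀ᶠ v : ℕ in atTop, (1 : ℝ) ≤ (v : ℝ) / (8 * H) - Real.log 2 := by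
    have h1 : Tendsto (fun v : ℕ => (v : ℝ) / (8 * H) - Real.log 2) atTop atTop :=
      tendsto_atTop_add_const_right _ _
        (tendsto_natCast_atTop_atTop.atTop_div_const (by positivity))
    exact h1.eventually_ge_atTop _
  obtain ⟨v₀, hv₀⟩ := eventually_atTop.1 (hevA.and (hevB.and (hev3.and (hev4.and
    (eventually_ge_atTop 1)))))
  refine ⟨v₀, fun v hv => ?_⟩
  obtain ⟨h1, h2, h3, h4, h5⟩ := hv₀ v hv
  have hv1 : (1 : ℝ) ≤ v := by exact_mod_cast h5
  have hvpos : (0 : ℝ) < v := by linarith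
  set D : ℕ := ⌊Real.exp ((v : ℝ) / (8 * H))⌋₊ with hD
  have hD2 : 2 ≤ D := by
    rw [hD]
    exact Nat.le_floor (by exact_mod_cast h3)
  have hDle : (D : ℝ) ≤ Real.exp ((v : ℝ) / (8 * H)) := Nat.floor_le (Real.exp_pos _).le
  have hDge : Real.exp ((v : ℝ) / (8 * H)) / 2 ≤ D := by
    have := Nat.lt_floor_add_one (Real.exp ((v : ℝ) / (8 * H)))
    rw [← hD] at this
    linarith
  have hlogD1 : (v : ℝ) / (8 * H) - Real.log 2 ≤ Real.log D := by
    have h6 := Real.log_le_log (by positivity) hDge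
    rwa [Real.log_div (Real.exp_pos _).ne' (by norm_num), Real.log_exp] at h6
  have hDpos : (0 : ℝ) < D := by
    have : 0 < D := by omega
    exact_mod_cast this
  have hlogD2 : Real.log D ≤ v := by
    have h6 := Real.log_le_log hDpos hDle
    rw [Real.log_exp] at h6
    refine le_trans h6 ?_
    refine div_le_self hvpos.le ?_
    have : (1 : ℝ) ≤ H := by exact_mod_cast hH
    linarith
  have hlogDpos : 0 ≤ Real.log D := by linarith
  obtain ⟨l, hl1, hl, hlD, hl0, hSel0, hSel1⟩ := sel_weights D hD2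
  have hcell : ∀ p ∈ cell H v, D < p := by
    intro p hp
    unfold cell at hp
    rw [Finset.mem_filter] at hp
    have hp0 : (0 : ℝ) < p := by exact_mod_cast hp.2.1.pos
    have h6 := (Real.le_log_iff_exp_le hp0).1 hp.2.2.1
    have h7 : Real.exp ((v : ℝ) / (8 * H)) < Real.exp ((v : ℝ) / H) := by
      rw [Real.exp_lt_exp]
      refine div_lt_div_of_pos_left hvpos hHpos ?_
      linarith
    have h8 : (D : ℝ) < p := by linarith
    exact_mod_cast h8
  refine ⟨fun n => (∑ d ∈ Icc 1 D, if d ∣ n then l d else 0) ^ 2, fun n => sq_nonneg _, ?_, ?_⟩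
  · intro p hp
    have hpp : p.Prime := by
      unfold cell at hp
      rw [Finset.mem_filter] at hp
      exact hp.2.1
    have h2 : (∑ d ∈ Icc 1 D, if d ∣ p then l d else 0) = 1 := by
      rw [Finset.sum_eq_single 1]
      · simp [hl1]
      · intro d hd hd1
        rw [Finset.mem_Icc] at hd
        have hnd : ¬ d ∣ p := by
          intro hdp
          rcases (Nat.dvd_prime hpp).1 hdp with h | h
          · exact hd1 h
          · have := hcell p hp
            omega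
        rw [if_neg hnd]
      · intro h
        exact absurd (Finset.mem_Icc.2 ⟨le_refl 1, by omega⟩) h
    simp only
    rw [h2]
    ring
  -- the general bound
  set I : ℤ → ℂ := fun k => ∫ s in ((v : ℝ) / H)..(((v : ℝ) + 1) / H), er (-(k : ℝ)) s with hIdef
  set E : ℝ := C * Real.exp (-(η' * v)) with hEdef
  have hE0 : 0 ≤ E := by positivity
  set Q : ℝ := ∑ d ∈ Icc 1 D, ∑ e ∈ Icc 1 D, l d * l e / (Nat.lcm d e : ℝ) with hQ
  have hgen : ∀ k : ℤ, |(k : ℝ)| ≤ Real.exp (M * (v : ℝ) / H) →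
      ‖∑ n ∈ nint H v, (((∑ d ∈ Icc 1 D, if d ∣ n then l d else 0) ^ 2 : ℝ) : ℂ) * ch k (Real.log n) / (n : ℂ)‖
        ≤ ‖I k‖ * Q + E * (1 + v) ^ 3 := by
    intro k hk
    set X : ℕ → ℂ := fun q => ∑ n ∈ (nint H v).filter (fun n => q ∣ n), er (-(k : ℝ)) (Real.log n) / (n : ℂ) with hX
    have hstep2 : ∑ n ∈ nint H v, (((∑ d ∈ Icc 1 D, if d ∣ n then l d else 0) ^ 2 : ℝ) : ℂ) * ch k (Real.log n) / (n : ℂ) =
        ∑ d ∈ Icc 1 D, ∑ e ∈ Icc 1 D, ((l d * l e : ℝ) : ℂ) * X (Nat.lcm d e) := by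
      have h1 : ∀ n ∈ nint H v, (((∑ d ∈ Icc 1 D, if d ∣ n then l d else 0) ^ 2 : ℝ) : ℂ) * ch k (Real.log n) / (n : ℂ)
          = ∑ d ∈ Icc 1 D, ∑ e ∈ Icc 1 D,
            ((l d * l e : ℝ) : ℂ) * (if Nat.lcm d e ∣ n then er (-(k : ℝ)) (Real.log n) / (n : ℂ) else 0) := by
        intro n _
        rw [kern_ch_er, mul_div_assoc, sq, Finset.sum_mul_sum, Complex.ofReal_sum, Finset.sum_mul]
        refine Finset.sum_congr rfl (fun d _ => ?_)
        rw [Complex.ofReal_sum, Finset.sum_mul]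
        refine Finset.sum_congr rfl (fun e _ => ?_)
        by_cases h1 : d ∣ n
        · by_cases h2 : e ∣ n
          · rw [if_pos h1, if_pos h2, if_pos (Nat.lcm_dvd h1 h2)]
          · have h3 : ¬ Nat.lcm d e ∣ n := fun h => h2 (dvd_trans (Nat.dvd_lcm_right d e) h)
            rw [if_neg h2, if_neg h3]
            simp
        · have h3 : ¬ Nat.lcm d e ∣ n := fun h => h1 (dvd_trans (Nat.dvd_lcm_left d e) h)
          rw [if_neg h1, if_neg h3]
          simp
      rw [Finset.sum_congr rfl h1, Finset.sum_comm]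
      refine Finset.sum_congr rfl (fun d _ => ?_)
      rw [Finset.sum_comm]
      refine Finset.sum_congr rfl (fun e _ => ?_)
      rw [← Finset.mul_sum, ← Finset.sum_filter]
    rw [hstep2]
    have hXe : ∀ q : ℕ, 1 ≤ q → q ≤ D ^ 2 → ‖X q - (1 / (q : ℂ)) * I k‖ ≤ E / q := by
      intro q hq1 hq2
      refine hprog v q _ h5 hq1 ?_ ?_
      · have h6 : (q : ℝ) ≤ (D : ℝ) ^ 2 := by exact_mod_cast hq2
        refine le_trans h6 ?_
        refine le_trans (pow_le_pow_left₀ hDpos.le hDle 2) ?_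
        rw [← Real.exp_nat_mul]
        rw [Real.exp_le_exp]
        push_cast
        apply le_of_eq
        field_simp
        ring
      · rw [abs_neg]; exact hk
    have hsplit : ∑ d ∈ Icc 1 D, ∑ e ∈ Icc 1 D, ((l d * l e : ℝ) : ℂ) * X (Nat.lcm d e)
        = (Q : ℂ) * I k + ∑ d ∈ Icc 1 D, ∑ e ∈ Icc 1 D, ((l d * l e : ℝ) : ℂ)
          * (X (Nat.lcm d e) - (1 / ((Nat.lcm d e : ℕ) : ℂ)) * I k) := by
      rw [hQ, Complex.ofReal_sum, Finset.sum_mul, ← Finset.sum_add_distrib]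
      refine Finset.sum_congr rfl (fun d _ => ?_)
      rw [Complex.ofReal_sum, Finset.sum_mul, ← Finset.sum_add_distrib]
      refine Finset.sum_congr rfl (fun e _ => ?_)
      push_cast
      ring
    rw [hsplit]
    refine (norm_add_le _ _).trans ?_
    apply add_le_add
    · rw [norm_mul, Complex.norm_real, Real.norm_eq_abs, abs_of_nonneg hSel0, mul_comm]
    · have h6 : ‖∑ d ∈ Icc 1 D, ∑ e ∈ Icc 1 D, ((l d * l e : ℝ) : ℂ)
          * (X (Nat.lcm d e) - (1 / ((Nat.lcm d e : ℕ) : ℂ)) * I k)‖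
          ≤ ∑ d ∈ Icc 1 D, ∑ e ∈ Icc 1 D, E * (1 / (Nat.lcm d e : ℝ)) := by
        refine (norm_sum_le _ _).trans (sum_le_sum fun d hd => ?_)
        refine (norm_sum_le _ _).trans (sum_le_sum fun e he => ?_)
        rw [Finset.mem_Icc] at hd he
        have hq1 : 1 ≤ Nat.lcm d e := Nat.lcm_pos (by omega) (by omega)
        have hq2 : Nat.lcm d e ≤ D ^ 2 := by
          refine le_trans (Nat.lcm_le_mul (by omega) (by omega)) ?_
          rw [sq]
          exact Nat.mul_le_mul hd.2 he.2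
        have h7 := hXe _ hq1 hq2
        have h8 : |l d * l e| ≤ 1 := by
          rw [abs_mul]
          exact mul_le_one₀ (hl d) (abs_nonneg _) (hl e)
        rw [norm_mul, Complex.norm_real, Real.norm_eq_abs]
        calc |l d * l e| * ‖X (Nat.lcm d e) - (1 / ((Nat.lcm d e : ℕ) : ℂ)) * I k‖
            ≤ 1 * (E / (Nat.lcm d e : ℝ)) := mul_le_mul h8 h7 (norm_nonneg _) (by norm_num)
          _ = _ := by ring
      refine h6.trans ?_
      have h9 : ∑ d ∈ Icc 1 D, ∑ e ∈ Icc 1 D, E * (1 / (Nat.lcm d e : ℝ))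
          = E * ∑ d ∈ Icc 1 D, ∑ e ∈ Icc 1 D, 1 / (Nat.lcm d e : ℝ) := by
        rw [Finset.mul_sum]
        refine Finset.sum_congr rfl (fun d _ => ?_)
        rw [Finset.mul_sum]
      rw [h9]
      apply mul_le_mul_of_nonneg_left _ hE0
      refine (sel_aux_lcm D).trans ?_
      exact pow_le_pow_left₀ (by linarith) (by linarith) 3
  have hQ2 : Q ≤ 1 / ((v : ℝ) / (8 * H) - Real.log 2) := by
    refine le_trans hSel1 ?_
    exact div_le_div_of_nonneg_left zero_le_one (by linarith) hlogD1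
  refine ⟨fun k hk => ?_, fun k hk1 hk => ?_⟩
  · refine (hgen k hk).trans ?_
    have hI : ‖I k‖ ≤ 1 / H := by
      have h6 : ‖∫ s in ((v : ℝ) / H)..(((v : ℝ) + 1) / H), er (-(k : ℝ)) s‖ ≤
          1 * |(((v : ℝ) + 1) / H) - ((v : ℝ) / H)| := by
        refine intervalIntegral.norm_integral_le_of_norm_le_const (fun s _ => ?_)
        rw [sel_aux_er_norm]
      have h7 : (((v : ℝ) + 1) / H) - ((v : ℝ) / H) = 1 / H := by ring
      rwa [h7, abs_of_pos (by positivity), one_mul] at h6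
    have h8 : ‖I k‖ * Q ≤ 1 / H * (1 / ((v : ℝ) / (8 * H) - Real.log 2)) :=
      mul_le_mul hI hQ2 hSel0 (by positivity)
    rw [le_div_iff₀ hvpos]
    have h9 := h1.le
    have e9 : (1 / (H : ℝ)) / ((v : ℝ) / (8 * H) - Real.log 2) = 1 / H * (1 / ((v : ℝ) / (8 * H) - Real.log 2)) := by
      ring
    rw [e9] at h9
    calc (‖I k‖ * Q + E * (1 + v) ^ 3) * v
        ≤ (1 / H * (1 / ((v : ℝ) / (8 * H) - Real.log 2)) + E * (1 + v) ^ 3) * v :=
          mul_le_mul_of_nonneg_right (by linarith) hvpos.le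
      _ = v * (1 / H * (1 / ((v : ℝ) / (8 * H) - Real.log 2)) + (C * Real.exp (-(η' * v))) * (1 + v) ^ 3) := by
          rw [hEdef]; ring
      _ ≤ 9 := h9
  · refine (hgen k hk).trans ?_
    have hI : ‖I k‖ ≤ 2 / T₀ := by
      have hk0 : (-(k : ℝ)) ≠ 0 := by
        intro h
        have : (k : ℝ) = 0 := by linarith
        rw [this, abs_zero] at hk1
        linarith
      refine le_trans (sel_aux_int _ _ _ hk0) ?_
      rw [abs_neg]
      exact div_le_div_of_nonneg_left (by norm_num) hT0pos hk1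
    have h8 : ‖I k‖ * Q ≤ 2 / T₀ * (1 / ((v : ℝ) / (8 * H) - Real.log 2)) :=
      mul_le_mul hI hQ2 hSel0 (by positivity)
    rw [le_div_iff₀ hvpos]
    have h9 := h2.le
    have e9 : (2 / (T₀ : ℝ)) / ((v : ℝ) / (8 * H) - Real.log 2) = 2 / T₀ * (1 / ((v : ℝ) / (8 * H) - Real.log 2)) := by
      ring
    rw [e9] at h9
    calc (‖I k‖ * Q + E * (1 + v) ^ 3) * v
        ≤ (2 / T₀ * (1 / ((v : ℝ) / (8 * H) - Real.log 2)) + E * (1 + v) ^ 3) * v :=
          mul_le_mul_of_nonneg_right (by linarith) hvpos.le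
      _ = v * (2 / T₀ * (1 / ((v : ℝ) / (8 * H) - Real.log 2)) + (C * Real.exp (-(η' * v))) * (1 + v) ^ 3) := by
          rw [hEdef]; ring
      _ ≤ κ := h9

end Pool.Agent.W41.MU
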